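import Pool.Agent.H61.Rc.R2

/-! # R3: the inverse of the clock

`g m = osd (max (-1/4) (min (1/4) m))` is continuous with values in `[.7, .8]`;
`G m = ∫_0^m g` is a strictly increasing `C¹` bijection of `ℝ`, equal to `os` on `[-1/4, 1/4]`
(`os 0 = 0`); `ms = G⁻¹` has the derivative `1/g (ms s)` everywhere (`HasDerivAt.of_local_left_inverse`
or `HasStrictDerivAt`; as in Rn/N3.lean, where the inverse of the clock `φ` is made in this way).
`ms (π/24) = m1` as `os m1 = π/24`, `0 < m1 < 1/4`; monotone, so `|ms s| ≤ m1` for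
`|s| ≤ π/24`. -/

set_option autoImplicit false

namespace Pool.H61.Rh

open Complex

/-- the parameter `m` as a function of the angle `s` -/
structure Ms (ms : ℝ → ℝ) : Prop where
  mem : ∀ s, |s| ≤ Real.pi / 24 → |ms s| ≤ m1
  os_ms : ∀ s, |s| ≤ Real.pi / 24 → os (ms s) = s
  ms_os : ∀ m, |m| ≤ m1 → ms (os m) = m
  hd : ∀ s, |s| ≤ Real.pi / 24 → HasDerivAt ms (1 / osd (ms s)) s
  hi : ms (Real.pi / 24) = m1
  lo : ms (-(Real.pi / 24)) = -m1
  neg : ∀ s, |s| ≤ Real.pi / 24 → ms (-s) = -ms s

theorem R3_clamp (m : ℝ) : |max (-1 / 4) (min (1 / 4) m)| ≤ (1 / 4 : ℝ) := by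
  rw [abs_le]
  constructor
  · have : (-1 / 4 : ℝ) ≤ max (-1 / 4) (min (1 / 4) m) := le_max_left _ _
    linarith
  · exact max_le (by norm_num) (min_le_left _ _)

theorem R3_clamp_eq {m : ℝ} (hm : |m| ≤ 1 / 4) : max (-1 / 4) (min (1 / 4) m) = m := by
  rw [abs_le] at hm
  rw [min_eq_right hm.2, max_eq_right (by linarith [hm.1])]

theorem exists_ms : ∃ ms : ℝ → ℝ, Ms ms := by
  set g : ℝ → ℝ := fun m => osd (max (-1 / 4) (min (1 / 4) m)) with hg
  have hgc : Continuous g :=
    osd_continuous.comp (continuous_const.max (continuous_const.min continuous_id))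
  have hgb : ∀ m, 7 / 10 ≤ g m ∧ g m ≤ 8 / 10 := fun m => osd_bounds (R3_clamp m)
  set G : ℝ → ℝ := fun m => ∫ t in (0 : ℝ)..m, g t with hG
  have dG : ∀ m, HasDerivAt G (g m) m := fun m =>
    intervalIntegral.integral_hasDerivAt_right (hgc.intervalIntegrable _ _)
      (hgc.stronglyMeasurableAtFilter _ _) hgc.continuousAt
  have slope : ∀ x z, x < z → 7 / 10 * (z - x) ≤ G z - G x := by
    intro x z hxz
    obtain ⟨c, -, hc⟩ := exists_hasDerivAt_eq_slope G g hxz
      (fun t _ => (dG t).continuousAt.continuousWithinAt) (fun t _ => dG t)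
    have hpos : 0 < z - x := sub_pos.mpr hxz
    have h1 : G z - G x = g c * (z - x) := by
      rw [hc]; field_simp
    rw [h1]
    exact mul_le_mul_of_nonneg_right (hgb c).1 hpos.le
  have hmono : StrictMono G := by
    intro x z hxz
    have := slope x z hxz
    have hpos : 0 < z - x := sub_pos.mpr hxz
    linarith
  have hcont : Continuous G := continuous_iff_continuousAt.mpr fun τ => (dG τ).continuousAt
  have htop : Filter.Tendsto G Filter.atTop Filter.atTop := by
    have h1 : Filter.Tendsto (fun τ : ℝ => G 0 + 7 / 10 * τ) Filter.atTop Filter.atTop :=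
      Filter.tendsto_atTop_add_const_left _ _
        (Filter.tendsto_id.const_mul_atTop (by norm_num))
    refine Filter.tendsto_atTop_mono' _ ?_ h1
    filter_upwards [Filter.eventually_gt_atTop (0 : ℝ)] with τ hτ
    have := slope 0 τ hτ
    linarith
  have hbot : Filter.Tendsto G Filter.atBot Filter.atBot := by
    have h1 : Filter.Tendsto (fun τ : ℝ => G 0 + 7 / 10 * τ) Filter.atBot Filter.atBot :=
      Filter.tendsto_atBot_add_const_left _ _
        (Filter.tendsto_id.const_mul_atBot (by norm_num))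
    refine Filter.tendsto_atBot_mono' _ ?_ h1
    filter_upwards [Filter.eventually_lt_atBot (0 : ℝ)] with τ hτ
    have := slope τ 0 hτ
    linarith
  have hsurj : Function.Surjective G := hcont.surjective htop hbot
  let e : ℝ ≃o ℝ := hmono.orderIsoOfSurjective G hsurj
  have hps : ∀ s, G (e.symm s) = s := fun s => e.apply_symm_apply s
  have hsp : ∀ τ, e.symm (G τ) = τ := fun τ => e.symm_apply_apply τ
  -- `G` is the clock on `[-1/4, 1/4]`
  have hos0 : os 0 = 0 := by
    have h := os_neg 0
    rw [neg_zero] at h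
    linarith
  have hG0 : G 0 = 0 := intervalIntegral.integral_same
  have hGos : ∀ m, |m| ≤ 1 / 4 → G m = os m := by
    intro m hm
    have key := Convex.norm_image_sub_le_of_norm_hasDerivWithin_le
      (f := fun t => G t - os t) (f' := fun t => g t - osd t) (C := 0)
      (s := Set.Icc (-1 / 4 : ℝ) (1 / 4)) (x := 0) (y := m)
      (fun t ht => ((dG t).sub (os_hasDerivAt (abs_le.2
        ⟨by linarith [ht.1], ht.2⟩))).hasDerivWithinAt)
      (fun t ht => by
        have h1 : g t = osd t := by
          show osd (max (-1 / 4) (min (1 / 4) t)) = osd t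
          rw [R3_clamp_eq (abs_le.2 ⟨by linarith [ht.1], ht.2⟩)]
        show ‖g t - osd t‖ ≤ 0
        rw [h1, sub_self, norm_zero])
      (convex_Icc _ _) ⟨by norm_num, by norm_num⟩
      ⟨by linarith [(abs_le.1 hm).1], (abs_le.1 hm).2⟩
    rw [zero_mul] at key
    have h2 := norm_le_zero_iff.1 key
    rw [hG0, hos0] at h2
    linarith
  obtain ⟨hl, hu⟩ := m1_bounds
  have hm1 : |m1| ≤ 1 / 4 := abs_le.2 ⟨by linarith, by linarith⟩
  have hG1 : G m1 = Real.pi / 24 := by rw [hGos m1 hm1, os_m1]
  have hG2 : G (-m1) = -(Real.pi / 24) := by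
    rw [hGos (-m1) (by rw [abs_neg]; exact hm1), os_neg, os_m1]
  have hhi : e.symm (Real.pi / 24) = m1 := by rw [← hG1, hsp]
  have hlo : e.symm (-(Real.pi / 24)) = -m1 := by rw [← hG2, hsp]
  have hmem : ∀ s, |s| ≤ Real.pi / 24 → |e.symm s| ≤ m1 := by
    intro s hs
    rw [abs_le] at hs ⊢
    constructor
    · rw [← hlo]
      exact e.symm.monotone hs.1
    · rw [← hhi]
      exact e.symm.monotone hs.2
  have hmem' : ∀ s, |s| ≤ Real.pi / 24 → |e.symm s| ≤ 1 / 4 := fun s hs =>
    (hmem s hs).trans (by linarith)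
  have hosms : ∀ s, |s| ≤ Real.pi / 24 → os (e.symm s) = s := by
    intro s hs
    rw [← hGos _ (hmem' s hs), hps]
  refine ⟨e.symm, hmem, hosms, ?_, ?_, hhi, hlo, ?_⟩
  · intro m hm
    rw [← hGos m (hm.trans (by linarith)), hsp]
  · intro s hs
    have hb := hgb (e.symm s)
    have hne : g (e.symm s) ≠ 0 := by
      have : 0 < g (e.symm s) := by linarith [hb.1]
      exact this.ne'
    have h1 := HasDerivAt.of_local_left_inverse (e.symm.continuous.continuousAt (x := s))
      (dG (e.symm s)) hne (Filter.Eventually.of_forall hps)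
    have h2 : g (e.symm s) = osd (e.symm s) := by
      show osd (max (-1 / 4) (min (1 / 4) (e.symm s))) = osd (e.symm s)
      rw [R3_clamp_eq (hmem' s hs)]
    rw [h2] at h1
    rw [one_div]
    exact h1
  · intro s hs
    apply hmono.injective
    rw [hps, hGos (-e.symm s) (by rw [abs_neg]; exact hmem' s hs), os_neg, hosms s hs]

end Pool.H61.Rh
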