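import Pool.Agent.H61.Rc.R2

/-! # R5a: the two ends of the arc

`kp cosh m1 = (2+√2)/2`, `kp sinh m1 = (2-√2)/2`.
`oy_match`: `oy (-m) = conj (oy m)`; with `S1 = 2 kp cosh m1 - 1 = 1 + √2`,
`oy m1 = ((√2/2 - 1) + i √3 (2-√2)/2)/(1+√2) = (2-√2)/(2(1+√2)) (-1 + i√3) `, i.e. a positive
multiple of `ω = uu 1`; so `ω · oy m1 = r ω² = r conj ω = conj (oy m1) = oy (-m1)`.
`ov_match`: `ov (-m) = conj (ov m)` (`oa (-m) = -conj (oa m)`, `ob (-m) = -conj (ob m)`), and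
`ov m1` is a real multiple of `ω`: `kp oa m1/oC = cA (2-√2)/2 - i (2√2 cB - sA (2+√2)/2)`,
a multiple of `-i e^{iπ/24}` (`os_m1`, `es_oa`), and `kp ob m1/oC = -sB (2-√2)/2
- i (2√2 sA - cB (2+√2)/2)`, a negative multiple of `i e^{-7πi/24} = e^{5πi/24} = cA + i sA`:
`sB (2-√2)/2 · sA = cA (2√2 sA - cB (2+√2)/2)` by `cA_eq, sA_eq, cB_sB`; so
`b/a` is a multiple of `e^{5πi/24} i e^{-iπ/24} = e^{2πi/3}`.
`Bf_match`, `Bd_match`: `Bf = es² v`, `Bd = fs es² bp` (elementary identities, see below), and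
`fs`, `bp` are equivariant: `fs (ω y) (ω v) = fs y v`, `bp (ω y) (ω v) = ω bp y v`;
`es (oa m1) = e^{iπ/24}`, `es (oa (-m1)) = e^{-iπ/24}`;
`e^{iπ/12} = -i ω e^{-iπ/12}`, since `ω = e^{2πi/3}`, `e^{iπ/6} = e^{2πi/3} e^{-iπ/2}`. -/

set_option autoImplicit false

namespace Pool.H61.Rh

open Complex

private lemma R5a_pos {a b : ℂ} (h : normSq a - normSq b = 1) :
    0 < ‖a‖ ∧ a ≠ 0 ∧ ‖a‖ ^ 2 = 1 + normSq b := by
  have h1 : ‖a‖ ^ 2 = normSq a := (normSq_eq_norm_sq a).symm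
  have h2 := normSq_nonneg b
  have h3 : 0 < normSq a := by linarith
  have h4 : a ≠ 0 := normSq_pos.1 h3
  exact ⟨norm_pos_iff.2 h4, h4, by rw [h1]; linarith⟩

private lemma R5a_normSq_vf {a b : ℂ} (h : normSq a - normSq b = 1) :
    normSq (vf a b) = normSq b := by
  obtain ⟨-, h2, -⟩ := R5a_pos h
  have h4 : normSq a ≠ 0 := (normSq_pos.2 h2).ne'
  unfold vf
  rw [normSq_neg, normSq_div, normSq_mul, normSq_ofReal, ← pow_two, ← normSq_eq_norm_sq]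
  field_simp

private lemma R5a_sqrt_vf {a b : ℂ} (h : normSq a - normSq b = 1) :
    Real.sqrt (1 + normSq (vf a b)) = ‖a‖ := by
  obtain ⟨h1, -, h3⟩ := R5a_pos h
  rw [R5a_normSq_vf h, ← h3]
  exact Real.sqrt_sq h1.le

private lemma R5a_dt_vf {a b : ℂ} (y : ℂ) (h : normSq a - normSq b = 1) :
    dt y (vf a b) = - (dt (y * a) b / ‖a‖) := by
  obtain ⟨h1, h2, -⟩ := R5a_pos h
  have e : (starRingEnd ℂ) y * vf a b =
      ((-(1 / ‖a‖) : ℝ) : ℂ) * ((starRingEnd ℂ) (y * a) * b) := by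
    have h4 : a * (starRingEnd ℂ) a = ((‖a‖ : ℝ) : ℂ) ^ 2 := by
      rw [mul_conj, normSq_eq_norm_sq]
      push_cast
      rfl
    have h5 : ((‖a‖ : ℝ) : ℂ) ≠ 0 := ofReal_ne_zero.2 h1.ne'
    unfold vf
    rw [map_mul]
    push_cast
    field_simp
    linear_combination (b * (starRingEnd ℂ) y) * h4
  rw [dt_eq_re, e, re_ofReal_mul, ← dt_eq_re]
  ring

theorem fq_eq_fs {a b : ℂ} (y : ℂ) (h : normSq a - normSq b = 1) : fq a b y = fs y (vf a b) := by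
  obtain ⟨h1, -, -⟩ := R5a_pos h
  unfold fq fs
  rw [R5a_sqrt_vf h, R5a_dt_vf y h, normSq_eq_norm_sq]
  field_simp
  ring

theorem Bf_eq {a b : ℂ} (h : normSq a - normSq b = 1) : Bf a b = es a ^ 2 * vf a b := by
  obtain ⟨h1, h2, -⟩ := R5a_pos h
  have h5 : ((‖a‖ : ℝ) : ℂ) ≠ 0 := ofReal_ne_zero.2 h1.ne'
  unfold Bf es vf
  field_simp
  rw [I_sq]
  ring

private lemma R5a_dt_lt (y v : ℂ) (hy : ‖y‖ < 1) : 0 < Real.sqrt (1 + normSq v) + dt y v := by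
  have h1 : |dt y v| ≤ ‖y‖ * ‖v‖ := by
    rw [dt_eq_re]
    refine le_trans (abs_re_le_norm _) ?_
    rw [norm_mul, norm_conj]
  have h2 : ‖v‖ < Real.sqrt (1 + normSq v) := by
    apply Real.lt_sqrt_of_sq_lt
    rw [normSq_eq_norm_sq]
    linarith
  have h3 : ‖y‖ * ‖v‖ ≤ 1 * ‖v‖ := mul_le_mul_of_nonneg_right hy.le (norm_nonneg v)
  have h4 := neg_abs_le (dt y v)
  linarith

private lemma R5a_fs_pos (y v : ℂ) (hy : ‖y‖ < 1) : 0 < fs y v := by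
  have h1 := R5a_dt_lt y v hy
  have h2 : 0 < Real.sqrt (1 + normSq v) :=
    Real.sqrt_pos.2 (by have := normSq_nonneg v; linarith)
  unfold fs
  have h3 : 1 + dt y v / Real.sqrt (1 + normSq v) =
      (Real.sqrt (1 + normSq v) + dt y v) / Real.sqrt (1 + normSq v) := by
    field_simp
  rw [h3]
  exact div_pos h1 h2

theorem Bd_eq {a b : ℂ} (y : ℂ) (h : normSq a - normSq b = 1) (hy : ‖y‖ < 1) :
    Bd a b y = (fs y (vf a b) : ℂ) * (es a ^ 2 * bp y (vf a b)) := by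
  obtain ⟨h1, h2, h3⟩ := R5a_pos h
  have h5 : ((‖a‖ : ℝ) : ℂ) ≠ 0 := ofReal_ne_zero.2 h1.ne'
  have h6 := R5a_dt_lt y (vf a b) hy
  have h7 : fs y (vf a b) = 1 + dt y (vf a b) / ‖a‖ := by
    unfold fs
    rw [R5a_sqrt_vf h]
  have h8 : bp y (vf a b) = -I * (((‖a‖ ^ 2 : ℝ) : ℂ) * y - ((dt y (vf a b) : ℝ) : ℂ) * vf a b) /
      ((‖a‖ + dt y (vf a b) : ℝ) : ℂ) := by
    unfold bp
    rw [R5a_sqrt_vf h, R5a_normSq_vf h, ← h3]
  rw [R5a_sqrt_vf h] at h6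
  unfold Bd
  rw [fq_eq_fs y h, h8, h7]
  obtain ⟨D, hD⟩ : ∃ D : ℝ, D = dt y (vf a b) := ⟨_, rfl⟩
  rw [← hD] at h6 ⊢
  have h9 : ((‖a‖ : ℝ) : ℂ) + ((D : ℝ) : ℂ) ≠ 0 := by
    rw [← ofReal_add]
    exact ofReal_ne_zero.2 h6.ne'
  unfold es vf
  push_cast
  have e1 : (1 : ℂ) + (D : ℂ) / (‖a‖ : ℂ) = ((‖a‖ : ℂ) + D) / (‖a‖ : ℂ) := by
    field_simp
  have e2 : (1 : ℂ) - (1 + (D : ℂ) / (‖a‖ : ℂ)) = - ((D : ℂ) / (‖a‖ : ℂ)) := by ring
  rw [e2, e1]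
  have e3 : ((‖a‖ : ℂ) + D) / (‖a‖ : ℂ) * ((I * a / (‖a‖ : ℂ)) ^ 2 *
      (-I * ((‖a‖ : ℂ) ^ 2 * y - (D : ℂ) * -((‖a‖ : ℂ) * b / a)) / ((‖a‖ : ℂ) + D))) =
      ((((‖a‖ : ℂ) + D) / ((‖a‖ : ℂ) + D)) * (1 / (‖a‖ : ℂ) * ((I * a / (‖a‖ : ℂ)) ^ 2 *
      (-I * ((‖a‖ : ℂ) ^ 2 * y - (D : ℂ) * -((‖a‖ : ℂ) * b / a)))))) := by ring
  rw [e3, div_self h9, one_mul]
  field_simp
  have hI : I ^ 2 = -1 := I_sq
  linear_combination (a * y * (‖a‖ : ℂ) + b * D) * hI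

private lemma R5a_uu1 : uu 1 = ⟨-1 / 2, s3 / 2⟩ := rfl

private lemma R5a_uu1_normSq : normSq (uu 1) = 1 := by
  have := s3_mul
  rw [R5a_uu1, normSq_apply]
  nlinarith

private lemma R5a_dt_rot (y v : ℂ) : dt (uu 1 * y) (uu 1 * v) = dt y v := by
  have e : (starRingEnd ℂ) (uu 1 * y) * (uu 1 * v) = (normSq (uu 1) : ℂ) *
      ((starRingEnd ℂ) y * v) := by
    rw [map_mul, normSq_eq_conj_mul_self]
    ring
  rw [dt_eq_re, e, R5a_uu1_normSq, ofReal_one, one_mul, ← dt_eq_re]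

theorem fs_rot (y v : ℂ) : fs (uu 1 * y) (uu 1 * v) = fs y v := by
  unfold fs
  rw [R5a_dt_rot, normSq_mul, R5a_uu1_normSq, one_mul]

theorem bp_rot (y v : ℂ) : bp (uu 1 * y) (uu 1 * v) = uu 1 * bp y v := by
  unfold bp
  rw [R5a_dt_rot, normSq_mul, R5a_uu1_normSq, one_mul]
  ring

private lemma R5a_sqrt2 : Real.sqrt 2 ^ 2 = 2 := Real.sq_sqrt (by norm_num)

theorem oy_match : oy (-m1) = uu 1 * oy m1 := by
  have hc := kp_mul_cosh_m1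
  have hs := kp_mul_sinh_m1
  have ht := R5a_sqrt2
  have ht0 : 0 ≤ Real.sqrt 2 := Real.sqrt_nonneg 2
  have hu := s3_sq
  have hc2 : 2 * kp * Real.cosh m1 - 1 = 1 + Real.sqrt 2 := by linarith
  have hne : (1 + Real.sqrt 2 : ℝ) ≠ 0 := by linarith
  have hs3 : s3 * kp * Real.sinh m1 = s3 * ((2 - Real.sqrt 2) / 2) := by
    rw [mul_assoc, hs]
  unfold oy
  rw [Real.cosh_neg, Real.sinh_neg, hc2, hc]
  have hs3' : s3 * kp * -Real.sinh m1 = -(s3 * ((2 - Real.sqrt 2) / 2)) := by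
    rw [mul_neg, hs3]
  rw [hs3, hs3', R5a_uu1]
  apply Complex.ext
  · simp only [mul_re]
    field_simp
    linear_combination (2 - Real.sqrt 2) * hu
  · simp only [mul_im]
    field_simp
    ring

private lemma R5a_oa_ne (m : ℝ) : oa m ≠ 0 := (R5a_pos (oa_normSq m)).2.1

private lemma R5a_ov_neg (m : ℝ) : ov (-m) = (starRingEnd ℂ) (ov m) := by
  have e1 : oa (-m) = - (starRingEnd ℂ) (oa m) := by
    unfold oa
    rw [Real.cosh_neg, Real.sinh_neg]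
    apply Complex.ext
    · simp
    · simp
  have e2 : ob (-m) = - (starRingEnd ℂ) (ob m) := by
    unfold ob
    rw [Real.cosh_neg, Real.sinh_neg]
    apply Complex.ext
    · simp
    · simp
  unfold ov vf
  rw [e1, e2, norm_neg, norm_conj, map_neg, map_div₀, map_mul, conj_ofReal, mul_neg,
    neg_div_neg_eq]

private lemma R5a_cB : cB = (2 + Real.sqrt 2 + s3 + Real.sqrt 2 * s3) * sB := by
  have h := cB_sB
  have ht := R5a_sqrt2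
  linear_combination (Real.sqrt 2 + 1) * h + (sB - cB) * ht

private lemma R5a_cA : cA = (2 + 3 * Real.sqrt 2 + 2 * s3 + Real.sqrt 2 * s3) / 2 * sB := by
  have hu := s3_sq
  rw [cA_eq, R5a_cB]
  linear_combination (sB * (1 + Real.sqrt 2) / 2) * hu

private lemma R5a_sA : sA = (2 + Real.sqrt 2 + 2 * s3 + Real.sqrt 2 * s3) / 2 * sB := by
  rw [sA_eq, R5a_cB]
  ring

private lemma R5a_oa : (kp : ℂ) * oa m1 = ((oC * sB / 2 : ℝ) : ℂ) *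
    ⟨-1 + 2 * Real.sqrt 2 + s3, -5 - 6 * Real.sqrt 2 - 5 * s3 - 2 * (Real.sqrt 2 * s3)⟩ := by
  have hc := kp_mul_cosh_m1
  have hs := kp_mul_sinh_m1
  have ht := R5a_sqrt2
  have hk := kp_sq
  unfold oa
  apply Complex.ext
  · rw [re_ofReal_mul, re_ofReal_mul]
    have e : kp * (oC * (Real.sinh m1 * cA)) = oC * (kp * Real.sinh m1) * cA := by ring
    rw [e, hs, R5a_cA]
    linear_combination (-(oC * sB * (3 + s3) / 4)) * ht
  · rw [im_ofReal_mul, im_ofReal_mul]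
    have e : kp * (oC * (Real.cosh m1 * sA - kp * cB)) =
        oC * ((kp * Real.cosh m1) * sA - kp ^ 2 * cB) := by ring
    rw [e, hc, hk, R5a_sA, R5a_cB]
    linear_combination (oC * sB * (-7 * (1 + s3) / 4)) * ht

private lemma R5a_ob : (kp : ℂ) * ob m1 = ((oC * sB / 2 : ℝ) : ℂ) *
    ⟨-2 + Real.sqrt 2, 2 - Real.sqrt 2 * s3⟩ := by
  have hc := kp_mul_cosh_m1
  have hs := kp_mul_sinh_m1
  have ht := R5a_sqrt2
  have hk := kp_sq
  unfold ob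
  apply Complex.ext
  · rw [re_ofReal_mul, re_ofReal_mul]
    have e : kp * (-(oC * (Real.sinh m1 * sB))) = -(oC * (kp * Real.sinh m1) * sB) := by ring
    rw [e, hs]
    ring
  · rw [im_ofReal_mul, im_ofReal_mul]
    have e : kp * (oC * (Real.cosh m1 * cB - kp * sA)) =
        oC * ((kp * Real.cosh m1) * cB - kp ^ 2 * sA) := by ring
    rw [e, hc, hk, R5a_sA, R5a_cB]
    linear_combination (oC * sB * (-(1 + s3) / 2)) * ht

private lemma R5a_key : (starRingEnd ℂ) (ob m1) * oa m1 =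
    uu 1 * (ob m1 * (starRingEnd ℂ) (oa m1)) := by
  have hkp : (kp : ℂ) ≠ 0 := ofReal_ne_zero.2 kp_pos.ne'
  have ht := R5a_sqrt2
  have hu := s3_sq
  have h1 : (starRingEnd ℂ) (⟨-2 + Real.sqrt 2, 2 - Real.sqrt 2 * s3⟩ : ℂ) *
      ⟨-1 + 2 * Real.sqrt 2 + s3, -5 - 6 * Real.sqrt 2 - 5 * s3 - 2 * (Real.sqrt 2 * s3)⟩ =
      uu 1 * ((⟨-2 + Real.sqrt 2, 2 - Real.sqrt 2 * s3⟩ : ℂ) * (starRingEnd ℂ)
      ⟨-1 + 2 * Real.sqrt 2 + s3, -5 - 6 * Real.sqrt 2 - 5 * s3 - 2 * (Real.sqrt 2 * s3)⟩) := by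
    rw [R5a_uu1]
    apply Complex.ext
    · simp only [mul_re, mul_im, conj_re, conj_im]
      linear_combination (3 + 12 * s3 + 3 * s3 ^ 2) * ht +
        (2 + 17 / 2 * Real.sqrt 2 - 1 / 2 * (Real.sqrt 2 * s3)) * hu
    · simp only [mul_re, mul_im, conj_re, conj_im]
      linear_combination (-3 - s3 - 3 * s3 ^ 2 - s3 ^ 3) * ht +
        (-2 * s3 - 1 / 2 * Real.sqrt 2 - 5 / 2 * (Real.sqrt 2 * s3)) * hu
  have h2 : (starRingEnd ℂ) ((kp : ℂ) * ob m1) * ((kp : ℂ) * oa m1) =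
      uu 1 * (((kp : ℂ) * ob m1) * (starRingEnd ℂ) ((kp : ℂ) * oa m1)) := by
    rw [R5a_oa, R5a_ob, map_mul, map_mul, conj_ofReal]
    linear_combination (((oC * sB / 2 : ℝ) : ℂ) ^ 2) * h1
  rw [map_mul, map_mul, conj_ofReal] at h2
  have h3 : (kp : ℂ) ^ 2 * ((starRingEnd ℂ) (ob m1) * oa m1) =
      (kp : ℂ) ^ 2 * (uu 1 * (ob m1 * (starRingEnd ℂ) (oa m1))) := by
    linear_combination h2
  exact mul_left_cancel₀ (pow_ne_zero 2 hkp) h3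

theorem ov_match : ov (-m1) = uu 1 * ov m1 := by
  have h1 := R5a_oa_ne m1
  have h2 : (starRingEnd ℂ) (oa m1) ≠ 0 := (map_ne_zero _).2 h1
  rw [R5a_ov_neg]
  unfold ov vf
  rw [map_neg, map_div₀, map_mul, conj_ofReal, mul_neg, neg_inj, mul_div_assoc',
    div_eq_div_iff h2 h1]
  linear_combination (‖oa m1‖ : ℂ) * R5a_key

theorem ov_neg (m : ℝ) : ov (-m) = (starRingEnd ℂ) (ov m) := R5a_ov_neg m

private lemma R5a_m1 : |m1| ≤ 1 / 4 := by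
  obtain ⟨h1, h2⟩ := m1_bounds
  rw [abs_of_pos (by linarith)]
  linarith

private lemma R5a_es : es (oa m1) ^ 2 = -I * (es (oa (-m1)) ^ 2 * uu 1) := by
  rw [es_oa R5a_m1, es_oa (m := -m1) (by rw [abs_neg]; exact R5a_m1), os_neg, os_m1]
  have h1 : exp (I * ((-(Real.pi / 24) : ℝ) : ℂ)) = (exp (I * ((Real.pi / 24 : ℝ) : ℂ)))⁻¹ := by
    rw [← exp_neg]
    congr 1
    push_cast
    ring
  have h2 : exp (I * ((Real.pi / 24 : ℝ) : ℂ)) ^ 4 = -I * uu 1 := by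
    rw [← exp_nat_mul]
    have e : ((4 : ℕ) : ℂ) * (I * ((Real.pi / 24 : ℝ) : ℂ)) = ((Real.pi / 6 : ℝ) : ℂ) * I := by
      push_cast
      ring
    rw [e, exp_mul_I, ← ofReal_cos, ← ofReal_sin, Real.cos_pi_div_six, Real.sin_pi_div_six,
      R5a_uu1]
    apply Complex.ext
    · simp [s3]
    · simp
      norm_num
  have h3 : exp (I * ((Real.pi / 24 : ℝ) : ℂ)) ≠ 0 := exp_ne_zero _
  rw [h1]
  obtain ⟨E, hE⟩ : ∃ E, E = exp (I * ((Real.pi / 24 : ℝ) : ℂ)) := ⟨_, rfl⟩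
  rw [← hE] at h2 h3 ⊢
  field_simp
  linear_combination h2

theorem Bf_match : Bf (oa m1) (ob m1) = -I * Bf (oa (-m1)) (ob (-m1)) := by
  rw [Bf_eq (oa_normSq m1), Bf_eq (oa_normSq (-m1))]
  change es (oa m1) ^ 2 * ov m1 = -I * (es (oa (-m1)) ^ 2 * ov (-m1))
  rw [ov_match, R5a_es]
  ring

private lemma R5a_oy_norm (m : ℝ) : ‖oy m‖ < 1 := by
  have h1 := oy_normSq m
  have h2 := oS_pos m
  have h3 : 1 < kp ^ 2 := by
    rw [kp_sq]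
    have : 1 < Real.sqrt 2 := by
      rw [Real.lt_sqrt (by norm_num)]
      norm_num
    linarith
  have h4 : 0 < 3 * (kp ^ 2 - 1) / (2 * kp * Real.cosh m - 1) ^ 2 := by
    apply div_pos
    · linarith
    · have : 0 < 2 * kp * Real.cosh m - 1 := by linarith
      positivity
  have h5 : ‖oy m‖ ^ 2 < 1 := by
    rw [← normSq_eq_norm_sq]
    linarith
  nlinarith [norm_nonneg (oy m)]

private lemma R5a_quot (m : ℝ) : Bd (oa m) (ob m) (oy m) / (fq (oa m) (ob m) (oy m) : ℂ) =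
    es (oa m) ^ 2 * bp (oy m) (ov m) := by
  have h1 := R5a_fs_pos (oy m) (ov m) (R5a_oy_norm m)
  rw [Bd_eq (oy m) (oa_normSq m) (R5a_oy_norm m), fq_eq_fs (oy m) (oa_normSq m)]
  change (fs (oy m) (ov m) : ℂ) * (es (oa m) ^ 2 * bp (oy m) (ov m)) /
    (fs (oy m) (ov m) : ℂ) = _
  rw [mul_div_cancel_left₀ _ (ofReal_ne_zero.2 h1.ne')]

theorem Bd_match : Bd (oa m1) (ob m1) (oy m1) / (fq (oa m1) (ob m1) (oy m1) : ℂ) =
    -I * (Bd (oa (-m1)) (ob (-m1)) (oy (-m1)) /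
      (fq (oa (-m1)) (ob (-m1)) (oy (-m1)) : ℂ)) := by
  rw [R5a_quot, R5a_quot, oy_match, ov_match, bp_rot, R5a_es]
  ring

end Pool.H61.Rh
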