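import Pool.Agent.H61.Rn.N3b
import Pool.Agent.H61.Rc.R3
import Pool.Agent.H61.Rc.R5a

/-! # N8a: one arc

`vf_hasDerivAt`: `v = -‖a‖ b/a`; `(‖a‖)' = ‖a‖ Im (ȳ b/a)`-type computation as in the private lemma
`N3b_norm_deriv` of Rn/N3b.lean (may be copied); with `ρ = ‖a‖ = √(1+|v|²)`, `b/a = -v/ρ`.
`RS.arc`: `F s = W (ms s, Y s, V s)`, `Y = y ∘ σ (· - π/2)`, `V = vf (a ∘ ..) (b ∘ ..)`.
On `[-π/24, π/24]` the point lies in the open set `St` (`Dom y` gives `d_j ≥ 1/30 > 0`,
`|ms s| ≤ m1 < 1/4`), `ms, σ, V` are `C¹`, `y` is Lipschitz, `W` is `C¹` on `St`, so `F` is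
Lipschitz on `[-π/24, π/24]` (a `C¹` function is locally Lipschitz; compactness), hence absolutely
continuous: `F (π/24) - F (-π/24) = ∫ deriv F`
(`AbsolutelyContinuousOnInterval.integral_deriv_eq_sub`).  For almost all `s` (`σ` maps null sets
to null sets in the inverse direction: `φ` is Lipschitz) `y` is differentiable at `σ (s - π/2)` and
`Kap` holds, so `deriv y = ∑ l_j V_j` (`kap_vertices`), and by the chain rule
`deriv F s = fderiv W (1/osd, deriv y/fs, vt/fs) = (1/fs) ∑ l_j fderiv W (fs/osd, V_j, vt) ≤ G`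
(`fq = fs` by `fq_eq_fs`; `fs > 0` because `fq > 0`, `RS.fq_bounds`). -/

set_option autoImplicit false

namespace Pool.H61.Rh

open Complex MeasureTheory

private lemma N8a_norm_pos {a b : ℂ} (h : normSq a - normSq b = 1) : 0 < ‖a‖ := by
  rw [norm_pos_iff]
  intro h0
  rw [h0, map_zero] at h
  have := normSq_nonneg b
  linarith

private lemma N8a_norm_deriv {a : ℝ → ℂ} {a' : ℂ} {τ : ℝ} (ha : HasDerivAt a a' τ)
    (h : 0 < ‖a τ‖) : HasDerivAt (fun t => ‖a t‖) (dt (a τ) a' / ‖a τ‖) τ := by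
  have hre : HasDerivAt (fun t => (a t).re) a'.re τ :=
    (reCLM.hasFDerivAt (x := a τ)).comp_hasDerivAt τ ha
  have him : HasDerivAt (fun t => (a t).im) a'.im τ :=
    (imCLM.hasFDerivAt (x := a τ)).comp_hasDerivAt τ ha
  have hN : HasDerivAt (fun t => (a t).re * (a t).re + (a t).im * (a t).im)
      ((a'.re * (a τ).re + (a τ).re * a'.re) + (a'.im * (a τ).im + (a τ).im * a'.im)) τ :=
    (hre.mul hre).add (him.mul him)
  have h0 : (a τ).re * (a τ).re + (a τ).im * (a τ).im ≠ 0 := by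
    rw [← normSq_apply, normSq_eq_norm_sq]
    positivity
  have hs := hN.sqrt h0
  have e : (fun t => ‖a t‖) = fun t => √((a t).re * (a t).re + (a t).im * (a t).im) := by
    funext t
    rw [norm_def, normSq_apply]
  rw [e]
  have e2 : √((a τ).re * (a τ).re + (a τ).im * (a τ).im) = ‖a τ‖ := by
    rw [norm_def, normSq_apply]
  rw [e2] at hs
  refine hs.congr_deriv ?_
  unfold dt
  field_simp
  ring

theorem vf_norm {a b : ℂ} (h : normSq a - normSq b = 1) : ‖vf a b‖ = ‖b‖ := by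
  have hpos := N8a_norm_pos h
  unfold vf
  rw [norm_neg, norm_div, norm_mul, norm_real, norm_norm, mul_comm, mul_div_assoc,
    div_self hpos.ne', mul_one]

private lemma N8a_abs_dt (x y : ℂ) : |dt x y| ≤ ‖x‖ * ‖y‖ := by
  rw [dt_eq_re]
  calc |((starRingEnd ℂ) x * y).re| ≤ ‖(starRingEnd ℂ) x * y‖ := abs_re_le_norm _
    _ = ‖x‖ * ‖y‖ := by rw [norm_mul, norm_conj]

/-- an expression of `vt` without denominators which could vanish -/
private lemma N8a_vt_eq {y v : ℂ} (hy : ‖y‖ < 1) :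
    vt y v = -I * (Real.sqrt (1 + normSq v) : ℂ) * y - 2 * I * v -
      I * v * ((dt y v / Real.sqrt (1 + normSq v) : ℝ) : ℂ) := by
  have hv := normSq_nonneg v
  have hr : 0 < Real.sqrt (1 + normSq v) := Real.sqrt_pos.2 (by linarith)
  have hsq : Real.sqrt (1 + normSq v) ^ 2 = 1 + normSq v := Real.sq_sqrt (by linarith)
  have hvr : ‖v‖ < Real.sqrt (1 + normSq v) := by
    refine Real.lt_sqrt_of_sq_lt ?_
    rw [normSq_eq_norm_sq]
    linarith
  have hd : 0 < Real.sqrt (1 + normSq v) + dt y v := by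
    have h1 := N8a_abs_dt y v
    have h2 := (abs_le.1 h1).1
    have h3 : ‖y‖ * ‖v‖ ≤ 1 * ‖v‖ := mul_le_mul_of_nonneg_right hy.le (norm_nonneg v)
    linarith
  unfold vt bp fs
  generalize Real.sqrt (1 + normSq v) = r at hr hsq hd
  generalize hD : dt y v = D at hd
  rw [← hsq]
  have hrc : (r : ℂ) ≠ 0 := by exact_mod_cast hr.ne'
  have hdc : ((r : ℂ) + (D : ℂ)) ≠ 0 := by exact_mod_cast hd.ne'
  push_cast
  field_simp
  ring

theorem vf_hasDerivAt {a b : ℝ → ℂ} {y : ℂ} {τ : ℝ}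
    (ha : HasDerivAt a (I * (a τ - (starRingEnd ℂ) y * b τ)) τ)
    (hb : HasDerivAt b (I * (y * a τ - b τ)) τ) (h : normSq (a τ) - normSq (b τ) = 1)
    (hy : ‖y‖ < 1) :
    HasDerivAt (fun t => vf (a t) (b t)) (vt y (vf (a τ) (b τ))) τ := by
  have hpos := N8a_norm_pos h
  have ha0 : a τ ≠ 0 := norm_pos_iff.1 hpos
  have hn := (N8a_norm_deriv ha hpos).ofReal_comp
  have hc : ((‖a τ‖ : ℝ) : ℂ) ≠ 0 := by exact_mod_cast hpos.ne'
  have hd := ((hn.mul hb).div ha ha0).neg
  have hfun : (fun t => vf (a t) (b t)) = fun t => -((‖a t‖ : ℂ) * b t / a t) := rfl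
  rw [hfun]
  refine hd.congr_deriv ?_
  rw [N8a_vt_eq hy]
  have hns : normSq (vf (a τ) (b τ)) = normSq (b τ) := by
    rw [normSq_eq_norm_sq, normSq_eq_norm_sq, vf_norm h]
  have hr : Real.sqrt (1 + normSq (vf (a τ) (b τ))) = ‖a τ‖ := by
    rw [hns]
    have : 1 + normSq (b τ) = ‖a τ‖ ^ 2 := by
      rw [← normSq_eq_norm_sq]
      linarith
    rw [this, Real.sqrt_sq hpos.le]
  rw [hr]
  have hsq : (‖a τ‖ : ℂ) ^ 2 = (starRingEnd ℂ) (a τ) * a τ := by
    rw [← normSq_eq_conj_mul_self, normSq_eq_norm_sq]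
    push_cast
    ring
  have e1 : ((dt (a τ) (I * (a τ - (starRingEnd ℂ) y * b τ)) : ℝ) : ℂ) =
      ((starRingEnd ℂ) (a τ) * (I * (a τ - (starRingEnd ℂ) y * b τ)) +
        a τ * (-I * ((starRingEnd ℂ) (a τ) - y * (starRingEnd ℂ) (b τ)))) / 2 := by
    apply Complex.ext
    · simp [dt]
      ring
    · simp [dt]
      ring
  have e2 : ((dt y (vf (a τ) (b τ)) : ℝ) : ℂ) =
      -((starRingEnd ℂ) y * ((‖a τ‖ : ℂ) * b τ / a τ) +
        y * ((‖a τ‖ : ℂ) * (starRingEnd ℂ) (b τ) / (starRingEnd ℂ) (a τ))) / 2 := by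
    have e3 : ((dt y (vf (a τ) (b τ)) : ℝ) : ℂ) =
        ((starRingEnd ℂ) y * vf (a τ) (b τ) + y * (starRingEnd ℂ) (vf (a τ) (b τ))) / 2 := by
      apply Complex.ext
      · simp [dt]
      · simp [dt]
        ring
    rw [e3]
    unfold vf
    rw [map_neg, map_div₀, map_mul, conj_ofReal]
    ring
  have hca : (starRingEnd ℂ) (a τ) ≠ 0 := by
    rw [Ne, map_eq_zero]
    exact ha0
  rw [ofReal_div, ofReal_div, e1, e2]
  unfold vf
  simp only [Pi.mul_apply]
  generalize hA : (starRingEnd ℂ) (a τ) = A at *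
  generalize hB : (starRingEnd ℂ) (b τ) = B at *
  generalize hY : (starRingEnd ℂ) y = Y at *
  generalize hR : ((‖a τ‖ : ℝ) : ℂ) = R at *
  generalize a τ = α at *
  generalize b τ = β at *
  field_simp
  linear_combination (α * β * y * B - A * β ^ 2 * Y) * hsq

private lemma N8a_cont_dt (u : ℂ) : Continuous (dt u) := by
  have : dt u = fun y => u.re * y.re + u.im * y.im := rfl
  rw [this]
  exact (continuous_const.mul continuous_re).add (continuous_const.mul continuous_im)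

private lemma N8a_linear_dt (u : ℂ) : IsLinearMap ℝ (dt u) where
  map_add x y := by
    unfold dt
    simp only [add_re, add_im]
    ring
  map_smul c x := by
    unfold dt
    simp only [real_smul, mul_re, mul_im, ofReal_re, ofReal_im, smul_eq_mul]
    ring

/-- a compact convex subset of `St` -/
private def N8a_K : Set (ℝ × ℂ × ℂ) :=
  Set.Icc (-m1) m1 ×ˢ ((Metric.closedBall (0 : ℂ) 1 ∩ {y | ∀ j : Fin 3, dt (uu j) y ≤ 29 / 60}) ×ˢ
    Metric.closedBall (0 : ℂ) (3 / 10))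

private lemma N8a_K_convex : Convex ℝ N8a_K := by
  unfold N8a_K
  refine (convex_Icc _ _).prod (((convex_closedBall _ _).inter ?_).prod (convex_closedBall _ _))
  have : {y : ℂ | ∀ j : Fin 3, dt (uu j) y ≤ 29 / 60} =
      ⋂ j : Fin 3, {y : ℂ | dt (uu j) y ≤ 29 / 60} := by
    ext y
    simp
  rw [this]
  exact convex_iInter fun j => convex_halfSpace_le (N8a_linear_dt (uu j)) _

private lemma N8a_K_compact : IsCompact N8a_K := by
  unfold N8a_K
  refine isCompact_Icc.prod (((isCompact_closedBall _ _).inter_right ?_).prod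
    (isCompact_closedBall _ _))
  have : {y : ℂ | ∀ j : Fin 3, dt (uu j) y ≤ 29 / 60} =
      ⋂ j : Fin 3, {y : ℂ | dt (uu j) y ≤ 29 / 60} := by
    ext y
    simp
  rw [this]
  exact isClosed_iInter fun j => isClosed_le (N8a_cont_dt (uu j)) continuous_const

private lemma N8a_mem_K {m : ℝ} {y v : ℂ} (hm : |m| ≤ m1) (hy : Dom y) (hv : ‖v‖ ≤ 3 / 10) :
    (m, y, v) ∈ N8a_K := by
  refine ⟨abs_le.1 hm, ⟨?_, fun j => ?_⟩, ?_⟩
  · rw [Metric.mem_closedBall, dist_zero_right]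
    have := dom_norm hy
    linarith
  · have := (hy j).1
    linarith
  · rw [Metric.mem_closedBall, dist_zero_right]
    exact hv

private lemma N8a_K_sub : N8a_K ⊆ St := by
  rintro ⟨m, y, v⟩ ⟨hm, ⟨-, hy⟩, -⟩
  refine ⟨?_, fun j => ?_⟩
  · have h1 := m1_bounds.2
    have h2 : |m| ≤ m1 := abs_le.2 hm
    show |m| < 1 / 4
    linarith
  · have h1 := hy j
    show 0 < 1 - 2 * dt (uu j) y
    linarith

private lemma N8a_St_open : IsOpen St := by
  have : St = {p : ℝ × ℂ × ℂ | |p.1| < 1 / 4} ∩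
      ⋂ j : Fin 3, {p : ℝ × ℂ × ℂ | 0 < 1 - 2 * dt (uu j) p.2.1} := by
    ext p
    simp [St]
  rw [this]
  refine IsOpen.inter (isOpen_lt (continuous_abs.comp continuous_fst) continuous_const)
    (isOpen_iInter_of_finite fun j => ?_)
  refine isOpen_lt continuous_const (continuous_const.sub (continuous_const.mul ?_))
  exact (N8a_cont_dt (uu j)).comp (continuous_fst.comp continuous_snd)

private lemma N8a_cont_y {T : ℝ} {a b y : ℝ → ℂ} (h : RS T a b y) : Continuous y := by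
  obtain ⟨C, hC⟩ := h.ylip
  exact hC.continuous

private lemma N8a_cont_vf {T : ℝ} {a b y : ℝ → ℂ} (h : RS T a b y) :
    Continuous (fun τ => vf (a τ) (b τ)) := by
  have ca : Continuous a := continuous_iff_continuousAt.2 fun τ => (h.ha τ).continuousAt
  have cb : Continuous b := continuous_iff_continuousAt.2 fun τ => (h.hb τ).continuousAt
  unfold vf
  refine (Continuous.div ((continuous_ofReal.comp ca.norm).mul cb) ca fun τ => ?_).neg
  exact norm_pos_iff.1 (N8a_norm_pos (h.hn τ))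

private lemma N8a_cont_vt {T : ℝ} {a b y : ℝ → ℂ} (h : RS T a b y) :
    Continuous (fun τ => vt (y τ) (vf (a τ) (b τ))) := by
  have cy := N8a_cont_y h
  have cv := N8a_cont_vf h
  have e : (fun τ => vt (y τ) (vf (a τ) (b τ))) = fun τ =>
      -I * (Real.sqrt (1 + normSq (vf (a τ) (b τ))) : ℂ) * y τ - 2 * I * vf (a τ) (b τ) -
      I * vf (a τ) (b τ) * ((dt (y τ) (vf (a τ) (b τ)) /
        Real.sqrt (1 + normSq (vf (a τ) (b τ))) : ℝ) : ℂ) := by
    funext τ
    refine N8a_vt_eq ?_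
    have := dom_norm (h.dom τ)
    linarith
  rw [e]
  have c1 : Continuous fun τ => Real.sqrt (1 + normSq (vf (a τ) (b τ))) :=
    (continuous_const.add (continuous_normSq.comp cv)).sqrt
  have c2 : Continuous fun τ => dt (y τ) (vf (a τ) (b τ)) := by
    unfold dt
    exact ((continuous_re.comp cy).mul (continuous_re.comp cv)).add
      ((continuous_im.comp cy).mul (continuous_im.comp cv))
  have c3 : Continuous fun τ => dt (y τ) (vf (a τ) (b τ)) /
      Real.sqrt (1 + normSq (vf (a τ) (b τ))) := by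
    refine c2.div c1 fun τ => ?_
    have := normSq_nonneg (vf (a τ) (b τ))
    exact (Real.sqrt_pos.2 (by linarith)).ne'
  exact (((continuous_const.mul (continuous_ofReal.comp c1)).mul cy).sub
    (continuous_const.mul cv)).sub ((continuous_const.mul cv).mul (continuous_ofReal.comp c3))

theorem RS.arc {T : ℝ} {a b y : ℝ → ℂ} {φ σ ms : ℝ → ℝ} (h : RS T a b y)
    (c : Clk T a b y φ σ) (hb : ∀ τ, ‖b τ‖ ≤ 3 / 10) (hm : Ms ms) {W : ℝ × ℂ × ℂ → ℝ}
    (hW : ContDiffOn ℝ 1 W St) {G : ℝ → ℂ → ℂ → ℝ}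
    (hG : ∀ m : ℝ, |m| ≤ m1 → ∀ y : ℂ, Dom y → ∀ v : ℂ, ‖v‖ ≤ 3 / 10 → ∀ j : Fin 3,
      fderiv ℝ W (m, y, v) (fs y v / osd m, Vx y j, vt y v) ≤ G m y v * fs y v)
    (hGc : ContinuousOn (fun s : ℝ => G (ms s) (y (σ (s - Real.pi / 2)))
      (vf (a (σ (s - Real.pi / 2))) (b (σ (s - Real.pi / 2)))))
      (Set.Icc (-(Real.pi / 24)) (Real.pi / 24))) :
    W (m1, y (σ (Real.pi / 24 - Real.pi / 2)),
        vf (a (σ (Real.pi / 24 - Real.pi / 2))) (b (σ (Real.pi / 24 - Real.pi / 2))))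
      - W (-m1, y (σ (-(Real.pi / 24) - Real.pi / 2)),
        vf (a (σ (-(Real.pi / 24) - Real.pi / 2))) (b (σ (-(Real.pi / 24) - Real.pi / 2))))
      ≤ ∫ s in (-(Real.pi / 24))..(Real.pi / 24), G (ms s) (y (σ (s - Real.pi / 2)))
        (vf (a (σ (s - Real.pi / 2))) (b (σ (s - Real.pi / 2)))) := by
  have hpi := Real.pi_pos
  set t : ℝ → ℝ := fun s => σ (s - Real.pi / 2) with ht
  set I0 : Set ℝ := Set.Icc (-(Real.pi / 24)) (Real.pi / 24) with hI0
  set V : ℝ → ℂ := fun τ => vf (a τ) (b τ) with hV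
  have hle : -(Real.pi / 24) ≤ Real.pi / 24 := by linarith
  have hmemI : ∀ s ∈ I0, |s| ≤ Real.pi / 24 := fun s hs => abs_le.2 hs
  have hfq : ∀ τ, 0 < fq (a τ) (b τ) (y τ) := fun τ => by
    have := (h.fq_bounds τ).1
    linarith
  have hy1 : ∀ τ, ‖y τ‖ < 1 := fun τ => by
    have := dom_norm (h.dom τ)
    linarith
  have hVn : ∀ τ, ‖V τ‖ ≤ 3 / 10 := fun τ => by
    rw [hV]
    simp only
    rw [vf_norm (h.hn τ)]
    exact hb τ
  have htd : ∀ s, HasDerivAt t (1 / fq (a (t s)) (b (t s)) (y (t s))) s := fun s =>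
    (c.dsig (s - Real.pi / 2)).comp_sub_const s (Real.pi / 2)
  have hVd : ∀ τ, HasDerivAt V (vt (y τ) (V τ)) τ := fun τ =>
    vf_hasDerivAt (h.ha τ) (h.hb τ) (h.hn τ) (hy1 τ)
  have htc : Continuous t := continuous_iff_continuousAt.2 fun s => (htd s).continuousAt
  -- the curve
  set P : ℝ → ℝ × ℂ × ℂ := fun s => (ms s, y (t s), V (t s)) with hP
  have hPK : ∀ s ∈ I0, P s ∈ N8a_K := fun s hs =>
    N8a_mem_K (hm.mem s (hmemI s hs)) (h.dom _) (hVn _)
  -- Lipschitz bounds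
  have hmsL : LipschitzOnWith 2 ms I0 := by
    refine Convex.lipschitzOnWith_of_nnnorm_hasDerivWithin_le (convex_Icc _ _)
      (fun s hs => (hm.hd s (hmemI s hs)).hasDerivWithinAt) fun s hs => ?_
    have h1 := hm.mem s (hmemI s hs)
    have h2 := m1_bounds.2
    have h3 := (osd_bounds (m := ms s) (by linarith)).1
    rw [← NNReal.coe_le_coe, coe_nnnorm, Real.norm_eq_abs,
      abs_of_nonneg (by positivity), div_le_iff₀ (by linarith)]
    show (1 : ℝ) ≤ 2 * osd (ms s)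
    linarith
  have htL : LipschitzOnWith 9 t I0 := by
    refine Convex.lipschitzOnWith_of_nnnorm_hasDerivWithin_le (convex_Icc _ _)
      (fun s hs => (htd s).hasDerivWithinAt) fun s hs => ?_
    have h3 := (h.fq_bounds (t s)).1
    have h4 := hfq (t s)
    rw [← NNReal.coe_le_coe, coe_nnnorm, Real.norm_eq_abs,
      abs_of_nonneg (by positivity), div_le_iff₀ h4]
    show (1 : ℝ) ≤ 9 * fq (a (t s)) (b (t s)) (y (t s))
    linarith
  obtain ⟨Cy, hCy⟩ := h.ylip
  have hyL : LipschitzOnWith (Cy * 9) (fun s => y (t s)) I0 :=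
    (hCy.lipschitzOnWith (s := Set.univ)).comp htL (Set.mapsTo_univ _ _)
  obtain ⟨Cv, hCv⟩ : ∃ C : NNReal, LipschitzOnWith C (fun s => V (t s)) I0 := by
    obtain ⟨C, hC⟩ := (isCompact_Icc (a := -(Real.pi / 24)) (b := Real.pi / 24)).exists_bound_of_continuousOn
      (((N8a_cont_vt h).comp htc).continuousOn)
    refine ⟨Real.toNNReal C * 9, ?_⟩
    refine Convex.lipschitzOnWith_of_nnnorm_hasDerivWithin_le (convex_Icc _ _)
      (fun s hs => ((hVd (t s)).scomp s (htd s)).hasDerivWithinAt) fun s hs => ?_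
    have h3 := (h.fq_bounds (t s)).1
    have h4 := hfq (t s)
    have h5 := hC s hs
    have h6 : (0 : ℝ) ≤ C := (norm_nonneg _).trans h5
    rw [← NNReal.coe_le_coe, coe_nnnorm, norm_smul, NNReal.coe_mul, Real.coe_toNNReal C h6,
      mul_comm]
    refine mul_le_mul h5 ?_ (norm_nonneg _) h6
    rw [Real.norm_eq_abs, abs_of_nonneg (by positivity), div_le_iff₀ h4]
    show (1 : ℝ) ≤ 9 * fq (a (t s)) (b (t s)) (y (t s))
    linarith
  obtain ⟨CW, hCW⟩ := (hW.mono N8a_K_sub).exists_lipschitzOnWith one_ne_zero N8a_K_convex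
    N8a_K_compact
  have hPL : LipschitzOnWith (max 2 (max (Cy * 9) Cv)) P I0 := by
    have h1 := hmsL.prodMk (hyL.prodMk hCv)
    exact h1
  have hFL : LipschitzOnWith (CW * max 2 (max (Cy * 9) Cv)) (fun s => W (P s)) I0 :=
    hCW.comp hPL hPK
  have hAC : AbsolutelyContinuousOnInterval (fun s => W (P s)) (-(Real.pi / 24))
      (Real.pi / 24) := by
    refine LipschitzOnWith.absolutelyContinuousOnInterval (K := CW * max 2 (max (Cy * 9) Cv)) ?_
    rw [Set.uIcc_of_le hle]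
    exact hFL
  have hint := hAC.integral_deriv_eq_sub
  have hend1 : P (Real.pi / 24) = (m1, y (t (Real.pi / 24)), V (t (Real.pi / 24))) := by
    rw [hP]
    simp only
    rw [hm.hi]
  have hend2 : P (-(Real.pi / 24)) = (-m1, y (t (-(Real.pi / 24))), V (t (-(Real.pi / 24)))) := by
    rw [hP]
    simp only
    rw [hm.lo]
  rw [hend1, hend2] at hint
  refine (le_of_eq hint.symm).trans ?_
  refine intervalIntegral.integral_mono_ae_restrict hle hAC.intervalIntegrable_deriv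
    (hGc.intervalIntegrable_of_Icc hle) ?_
  -- the exceptional set
  have hN : volume {τ : ℝ | ¬ (DifferentiableAt ℝ y τ ∧ Kap (y τ) (deriv y τ))} = 0 := by
    have h1 : ∀ᵐ τ : ℝ, DifferentiableAt ℝ y τ ∧ Kap (y τ) (deriv y τ) := by
      filter_upwards [hCy.ae_differentiableAt (μ := volume), h.kap] with τ h2 h3
      exact ⟨h2, h3⟩
    exact h1
  have hN2 : ∀ᵐ s : ℝ, DifferentiableAt ℝ y (t s) ∧ Kap (y (t s)) (deriv y (t s)) := by
    have h1 : volume ((fun τ => φ τ + Real.pi / 2) ''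
        {τ : ℝ | ¬ (DifferentiableAt ℝ y τ ∧ Kap (y τ) (deriv y τ))}) = 0 := by
      refine MeasureTheory.addHaar_image_eq_zero_of_differentiableOn_of_addHaar_eq_zero volume
        (fun τ _ => ?_) hN
      exact ((c.dphi τ).add_const (Real.pi / 2)).differentiableAt.differentiableWithinAt
    refine measure_mono_null (fun s hs => ?_) h1
    refine ⟨t s, hs, ?_⟩
    show φ (σ (s - Real.pi / 2)) + Real.pi / 2 = s
    rw [c.ps]
    ring
  refine (ae_restrict_iff' measurableSet_Icc).2 ?_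
  filter_upwards [hN2] with s hs hsI
  obtain ⟨hyd, hK⟩ := hs
  have hsI' := hmemI s hsI
  have hmm := hm.mem s hsI'
  have hPs : P s ∈ St := N8a_K_sub (hPK s hsI)
  have hWd : HasFDerivAt W (fderiv ℝ W (P s)) (P s) :=
    ((hW.differentiableOn one_ne_zero).differentiableAt (N8a_St_open.mem_nhds hPs)).hasFDerivAt
  have hPd : HasDerivAt P (1 / osd (ms s), (1 / fq (a (t s)) (b (t s)) (y (t s))) • deriv y (t s),
      (1 / fq (a (t s)) (b (t s)) (y (t s))) • vt (y (t s)) (V (t s))) s :=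
    (hm.hd s hsI').prodMk ((hyd.hasDerivAt.scomp s (htd s)).prodMk
      ((hVd (t s)).scomp s (htd s)))
  have hFd := hWd.comp_hasDerivAt s hPd
  have hFd' : deriv (fun s => W (P s)) s = fderiv ℝ W (P s) (1 / osd (ms s),
      (1 / fq (a (t s)) (b (t s)) (y (t s))) • deriv y (t s),
      (1 / fq (a (t s)) (b (t s)) (y (t s))) • vt (y (t s)) (V (t s))) := hFd.deriv
  show deriv (fun s => W (P s)) s ≤ G (ms s) (y (t s)) (V (t s))
  rw [hFd']
  obtain ⟨l, hl0, hl1, hl2⟩ := kap_vertices _ _ (h.dom (t s)) hK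
  have hq : fq (a (t s)) (b (t s)) (y (t s)) = fs (y (t s)) (V (t s)) :=
    fq_eq_fs _ (h.hn (t s))
  have hfs := hfq (t s)
  rw [hq] at hfs
  rw [hq]
  have hosd : 0 < osd (ms s) := by
    have h2 := m1_bounds.2
    have h3 := (osd_bounds (m := ms s) (by linarith)).1
    linarith
  have hvec : ((1 / osd (ms s), (1 / fs (y (t s)) (V (t s))) • deriv y (t s),
      (1 / fs (y (t s)) (V (t s))) • vt (y (t s)) (V (t s))) : ℝ × ℂ × ℂ) =
      (1 / fs (y (t s)) (V (t s))) • ∑ j, l j • ((fs (y (t s)) (V (t s)) / osd (ms s),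
        Vx (y (t s)) j, vt (y (t s)) (V (t s))) : ℝ × ℂ × ℂ) := by
    have e1 : ∑ j, l j • ((fs (y (t s)) (V (t s)) / osd (ms s),
        Vx (y (t s)) j, vt (y (t s)) (V (t s))) : ℝ × ℂ × ℂ) =
        (fs (y (t s)) (V (t s)) / osd (ms s), deriv y (t s), vt (y (t s)) (V (t s))) := by
      refine Prod.ext ?_ (Prod.ext ?_ ?_)
      · simp only [Prod.fst_sum, Prod.smul_fst, smul_eq_mul]
        rw [← Finset.sum_mul, hl1, one_mul]
      · simp only [Prod.snd_sum, Prod.fst_sum, Prod.smul_snd, Prod.smul_fst]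
        rw [hl2]
        refine Finset.sum_congr rfl fun j _ => ?_
        rw [real_smul]
      · simp only [Prod.snd_sum, Prod.smul_snd]
        rw [← Finset.sum_smul, hl1, one_smul]
    rw [e1]
    refine Prod.ext ?_ (Prod.ext rfl rfl)
    show 1 / osd (ms s) = (1 / fs (y (t s)) (V (t s))) * (fs (y (t s)) (V (t s)) / osd (ms s))
    field_simp
  rw [hvec, map_smul, map_sum, smul_eq_mul]
  have hsum : ∑ j, fderiv ℝ W (P s) (l j • ((fs (y (t s)) (V (t s)) / osd (ms s),
        Vx (y (t s)) j, vt (y (t s)) (V (t s))) : ℝ × ℂ × ℂ)) ≤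
      ∑ j, l j * (G (ms s) (y (t s)) (V (t s)) * fs (y (t s)) (V (t s))) := by
    refine Finset.sum_le_sum fun j _ => ?_
    rw [map_smul, smul_eq_mul]
    exact mul_le_mul_of_nonneg_left
      (hG (ms s) hmm (y (t s)) (h.dom _) (V (t s)) (hVn _) j) (hl0 j)
  rw [← Finset.sum_mul, hl1, one_mul] at hsum
  refine (mul_le_mul_of_nonneg_left hsum (by positivity)).trans (le_of_eq ?_)
  field_simp

end Pool.H61.Rh
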