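import Pool.Agent.H61.Rc.R5a
import Pool.Agent.H61.Rn.N3b

/-! # N8b: the symmetry of order three, combinations of calibrations

`RS.turn`: `(p a, ω p b, ω y)`, `p = e^{-iπ/12}`, solves `RS`: `ω p (y a - b) = (ω y)(p a) - ω p b`,
`p (a - ȳ b) = p a - conj (ω y) (ω p b)`; `Dom`, `Kap` are invariant because multiplication by `ω`
permutes the `uu j` (`dt (uu j) (ω y) = dt (conj ω · uu j) y`).
`Clk.turn`: the angle of `p a` is `φ - π/12`.
`Cal.comb`: `St` is open; `fderiv` of the combination. -/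

set_option autoImplicit false

namespace Pool.H61.Rh

open Complex MeasureTheory

/-- `e^{-iπ/12}` -/
noncomputable def tp : ℂ := exp (-(I * ((Real.pi / 12 : ℝ) : ℂ)))

private lemma N8b_re0 : (uu 0).re = 1 := rfl
private lemma N8b_im0 : (uu 0).im = 0 := rfl
private lemma N8b_re1 : (uu 1).re = -1 / 2 := rfl
private lemma N8b_im1 : (uu 1).im = s3 / 2 := rfl
private lemma N8b_re2 : (uu 2).re = -1 / 2 := rfl
private lemma N8b_im2 : (uu 2).im = -(s3 / 2) := rfl

private lemma N8b_nu : normSq (uu 1) = 1 := by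
  have h := s3_mul
  rw [normSq_apply, N8b_re1, N8b_im1]
  linear_combination (1 / 4 : ℝ) * h

private lemma N8b_nt : normSq tp = 1 := by
  rw [normSq_eq_norm_sq]
  unfold tp
  rw [Complex.norm_exp]
  simp

private lemma N8b_normt : ‖tp‖ = 1 := by
  have h := N8b_nt
  rw [normSq_eq_norm_sq] at h
  nlinarith [norm_nonneg tp]

private lemma N8b_normu : ‖uu 1‖ = 1 := by
  have h := N8b_nu
  rw [normSq_eq_norm_sq] at h
  nlinarith [norm_nonneg (uu 1)]

private lemma N8b_d0 (y : ℂ) : dt (uu 0) (uu 1 * y) = dt (uu 2) y := by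
  simp only [dt, mul_re, mul_im, N8b_re0, N8b_im0, N8b_re1, N8b_im1, N8b_re2, N8b_im2]
  ring

private lemma N8b_d1 (y : ℂ) : dt (uu 1) (uu 1 * y) = dt (uu 0) y := by
  have h := s3_mul
  simp only [dt, mul_re, mul_im, N8b_re0, N8b_im0, N8b_re1, N8b_im1, N8b_re2, N8b_im2]
  linear_combination (y.re / 4) * h

private lemma N8b_d2 (y : ℂ) : dt (uu 2) (uu 1 * y) = dt (uu 1) y := by
  have h := s3_mul
  simp only [dt, mul_re, mul_im, N8b_re0, N8b_im0, N8b_re1, N8b_im1, N8b_re2, N8b_im2]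
  linear_combination (-(y.re / 4)) * h

private lemma N8b_c0 (y : ℂ) : cr (uu 0) (uu 1 * y) = cr (uu 2) y := by
  simp only [cr, mul_re, mul_im, N8b_re0, N8b_im0, N8b_re1, N8b_im1, N8b_re2, N8b_im2]
  ring

private lemma N8b_c1 (y : ℂ) : cr (uu 1) (uu 1 * y) = cr (uu 0) y := by
  have h := s3_mul
  simp only [cr, mul_re, mul_im, N8b_re0, N8b_im0, N8b_re1, N8b_im1, N8b_re2, N8b_im2]
  linear_combination (y.im / 4) * h

private lemma N8b_c2 (y : ℂ) : cr (uu 2) (uu 1 * y) = cr (uu 1) y := by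
  have h := s3_mul
  simp only [cr, mul_re, mul_im, N8b_re0, N8b_im0, N8b_re1, N8b_im1, N8b_re2, N8b_im2]
  linear_combination (-(y.im / 4)) * h

private lemma N8b_crm (c x y : ℂ) (hc : normSq c = 1) : cr (c * x) (c * y) = cr x y := by
  rw [normSq_apply] at hc
  simp only [cr, mul_re, mul_im]
  linear_combination (x.re * y.im - x.im * y.re) * hc

private lemma N8b_dtm (c x y : ℂ) (hc : normSq c = 1) : dt (c * x) (c * y) = dt x y := by
  rw [normSq_apply] at hc
  simp only [dt, mul_re, mul_im]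
  linear_combination (x.re * y.re + x.im * y.im) * hc

private lemma N8b_conj : (starRingEnd ℂ) (uu 1) * uu 1 = 1 := by
  rw [← normSq_eq_conj_mul_self, N8b_nu]
  simp

private lemma N8b_kap {y v : ℂ} (h : Kap y v) : Kap (uu 1 * y) (uu 1 * v) := by
  intro j
  have hn : normSq (uu 1 * y) = normSq y := by
    rw [map_mul, N8b_nu, one_mul]
  rw [hn, N8b_crm (uu 1) y v N8b_nu]
  fin_cases j
  · have := h 2
    rw [← N8b_d0, ← N8b_c0] at this
    exact this
  · have := h 0
    rw [← N8b_d1, ← N8b_c1] at this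
    exact this
  · have := h 1
    rw [← N8b_d2, ← N8b_c2] at this
    exact this

private lemma N8b_fq (a b y : ℂ) : fq (tp * a) (uu 1 * tp * b) (uu 1 * y) = fq a b y := by
  unfold fq
  have h1 : uu 1 * y * (tp * a) = (uu 1 * tp) * (y * a) := by ring
  have h2 : normSq (uu 1 * tp) = 1 := by rw [map_mul, N8b_nu, N8b_nt, one_mul]
  rw [h1, N8b_dtm _ _ _ h2, map_mul, N8b_nt, one_mul]

theorem dom_rot {y : ℂ} (h : Dom y) : Dom (uu 1 * y) := by
  intro j
  have hn : normSq (uu 1 * y) = normSq y := by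
    rw [map_mul, N8b_nu, one_mul]
  rw [hn]
  fin_cases j
  · have := h 2
    rw [← N8b_d0] at this
    exact this
  · have := h 0
    rw [← N8b_d1] at this
    exact this
  · have := h 1
    rw [← N8b_d2] at this
    exact this

theorem St_open : IsOpen St := by
  have h1 : St = {p : ℝ × ℂ × ℂ | |p.1| < 1 / 4} ∩
      ⋂ j : Fin 3, {p : ℝ × ℂ × ℂ | 0 < 1 - 2 * dt (uu j) p.2.1} := by
    ext p
    simp only [St, Set.mem_setOf_eq, Set.mem_inter_iff, Set.mem_iInter]
  rw [h1]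
  refine IsOpen.inter (isOpen_lt (by fun_prop) continuous_const) ?_
  refine isOpen_iInter_of_finite fun j => ?_
  refine isOpen_lt continuous_const ?_
  unfold dt
  fun_prop

theorem RS.turn {T : ℝ} {a b y : ℝ → ℂ} (h : RS T a b y) :
    RS T (fun τ => tp * a τ) (fun τ => uu 1 * tp * b τ) (fun τ => uu 1 * y τ) := by
  refine ⟨h.Tpos, h.Tlow, ?_, ?_, ?_, ?_, ?_, ?_, ?_, ?_, ?_⟩
  · intro τ
    have h1 := (h.ha τ).const_mul tp
    refine h1.congr_deriv ?_
    have h2 : (starRingEnd ℂ) (uu 1 * y τ) * (uu 1 * tp * b τ) =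
        ((starRingEnd ℂ) (uu 1) * uu 1) * ((starRingEnd ℂ) (y τ) * (tp * b τ)) := by
      rw [map_mul]
      ring
    rw [h2, N8b_conj]
    ring
  · intro τ
    have h1 := (h.hb τ).const_mul (uu 1 * tp)
    refine h1.congr_deriv ?_
    ring
  · intro τ
    have h2 : normSq (uu 1 * tp * b τ) = normSq (b τ) := by
      rw [map_mul, map_mul, N8b_nu, N8b_nt, one_mul, one_mul]
    have h3 : normSq (tp * a τ) = normSq (a τ) := by
      rw [map_mul, N8b_nt, one_mul]
    show normSq (tp * a τ) - normSq (uu 1 * tp * b τ) = 1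
    rw [h2, h3, h.hn τ]
  · intro τ
    show tp * a (τ + T) = ze * (tp * a τ)
    rw [h.pa τ]
    ring
  · intro τ
    show uu 1 * tp * b (τ + T) = (starRingEnd ℂ) ze * (uu 1 * tp * b τ)
    rw [h.pb τ]
    ring
  · intro τ
    show uu 1 * y (τ + T) = (starRingEnd ℂ) ze ^ 2 * (uu 1 * y τ)
    rw [h.py τ]
    ring
  · obtain ⟨C, hC⟩ := h.ylip
    refine ⟨C, LipschitzWith.of_dist_le_mul fun s t => ?_⟩
    have h1 := hC.dist_le_mul s t
    rw [dist_eq_norm] at h1 ⊢
    rw [← mul_sub, norm_mul, N8b_normu, one_mul]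
    exact h1
  · intro τ
    exact dom_rot (h.dom τ)
  · filter_upwards [h.kap] with τ hτ
    rw [deriv_const_mul_field]
    exact N8b_kap hτ

theorem Clk.turn {T : ℝ} {a b y : ℝ → ℂ} {φ σ : ℝ → ℝ} (c : Clk T a b y φ σ) :
    Clk T (fun τ => tp * a τ) (fun τ => uu 1 * tp * b τ) (fun τ => uu 1 * y τ)
      (fun τ => φ τ - Real.pi / 12) (fun s => σ (s + Real.pi / 12)) := by
  refine ⟨?_, ?_, ?_, ?_, ?_, ?_, ?_⟩
  · intro τ
    have h1 := (c.dphi τ).sub_const (Real.pi / 12)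
    refine h1.congr_deriv ?_
    exact (N8b_fq (a τ) (b τ) (y τ)).symm
  · intro τ
    show tp * a τ = ((‖tp * a τ‖ : ℝ) : ℂ) * exp (I * ((φ τ - Real.pi / 12 : ℝ) : ℂ))
    rw [norm_mul, N8b_normt, one_mul]
    have h1 : exp (I * ((φ τ - Real.pi / 12 : ℝ) : ℂ)) = tp * exp (I * (φ τ : ℂ)) := by
      unfold tp
      rw [← Complex.exp_add]
      congr 1
      push_cast
      ring
    rw [h1]
    conv_lhs => rw [c.polar τ]
    ring
  · intro τ
    show φ (τ + T) - Real.pi / 12 = φ τ - Real.pi / 12 + Real.pi / 3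
    rw [c.phiT τ]
    ring
  · intro τ
    show σ (φ τ - Real.pi / 12 + Real.pi / 12) = τ
    rw [sub_add_cancel, c.sp τ]
  · intro s
    show φ (σ (s + Real.pi / 12)) - Real.pi / 12 = s
    rw [c.ps]
    ring
  · intro s
    have h1 := (c.dsig (s + Real.pi / 12)).comp_add_const s (Real.pi / 12)
    refine h1.congr_deriv ?_
    rw [N8b_fq]
  · intro s
    show σ (s + Real.pi / 3 + Real.pi / 12) = σ (s + Real.pi / 12) + T
    have h1 : s + Real.pi / 3 + Real.pi / 12 = s + Real.pi / 12 + Real.pi / 3 := by ring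
    rw [h1, c.sigT]

theorem Cal.comb {μ₁ ε₁ μ₂ ε₂ l : ℝ} {N : ℝ → ℂ → ℂ → ℝ} {W₁ W₂ : ℝ × ℂ × ℂ → ℝ}
    (h₁ : Cal μ₁ ε₁ N W₁) (h₂ : Cal μ₂ ε₂ N W₂) (hl : 0 ≤ l) (hl' : l ≤ 1) :
    Cal ((1 - l) * μ₁ + l * μ₂) ((1 - l) * ε₁ + l * ε₂) N
      (fun p => (1 - l) * W₁ p + l * W₂ p) := by
  refine ⟨?_, ?_, ?_⟩
  · exact (contDiffOn_const.mul h₁.smooth).add (contDiffOn_const.mul h₂.smooth)
  · intro y v hy hv
    show (1 - l) * W₁ (m1, y, v) + l * W₂ (m1, y, v) =
      (1 - l) * W₁ (-m1, uu 1 * y, uu 1 * v) + l * W₂ (-m1, uu 1 * y, uu 1 * v)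
    rw [h₁.junction y v hy hv, h₂.junction y v hy hv]
  · intro m hm y hy v hv j
    have hmem : (m, y, v) ∈ St := by
      refine ⟨?_, fun i => ?_⟩
      · show |m| < 1 / 4
        have h1 : m1 < 1 / 4 := by
          unfold m1
          have := Real.log_two_lt_d9
          linarith
        exact lt_of_le_of_lt hm h1
      · have := (hy i).1
        show 0 < 1 - 2 * dt (uu i) y
        linarith
    have hnhds : St ∈ nhds (m, y, v) := St_open.mem_nhds hmem
    have hd1 : DifferentiableAt ℝ W₁ (m, y, v) :=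
      (h₁.smooth.contDiffAt hnhds).differentiableAt (by norm_num)
    have hd2 : DifferentiableAt ℝ W₂ (m, y, v) :=
      (h₂.smooth.contDiffAt hnhds).differentiableAt (by norm_num)
    have hf : fderiv ℝ (fun p => (1 - l) * W₁ p + l * W₂ p) (m, y, v) =
        (1 - l) • fderiv ℝ W₁ (m, y, v) + l • fderiv ℝ W₂ (m, y, v) := by
      exact ((hd1.hasFDerivAt.const_mul (1 - l)).add (hd2.hasFDerivAt.const_mul l)).fderiv
    rw [hf]
    simp only [ContinuousLinearMap.add_apply, ContinuousLinearMap.smul_apply, smul_eq_mul]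
    have i1 := mul_le_mul_of_nonneg_left (h₁.ineq m hm y hy v hv j) (sub_nonneg.2 hl')
    have i2 := mul_le_mul_of_nonneg_left (h₂.ineq m hm y hy v hv j) hl
    refine (add_le_add i1 i2).trans (le_of_eq ?_)
    unfold Lag
    ring

end Pool.H61.Rh
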