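import Pool.Agent.H61.Rc.H2

/-! # H3: the lower bound of the second order part and the elimination of `v` -/

set_option autoImplicit false

namespace Pool.H61.Rh

open Complex

private lemma main_real {h U si yu qu c p ps Φ M Q dk ε : ℝ} (hh : 0 ≤ h)
    (hU : 0 ≤ U) (hs1 : 957 / 1000 ≤ si) (hs2 : si ≤ 1) (hc : 0 ≤ c) (hp : 0 ≤ p) (hpΦ : p ≤ Φ)
    (hps : 0 ≤ ps) (hQ : |qu| ≤ Q * U) (hQ0 : 0 ≤ Q) (hyu : |yu| ≤ h * U)
    (hdk : dk = si * yu - ε) (hε : |ε| ≤ 51 / 10000 * (h * U)) (hM0 : 0 ≤ M)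
    (hM : -(M * U ^ 2) ≤ yu * (ps * qu + 957 / 1000 * c * yu)) :
    -(Φ * (M + 51 / 10000 * h * (ps * Q + 2 * c * h)) * U ^ 2) ≤
      p * ps * dk * qu + c * (p * dk ^ 2) := by
  have hM' : -(M * U ^ 2) ≤ si * (yu * (ps * qu + 957 / 1000 * c * yu)) := by
    rcases le_total 0 (yu * (ps * qu + 957 / 1000 * c * yu)) with h1 | h1
    · have : 0 ≤ M * U ^ 2 := by positivity
      have : 0 ≤ si * (yu * (ps * qu + 957 / 1000 * c * yu)) := mul_nonneg (by linarith) h1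
      linarith
    · nlinarith
  have hb : |ε * (ps * qu + 2 * c * (si * yu))| ≤
      51 / 10000 * (h * U) * (ps * (Q * U) + 2 * c * (h * U)) := by
    rw [abs_mul]
    apply mul_le_mul hε _ (abs_nonneg _) (by positivity)
    refine (abs_add_le _ _).trans (add_le_add ?_ ?_)
    · rw [abs_mul, abs_of_nonneg hps]; gcongr
    · have h0 : |2 * c * (si * yu)| = 2 * c * (si * |yu|) := by
        rw [abs_mul, abs_of_nonneg (by linarith : (0 : ℝ) ≤ 2 * c), abs_mul,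
          abs_of_nonneg (by linarith : (0 : ℝ) ≤ si)]
      rw [h0]
      have : si * |yu| ≤ 1 * (h * U) := mul_le_mul hs2 hyu (abs_nonneg _) (by norm_num)
      rw [one_mul] at this
      exact mul_le_mul_of_nonneg_left this (by linarith)
  have hb' := (neg_abs_le (ε * (ps * qu + 2 * c * (si * yu))))
  have hb'' := le_abs_self (ε * (ps * qu + 2 * c * (si * yu)))
  have hq : 957 / 1000 * si * (c * yu ^ 2) ≤ si ^ 2 * (c * yu ^ 2) := by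
    have : 0 ≤ c * yu ^ 2 := by positivity
    nlinarith [mul_nonneg (mul_nonneg (by linarith : (0 : ℝ) ≤ si)
      (by linarith : (0 : ℝ) ≤ si - 957 / 1000)) this]
  have hB : -((M + 51 / 10000 * h * (ps * Q + 2 * c * h)) * U ^ 2) ≤ ps * dk * qu + c * dk ^ 2 := by
    have : ps * dk * qu + c * dk ^ 2 = si * (yu * (ps * qu + 957 / 1000 * c * yu))
        + (si ^ 2 * (c * yu ^ 2) - 957 / 1000 * si * (c * yu ^ 2))
        - ε * (ps * qu + 2 * c * (si * yu)) + c * ε ^ 2 := by rw [hdk]; ring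
    rw [this]
    have h3 : 0 ≤ c * ε ^ 2 := by positivity
    nlinarith
  have hN : 0 ≤ (M + 51 / 10000 * h * (ps * Q + 2 * c * h)) * U ^ 2 := by positivity
  have : p * ps * dk * qu + c * (p * dk ^ 2) = p * (ps * dk * qu + c * dk ^ 2) := by ring
  rw [this]
  calc -(Φ * (M + 51 / 10000 * h * (ps * Q + 2 * c * h)) * U ^ 2)
      = -(Φ * ((M + 51 / 10000 * h * (ps * Q + 2 * c * h)) * U ^ 2)) := by ring
    _ ≤ -(p * ((M + 51 / 10000 * h * (ps * Q + 2 * c * h)) * U ^ 2)) := by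
        have := mul_le_mul_of_nonneg_right hpΦ hN
        linarith
    _ = p * (-((M + 51 / 10000 * h * (ps * Q + 2 * c * h)) * U ^ 2)) := by ring
    _ ≤ _ := mul_le_mul_of_nonneg_left hB hp

private lemma hMM_aux {y w u : ℂ} {lam M : ℝ} (hlam : 0 < lam)
    (hM : normSq ((lam : ℂ) * y - w) ≤ 4 * lam * M) :
    0 ≤ M ∧ -(M * ‖u‖ ^ 2) ≤ dt y u * dt w u := by
  have h1 := normSq_nonneg ((lam : ℂ) * y - w)
  have e2 : |dt ((lam : ℂ) * y - w) u| ≤ ‖(lam : ℂ) * y - w‖ * ‖u‖ := vabs_dt_le _ _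
  have e3 : dt ((lam : ℂ) * y - w) u ^ 2 ≤ normSq ((lam : ℂ) * y - w) * ‖u‖ ^ 2 := by
    rw [normSq_eq_norm_sq, ← mul_pow, ← sq_abs]
    exact pow_le_pow_left₀ (abs_nonneg _) e2 2
  have e4 : dt ((lam : ℂ) * y - w) u = lam * dt y u - dt w u := by
    simp only [dt, Complex.sub_re, Complex.sub_im, Complex.mul_re, Complex.mul_im,
      Complex.ofReal_re, Complex.ofReal_im]; ring
  rw [e4] at e3
  have e5 : normSq ((lam : ℂ) * y - w) * ‖u‖ ^ 2 ≤ 4 * lam * M * ‖u‖ ^ 2 :=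
    mul_le_mul_of_nonneg_right hM (by positivity)
  have e8 : 4 * lam * (M * ‖u‖ ^ 2 + dt y u * dt w u) = 4 * lam * M * ‖u‖ ^ 2
      + (lam * dt y u + dt w u) ^ 2 - (lam * dt y u - dt w u) ^ 2 := by ring
  have e9 := sq_nonneg (lam * dt y u + dt w u)
  have e6 : 0 ≤ 4 * lam * (M * ‖u‖ ^ 2 + dt y u * dt w u) := by linarith
  have hl4 : 0 < 4 * lam := by linarith
  constructor
  · exact nonneg_of_mul_nonneg_right (h1.trans hM) hl4
  · have := nonneg_of_mul_nonneg_right e6 hl4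
    linarith

private lemma dk_aux {y a u : ℂ} (ha : ‖a‖ ≤ 306 / 10000) (hv : ‖a + u‖ ≤ 3 / 10) :
    |dt y a * (rh (a + u) - rh a) / (rh (a + u) * rh a)| ≤ 51 / 10000 * (‖y‖ * ‖u‖) ∧
    957 / 1000 ≤ 1 / rh (a + u) ∧ 1 / rh (a + u) ≤ 1 ∧
    |ka y (a + u) - ka y a| ≤ 10051 / 10000 * (‖y‖ * ‖u‖) := by
  have hr1 := rh_ge_one (a + u)
  have hs1 := rh_ge_one a
  have hr2 : rh (a + u) ≤ 10441 / 10000 := rh_le hv (by norm_num) (by norm_num)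
  have hdr := dr_abs ha hv
  have hyu : |dt y u| ≤ ‖y‖ * ‖u‖ := vabs_dt_le y u
  have hε : |dt y a * (rh (a + u) - rh a) / (rh (a + u) * rh a)| ≤ 51 / 10000 * (‖y‖ * ‖u‖) := by
    have h1 : 1 ≤ rh (a + u) * rh a := by nlinarith
    rw [abs_div, abs_of_pos (by linarith : 0 < rh (a + u) * rh a), div_le_iff₀ (by linarith),
      abs_mul]
    have h2 : |dt y a| ≤ ‖y‖ * (306 / 10000) :=
      (vabs_dt_le y a).trans (mul_le_mul_of_nonneg_left ha (norm_nonneg _))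
    have h3 : |dt y a| * |rh (a + u) - rh a| ≤ (‖y‖ * (306 / 10000)) * (1653 / 10000 * ‖u‖) :=
      mul_le_mul h2 hdr (abs_nonneg _) (by positivity)
    have h4 : 0 ≤ ‖y‖ * ‖u‖ := by positivity
    nlinarith
  have hsi1 : 957 / 1000 ≤ 1 / rh (a + u) := by
    rw [le_div_iff₀ (by linarith)]; linarith
  have hsi2 : 1 / rh (a + u) ≤ 1 := by
    rw [div_le_iff₀ (by linarith)]; linarith
  refine ⟨hε, hsi1, hsi2, ?_⟩
  rw [dk_eq]
  refine (abs_sub _ _).trans ?_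
  have : |1 / rh (a + u) * dt y u| ≤ 1 * (‖y‖ * ‖u‖) := by
    rw [abs_mul, abs_of_nonneg (by linarith : (0 : ℝ) ≤ 1 / rh (a + u))]
    exact mul_le_mul hsi2 hyu (abs_nonneg _) (by norm_num)
  linarith

private lemma pr_real {pr T d κ U : ℝ} (hT1 : 486 / 1000 * U ^ 2 ≤ T) (hT2 : T ≤ 1 / 2 * U ^ 2)
    (hd : |d| ≤ κ * U ^ 2) :
    (493 / 1000 * pr - |pr| * (7 / 1000 + κ)) * U ^ 2 ≤ pr * (T - d) := by
  have b1 := abs_le.1 hd
  have a1 : |T - d - 493 / 1000 * U ^ 2| ≤ (7 / 1000 + κ) * U ^ 2 := by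
    rw [abs_le]; constructor <;> linarith
  have a2 : |pr * (T - d - 493 / 1000 * U ^ 2)| ≤ |pr| * ((7 / 1000 + κ) * U ^ 2) := by
    rw [abs_mul]; exact mul_le_mul_of_nonneg_left a1 (abs_nonneg _)
  have a3 := neg_abs_le (pr * (T - d - 493 / 1000 * U ^ 2))
  have e1 : pr * (T - d) = pr * (T - d - 493 / 1000 * U ^ 2) + 493 / 1000 * pr * U ^ 2 := by ring
  have e2 : (493 / 1000 * pr - |pr| * (7 / 1000 + κ)) * U ^ 2 =
      493 / 1000 * pr * U ^ 2 - |pr| * ((7 / 1000 + κ) * U ^ 2) := by ring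
  rw [e1, e2]; linarith

private lemma last_aux {y Z u : ℂ} {dr k dk p Φ : ℝ} (hdr : |dr| ≤ 1653 / 10000 * ‖u‖)
    (hk : |k| ≤ 2874 / 10000 * ‖y‖) (hdk : |dk| ≤ 10051 / 10000 * (‖y‖ * ‖u‖)) (hp : 0 ≤ p)
    (hpΦ : p ≤ Φ) :
    p ^ 2 / 12 * normSq ((dr : ℂ) * y - (k : ℂ) * u - (dk : ℂ) * Z) ≤
      Φ ^ 2 / 12 * ‖y‖ ^ 2 * (4527 / 10000 + 10051 / 10000 * ‖Z‖) ^ 2 * ‖u‖ ^ 2 := by
  have hN1 : ‖(dr : ℂ) * y - (k : ℂ) * u - (dk : ℂ) * Z‖ ≤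
      ‖y‖ * ‖u‖ * (4527 / 10000 + 10051 / 10000 * ‖Z‖) := by
    calc ‖(dr : ℂ) * y - (k : ℂ) * u - (dk : ℂ) * Z‖ ≤ ‖(dr : ℂ) * y‖ + ‖(k : ℂ) * u‖
          + ‖(dk : ℂ) * Z‖ :=
          (norm_sub_le _ _).trans (add_le_add (norm_sub_le _ _) le_rfl)
      _ = |dr| * ‖y‖ + |k| * ‖u‖ + |dk| * ‖Z‖ := by
          rw [norm_mul, norm_mul, norm_mul, Complex.norm_real, Complex.norm_real,
            Complex.norm_real, Real.norm_eq_abs, Real.norm_eq_abs, Real.norm_eq_abs]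
      _ ≤ (1653 / 10000 * ‖u‖) * ‖y‖ + (2874 / 10000 * ‖y‖) * ‖u‖
          + (10051 / 10000 * (‖y‖ * ‖u‖)) * ‖Z‖ := by gcongr
      _ = _ := by ring
  calc p ^ 2 / 12 * normSq ((dr : ℂ) * y - (k : ℂ) * u - (dk : ℂ) * Z)
      ≤ Φ ^ 2 / 12 * (‖y‖ * ‖u‖ * (4527 / 10000 + 10051 / 10000 * ‖Z‖)) ^ 2 := by
        rw [normSq_eq_norm_sq]
        gcongr
    _ = _ := by ring

theorem QQ_ge {a bs be bV y u : ℂ} {AV M lam : ℝ} (hy : ‖y‖ ≤ 8887 / 10000)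
    (ha : ‖a‖ ≤ 306 / 10000) (hv : ‖a + u‖ ≤ 3 / 10) (hc : 0 ≤ cc a bs AV be y)
    (hlam : 0 < lam)
    (hM : normSq ((lam : ℂ) * y - (((1 / fs y a : ℝ) : ℂ) * (bV - pp a bs be y)
      + ((957 / 1000 * cc a bs AV be y : ℝ) : ℂ) * y)) ≤ 4 * lam * M) :
    (6 - Tht M ‖bV - pp a bs be y‖ (cc a bs AV be y) ‖y‖ (1 / fs y a * dt (pp a bs be y) y)
      ‖Zv y a‖ (1 / fs y a)) * normSq u ≤ QQ a bs AV be bV y u := by
  have hh0 : 0 ≤ ‖y‖ := norm_nonneg y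
  have hU0 : 0 ≤ ‖u‖ := norm_nonneg u
  have hka := ka_abs (y := y) hv
  have hkas : |ka y a| ≤ 2874 / 10000 * ‖y‖ := ka_abs (ha.trans (by norm_num))
  have hD0 : 0 < 1 - 2874 / 10000 * ‖y‖ := by linarith
  have hf : 1 - 2874 / 10000 * ‖y‖ ≤ fs y (a + u) := by
    rw [fs_eq]; linarith [neg_abs_le (ka y (a + u))]
  have hfs : 1 - 2874 / 10000 * ‖y‖ ≤ fs y a := by
    rw [fs_eq]; linarith [neg_abs_le (ka y a)]
  have hΦ0 : 0 < 1 / (1 - 2874 / 10000 * ‖y‖) := by positivity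
  have hp0 : 0 < 1 / fs y (a + u) := one_div_pos.2 (by linarith)
  have hps0 : 0 < 1 / fs y a := one_div_pos.2 (by linarith)
  have hpΦ : 1 / fs y (a + u) ≤ 1 / (1 - 2874 / 10000 * ‖y‖) := one_div_le_one_div_of_le hD0 hf
  obtain ⟨hε, hsi1, hsi2, hdka⟩ := dk_aux (y := y) ha hv
  obtain ⟨hM0, hMM⟩ := hMM_aux (u := u) hlam hM
  have e1 : dt (((1 / fs y a : ℝ) : ℂ) * (bV - pp a bs be y)
      + ((957 / 1000 * cc a bs AV be y : ℝ) : ℂ) * y) u =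
      1 / fs y a * dt (bV - pp a bs be y) u + 957 / 1000 * cc a bs AV be y * dt y u := by
    simp only [dt, Complex.add_re, Complex.add_im, Complex.mul_re, Complex.mul_im,
        Complex.ofReal_re, Complex.ofReal_im]; ring
  rw [e1] at hMM
  have t1 := main_real hh0 hU0 hsi1 hsi2 hc hp0.le hpΦ hps0.le
    (vabs_dt_le (bV - pp a bs be y) u) (norm_nonneg _) (vabs_dt_le y u) (dk_eq y a u) hε hM0 hMM
  have t2 : cc a bs AV be y * Tk y a u ≤ 181 / 1000 * cc a bs AV be y * ‖y‖ * ‖u‖ ^ 2 := by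
    calc cc a bs AV be y * Tk y a u ≤ cc a bs AV be y * (181 / 1000 * ‖y‖ * ‖u‖ ^ 2) :=
          mul_le_mul_of_nonneg_left (Tk_le ha hv) hc
      _ = _ := by ring
  have hdr := dr_abs ha hv
  have hpd : |1 / fs y (a + u) * (ka y (a + u) - ka y a) * (rh (a + u) - rh a)| ≤
      1662 / 10000 * (1 / (1 - 2874 / 10000 * ‖y‖)) * ‖y‖ * ‖u‖ ^ 2 := by
    rw [abs_mul, abs_mul, abs_of_pos hp0]
    calc 1 / fs y (a + u) * |ka y (a + u) - ka y a| * |rh (a + u) - rh a|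
        ≤ 1 / (1 - 2874 / 10000 * ‖y‖) * (10051 / 10000 * (‖y‖ * ‖u‖))
          * (1653 / 10000 * ‖u‖) := by gcongr
      _ = (10051 / 10000 * 1653 / 10000) *
          (1 / (1 - 2874 / 10000 * ‖y‖) * ‖y‖ * ‖u‖ ^ 2) := by ring
      _ ≤ (1662 / 10000) * (1 / (1 - 2874 / 10000 * ‖y‖) * ‖y‖ * ‖u‖ ^ 2) :=
          mul_le_mul_of_nonneg_right (by norm_num) (by positivity)
      _ = _ := by ring
  obtain ⟨hT1, hT2⟩ := Tr_bounds ha hv
  have t3 := pr_real (pr := 1 / fs y a * dt (pp a bs be y) y) hT1 hT2 hpd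
  have t4 := last_aux (Z := Zv y a) hdr hka hdka hp0.le hpΦ
  have hnu : normSq u = ‖u‖ ^ 2 := normSq_eq_norm_sq u
  unfold QQ Tht
  rw [hnu]
  linarith

/-- **the `v`-Hessian inequality** -/
theorem EE_ge {a bs c8 : ℂ} {od Am AV : ℝ} {be bm bV y v : ℂ} {M lam R : ℝ} (hod : od ≠ 0)
    (hy : ‖y‖ ≤ 8887 / 10000) (ha : ‖a‖ ≤ 306 / 10000) (hv : ‖v‖ ≤ 3 / 10)
    (hc : 0 ≤ cc a bs AV be y) (hlam : 0 < lam)
    (hM : normSq ((lam : ℂ) * y - (((1 / fs y a : ℝ) : ℂ) * (bV - pp a bs be y)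
      + ((957 / 1000 * cc a bs AV be y : ℝ) : ℂ) * y)) ≤ 4 * lam * M)
    (hR : R ≤ 6 - Tht M ‖bV - pp a bs be y‖ (cc a bs AV be y) ‖y‖
      (1 / fs y a * dt (pp a bs be y) y) ‖Zv y a‖ (1 / fs y a)) :
    EE0 a bs od Am AV be y + dt (gg a bs c8 od AV be bm bV y) (v - a) + R * normSq (v - a) ≤
      EE a bs c8 od Am AV be bm bV y v := by
  have hva : a + (v - a) = v := by ring
  have hv' : ‖a + (v - a)‖ ≤ 3 / 10 := by rw [hva]; exact hv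
  have hka := ka_abs (y := y) hv
  have hkas : |ka y a| ≤ 2874 / 10000 * ‖y‖ := ka_abs (ha.trans (by norm_num))
  have hf : fs y (a + (v - a)) ≠ 0 := by
    rw [hva, fs_eq]; have := neg_abs_le (ka y v); intro h0; linarith
  have hfs : fs y a ≠ 0 := by
    rw [fs_eq]; have := neg_abs_le (ka y a); intro h0; linarith
  have h1 := EE_expand (bs := bs) (c8 := c8) (Am := Am) (AV := AV) (be := be) (bm := bm)
    (bV := bV) hod hf hfs
  rw [hva] at h1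
  have h2 := QQ_ge (AV := AV) hy ha hv' hc hlam hM
  have h3 : R * normSq (v - a) ≤ QQ a bs AV be bV y (v - a) :=
    (mul_le_mul_of_nonneg_right hR (normSq_nonneg _)).trans h2
  rw [h1]; linarith

/-! ## Zone version -/

lemma ka_abs' {y a : ℂ} (ha : ‖a‖ ≤ 306 / 10000) : |ka y a| ≤ 306 / 10000 * ‖y‖ := by
  have h1 := rh_pos a
  have h2 := vabs_dt_le y a
  have h3 := rh_ge_one a
  unfold ka
  rw [abs_div, abs_of_pos h1, div_le_iff₀ h1]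
  calc |dt y a| ≤ ‖y‖ * ‖a‖ := h2
    _ ≤ ‖y‖ * (306 / 10000) := mul_le_mul_of_nonneg_left ha (norm_nonneg y)
    _ = 306 / 10000 * ‖y‖ * 1 := by ring
    _ ≤ _ := mul_le_mul_of_nonneg_left h3 (by positivity)

lemma fs_lower {y a : ℂ} (hy : ‖y‖ ≤ 8887 / 10000) (ha : ‖a‖ ≤ 306 / 10000) :
    1 - 306 / 10000 * ‖y‖ ≤ fs y a ∧ 0 < fs y a ∧ 1 / fs y a ≤ 103 / 100 := by
  have h := ka_abs' (y := y) ha
  have h2 : 1 - 306 / 10000 * ‖y‖ ≤ fs y a := by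
    rw [fs_eq]; linarith [neg_abs_le (ka y a)]
  have h3 : 0 < fs y a := by linarith
  refine ⟨h2, h3, ?_⟩
  rw [div_le_iff₀ h3]; linarith

/-- `fs Z = v* + ρ* y` -/
lemma fs_mul_Zv {y a : ℂ} (h : fs y a ≠ 0) :
    ((fs y a : ℝ) : ℂ) * Zv y a = a + ((rh a : ℝ) : ℂ) * y := by
  have h1 := bp_re y a h
  have h2 := bp_im y a h
  have h3 : fs y a = 1 + ka y a := fs_eq y a
  unfold Zv
  apply Complex.ext
  · simp only [Complex.mul_re, Complex.add_re, Complex.ofReal_re, Complex.ofReal_im, Complex.I_re,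
      Complex.I_im, h1, h2, Complex.add_im, Complex.mul_im]
    field_simp
    rw [h3]; ring
  · simp only [Complex.mul_re, Complex.add_re, Complex.ofReal_re, Complex.ofReal_im, Complex.I_re,
      Complex.I_im, h1, h2, Complex.add_im, Complex.mul_im]
    field_simp
    rw [h3]; ring

lemma Zv_norm {y a : ℂ} (hy : ‖y‖ ≤ 8887 / 10000) (ha : ‖a‖ ≤ 306 / 10000) :
    ‖Zv y a‖ ≤ 306 / 10000 + 103 / 100 * ‖y‖ := by
  obtain ⟨h1, h2, -⟩ := fs_lower hy ha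
  have h3 := fs_mul_Zv (y := y) h2.ne'
  have h4 : rh a ≤ 10005 / 10000 := rh_le ha (by norm_num) (by norm_num)
  have h5 : fs y a * ‖Zv y a‖ ≤ 306 / 10000 + 10005 / 10000 * ‖y‖ := by
    have e : ‖((fs y a : ℝ) : ℂ) * Zv y a‖ = fs y a * ‖Zv y a‖ := by
      rw [norm_mul, Complex.norm_real, Real.norm_eq_abs, abs_of_pos h2]
    rw [← e, h3]
    refine (norm_add_le _ _).trans (add_le_add ha ?_)
    rw [norm_mul, Complex.norm_real, Real.norm_eq_abs, abs_of_pos (rh_pos a)]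
    exact mul_le_mul_of_nonneg_right h4 (norm_nonneg _)
  have h6 : (1 - 306 / 10000 * ‖y‖) * ‖Zv y a‖ ≤ 306 / 10000 + 10005 / 10000 * ‖y‖ :=
    (mul_le_mul_of_nonneg_right h1 (norm_nonneg _)).trans h5
  have h7 : 306 / 10000 + 10005 / 10000 * ‖y‖ ≤
      (1 - 306 / 10000 * ‖y‖) * (306 / 10000 + 103 / 100 * ‖y‖) := by
    nlinarith [norm_nonneg y, mul_nonneg (norm_nonneg y) (sub_nonneg.2 hy)]
  have h8 : 0 < 1 - 306 / 10000 * ‖y‖ := by linarith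
  exact le_of_mul_le_mul_left (h6.trans h7) h8

/-- the loss constant of a zone -/
noncomputable def Kz (hb Φ cb Qb pb : ℝ) : ℝ :=
  Φ * (51 / 10000 * hb * (103 / 100 * Qb + 2 * cb * hb)) + 181 / 1000 * cb * hb
    + pb * (7 / 1000 + 1662 / 10000 * Φ * hb)
    + Φ ^ 2 / 12 * hb ^ 2 * (4835 / 10000 + 10353 / 10000 * hb) ^ 2

lemma Tht_le {M Q c h pr z ps hb Φ cb Qb pb : ℝ} (hM : 0 ≤ M) (hQ : 0 ≤ Q) (hQb : Q ≤ Qb)
    (hc : 0 ≤ c) (hcb : c ≤ cb) (hh : 0 ≤ h) (hhb : h ≤ hb) (hb1 : hb ≤ 8887 / 10000)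
    (hpb : |pr| ≤ pb) (hz0 : 0 ≤ z) (hz : z ≤ 306 / 10000 + 103 / 100 * h) (hps0 : 0 ≤ ps)
    (hps : ps ≤ 103 / 100) (hΦ : 1 ≤ Φ * (1 - 2874 / 10000 * hb)) :
    Tht M Q c h pr z ps ≤ Φ * M - 493 / 1000 * pr + Kz hb Φ cb Qb pb := by
  have hd : 0 < 1 - 2874 / 10000 * hb := by linarith
  have hd' : 0 < 1 - 2874 / 10000 * h := by linarith
  have hΦ1 : 1 / (1 - 2874 / 10000 * hb) ≤ Φ := by rw [div_le_iff₀ hd]; exact hΦ
  have hΦ2 : 1 / (1 - 2874 / 10000 * h) ≤ Φ :=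
    (one_div_le_one_div_of_le hd (by linarith)).trans hΦ1
  have hp0 : 0 < 1 / (1 - 2874 / 10000 * h) := by positivity
  set φ := 1 / (1 - 2874 / 10000 * h) with hφ
  have hb0 : 0 ≤ hb := hh.trans hhb
  have hcb0 : 0 ≤ cb := hc.trans hcb
  have hQb0 : 0 ≤ Qb := hQ.trans hQb
  have hpb0 : 0 ≤ pb := (abs_nonneg _).trans hpb
  have hΦ0 : 0 ≤ Φ := hp0.le.trans hΦ2
  have t1 : φ * (M + 51 / 10000 * h * (ps * Q + 2 * c * h)) ≤
      Φ * (M + 51 / 10000 * hb * (103 / 100 * Qb + 2 * cb * hb)) := by gcongr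
  have t2 : 181 / 1000 * c * h ≤ 181 / 1000 * cb * hb := by gcongr
  have t3 : |pr| * (7 / 1000 + 1662 / 10000 * φ * h) ≤
      pb * (7 / 1000 + 1662 / 10000 * Φ * hb) := by gcongr
  have t4 : φ ^ 2 / 12 * h ^ 2 * (4527 / 10000 + 10051 / 10000 * z) ^ 2 ≤
      Φ ^ 2 / 12 * hb ^ 2 * (4835 / 10000 + 10353 / 10000 * hb) ^ 2 := by
    have e1 : 4527 / 10000 + 10051 / 10000 * z ≤ 4835 / 10000 + 10353 / 10000 * hb := by linarith
    have e2 : 0 ≤ 4527 / 10000 + 10051 / 10000 * z := by linarith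
    gcongr
  unfold Tht Kz
  rw [← hφ]
  linarith

/-- the `v`-Hessian inequality with constants for a zone; `f = fs y a`, `fp = f p₀` -/
theorem EE_ge_zone {a bs c8 : ℂ} {od Am AV : ℝ} {be bm bV y v : ℂ}
    {lam R hb Φ cb Qb pb : ℝ} (hod : od ≠ 0)
    (hy : ‖y‖ ≤ hb) (hb1 : hb ≤ 8887 / 10000) (ha : ‖a‖ ≤ 306 / 10000) (hv : ‖v‖ ≤ 3 / 10)
    (hΦ : 1 ≤ Φ * (1 - 2874 / 10000 * hb)) (hlam : 0 < lam)
    (hc : 0 ≤ cc a bs AV be y) (hcb : cc a bs AV be y ≤ cb)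
    (hQb : ‖bV - pp a bs be y‖ ≤ Qb) (hpb : |1 / fs y a * dt (pp a bs be y) y| ≤ pb)
    (hR : Φ * normSq ((lam : ℂ) * y - (((1 / fs y a : ℝ) : ℂ) * (bV - pp a bs be y)
      + ((957 / 1000 * cc a bs AV be y : ℝ) : ℂ) * y)) ≤
      4 * lam * (6 - R - Kz hb Φ cb Qb pb + 493 / 1000 * (1 / fs y a * dt (pp a bs be y) y))) :
    EE0 a bs od Am AV be y + dt (gg a bs c8 od AV be bm bV y) (v - a) + R * normSq (v - a) ≤
      EE a bs c8 od Am AV be bm bV y v := by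
  have hy1 : ‖y‖ ≤ 8887 / 10000 := hy.trans hb1
  obtain ⟨-, h2, h3⟩ := fs_lower hy1 ha
  set N := normSq ((lam : ℂ) * y - (((1 / fs y a : ℝ) : ℂ) * (bV - pp a bs be y)
      + ((957 / 1000 * cc a bs AV be y : ℝ) : ℂ) * y)) with hN
  have hN0 : 0 ≤ N := normSq_nonneg _
  refine EE_ge (M := N / (4 * lam)) (lam := lam) hod hy1 ha hv hc hlam ?_ ?_
  · rw [← hN]; apply le_of_eq; field_simp
  · have h4 := Tht_le (M := N / (4 * lam)) (by positivity) (norm_nonneg (bV - pp a bs be y)) hQb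
      hc hcb (norm_nonneg y) hy hb1 hpb (norm_nonneg (Zv y a)) (Zv_norm hy1 ha)
      (one_div_pos.2 h2).le h3 hΦ
    have h5 : Φ * (N / (4 * lam)) ≤
        6 - R - Kz hb Φ cb Qb pb + 493 / 1000 * (1 / fs y a * dt (pp a bs be y) y) := by
      rw [← mul_div_assoc, div_le_iff₀ (by linarith)]
      linarith
    linarith

/-- minimum over `u` -/
lemma quad_min {E0 R N : ℝ} {g u : ℂ} (hR : 0 < R) (h : normSq g ≤ 4 * R * (E0 - N)) :
    N ≤ E0 + dt g u + R * normSq u := by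
  have h1 := vabs_dt_le g u
  have h2 := neg_abs_le (dt g u)
  rw [normSq_eq_norm_sq] at h ⊢
  have h3 : 0 ≤ 4 * R * (E0 - ‖g‖ * ‖u‖ + R * ‖u‖ ^ 2 - N) := by
    nlinarith [sq_nonneg (‖g‖ - 2 * R * ‖u‖)]
  have h4 := nonneg_of_mul_nonneg_right h3 (by linarith : 0 < 4 * R)
  linarith

/-- polynomial forms: `f p₀` and `f³ c₀` -/
lemma fs_mul_pp {a bs be y : ℂ} (h : fs y a ≠ 0) :
    ((fs y a : ℝ) : ℂ) * pp a bs be y = ((fs y a : ℝ) : ℂ) * (a / 2 - I * be)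
      - (((rh a : ℝ) : ℂ) * y - ((ka y a : ℝ) : ℂ) * a - ((fs y a : ℝ) : ℂ) * (I * bs)) / 6 := by
  have h1 := bp_eq y a h
  have h2 : ((fs y a : ℝ) : ℂ) ≠ 0 := by exact_mod_cast h
  unfold pp
  rw [h1]
  push_cast
  field_simp
  ring_nf
  rw [Complex.I_sq]
  ring

lemma fs_pow_cc {a bs be y : ℂ} {AV : ℝ} (h : fs y a ≠ 0) :
    fs y a ^ 3 * cc a bs AV be y = fs y a * (1 / 2 - AV)
      + dt (((fs y a : ℝ) : ℂ) * pp a bs be y) (a + ((rh a : ℝ) : ℂ) * y) := by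
  rw [← fs_mul_Zv h]
  unfold cc
  have : dt (((fs y a : ℝ) : ℂ) * pp a bs be y) (((fs y a : ℝ) : ℂ) * Zv y a) =
      fs y a ^ 2 * dt (pp a bs be y) (Zv y a) := by
    simp only [dt, Complex.mul_re, Complex.mul_im, Complex.ofReal_re, Complex.ofReal_im]; ring
  rw [this]
  field_simp

end Pool.H61.Rh
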