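import Pool.Agent.H61.Rc.N10a

/-! # N11: lower bound for the first mode, general symbol

`fourier_ineq2`: as `fourier_ineq` (Rn/N4.lean, whose private lemmas may be copied) with the symbol
`x² + 9x - 36 = (x - 3)(x + 12)` at `x = 6k`: it is `≥ 0` for `k ≠ 0, -1`, `-36` at `k = 0`,
`-54` at `k = -1`.  (`|β'|² + 9 cr β β' = |β' + (9/2) i β|² - (81/4)|β|²`, so `parseval` for
`e^{is}(β' + (9/2) i β)` (coefficients `i (6k + 9/2) β_k`) and for `e^{is} β`:
`(6k + 9/2)² - 81/4 - 36 = (6k)² + 9 (6k) - 36`.)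
`RS1.mode_lower2`: as `RS1.mode_lower` of N10a (private lemmas may be copied):
`RS.auto` with `G = Lag1 k2 + κ` gives `0 ≤ ∫ (36 k2 |B|² + cr B B1 - k2 |B1|²) + κ π/3`;
`∫ cr B B1 = T - π/3` (`Clk.area`); `fourier_ineq2` for `B`:
`0 ≤ ∫ (|B1|² + 9 cr B B1 - 36 |B|²) + 54 (3/π) (π/3)² R²`.  Hence
`0 ≤ (T - π/3 + κ π/3)/k2 + 9 (T - π/3) + 18 π R²`; multiply by `1/(3π)`. -/

set_option autoImplicit false

namespace Pool.H61.Rh

open Complex MeasureTheory

private lemma N11f_bdd {f : ℝ → ℂ} (hf : Continuous f) {T : ℝ} (hT : 0 < T)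
    (per : ∀ s, f (s + T) = f s) : ∃ C, ∀ s, ‖f s‖ ≤ C := by
  obtain ⟨C, hC⟩ := (isCompact_Icc (a := (0 : ℝ)) (b := T)).exists_bound_of_continuousOn
    hf.continuousOn
  refine ⟨C, fun s => ?_⟩
  have hp : Function.Periodic f T := per
  obtain ⟨t, ht, hft⟩ := hp.exists_mem_Ico₀ hT s
  rw [hft]
  exact hC t ⟨ht.1, ht.2.le⟩

private noncomputable def N11f_E (s : ℝ) : ℂ := exp (I * ((s : ℝ) : ℂ))

private lemma N11f_E_norm (s : ℝ) : ‖N11f_E s‖ = 1 := by
  rw [N11f_E, mul_comm, Complex.norm_exp_ofReal_mul_I]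

private lemma N11f_E_cont : Continuous N11f_E := by
  unfold N11f_E
  fun_prop

private lemma N11f_E_deriv (s : ℝ) : HasDerivAt N11f_E (I * N11f_E s) s := by
  have h1 : HasDerivAt (fun t : ℝ => ((t : ℝ) : ℂ)) 1 s := by
    simpa using (hasDerivAt_id s).ofReal_comp
  have h2 := (h1.const_mul I).cexp
  refine h2.congr_deriv ?_
  unfold N11f_E
  ring

private lemma N11f_E_per (s : ℝ) : N11f_E (s + Real.pi / 3) = ze * N11f_E s := by
  unfold N11f_E
  rw [ze_eq_exp, ← Complex.exp_add]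
  congr 1
  push_cast
  ring

private lemma N11f_ck (k : ℤ) (f : ℝ → ℂ) : ck (Real.pi / 3) k f =
    (3 / Real.pi : ℝ) * ∫ s in (0 : ℝ)..(Real.pi / 3),
      exp (-(I * (((6 * k + 1) * s : ℝ) : ℂ))) * f s := by
  unfold ck
  congr 1
  · push_cast
    rw [one_div_div]
  · apply intervalIntegral.integral_congr
    intro x _
    have hp : Real.pi / (3 * (Real.pi / 3)) = 1 := by
      have := Real.pi_ne_zero
      field_simp
    simp only [hp, one_mul]

theorem fourier_ineq2 (β β1 : ℝ → ℂ) (hd : ∀ s, HasDerivAt β (β1 s) s) (hc : Continuous β1)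
    (per : ∀ s, β (s + Real.pi / 3) = β s) :
    0 ≤ (∫ s in (0 : ℝ)..(Real.pi / 3), (normSq (β1 s) + 9 * cr (β s) (β1 s)
        - 36 * normSq (β s)))
      + 36 * (3 / Real.pi) * normSq (∫ s in (0 : ℝ)..(Real.pi / 3), β s)
      + 54 * (3 / Real.pi) * normSq (∫ s in (0 : ℝ)..(Real.pi / 3),
          exp (I * ((6 * s : ℝ) : ℂ)) * β s) := by
  have hpi := Real.pi_pos
  have hT : 0 < Real.pi / 3 := by positivity
  have hβc : Continuous β := continuous_iff_continuousAt.mpr fun t => (hd t).continuousAt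
  have per1 : ∀ s, β1 (s + Real.pi / 3) = β1 s := by
    intro s
    have h1 : HasDerivAt (fun t => β (t + Real.pi / 3)) (β1 (s + Real.pi / 3)) s :=
      (hd (s + Real.pi / 3)).comp_add_const s (Real.pi / 3)
    have h2 : (fun t => β (t + Real.pi / 3)) = β := funext per
    rw [h2] at h1
    exact h1.unique (hd s)
  obtain ⟨C, hC⟩ := N11f_bdd hβc hT per
  obtain ⟨C1, hC1⟩ := N11f_bdd hc hT per1
  have hE := N11f_E_cont
  -- the two functions
  set f : ℝ → ℂ := fun s => N11f_E s * β s with hf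
  set f1 : ℝ → ℂ := fun s => I * N11f_E s * β s + N11f_E s * β1 s with hf1
  set g : ℝ → ℂ := fun s => N11f_E s * (β1 s + 9 / 2 * I * β s) with hg
  have hfc : Continuous f := hE.mul hβc
  have hf1c : Continuous f1 := ((continuous_const.mul hE).mul hβc).add (hE.mul hc)
  have hgc : Continuous g := hE.mul (hc.add (continuous_const.mul hβc))
  have hfd : ∀ s, HasDerivAt f (f1 s) s := fun s => (N11f_E_deriv s).mul (hd s)
  have hqp : ∀ s, f (s + Real.pi / 3) = ze * f s := by
    intro s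
    simp only [hf, N11f_E_per, per, mul_assoc]
  have hck1 : ∀ k : ℤ, ck (Real.pi / 3) k f1 =
      I * ((6 * k + 1 : ℝ) : ℂ) * ck (Real.pi / 3) k f := by
    intro k
    rw [ck_deriv1 hT f f1 hfd hf1c hqp k]
    have hp : Real.pi / (3 * (Real.pi / 3)) = 1 := by field_simp
    rw [hp, one_mul]
  have hckg : ∀ k : ℤ, ck (Real.pi / 3) k g =
      I * ((6 * k + 9 / 2 : ℝ) : ℂ) * ck (Real.pi / 3) k f := by
    intro k
    have e : ck (Real.pi / 3) k g =
        ck (Real.pi / 3) k f1 + 7 / 2 * I * ck (Real.pi / 3) k f := by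
      rw [N11f_ck, N11f_ck, N11f_ck]
      have h3 : ∫ s in (0 : ℝ)..(Real.pi / 3), exp (-(I * (((6 * k + 1) * s : ℝ) : ℂ))) * g s =
          (∫ s in (0 : ℝ)..(Real.pi / 3), exp (-(I * (((6 * k + 1) * s : ℝ) : ℂ))) * f1 s) +
          7 / 2 * I * ∫ s in (0 : ℝ)..(Real.pi / 3), exp (-(I * (((6 * k + 1) * s : ℝ) : ℂ))) * f s := by
        rw [← intervalIntegral.integral_const_mul, ← intervalIntegral.integral_add
          (by apply Continuous.intervalIntegrable; fun_prop)
          (by apply Continuous.intervalIntegrable; fun_prop)]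
        apply intervalIntegral.integral_congr
        intro s _
        simp only [hf, hf1, hg]
        ring
      rw [h3]
      ring
    rw [e, hck1]
    push_cast
    ring
  have hnE : ∀ s, normSq (N11f_E s) = 1 := by
    intro s
    rw [normSq_eq_norm_sq, N11f_E_norm, one_pow]
  have P1 := parseval hT f hfc.measurable C (by
    intro s
    simp only [hf, norm_mul, N11f_E_norm, one_mul]
    exact hC s)
  have P2 := parseval hT g hgc.measurable (C1 + 9 / 2 * C) (by
    intro s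
    simp only [hg, norm_mul, N11f_E_norm, one_mul]
    refine (norm_add_le _ _).trans (add_le_add (hC1 s) ?_)
    rw [norm_mul, norm_mul, Complex.norm_I, mul_one]
    have h3 : ‖(9 / 2 : ℂ)‖ = 9 / 2 := by norm_num
    rw [h3]
    exact mul_le_mul_of_nonneg_left (hC s) (by norm_num))
  have P3 := P2.sub (P1.mul_left (225 / 4))
  have hterm : ∀ k : ℤ, normSq (ck (Real.pi / 3) k g) - 225 / 4 * normSq (ck (Real.pi / 3) k f) =
      ((6 * k - 3) * (6 * k + 12) : ℝ) * normSq (ck (Real.pi / 3) k f) := by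
    intro k
    rw [hckg, normSq_mul, normSq_mul, normSq_I, normSq_ofReal]
    ring
  have hint : (∫ s in (0 : ℝ)..(Real.pi / 3), normSq (g s)) -
      225 / 4 * ∫ s in (0 : ℝ)..(Real.pi / 3), normSq (f s) =
      ∫ s in (0 : ℝ)..(Real.pi / 3), (normSq (β1 s) + 9 * cr (β s) (β1 s) -
        36 * normSq (β s)) := by
    rw [← intervalIntegral.integral_const_mul, ← intervalIntegral.integral_sub
      (by apply Continuous.intervalIntegrable; exact continuous_normSq.comp hgc)
      (by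
        apply Continuous.intervalIntegrable
        exact continuous_const.mul (continuous_normSq.comp hfc))]
    apply intervalIntegral.integral_congr
    intro s _
    simp only [hf, hg, normSq_mul, hnE, one_mul]
    have h92 : (9 / 2 : ℂ) = ((9 / 2 : ℝ) : ℂ) := by push_cast; ring
    rw [h92]
    simp only [normSq_apply, cr, add_re, add_im, mul_re, mul_im, I_re, I_im, ofReal_re, ofReal_im]
    ring
  have hsum := sum_le_hasSum (s := ({0, -1} : Finset ℤ)) (fun k hk => by
    rw [hterm]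
    refine mul_nonneg ?_ (normSq_nonneg _)
    simp only [Finset.mem_insert, Finset.mem_singleton, not_or] at hk
    rcases (by omega : 1 ≤ k ∨ k ≤ -2) with h1 | h1
    · have h2 : (1 : ℝ) ≤ (k : ℝ) := by exact_mod_cast h1
      exact mul_nonneg (by linarith) (by linarith)
    · have h2 : (k : ℝ) ≤ -2 := by exact_mod_cast h1
      exact mul_nonneg_of_nonpos_of_nonpos (by linarith) (by linarith)) P3
  rw [Finset.sum_pair (by norm_num), hterm, hterm] at hsum
  have h0 : normSq (ck (Real.pi / 3) 0 f) = (3 / Real.pi) ^ 2 *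
      normSq (∫ s in (0 : ℝ)..(Real.pi / 3), β s) := by
    rw [N11f_ck, normSq_mul, normSq_ofReal]
    congr 1
    · ring
    · congr 1
      apply intervalIntegral.integral_congr
      intro s _
      simp only [hf, N11f_E]
      rw [← mul_assoc, ← Complex.exp_add]
      have e : -(I * (((6 * ((0 : ℤ) : ℝ) + 1) * s : ℝ) : ℂ)) + I * (s : ℂ) = 0 := by
        push_cast
        ring
      rw [e, Complex.exp_zero, one_mul]
  have h1 : normSq (ck (Real.pi / 3) (-1) f) = (3 / Real.pi) ^ 2 *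
      normSq (∫ s in (0 : ℝ)..(Real.pi / 3), exp (I * ((6 * s : ℝ) : ℂ)) * β s) := by
    rw [N11f_ck, normSq_mul, normSq_ofReal]
    congr 1
    · ring
    · congr 1
      apply intervalIntegral.integral_congr
      intro s _
      simp only [hf, N11f_E]
      rw [← mul_assoc, ← Complex.exp_add]
      have e : -(I * (((6 * ((-1 : ℤ) : ℝ) + 1) * s : ℝ) : ℂ)) + I * (s : ℂ) =
          I * ((6 * s : ℝ) : ℂ) := by
        push_cast
        ring
      rw [e]
  rw [h0, h1] at hsum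
  simp only [Int.cast_zero, Int.cast_neg, Int.cast_one] at hsum
  have hfin : 1 / (Real.pi / 3) * (∫ s in (0 : ℝ)..(Real.pi / 3), normSq (g s)) -
      225 / 4 * (1 / (Real.pi / 3) * ∫ s in (0 : ℝ)..(Real.pi / 3), normSq (f s)) =
      (3 / Real.pi) * ∫ s in (0 : ℝ)..(Real.pi / 3), (normSq (β1 s) + 9 * cr (β s) (β1 s) -
        36 * normSq (β s)) := by
    rw [← hint, one_div_div]
    ring
  rw [hfin] at hsum
  set A := ∫ s in (0 : ℝ)..(Real.pi / 3), (normSq (β1 s) + 9 * cr (β s) (β1 s) -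
    36 * normSq (β s)) with hA
  set B0 := normSq (∫ s in (0 : ℝ)..(Real.pi / 3), β s) with hB0
  set B1 := normSq (∫ s in (0 : ℝ)..(Real.pi / 3), exp (I * ((6 * s : ℝ) : ℂ)) * β s) with hB1
  have h3 : 0 < 3 / Real.pi := by positivity
  have h4 : 0 ≤ (3 / Real.pi) * (A + 36 * (3 / Real.pi) * B0 + 54 * (3 / Real.pi) * B1) := by
    nlinarith [hsum]
  exact nonneg_of_mul_nonneg_right h4 h3

/-- the integrand of the autonomous lower bound, general symbol -/
noncomputable def Lag1 (k2 : ℝ) (y v : ℂ) : ℝ :=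
  36 * k2 * normSq v + cr v (bp y v) - k2 * normSq (bp y v)

/-- autonomous calibration, general symbol -/
structure Cal1 (k2 κ : ℝ) (W : ℂ × ℂ → ℝ) : Prop where
  smooth : ContDiffOn ℝ 1 W Sy
  rot : ∀ y v : ℂ, Dom y → ‖v‖ ≤ 3 / 10 → W (uu 1 * y, uu 1 * v) = W (y, v)
  ineq : ∀ y : ℂ, Dom y → ∀ v : ℂ, ‖v‖ ≤ 3 / 10 → ∀ j : Fin 3,
    fderiv ℝ W (y, v) (Vx y j, vt y v) ≤ (Lag1 k2 y v + κ) * fs y v

private lemma N11_norm_pos {a b : ℂ} (h : normSq a - normSq b = 1) : 0 < ‖a‖ := by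
  rw [norm_pos_iff]
  intro h0
  rw [h0, map_zero] at h
  have := normSq_nonneg b
  linarith

private lemma N11_abs_dt (x y : ℂ) : |dt x y| ≤ ‖x‖ * ‖y‖ := by
  rw [dt_eq_re]
  calc |((starRingEnd ℂ) x * y).re| ≤ ‖(starRingEnd ℂ) x * y‖ := abs_re_le_norm _
    _ = ‖x‖ * ‖y‖ := by rw [norm_mul, norm_conj]

private lemma N11_vt_eq {y v : ℂ} (hy : ‖y‖ < 1) :
    vt y v = -I * (Real.sqrt (1 + normSq v) : ℂ) * y - 2 * I * v -
      I * v * ((dt y v / Real.sqrt (1 + normSq v) : ℝ) : ℂ) := by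
  have hv := normSq_nonneg v
  have hr : 0 < Real.sqrt (1 + normSq v) := Real.sqrt_pos.2 (by linarith)
  have hsq : Real.sqrt (1 + normSq v) ^ 2 = 1 + normSq v := Real.sq_sqrt (by linarith)
  have hvr : ‖v‖ < Real.sqrt (1 + normSq v) := by
    refine Real.lt_sqrt_of_sq_lt ?_
    rw [normSq_eq_norm_sq]
    linarith
  have hd : 0 < Real.sqrt (1 + normSq v) + dt y v := by
    have h1 := N11_abs_dt y v
    have h2 := (abs_le.1 h1).1
    have h3 : ‖y‖ * ‖v‖ ≤ 1 * ‖v‖ := mul_le_mul_of_nonneg_right hy.le (norm_nonneg v)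
    linarith
  unfold vt bp fs
  generalize Real.sqrt (1 + normSq v) = r at hr hsq hd
  generalize hD : dt y v = D at hd
  rw [← hsq]
  have hrc : (r : ℂ) ≠ 0 := by exact_mod_cast hr.ne'
  have hdc : ((r : ℂ) + (D : ℂ)) ≠ 0 := by exact_mod_cast hd.ne'
  push_cast
  field_simp
  ring

private lemma N11_cont_dt (u : ℂ) : Continuous (dt u) := by
  have : dt u = fun y => u.re * y.re + u.im * y.im := rfl
  rw [this]
  exact (continuous_const.mul continuous_re).add (continuous_const.mul continuous_im)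

private lemma N11_cont_y {T : ℝ} {a b y : ℝ → ℂ} (h : RS T a b y) : Continuous y := by
  obtain ⟨C, hC⟩ := h.ylip
  exact hC.continuous

private lemma N11_cont_vf {T : ℝ} {a b y : ℝ → ℂ} (h : RS T a b y) :
    Continuous (fun τ => vf (a τ) (b τ)) := by
  have ca : Continuous a := continuous_iff_continuousAt.2 fun τ => (h.ha τ).continuousAt
  have cb : Continuous b := continuous_iff_continuousAt.2 fun τ => (h.hb τ).continuousAt
  unfold vf
  refine (Continuous.div ((continuous_ofReal.comp ca.norm).mul cb) ca fun τ => ?_).neg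
  exact norm_pos_iff.1 (N11_norm_pos (h.hn τ))

private lemma N11_cont_vt {T : ℝ} {a b y : ℝ → ℂ} (h : RS T a b y) :
    Continuous (fun τ => vt (y τ) (vf (a τ) (b τ))) := by
  have cy := N11_cont_y h
  have cv := N11_cont_vf h
  have e : (fun τ => vt (y τ) (vf (a τ) (b τ))) = fun τ =>
      -I * (Real.sqrt (1 + normSq (vf (a τ) (b τ))) : ℂ) * y τ - 2 * I * vf (a τ) (b τ) -
      I * vf (a τ) (b τ) * ((dt (y τ) (vf (a τ) (b τ)) /
        Real.sqrt (1 + normSq (vf (a τ) (b τ))) : ℝ) : ℂ) := by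
    funext τ
    refine N11_vt_eq ?_
    have := dom_norm (h.dom τ)
    linarith
  rw [e]
  have c1 : Continuous fun τ => Real.sqrt (1 + normSq (vf (a τ) (b τ))) :=
    (continuous_const.add (continuous_normSq.comp cv)).sqrt
  have c2 : Continuous fun τ => dt (y τ) (vf (a τ) (b τ)) := by
    unfold dt
    exact ((continuous_re.comp cy).mul (continuous_re.comp cv)).add
      ((continuous_im.comp cy).mul (continuous_im.comp cv))
  have c3 : Continuous fun τ => dt (y τ) (vf (a τ) (b τ)) /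
      Real.sqrt (1 + normSq (vf (a τ) (b τ))) := by
    refine c2.div c1 fun τ => ?_
    have := normSq_nonneg (vf (a τ) (b τ))
    exact (Real.sqrt_pos.2 (by linarith)).ne'
  exact (((continuous_const.mul (continuous_ofReal.comp c1)).mul cy).sub
    (continuous_const.mul cv)).sub ((continuous_const.mul cv).mul (continuous_ofReal.comp c3))

private lemma N11_fs_pos {T : ℝ} {a b y : ℝ → ℂ} (h : RS T a b y) (τ : ℝ) :
    0 < fs (y τ) (vf (a τ) (b τ)) := by
  rw [← fq_eq_fs _ (h.hn τ)]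
  have := (h.fq_bounds τ).1
  linarith

private lemma N11_cont_fs {T : ℝ} {a b y : ℝ → ℂ} (h : RS T a b y) :
    Continuous (fun τ => fs (y τ) (vf (a τ) (b τ))) := by
  have cy := N11_cont_y h
  have cv := N11_cont_vf h
  have c1 : Continuous fun τ => Real.sqrt (1 + normSq (vf (a τ) (b τ))) :=
    (continuous_const.add (continuous_normSq.comp cv)).sqrt
  have c2 : Continuous fun τ => dt (y τ) (vf (a τ) (b τ)) := by
    unfold dt
    exact ((continuous_re.comp cy).mul (continuous_re.comp cv)).add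
      ((continuous_im.comp cy).mul (continuous_im.comp cv))
  unfold fs
  refine continuous_const.add (c2.div c1 fun τ => ?_)
  have := normSq_nonneg (vf (a τ) (b τ))
  exact (Real.sqrt_pos.2 (by linarith)).ne'

private lemma N11_cont_bp {T : ℝ} {a b y : ℝ → ℂ} (h : RS T a b y) :
    Continuous (fun τ => bp (y τ) (vf (a τ) (b τ))) := by
  have e : (fun τ => bp (y τ) (vf (a τ) (b τ))) = fun τ =>
      vt (y τ) (vf (a τ) (b τ)) / ((fs (y τ) (vf (a τ) (b τ)) : ℝ) : ℂ) +
        2 * I * vf (a τ) (b τ) := by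
    funext τ
    have h1 : ((fs (y τ) (vf (a τ) (b τ)) : ℝ) : ℂ) ≠ 0 := by
      exact_mod_cast (N11_fs_pos h τ).ne'
    unfold vt
    rw [mul_div_cancel_left₀ _ h1]
    ring
  rw [e]
  refine ((N11_cont_vt h).div (continuous_ofReal.comp (N11_cont_fs h)) fun τ => ?_).add
    (continuous_const.mul (N11_cont_vf h))
  show ((fs (y τ) (vf (a τ) (b τ)) : ℝ) : ℂ) ≠ 0
  exact_mod_cast (N11_fs_pos h τ).ne'

private lemma N11_cr_cont {f g : ℝ → ℂ} (hf : Continuous f) (hg : Continuous g) :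
    Continuous fun s => cr (f s) (g s) := by
  unfold cr
  fun_prop

private lemma N11_cont_Lag {T : ℝ} (k2 : ℝ) {a b y : ℝ → ℂ} (h : RS T a b y) :
    Continuous (fun τ => Lag1 k2 (y τ) (vf (a τ) (b τ))) := by
  have cv := N11_cont_vf h
  have cb := N11_cont_bp h
  unfold Lag1
  exact ((continuous_const.mul (continuous_normSq.comp cv)).add (N11_cr_cont cv cb)).sub
    (continuous_const.mul (continuous_normSq.comp cb))

private lemma N11_es {a b : ℂ} (h : normSq a - normSq b = 1) : normSq (es a ^ 2) = 1 := by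
  have h0 := N11_norm_pos h
  have h1 : ‖es a‖ = 1 := by
    unfold es
    rw [norm_div, norm_mul, norm_I, one_mul, norm_real, norm_norm, div_self h0.ne']
  rw [normSq_eq_norm_sq, norm_pow, h1]
  norm_num

private lemma N11_cr_mul (c z w : ℂ) : cr (c * z) (c * w) = normSq c * cr z w := by
  simp only [cr, mul_re, mul_im, normSq_apply]
  ring

/-- the integrand in terms of `B` -/
private lemma N11_Lag_eq {T : ℝ} (k2 : ℝ) {a b y : ℝ → ℂ} (h : RS T a b y) (τ : ℝ) :
    Lag1 k2 (y τ) (vf (a τ) (b τ)) = 36 * k2 * normSq (Bf (a τ) (b τ)) +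
      cr (Bf (a τ) (b τ)) (Bd (a τ) (b τ) (y τ) / (fq (a τ) (b τ) (y τ) : ℂ)) -
      k2 * normSq (Bd (a τ) (b τ) (y τ) / (fq (a τ) (b τ) (y τ) : ℂ)) := by
  have hy1 : ‖y τ‖ < 1 := by
    have := dom_norm (h.dom τ)
    linarith
  have hfs : ((fs (y τ) (vf (a τ) (b τ)) : ℝ) : ℂ) ≠ 0 := by
    exact_mod_cast (N11_fs_pos h τ).ne'
  rw [Bd_eq (y τ) (h.hn τ) hy1, Bf_eq (h.hn τ), fq_eq_fs (y τ) (h.hn τ),
    mul_div_cancel_left₀ _ hfs, N11_cr_mul, normSq_mul, normSq_mul, N11_es (h.hn τ)]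
  unfold Lag1
  ring

private lemma N11_cont_fq {T : ℝ} {a b y : ℝ → ℂ} (h : RS T a b y) :
    Continuous (fun τ => fq (a τ) (b τ) (y τ)) := by
  have e : (fun τ => fq (a τ) (b τ) (y τ)) = fun τ => fs (y τ) (vf (a τ) (b τ)) := by
    funext τ
    exact fq_eq_fs _ (h.hn τ)
  rw [e]
  exact N11_cont_fs h

/-- complex version of `Clk.integral` -/
private lemma N11_cint {T : ℝ} {a b y : ℝ → ℂ} {φ σ : ℝ → ℝ} (h : RS T a b y)
    (c : Clk T a b y φ σ) (f : ℝ → ℂ) (hf : Continuous f)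
    (hp : ∀ s, f (s + Real.pi / 3) = f s) :
    ∫ τ in (0 : ℝ)..T, (fq (a τ) (b τ) (y τ) : ℂ) * f (φ τ) =
      ∫ s in (0 : ℝ)..(Real.pi / 3), f s := by
  have hφ : Continuous φ := continuous_iff_continuousAt.2 fun τ => (c.dphi τ).continuousAt
  have hc : Continuous fun τ => (fq (a τ) (b τ) (y τ) : ℂ) * f (φ τ) :=
    (continuous_ofReal.comp (N11_cont_fq h)).mul (hf.comp hφ)
  have hre := c.integral h (fun s => (f s).re) (continuous_re.comp hf)
    (fun s => by rw [hp s])
  have him := c.integral h (fun s => (f s).im) (continuous_im.comp hf)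
    (fun s => by rw [hp s])
  have r1 := reCLM.intervalIntegral_comp_comm (hc.intervalIntegrable (μ := volume) 0 T)
  have r2 := reCLM.intervalIntegral_comp_comm (hf.intervalIntegrable (μ := volume) 0 (Real.pi / 3))
  have i1 := imCLM.intervalIntegral_comp_comm (hc.intervalIntegrable (μ := volume) 0 T)
  have i2 := imCLM.intervalIntegral_comp_comm (hf.intervalIntegrable (μ := volume) 0 (Real.pi / 3))
  apply Complex.ext
  · refine (r1.symm.trans ?_).trans r2
    refine Eq.trans ?_ hre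
    refine intervalIntegral.integral_congr fun τ _ => ?_
    show ((fq (a τ) (b τ) (y τ) : ℂ) * f (φ τ)).re = (f (φ τ)).re * fq (a τ) (b τ) (y τ)
    rw [re_ofReal_mul]
    ring
  · refine (i1.symm.trans ?_).trans i2
    refine Eq.trans ?_ him
    refine intervalIntegral.integral_congr fun τ _ => ?_
    show ((fq (a τ) (b τ) (y τ) : ℂ) * f (φ τ)).im = (f (φ τ)).im * fq (a τ) (b τ) (y τ)
    rw [im_ofReal_mul]
    ring

theorem RS1.mode_lower2 {T R k2 κ : ℝ} {a b y : ℝ → ℂ} {φ σ : ℝ → ℝ} {W : ℂ × ℂ → ℝ}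
    (h : RS1 T R a b y) (c : Clk T a b y φ σ) (hk : 0 < k2) (w : Cal1 k2 κ W) :
    -(3 * T / Real.pi - 1) - (3 * T / Real.pi - 1 + κ) / (9 * k2) ≤ 6 * R ^ 2 := by
  have hpi := Real.pi_pos
  have hr := h.rs
  have hBc : Continuous fun s => Bf (a (σ s)) (b (σ s)) :=
    continuous_iff_continuousAt.2 fun s => (c.B_deriv hr s).continuousAt
  have hB1c := c.B_cont hr
  have hper : ∀ s, Bd (a (σ (s + Real.pi / 3))) (b (σ (s + Real.pi / 3)))
      (y (σ (s + Real.pi / 3))) / (fq (a (σ (s + Real.pi / 3))) (b (σ (s + Real.pi / 3)))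
      (y (σ (s + Real.pi / 3))) : ℂ) =
      Bd (a (σ s)) (b (σ s)) (y (σ s)) / (fq (a (σ s)) (b (σ s)) (y (σ s)) : ℂ) := by
    intro s
    have h1 : HasDerivAt (fun s => Bf (a (σ (s + Real.pi / 3))) (b (σ (s + Real.pi / 3)))) _ s :=
      (c.B_deriv hr (s + Real.pi / 3)).comp_add_const s (Real.pi / 3)
    have h2 : (fun s => Bf (a (σ (s + Real.pi / 3))) (b (σ (s + Real.pi / 3)))) =
        fun s => Bf (a (σ s)) (b (σ s)) := funext fun s => c.B_per hr s
    rw [h2] at h1
    exact h1.unique (c.B_deriv hr s)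
  set β : ℝ → ℂ := fun s => Bf (a (σ s)) (b (σ s)) with hβ
  set β1 : ℝ → ℂ := fun s => Bd (a (σ s)) (b (σ s)) (y (σ s)) /
    (fq (a (σ s)) (b (σ s)) (y (σ s)) : ℂ) with hβ1
  have hβp : ∀ s, β (s + Real.pi / 3) = β s := fun s => c.B_per hr s
  have hβ1p : ∀ s, β1 (s + Real.pi / 3) = β1 s := hper
  have hcrc : Continuous fun s => cr (β s) (β1 s) := N11_cr_cont hBc hB1c
  have hn0c : Continuous fun s => normSq (β s) := continuous_normSq.comp hBc
  have hn1c : Continuous fun s => normSq (β1 s) := continuous_normSq.comp hB1c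
  have hβφ : ∀ τ, β (φ τ) = Bf (a τ) (b τ) := fun τ => by
    rw [hβ]
    simp only
    rw [c.sp τ]
  have hβ1φ : ∀ τ, β1 (φ τ) = Bd (a τ) (b τ) (y τ) / (fq (a τ) (b τ) (y τ) : ℂ) := fun τ => by
    rw [hβ1]
    simp only
    rw [c.sp τ]
  -- the calibration
  have hauto := hr.auto h.ble w.smooth w.rot w.ineq
    (((N11_cont_Lag k2 hr).add continuous_const).mul (N11_cont_fs hr))
  have hint := c.integral hr (fun s => 36 * k2 * normSq (β s) + cr (β s) (β1 s) -
    k2 * normSq (β1 s) + κ)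
    ((((continuous_const.mul hn0c).add hcrc).sub
      (continuous_const.mul hn1c)).add continuous_const)
    (fun s => by rw [hβp s, hβ1p s])
  have hcongr : ∫ τ in (0 : ℝ)..T, (Lag1 k2 (y τ) (vf (a τ) (b τ)) + κ) *
      fs (y τ) (vf (a τ) (b τ)) = ∫ s in (0 : ℝ)..(Real.pi / 3), (36 * k2 * normSq (β s) +
        cr (β s) (β1 s) - k2 * normSq (β1 s) + κ) := by
    rw [← hint]
    refine intervalIntegral.integral_congr fun τ _ => ?_
    show (Lag1 k2 (y τ) (vf (a τ) (b τ)) + κ) * fs (y τ) (vf (a τ) (b τ)) =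
      (36 * k2 * normSq (β (φ τ)) + cr (β (φ τ)) (β1 (φ τ)) -
        k2 * normSq (β1 (φ τ)) + κ) * fq (a τ) (b τ) (y τ)
    rw [N11_Lag_eq k2 hr τ, hβφ, hβ1φ, fq_eq_fs (y τ) (hr.hn τ)]
  rw [hcongr] at hauto
  -- the Fourier inequality
  have hfour := fourier_ineq2 β β1 (c.B_deriv hr) hB1c hβp
  have hz : ∫ s in (0 : ℝ)..(Real.pi / 3), β s = 0 := by
    rw [← N11_cint hr c β hBc hβp, ← h.zero]
    refine intervalIntegral.integral_congr fun τ _ => ?_
    show (fq (a τ) (b τ) (y τ) : ℂ) * β (φ τ) = _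
    rw [hβφ]
  have ho : ∫ s in (0 : ℝ)..(Real.pi / 3), exp (I * ((6 * s : ℝ) : ℂ)) * β s =
      (((Real.pi / 3 * R : ℝ)) : ℂ) := by
    rw [← N11_cint hr c (fun s => exp (I * ((6 * s : ℝ) : ℂ)) * β s) ?_ ?_, ← h.one]
    · refine intervalIntegral.integral_congr fun τ _ => ?_
      show (fq (a τ) (b τ) (y τ) : ℂ) * (exp (I * ((6 * φ τ : ℝ) : ℂ)) * β (φ τ)) = _
      rw [hβφ]
      have h0 : ((‖a τ‖ : ℝ) : ℂ) ≠ 0 := by
        exact_mod_cast (N11_norm_pos (hr.hn τ)).ne'
      have h1 : a τ / ((‖a τ‖ : ℝ) : ℂ) = exp (I * (φ τ : ℂ)) := by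
        rw [div_eq_iff h0, mul_comm]
        exact c.polar τ
      rw [h1, ← exp_nat_mul]
      have h2 : ((6 : ℕ) : ℂ) * (I * (φ τ : ℂ)) = I * ((6 * φ τ : ℝ) : ℂ) := by
        push_cast
        ring
      rw [h2]
      ring
    · exact (by fun_prop : Continuous fun s : ℝ => exp (I * ((6 * s : ℝ) : ℂ))).mul hBc
    · intro s
      have h1 : I * ((6 * (s + Real.pi / 3) : ℝ) : ℂ) = I * ((6 * s : ℝ) : ℂ) +
          2 * Real.pi * I := by
        push_cast
        ring
      show exp (I * ((6 * (s + Real.pi / 3) : ℝ) : ℂ)) * β (s + Real.pi / 3) = _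
      rw [h1, exp_add, exp_two_pi_mul_I, mul_one, hβp]
  rw [hz, ho, map_zero, normSq_ofReal] at hfour
  -- integrals
  have harea := c.area hr
  obtain ⟨A0, hA0⟩ : ∃ A, A = ∫ s in (0 : ℝ)..(Real.pi / 3), normSq (β s) := ⟨_, rfl⟩
  obtain ⟨A1, hA1⟩ : ∃ A, A = ∫ s in (0 : ℝ)..(Real.pi / 3), normSq (β1 s) := ⟨_, rfl⟩
  obtain ⟨Ac, hAc⟩ : ∃ A, A = ∫ s in (0 : ℝ)..(Real.pi / 3), cr (β s) (β1 s) := ⟨_, rfl⟩
  have i0 := hn0c.intervalIntegrable (μ := volume) 0 (Real.pi / 3)
  have i1 := hn1c.intervalIntegrable (μ := volume) 0 (Real.pi / 3)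
  have ic := hcrc.intervalIntegrable (μ := volume) 0 (Real.pi / 3)
  have e1 : ∫ s in (0 : ℝ)..(Real.pi / 3), (36 * k2 * normSq (β s) +
      cr (β s) (β1 s) - k2 * normSq (β1 s) + κ) =
      36 * k2 * A0 + Ac - k2 * A1 + κ * (Real.pi / 3) := by
    rw [intervalIntegral.integral_add (((i0.const_mul (36 * k2)).add ic).sub
        (i1.const_mul k2)) (intervalIntegrable_const),
      intervalIntegral.integral_sub ((i0.const_mul (36 * k2)).add ic)
        (i1.const_mul k2),
      intervalIntegral.integral_add (i0.const_mul (36 * k2)) ic,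
      intervalIntegral.integral_const_mul, intervalIntegral.integral_const_mul, intervalIntegral.integral_const, hA0, hA1, hAc,
      smul_eq_mul]
    ring
  have e2 : ∫ s in (0 : ℝ)..(Real.pi / 3), (normSq (β1 s) + 9 * cr (β s) (β1 s)
        - 36 * normSq (β s)) = A1 + 9 * Ac - 36 * A0 := by
    rw [intervalIntegral.integral_sub (i1.add (ic.const_mul 9)) (i0.const_mul 36),
      intervalIntegral.integral_add i1 (ic.const_mul 9),
      intervalIntegral.integral_const_mul, intervalIntegral.integral_const_mul, hA0, hA1, hAc]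
  have e3 : T = Real.pi / 3 + Ac := by
    rw [hAc]
    exact harea
  rw [e1] at hauto
  rw [e2] at hfour
  have e4 : 54 * (3 / Real.pi) * (Real.pi / 3 * R * (Real.pi / 3 * R)) = 18 * Real.pi * R ^ 2 := by
    field_simp
    ring
  rw [e4] at hfour
  have h4 : 0 ≤ (36 * k2 * A0 + Ac - k2 * A1 + κ * (Real.pi / 3)) / k2 :=
    div_nonneg hauto hk.le
  have h5 : (36 * k2 * A0 + Ac - k2 * A1 + κ * (Real.pi / 3)) / k2 =
      36 * A0 - A1 + (Ac + κ * (Real.pi / 3)) / k2 := by
    field_simp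
    ring
  rw [h5] at h4
  have hAT : Ac = T - Real.pi / 3 := by linarith
  have key : 0 ≤ (T - Real.pi / 3 + κ * (Real.pi / 3)) / k2 + 9 * (T - Real.pi / 3) +
      18 * Real.pi * R ^ 2 := by
    rw [hAT] at h4 hfour
    linarith
  have h6 : (0 : ℝ) < 1 / (3 * Real.pi) := by positivity
  have h7 := mul_nonneg key h6.le
  have h8 : ((T - Real.pi / 3 + κ * (Real.pi / 3)) / k2 + 9 * (T - Real.pi / 3) +
      18 * Real.pi * R ^ 2) * (1 / (3 * Real.pi)) =
      (3 * T / Real.pi - 1 + κ) / (9 * k2) + (3 * T / Real.pi - 1) + 6 * R ^ 2 := by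
    field_simp
    ring
  rw [h8] at h7
  linarith

end Pool.H61.Rh
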