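import Pool.Agent.H61.Rc.R6a

/-! # N12a: a sharper upper bound of the number `R*`

`oRs ≤ 2915/100000`, as `oRs_le` of R6a with `osd ≤ 78/100` on `|m| ≤ m1` (private lemmas of R2 and
R6a copied). -/

set_option autoImplicit false

namespace Pool.H61.Rh

open Complex MeasureTheory

private lemma N12r_sB : 1305 / 10000 < sB ∧ sB < 1309 / 10000 := by
  have h1 := Real.pi_gt_d4
  have h2 := Real.pi_lt_d4
  unfold sB
  have hx0 : 0 < Real.pi / 24 := by positivity
  constructor
  · have h3 := Real.sin_gt_sub_cube hx0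
    have h4 : Real.pi / 24 < 1309 / 10000 := by linarith
    have h5 : (Real.pi / 24) ^ 3 ≤ (1309 / 10000) ^ 3 :=
      pow_le_pow_left₀ hx0.le h4.le 3
    norm_num at h5
    linarith
  · have h3 := Real.sin_lt hx0
    linarith

private lemma N12r_cB : 99143 / 100000 < cB ∧ cB < 99145 / 100000 := by
  have h1 := Real.pi_gt_d4
  have h2 := Real.pi_lt_d4
  have hx0 : 0 < Real.pi / 24 := by positivity
  have hsc : sB ^ 2 + cB ^ 2 = 1 := Real.sin_sq_add_cos_sq _
  obtain ⟨hs1, hs2⟩ := N12r_sB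
  have hc0 : 99143 / 100000 < cB := by
    unfold cB
    have h3 := Real.one_sub_sq_div_two_le_cos (x := Real.pi / 24)
    have h4 : Real.pi / 24 < 13090 / 100000 := by linarith
    have h5 : (Real.pi / 24) ^ 2 ≤ (13090 / 100000) ^ 2 :=
      pow_le_pow_left₀ hx0.le h4.le 2
    norm_num at h5
    linarith
  refine ⟨hc0, ?_⟩
  nlinarith

private lemma N12r_s3b : 173205 / 100000 < s3 ∧ s3 < 173206 / 100000 := by
  unfold s3
  constructor
  · rw [Real.lt_sqrt (by norm_num)]
    norm_num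
  · rw [Real.sqrt_lt' (by norm_num)]
    norm_num

private lemma N12r_cA : 7931 / 10000 < cA ∧ cA < 7935 / 10000 := by
  rw [cA_eq]
  obtain ⟨h1, h2⟩ := N12r_sB
  obtain ⟨h3, h4⟩ := N12r_cB
  obtain ⟨h5, h6⟩ := N12r_s3b
  constructor
  · nlinarith
  · nlinarith

private lemma N12r_sA : 6087 / 10000 < sA ∧ sA < 6091 / 10000 := by
  rw [sA_eq]
  obtain ⟨h1, h2⟩ := N12r_sB
  obtain ⟨h3, h4⟩ := N12r_cB
  obtain ⟨h5, h6⟩ := N12r_s3b
  constructor
  · nlinarith
  · nlinarith

private lemma N12r_kp : 16817 / 10000 < kp ∧ kp < 16818 / 10000 := by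
  have h1 : 14142 / 10000 < Real.sqrt 2 := by
    rw [Real.lt_sqrt (by norm_num)]
    norm_num
  have h2 : Real.sqrt 2 < 141422 / 100000 := by
    rw [Real.sqrt_lt' (by norm_num)]
    norm_num
  unfold kp
  constructor
  · rw [Real.lt_sqrt (by norm_num)]
    linarith
  · rw [Real.sqrt_lt' (by norm_num)]
    linarith

private lemma N12r_K : 16672 / 10000 < kp * cB ∧ kp * cB < 16675 / 10000 := by
  obtain ⟨h1, h2⟩ := N12r_kp
  obtain ⟨h3, h4⟩ := N12r_cB
  constructor
  · nlinarith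
  · nlinarith

private theorem N12_s2 : 1414213 / 1000000 < Real.sqrt 2 ∧ Real.sqrt 2 < 1414214 / 1000000 := by
  constructor
  · exact Real.lt_sqrt_of_sq_lt (by norm_num)
  · exact (Real.sqrt_lt' (by norm_num)).mpr (by norm_num)

private theorem N12_s3 : 173205 / 100000 < s3 ∧ s3 < 1732051 / 1000000 := by
  unfold s3
  constructor
  · exact Real.lt_sqrt_of_sq_lt (by norm_num)
  · exact (Real.sqrt_lt' (by norm_num)).mpr (by norm_num)

private theorem N12_s2sq : Real.sqrt 2 * Real.sqrt 2 = 2 := Real.mul_self_sqrt (by norm_num)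

private theorem N12_s3sq : s3 * s3 = 3 := Real.mul_self_sqrt (by norm_num)

private theorem N12_ne (m : ℝ) : oa m ≠ 0 := by
  intro h
  have h1 := oa_normSq m
  rw [h, map_zero] at h1
  linarith [normSq_nonneg (ob m)]

private theorem N12_norm_ne (m : ℝ) : ((‖oa m‖ : ℝ) : ℂ) ≠ 0 := by
  rw [Ne, ofReal_eq_zero, norm_eq_zero]
  exact N12_ne m

private theorem N12_mul (m : ℝ) : es (oa m) * ov m = -I * ob m := by
  unfold es ov vf
  have h1 := N12_norm_ne m
  have h2 := N12_ne m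
  field_simp

private theorem N12_es_norm (m : ℝ) : ‖es (oa m)‖ = 1 := by
  unfold es
  rw [norm_div, norm_mul, norm_I, one_mul, norm_real, norm_norm, div_self]
  rw [Ne, norm_eq_zero]
  exact N12_ne m

private theorem N12_ov_norm (m : ℝ) : ‖ov m‖ = ‖ob m‖ := by
  have h := congrArg (fun z : ℂ => ‖z‖) (N12_mul m)
  simp only [norm_mul, norm_neg, norm_I, one_mul, N12_es_norm] at h
  exact h

private theorem N12_re {m : ℝ} (hm : |m| ≤ 1 / 4) : (es (oa m) ^ 8 * ov m).re =
    -(oC * ((kp * sA - Real.cosh m * cB) * Real.cos (7 * os m) +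
      Real.sinh m * sB * Real.sin (7 * os m))) := by
  have h1 : es (oa m) ^ 8 * ov m = es (oa m) ^ 7 * (-I * ob m) := by
    rw [← N12_mul m]
    ring
  have h2 : es (oa m) ^ 7 = exp (((7 * os m : ℝ) : ℂ) * I) := by
    rw [es_oa hm, ← Complex.exp_nat_mul]
    congr 1
    push_cast
    ring
  rw [h1, h2, exp_mul_I, ← ofReal_cos, ← ofReal_sin]
  unfold ob
  simp only [mul_re, mul_im, add_re, add_im, neg_re, neg_im, I_re, I_im, ofReal_re, ofReal_im]
  ring

private theorem N12_oa_neg (m : ℝ) : oa (-m) = -(starRingEnd ℂ) (oa m) := by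
  unfold oa
  apply Complex.ext
  · simp [Real.sinh_neg]
  · simp

private theorem N12_ob_neg (m : ℝ) : ob (-m) = -(starRingEnd ℂ) (ob m) := by
  unfold ob
  apply Complex.ext
  · simp [Real.sinh_neg]
  · simp

private theorem N12_oy_neg (m : ℝ) : oy (-m) = (starRingEnd ℂ) (oy m) := by
  unfold oy
  apply Complex.ext
  · simp
  · simp only [Real.sinh_neg, Real.cosh_neg, conj_im]
    ring

private theorem N12_es_neg (m : ℝ) : es (oa (-m)) = (starRingEnd ℂ) (es (oa m)) := by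
  rw [N12_oa_neg]
  unfold es
  rw [norm_neg, norm_conj, map_div₀, map_mul, conj_I, conj_ofReal]
  ring

private theorem N12_osd_neg (m : ℝ) : osd (-m) = osd m := by
  unfold osd otau'
  rw [Real.cosh_neg, N12_oa_neg, N12_ob_neg, N12_oy_neg]
  congr 1
  unfold fq dt
  rw [normSq_neg, normSq_conj]
  simp only [mul_re, mul_im, neg_re, neg_im, conj_re, conj_im]
  congr 2
  ring

private theorem N12_int_neg (m : ℝ) :
    es (oa (-m)) ^ 8 * ov (-m) = (starRingEnd ℂ) (es (oa m) ^ 8 * ov m) := by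
  rw [N12_es_neg, ov_neg, map_mul, map_pow]

private theorem N12_m1_pos : 0 < m1 := by
  have := m1_bounds.1
  linarith

private theorem N12_m1_lt : m1 < 173287 / 1000000 := by
  unfold m1
  have := Real.log_two_lt_d9
  linarith

private theorem N12_os_int : ∫ m in (-m1)..m1, osd m = Real.pi / 12 := by
  have h0 := N12_m1_pos
  have h1 := m1_bounds.2
  rw [intervalIntegral.integral_eq_sub_of_hasDerivAt (f := os) (fun x hx => ?_)
    (osd_continuous.intervalIntegrable _ _), os_neg, os_m1]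
  · ring
  · rw [Set.uIcc_of_le (by linarith)] at hx
    exact os_hasDerivAt (abs_le.mpr ⟨by linarith [hx.1], by linarith [hx.2]⟩)

private theorem N12_oa_cont : Continuous oa := by
  rw [continuous_iff_continuousAt]
  exact fun m => (oa_hasDerivAt m).continuousAt

private theorem N12_ob_cont : Continuous ob := by
  rw [continuous_iff_continuousAt]
  exact fun m => (ob_hasDerivAt m).continuousAt

private theorem N12_cont : Continuous (fun m => (es (oa m) ^ 8 * ov m).re * osd m) := by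
  have h1 : Continuous (fun m => es (oa m)) := by
    unfold es
    exact (continuous_const.mul N12_oa_cont).div (continuous_ofReal.comp N12_oa_cont.norm)
      (fun m => N12_norm_ne m)
  have h2 : Continuous ov := by
    unfold ov vf
    exact (((continuous_ofReal.comp N12_oa_cont.norm).mul N12_ob_cont).div N12_oa_cont
      (fun m => N12_ne m)).neg
  exact (continuous_re.comp ((h1.pow 8).mul h2)).mul osd_continuous

/-! trigonometric constants -/

private theorem N12_sum : 2 * (sA * cB) = Real.sqrt 2 / 2 + 1 / 2 := by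
  have h1 : Real.sin (5 * Real.pi / 24 + Real.pi / 24) = Real.sqrt 2 / 2 := by
    rw [show 5 * Real.pi / 24 + Real.pi / 24 = Real.pi / 4 from by ring]
    exact Real.sin_pi_div_four
  have h2 : Real.sin (5 * Real.pi / 24 - Real.pi / 24) = 1 / 2 := by
    rw [show 5 * Real.pi / 24 - Real.pi / 24 = Real.pi / 6 from by ring]
    exact Real.sin_pi_div_six
  rw [Real.sin_add] at h1
  rw [Real.sin_sub] at h2
  unfold sA cB
  linarith

private theorem N12_sB_sq : sB ^ 2 = 1 / 2 - (Real.sqrt 2 * s3 / 4 + Real.sqrt 2 / 4) / 2 := by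
  have h1 : Real.cos (Real.pi / 12) = Real.sqrt 2 * s3 / 4 + Real.sqrt 2 / 4 := by
    rw [show Real.pi / 12 = Real.pi / 4 - Real.pi / 6 from by ring, Real.cos_sub,
      Real.cos_pi_div_four, Real.cos_pi_div_six, Real.sin_pi_div_four, Real.sin_pi_div_six]
    unfold s3
    ring
  unfold sB
  rw [Real.sin_sq_eq_half_sub, show 2 * (Real.pi / 24) = Real.pi / 12 from by ring, h1]

private theorem N12_sA_sq : sA ^ 2 = 1 / 2 - (Real.sqrt 2 * s3 / 4 - Real.sqrt 2 / 4) / 2 := by
  have h1 : Real.cos (5 * Real.pi / 12) = Real.sqrt 2 * s3 / 4 - Real.sqrt 2 / 4 := by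
    rw [show 5 * Real.pi / 12 = Real.pi / 4 + Real.pi / 6 from by ring, Real.cos_add,
      Real.cos_pi_div_four, Real.cos_pi_div_six, Real.sin_pi_div_four, Real.sin_pi_div_six]
    unfold s3
    ring
  unfold sA
  rw [Real.sin_sq_eq_half_sub, show 2 * (5 * Real.pi / 24) = 5 * Real.pi / 12 from by ring, h1]

private theorem N12_sB_cB : sB ^ 2 + cB ^ 2 = 1 := Real.sin_sq_add_cos_sq _

private theorem N12_sA_cA : sA ^ 2 + cA ^ 2 = 1 := Real.sin_sq_add_cos_sq _

private theorem N12_sA_pos : 0 < sA := by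
  unfold sA
  exact Real.sin_pos_of_pos_of_lt_pi (by positivity) (by linarith [Real.pi_pos])

private theorem N12_sB_pos : 0 < sB := by
  unfold sB
  exact Real.sin_pos_of_pos_of_lt_pi (by positivity) (by linarith [Real.pi_pos])

private theorem N12_cA_pos : 0 < cA := by
  unfold cA
  exact Real.cos_pos_of_mem_Ioo ⟨by linarith [Real.pi_pos], by linarith [Real.pi_pos]⟩

private theorem N12_cB_pos : 0 < cB := by
  unfold cB
  exact Real.cos_pos_of_mem_Ioo ⟨by linarith [Real.pi_pos], by linarith [Real.pi_pos]⟩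

private theorem N12_oC_pos : 0 < oC := by
  unfold oC
  refine Real.sqrt_pos.mpr ?_
  have := N12_s2.1
  have h6 : 0 < Real.sqrt 6 := Real.sqrt_pos.mpr (by norm_num)
  have : 0 < 3 * (2 * Real.sqrt 2 - 1) := by linarith
  positivity

private theorem N12_cosh : kp * sA * cB = Real.cosh m1 := by
  have h1 := kp_mul_cosh_m1
  have h2 := N12_sum
  have h3 := kp_sq
  have h4 := N12_s2sq
  have hk := kp_pos
  have h5 : kp * (kp * sA * cB) = kp * Real.cosh m1 := by
    rw [h1]
    have : kp * (kp * sA * cB) = kp ^ 2 * (2 * (sA * cB)) / 2 := by ring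
    rw [this, h3, h2]
    linear_combination (1 / 2) * h4
  exact mul_left_cancel₀ hk.ne' h5

private theorem N12_kps : (kp * sA) ^ 2 - 1 = Real.sqrt 2 - s3 / 2 - 1 / 2 := by
  rw [mul_pow, kp_sq, N12_sA_sq]
  linear_combination (-(s3 - 1) / 4) * N12_s2sq

private theorem N12_oC_sq_eq : oC ^ 2 * ((2 * Real.sqrt 2 - 1) * (Real.sqrt 2 * s3 / 4)) = 1 := by
  have := oC_sq
  rw [kp_sq] at this
  exact this

private theorem N12_oC_le : oC ^ 2 ≤ 8932 / 10000 := by
  have h1 := N12_oC_sq_eq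
  obtain ⟨a1, a2⟩ := N12_s2
  obtain ⟨b1, b2⟩ := N12_s3
  have h2 : (1.11958 : ℝ) ≤ (2 * Real.sqrt 2 - 1) * (Real.sqrt 2 * s3 / 4) := by
    have e1 : (1.828426 : ℝ) ≤ 2 * Real.sqrt 2 - 1 := by linarith
    have e2 : (1.414213 : ℝ) * 1.73205 / 4 ≤ Real.sqrt 2 * s3 / 4 := by
      have : (1.414213 : ℝ) * 1.73205 ≤ Real.sqrt 2 * s3 :=
        mul_le_mul (by linarith) (by linarith) (by norm_num) (by positivity)
      linarith
    refine le_trans ?_ (mul_le_mul e1 e2 (by norm_num) (by linarith))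
    norm_num
  by_contra hlt
  rw [not_le] at hlt
  have h3 : (8932 / 10000 : ℝ) * 1.11958 < oC ^ 2 * ((2 * Real.sqrt 2 - 1) * (Real.sqrt 2 * s3 / 4)) := by
    refine lt_of_lt_of_le (mul_lt_mul_of_pos_right hlt (by norm_num)) ?_
    exact mul_le_mul_of_nonneg_left h2 (sq_nonneg _)
  rw [h1] at h3
  norm_num at h3

private theorem N12_oC_ge : 9449 / 10000 ≤ oC := by
  have h1 := N12_oC_sq_eq
  obtain ⟨a1, a2⟩ := N12_s2
  obtain ⟨b1, b2⟩ := N12_s3
  have h2 : (2 * Real.sqrt 2 - 1) * (Real.sqrt 2 * s3 / 4) ≤ 1.1198 := by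
    have e1 : 2 * Real.sqrt 2 - 1 ≤ (1.828428 : ℝ) := by linarith
    have e2 : Real.sqrt 2 * s3 / 4 ≤ (1.414214 : ℝ) * 1.732051 / 4 := by
      have : Real.sqrt 2 * s3 ≤ (1.414214 : ℝ) * 1.732051 :=
        mul_le_mul (by linarith) (by linarith) (by linarith) (by norm_num)
      linarith
    refine le_trans (mul_le_mul e1 e2 (by positivity) (by norm_num)) ?_
    norm_num
  by_contra hlt
  rw [not_le] at hlt
  have hp := N12_oC_pos
  have h4 : oC ^ 2 ≤ (9449 / 10000) ^ 2 := pow_le_pow_left₀ hp.le hlt.le 2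
  have h3 : oC ^ 2 * ((2 * Real.sqrt 2 - 1) * (Real.sqrt 2 * s3 / 4)) ≤
      (9449 / 10000) ^ 2 * 1.1198 := by
    refine mul_le_mul h4 h2 ?_ (by norm_num)
    have : 0 ≤ 2 * Real.sqrt 2 - 1 := by linarith
    positivity
  rw [h1] at h3
  norm_num at h3

private theorem N12_const : oC ^ 2 * (sB ^ 2 * ((kp * sA) ^ 2 - 1)) ≤ 734 / 1000000 := by
  obtain ⟨a1, a2⟩ := N12_s2
  obtain ⟨b1, b2⟩ := N12_s3
  have h1 : sB ^ 2 ≤ 17038 / 1000000 := by
    rw [N12_sB_sq]
    have : (1.414213 : ℝ) * (1 + 1.73205) ≤ Real.sqrt 2 * (1 + s3) :=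
      mul_le_mul (by linarith) (by linarith) (by norm_num) (by positivity)
    nlinarith
  have h2 : (kp * sA) ^ 2 - 1 ≤ 48190 / 1000000 := by
    rw [N12_kps]
    linarith
  have h3 : 0 ≤ (kp * sA) ^ 2 - 1 := by
    rw [N12_kps]
    linarith
  have h4 : sB ^ 2 * ((kp * sA) ^ 2 - 1) ≤ 17038 / 1000000 * (48190 / 1000000) :=
    mul_le_mul h1 h2 h3 (by norm_num)
  refine le_trans (mul_le_mul N12_oC_le h4 (mul_nonneg (sq_nonneg _) h3) (by norm_num)) ?_
  norm_num

private theorem N12_ob_sq (m : ℝ) : normSq (ob m) =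
    oC ^ 2 * ((Real.cosh m1 - Real.cosh m) ^ 2) + oC ^ 2 * (sB ^ 2 * ((kp * sA) ^ 2 - 1)) := by
  rw [← N12_cosh]
  unfold ob
  rw [normSq_mk]
  have h1 := Real.cosh_sq m
  have h2 := N12_sB_cB
  linear_combination (oC ^ 2 * (-sB ^ 2)) * h1 +
    (oC ^ 2 * (Real.cosh m ^ 2 - kp ^ 2 * sA ^ 2)) * h2

private theorem N12_cosh_m1 : Real.cosh m1 ^ 2 ≤ 10304 / 10000 := by
  have h1 := kp_mul_cosh_m1
  have h2 := kp_sq
  have h3 := N12_s2sq
  obtain ⟨a1, a2⟩ := N12_s2
  have h4 : (2 * Real.sqrt 2) * Real.cosh m1 ^ 2 = (6 + 4 * Real.sqrt 2) / 4 := by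
    have : (kp * Real.cosh m1) ^ 2 = ((2 + Real.sqrt 2) / 2) ^ 2 := by rw [h1]
    rw [mul_pow, h2] at this
    rw [this]
    linear_combination (1 / 4) * h3
  by_contra hlt
  rw [not_le] at hlt
  nlinarith

/-- `cosh m1 - cosh m ≤ cosh m1 (m1² - m²)/2` -/
private theorem N12_cosh_diff {x : ℝ} (hx0 : 0 ≤ x) (hx : x ≤ m1) :
    Real.cosh m1 - Real.cosh x ≤ Real.cosh m1 * (m1 ^ 2 - x ^ 2) / 2 := by
  have h0 := N12_m1_pos
  -- `g t = cosh m1 t²/2 - cosh t` is monotone on `[0, m1]`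
  have hmono : MonotoneOn (fun t => Real.cosh m1 * t ^ 2 / 2 - Real.cosh t) (Set.Icc 0 m1) := by
    have hd : ∀ t, HasDerivAt (fun t => Real.cosh m1 * t ^ 2 / 2 - Real.cosh t)
        (Real.cosh m1 * t - Real.sinh t) t := by
      intro t
      have e1 := ((hasDerivAt_pow 2 t).const_mul (Real.cosh m1)).div_const 2
      have e2 := e1.sub (Real.hasDerivAt_cosh t)
      refine e2.congr_deriv ?_
      push_cast
      ring
    refine monotoneOn_of_deriv_nonneg (convex_Icc 0 m1)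
      (fun t _ => (hd t).continuousAt.continuousWithinAt)
      (fun t _ => (hd t).differentiableAt.differentiableWithinAt) (fun t ht => ?_)
    rw [interior_Icc] at ht
    rw [(hd t).deriv]
    have h1 : Real.sinh t ≤ t * Real.cosh t := by
      have hm2 : MonotoneOn (fun t => t * Real.cosh t - Real.sinh t) (Set.Ici 0) := by
        have hd2 : ∀ t, HasDerivAt (fun t => t * Real.cosh t - Real.sinh t)
            (t * Real.sinh t) t := by
          intro t
          have e1 := ((hasDerivAt_id t).mul (Real.hasDerivAt_cosh t)).sub (Real.hasDerivAt_sinh t)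
          refine e1.congr_deriv ?_
          simp
        refine monotoneOn_of_deriv_nonneg (convex_Ici 0)
          (fun t _ => (hd2 t).continuousAt.continuousWithinAt)
          (fun t _ => (hd2 t).differentiableAt.differentiableWithinAt) (fun t ht => ?_)
        rw [interior_Ici] at ht
        rw [(hd2 t).deriv]
        exact mul_nonneg ht.le (Real.sinh_nonneg_iff.mpr ht.le)
      have := hm2 (Set.mem_Ici.mpr le_rfl) (Set.mem_Ici.mpr ht.1.le) ht.1.le
      simp only [Real.sinh_zero, zero_mul, sub_zero] at this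
      linarith
    have h2 : Real.cosh t ≤ Real.cosh m1 := by
      rw [Real.cosh_le_cosh, abs_of_pos ht.1, abs_of_pos h0]
      exact ht.2.le
    nlinarith [ht.1]
  have := hmono ⟨hx0, hx⟩ ⟨h0.le, le_rfl⟩ hx
  simp only at this
  linarith

private theorem N12_ob_bound {m : ℝ} (hm : |m| ≤ m1) : normSq (ob m) ≤
    8932 / 10000 * (10304 / 10000) / 4 * (m1 ^ 2 - m ^ 2) ^ 2 + 734 / 1000000 := by
  have h0 := N12_m1_pos
  rw [N12_ob_sq]
  refine add_le_add ?_ N12_const
  have h1 : Real.cosh m1 - Real.cosh m ≤ Real.cosh m1 * (m1 ^ 2 - m ^ 2) / 2 := by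
    have := N12_cosh_diff (abs_nonneg m) hm
    rwa [Real.cosh_abs, sq_abs] at this
  have h2 : 0 ≤ Real.cosh m1 - Real.cosh m := by
    rw [sub_nonneg, Real.cosh_le_cosh, abs_of_pos h0]
    exact hm
  have h3 : (Real.cosh m1 - Real.cosh m) ^ 2 ≤ (Real.cosh m1 * (m1 ^ 2 - m ^ 2) / 2) ^ 2 :=
    pow_le_pow_left₀ h2 h1 2
  have h4 : (Real.cosh m1 * (m1 ^ 2 - m ^ 2) / 2) ^ 2 ≤
      10304 / 10000 / 4 * (m1 ^ 2 - m ^ 2) ^ 2 := by
    have : (Real.cosh m1 * (m1 ^ 2 - m ^ 2) / 2) ^ 2 =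
        Real.cosh m1 ^ 2 * ((m1 ^ 2 - m ^ 2) ^ 2 / 4) := by ring
    rw [this]
    have h5 := mul_le_mul_of_nonneg_right N12_cosh_m1
      (show 0 ≤ (m1 ^ 2 - m ^ 2) ^ 2 / 4 by positivity)
    linarith
  have h6 := mul_le_mul N12_oC_le (h3.trans h4) (sq_nonneg _) (by norm_num)
  linarith

private theorem N12_upper {m : ℝ} (hm : |m| ≤ m1) : -(es (oa m) ^ 8 * ov m).re ≤
    (8932 / 10000 * (10304 / 10000) / 4 * (m1 ^ 2 - m ^ 2) ^ 2 + 1575 / 1000000) / (58 / 1000) := by
  have h1 : -(es (oa m) ^ 8 * ov m).re ≤ ‖ob m‖ := by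
    have e1 : ‖es (oa m) ^ 8 * ov m‖ = ‖ob m‖ := by
      rw [norm_mul, norm_pow, N12_es_norm, one_pow, one_mul, N12_ov_norm]
    rw [← e1]
    exact (neg_le_abs _).trans (abs_re_le_norm _)
  have h2 := N12_ob_bound hm
  rw [normSq_eq_norm_sq] at h2
  rw [le_div_iff₀ (by norm_num)]
  nlinarith [sq_nonneg (‖ob m‖ - 29 / 1000)]

private theorem N12_J : ∫ m in (-m1)..m1, (m1 ^ 2 - m ^ 2) ^ 2 = 16 / 15 * m1 ^ 5 := by
  have hd : ∀ t : ℝ, HasDerivAt (fun t => m1 ^ 4 * t - 2 / 3 * m1 ^ 2 * t ^ 3 + t ^ 5 / 5)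
      ((m1 ^ 2 - t ^ 2) ^ 2) t := by
    intro t
    have e1 := (((hasDerivAt_id t).const_mul (m1 ^ 4)).sub
      ((hasDerivAt_pow 3 t).const_mul (2 / 3 * m1 ^ 2))).add ((hasDerivAt_pow 5 t).div_const 5)
    refine e1.congr_deriv ?_
    push_cast
    ring
  rw [intervalIntegral.integral_eq_sub_of_hasDerivAt (fun t _ => hd t)
    ((by fun_prop : Continuous fun m : ℝ => (m1 ^ 2 - m ^ 2) ^ 2).intervalIntegrable _ _)]
  ring

private theorem N12_osd_eq {m : ℝ} (hm : |m| ≤ 1 / 4) : osd m =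
    cA * (kp * cB * Real.cosh m - sA) /
      ((kp * cB - sA * Real.cosh m) ^ 2 + (cA * Real.sinh m) ^ 2) := by
  have hx := ox_pos hm
  have h5 := Real.cosh_sq_sub_sinh_sq m
  have hz : HasDerivAt (fun m => cA * Real.sinh m) (cA * Real.cosh m) m :=
    (Real.hasDerivAt_sinh m).const_mul cA
  have hxd : HasDerivAt (fun m => kp * cB - sA * Real.cosh m) (-(sA * Real.sinh m)) m :=
    ((Real.hasDerivAt_cosh m).const_mul sA).const_sub (kp * cB)
  have h : HasDerivAt (fun m => Real.arctan (cA * Real.sinh m / (kp * cB - sA * Real.cosh m)))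
      (1 / (1 + (cA * Real.sinh m / (kp * cB - sA * Real.cosh m)) ^ 2) *
        ((cA * Real.cosh m * (kp * cB - sA * Real.cosh m) -
          cA * Real.sinh m * -(sA * Real.sinh m)) / (kp * cB - sA * Real.cosh m) ^ 2)) m :=
    (hz.div hxd hx.ne').arctan
  have h2 := (os_hasDerivAt hm).unique h
  rw [h2]
  obtain ⟨x, hxe⟩ : ∃ x, x = kp * cB - sA * Real.cosh m := ⟨_, rfl⟩
  have hD : x ^ 2 + (cA * Real.sinh m) ^ 2 ≠ 0 := by
    rw [← hxe] at hx
    positivity
  rw [← hxe] at hx ⊢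
  have hx0 := hx.ne'
  have hD2 : 1 + (cA * Real.sinh m / x) ^ 2 ≠ 0 := by positivity
  have hnum : cA * Real.cosh m * x - cA * Real.sinh m * -(sA * Real.sinh m) =
      cA * (kp * cB * Real.cosh m - sA) := by
    rw [hxe]
    linear_combination -(cA * sA) * h5
  rw [hnum]
  field_simp

private theorem N12_osd_le {m : ℝ} (hm : |m| ≤ m1) : osd m ≤ 78 / 100 := by
  have h0 := N12_m1_pos
  have hb := m1_bounds.2
  have hm4 : |m| ≤ 1 / 4 := by linarith
  have hx := ox_pos hm4
  rw [N12_osd_eq hm4]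
  have hDp : 0 < (kp * cB - sA * Real.cosh m) ^ 2 + (cA * Real.sinh m) ^ 2 := by positivity
  have h5 := Real.cosh_sq_sub_sinh_sq m
  have hAA : sA ^ 2 + cA ^ 2 = 1 := Real.sin_sq_add_cos_sq _
  have hD : (kp * cB - sA * Real.cosh m) ^ 2 + (cA * Real.sinh m) ^ 2 =
      (kp * cB) ^ 2 - 2 * (kp * cB) * sA * Real.cosh m + Real.cosh m ^ 2 - cA ^ 2 := by
    linear_combination -(cA ^ 2) * h5 + Real.cosh m ^ 2 * hAA
  rw [hD] at hDp ⊢
  have hc1 := Real.one_le_cosh m
  have hc2 : Real.cosh m ≤ 10151 / 10000 := by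
    have h6 : Real.cosh m ≤ Real.cosh m1 := by
      rw [Real.cosh_le_cosh, abs_of_pos h0]
      exact hm
    have h7 := N12_cosh_m1
    have h8 : Real.cosh m1 ≤ 10151 / 10000 := by
      by_contra hc
      push Not at hc
      have := pow_le_pow_left₀ (by norm_num) hc.le 2
      norm_num at this h7
      linarith
    linarith
  obtain ⟨hK1, hK2⟩ := N12r_K
  obtain ⟨hs1, hs2⟩ := N12r_sA
  obtain ⟨ha1, ha2⟩ := N12r_cA
  generalize kp * cB = K at *
  generalize Real.cosh m = c at *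
  rw [div_le_iff₀ hDp]
  have h1 : K * sA ≤ 10157 / 10000 := by
    have := mul_le_mul hK2.le hs2.le (by linarith) (by norm_num)
    linarith
  have h2 : 27795 / 10000 ≤ K ^ 2 := by
    have := pow_le_pow_left₀ (by norm_num) hK1.le 2
    linarith
  have h3 : cA ^ 2 ≤ 6297 / 10000 := by
    have := pow_le_pow_left₀ (by linarith) ha2.le 2
    linarith
  have h5 : K * sA * c ≤ 10157 / 10000 * c := mul_le_mul_of_nonneg_right h1 (by linarith)
  have h6 : 1118 / 1000 ≤ K ^ 2 - 2 * K * sA * c + c ^ 2 - cA ^ 2 := by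
    linarith [sq_nonneg (c - 10157 / 10000)]
  have h7 : K * c - sA ≤ 1085 / 1000 := by
    have := mul_le_mul hK2.le hc2 (by linarith) (by norm_num)
    linarith
  have h9 : 0 ≤ K * c - sA := by
    have := mul_le_mul_of_nonneg_left hc1 (by linarith : (0 : ℝ) ≤ K)
    linarith
  have h8 : cA * (K * c - sA) ≤ 7935 / 10000 * (1085 / 1000) :=
    mul_le_mul (by linarith) h7 h9 (by norm_num)
  linarith

theorem oRs_le2 : oRs ≤ 2915 / 100000 := by
  have h0 := N12_m1_pos
  have hm1 := N12_m1_lt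
  have hb := m1_bounds.2
  have hcJ : Continuous fun m : ℝ => (m1 ^ 2 - m ^ 2) ^ 2 := by fun_prop
  set K1 : ℝ := 1575 / 1000000 / (58 / 1000) with hK1
  set K2 : ℝ := 78 / 100 * (8932 / 10000 * (10304 / 10000) / 4) / (58 / 1000) with hK2
  have hmain : -∫ m in (-m1)..m1, (es (oa m) ^ 8 * ov m).re * osd m ≤
      K1 * (Real.pi / 12) + K2 * (16 / 15 * m1 ^ 5) := by
    rw [← N12_os_int, ← N12_J, ← intervalIntegral.integral_const_mul,
      ← intervalIntegral.integral_const_mul, ← intervalIntegral.integral_neg,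
      ← intervalIntegral.integral_add ((osd_continuous.intervalIntegrable _ _).const_mul K1)
        ((hcJ.intervalIntegrable _ _).const_mul K2)]
    refine intervalIntegral.integral_mono_on (by linarith) (N12_cont.neg.intervalIntegrable _ _)
      (((osd_continuous.intervalIntegrable _ _).const_mul K1).add
        ((hcJ.intervalIntegrable _ _).const_mul K2)) (fun m hm => ?_)
    have hm' : |m| ≤ m1 := abs_le.mpr ⟨hm.1, hm.2⟩
    have h1 := N12_upper hm'
    have o1 := (osd_bounds (m := m) (by linarith)).1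
    have o2 := N12_osd_le hm'
    have h2 : -((es (oa m) ^ 8 * ov m).re * osd m) ≤
        ((8932 / 10000 * (10304 / 10000) / 4 * (m1 ^ 2 - m ^ 2) ^ 2 + 1575 / 1000000) /
          (58 / 1000)) * osd m := by
      rw [← neg_mul]
      exact mul_le_mul_of_nonneg_right h1 (by linarith)
    refine h2.trans ?_
    have h3 : (m1 ^ 2 - m ^ 2) ^ 2 * osd m ≤ (m1 ^ 2 - m ^ 2) ^ 2 * (78 / 100) :=
      mul_le_mul_of_nonneg_left o2 (sq_nonneg _)
    rw [hK1, hK2]
    nlinarith
  have hpi := Real.pi_gt_d4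
  have hpi0 := Real.pi_pos
  have h5 : m1 ^ 5 ≤ 15627 / 100000000 := by
    refine (pow_le_pow_left₀ h0.le hm1.le 5).trans ?_
    norm_num
  unfold oRs
  have h6 : -(12 / Real.pi * ∫ m in (-m1)..m1, (es (oa m) ^ 8 * ov m).re * osd m) =
      12 / Real.pi * (-∫ m in (-m1)..m1, (es (oa m) ^ 8 * ov m).re * osd m) := by ring
  rw [h6]
  have h7 : 12 / Real.pi * (-∫ m in (-m1)..m1, (es (oa m) ^ 8 * ov m).re * osd m) ≤
      12 / Real.pi * (K1 * (Real.pi / 12) + K2 * (16 / 15 * m1 ^ 5)) :=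
    mul_le_mul_of_nonneg_left hmain (by positivity)
  refine h7.trans ?_
  have h8 : 12 / Real.pi * (K1 * (Real.pi / 12) + K2 * (16 / 15 * m1 ^ 5)) =
      K1 + 12 / Real.pi * (K2 * (16 / 15 * m1 ^ 5)) := by
    field_simp
  rw [h8]
  have h9 : 12 / Real.pi ≤ 3.82 := by
    rw [div_le_iff₀ hpi0]
    linarith
  have h10 : K2 * (16 / 15 * m1 ^ 5) ≤ K2 * (16 / 15 * (15627 / 100000000)) := by
    refine mul_le_mul_of_nonneg_left (by linarith) ?_
    rw [hK2]
    norm_num
  have h11 : 12 / Real.pi * (K2 * (16 / 15 * m1 ^ 5)) ≤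
      3.82 * (K2 * (16 / 15 * (15627 / 100000000))) :=
    mul_le_mul h9 h10 (by rw [hK2]; positivity) (by norm_num)
  refine (add_le_add (le_refl K1) h11).trans ?_
  rw [hK1, hK2]
  norm_num


end Pool.H61.Rh
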