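import Pool.Agent.H61.Rc.N9b
import Pool.Agent.H61.Rc.N11
import Pool.Agent.H61.Rc.N12a

/-! # N12b: the sharp bound, constants as they are available

As N9d, with `κ ≤ 413/65536`, `k2 ≥ 9/64`, `μm ≤ -226/10000`: if `T ≤ Ts` then
`6 R² ≥ .004944 - .0013579/(81/64) ≥ .0038711 > 6 · .0254²`, and `oRs ≤ .02915` (`oRs_le2`), so
`e = oRs - R ≤ .00375`. -/

set_option autoImplicit false

namespace Pool.H61.Rh

open Complex MeasureTheory

private lemma N12b_Ts : 3 * Ts ≤ 312606 / 100000 := by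
  rw [Ts_eq]
  have h32 : Real.sqrt 32 = 4 * Real.sqrt 2 := by
    rw [show (32 : ℝ) = 4 ^ 2 * 2 by norm_num, Real.sqrt_mul (by norm_num),
      Real.sqrt_sq (by norm_num)]
  have h8 : Real.sqrt 8 = 2 * Real.sqrt 2 := by
    rw [show (8 : ℝ) = 2 ^ 2 * 2 by norm_num, Real.sqrt_mul (by norm_num),
      Real.sqrt_sq (by norm_num)]
  rw [h32, h8]
  have h2 := s3_lt
  have h2p := s3_pos
  have h3 := Real.log_two_gt_d9
  have h5 : (14142135 / 10000000 : ℝ) < Real.sqrt 2 := by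
    rw [Real.lt_sqrt (by norm_num)]; norm_num
  have h6 : Real.sqrt 2 < (14142136 / 10000000 : ℝ) := by
    rw [Real.sqrt_lt' (by norm_num)]; norm_num
  generalize Real.sqrt 2 = r at *
  generalize Real.log 2 = L at *
  have hD : 0 < 2 * r - 1 := by linarith
  rw [← mul_div_assoc, div_le_iff₀ hD]
  have hN : 8 - 4 * r - L ≤ 8 - 4 * (14142135 / 10000000) - 6931471803 / 10000000000 := by
    norm_num at h3 h5 ⊢
    linarith
  have h7 : 2 * s3 * (8 - 4 * r - L) ≤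
      2 * s3 * (8 - 4 * (14142135 / 10000000) - 6931471803 / 10000000000) :=
    mul_le_mul_of_nonneg_left hN (by linarith)
  norm_num at h2 h5 h7 ⊢
  linarith

/-- the estimate of the difference, for a calibration `l μ, l ε` and `oRs - R = l δ` -/
private lemma N12b_step {T R μ ε l δ : ℝ} {a b y : ℝ → ℂ} {φ σ ms : ℝ → ℝ} {Bs Bs1 : ℝ → ℂ}
    {N : ℝ → ℂ → ℂ → ℝ} {W1 W : ℝ × ℂ × ℂ → ℝ}
    (h : RS1 T R a b y) (c : Clk T a b y φ σ) (r : Ref ms Bs Bs1)
    (h1 : Cal 0 0 N W1) (h2 : Cal μ ε N W) (hl : 0 ≤ l) (hl' : l ≤ 1) (he : oRs - R = l * δ)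
    (hpos : 0 ≤ -(μ * δ) - 6 * δ ^ 2 - ε ^ 2 / 4) : Ts ≤ T := by
  have w := Cal.comb h1 h2 hl hl'
  have i1 := area_ineq (μ := (1 - l) * 0 + l * μ) h c r
  have i2 := cal_integral h c r w
  rw [he] at i1
  have hpi := Real.pi_pos
  have h3 : 0 ≤ Real.pi / 3 * (l ^ 2 * (-(μ * δ) - 6 * δ ^ 2 - ε ^ 2 / 4)) := by positivity
  nlinarith

theorem rsBound_sharp5 {N : ℝ → ℂ → ℂ → ℝ} {W1 Wm Wp : ℝ × ℂ × ℂ → ℝ} {W0 : ℂ × ℂ → ℝ}
    {k2 κ μm μp ε : ℝ} (h0 : Cal1 k2 κ W0) (hκ : κ ≤ 413 / 65536) (hk : 9 / 64 ≤ k2)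
    (h1 : Cal 0 0 N W1) (hm : Cal μm ε N Wm) (hp : Cal μp ε N Wp)
    (hμm : μm ≤ -(226 / 10000)) (hμp : 1147 / 1000 ≤ μp) (hε : |ε| ≤ 1 / 1000) :
    RSBound ((8 - Real.sqrt 32 - Real.log 2) / (Real.sqrt 8 - 1)) := by
  intro T a b y h hb0
  rw [← Ts_eq]
  suffices Ts ≤ T by linarith
  by_contra hcon
  push Not at hcon
  obtain ⟨hT1, hT2⟩ := Ts_bounds
  obtain ⟨R, a', b', hR⟩ := h.rs1 (by linarith)
  obtain ⟨φ, σ, c⟩ := hR.rs.clock (by linarith)
  obtain ⟨ms, Bs, Bs1, r⟩ := exists_ref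
  have hk0 : 0 < k2 := by linarith
  have hml := hR.mode_lower2 c hk0 h0
  have hpi := Real.pi_pos
  have hpi6 := Real.pi_gt_d20
  have hε2 : ε ^ 2 ≤ (1 / 1000) ^ 2 := sq_le_sq' (by linarith [(abs_le.1 hε).1]) (abs_le.1 hε).2
  have hTs := N12b_Ts
  have hq : 3 * T / Real.pi - 1 ≤ -(4944 / 1000000) := by
    have : 3 * T / Real.pi ≤ 995056 / 1000000 := by
      rw [div_le_iff₀ hpi]
      norm_num at hpi6 ⊢
      linarith
    norm_num at this ⊢
    linarith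
  generalize 3 * T / Real.pi - 1 = x at hml hq
  have hxk : x + κ ≤ 13579 / 10000000 := by
    norm_num at hκ hq ⊢
    linarith
  have hdiv : (x + κ) / (9 * k2) ≤ 10730 / 10000000 := by
    rw [div_le_iff₀ (by linarith)]
    norm_num at hk hxk ⊢
    linarith
  have hRl : 254 / 10000 ≤ R := by
    by_contra hc
    push Not at hc
    have := hR.Rnn
    have h6 : R ^ 2 ≤ (254 / 10000) ^ 2 := pow_le_pow_left₀ this hc.le 2
    norm_num at h6 hdiv hq
    linarith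
  have ho1 := oRs_le2
  have ho2 := oRs_ge
  have hR2 := hR.Rle
  refine absurd ?_ (not_le.2 hcon)
  rcases le_or_gt 0 (oRs - R) with he | he
  · refine N12b_step (l := (oRs - R) / (375 / 100000)) (δ := 375 / 100000) hR c r h1 hm
      (by positivity) ?_ (by ring) ?_
    · rw [div_le_one (by norm_num)]
      linarith
    · norm_num at hε2 ⊢
      linarith
  · refine N12b_step (l := -(oRs - R) / (191 / 1000)) (δ := -(191 / 1000)) hR c r h1 hp
      ?_ ?_ (by ring) ?_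
    · have : 0 ≤ -(oRs - R) := by linarith
      positivity
    · rw [div_le_one (by norm_num)]
      linarith
    · norm_num at hε2 ⊢
      linarith

end Pool.H61.Rh
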