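import Mathlib

/-! # R4: gluing quasi-periodic functions

`n s = ⌊(s + h)/(2h)⌋`, `F s = c^{n s} B0 (s - 2h n s)`, `F1 s = c^{n s} B1 (s - 2h n s)` (integer
powers).  On `[(2n-1)h, (2n+1)h]` (closed: by `e0`, `e1`) `F s = c^n B0 (s - 2hn)` and the same for
`F1`.  In the interior of such an interval `F` has the derivative `F1`; at an end point it has this
derivative from the left and from the right (`HasDerivWithinAt` on `Iic` and on `Ici`, union).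
Continuity of `F1` in the same way (`ContinuousWithinAt` from the left and from the right). -/

set_option autoImplicit false

namespace Pool.H61.Rh

/-- the integer part -/
private noncomputable def R4_n (h s : ℝ) : ℤ := ⌊(s + h) / (2 * h)⌋

/-- the quasi-periodic extension -/
private noncomputable def R4_F (h : ℝ) (c : ℂ) (B : ℝ → ℂ) (s : ℝ) : ℂ :=
  c ^ (R4_n h s) * B (s - 2 * h * (R4_n h s : ℝ))

private theorem R4_n_le {h : ℝ} (hh : 0 < h) (s : ℝ) : (2 * (R4_n h s : ℝ) - 1) * h ≤ s := by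
  have h1 : (R4_n h s : ℝ) ≤ (s + h) / (2 * h) := Int.floor_le _
  rw [le_div_iff₀ (by positivity)] at h1
  nlinarith

private theorem R4_lt_n {h : ℝ} (hh : 0 < h) (s : ℝ) : s < (2 * (R4_n h s : ℝ) + 1) * h := by
  have h1 : (s + h) / (2 * h) < (R4_n h s : ℝ) + 1 := Int.lt_floor_add_one _
  rw [div_lt_iff₀ (by positivity)] at h1
  nlinarith

private theorem R4_n_eq {h : ℝ} (hh : 0 < h) {s : ℝ} {m : ℤ} (h1 : (2 * (m : ℝ) - 1) * h ≤ s)
    (h2 : s < (2 * (m : ℝ) + 1) * h) : R4_n h s = m := by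
  unfold R4_n
  rw [Int.floor_eq_iff]
  constructor
  · rw [le_div_iff₀ (by positivity)]
    nlinarith
  · rw [div_lt_iff₀ (by positivity)]
    nlinarith

private theorem R4_F_eq {h : ℝ} (hh : 0 < h) {c : ℂ} (hc : c ≠ 0) {B : ℝ → ℂ}
    (e0 : B h = c * B (-h)) {s : ℝ} {m : ℤ}
    (hs : s ∈ Set.Icc ((2 * (m : ℝ) - 1) * h) ((2 * (m : ℝ) + 1) * h)) :
    R4_F h c B s = c ^ m * B (s - 2 * h * (m : ℝ)) := by
  rcases lt_or_eq_of_le hs.2 with h1 | h1
  · unfold R4_F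
    rw [R4_n_eq hh hs.1 h1]
  · have h2 : R4_n h s = m + 1 := by
      refine R4_n_eq hh ?_ ?_
      · rw [h1]
        push_cast
        linarith
      · rw [h1]
        push_cast
        nlinarith
    unfold R4_F
    rw [h2, zpow_add_one₀ hc]
    have e1 : s - 2 * h * ((m + 1 : ℤ) : ℝ) = -h := by
      rw [h1]
      push_cast
      ring
    have e2 : s - 2 * h * (m : ℝ) = h := by
      rw [h1]
      ring
    rw [e1, e2, e0]
    ring

private theorem R4_F_per {h : ℝ} (hh : 0 < h) {c : ℂ} (hc : c ≠ 0) (B : ℝ → ℂ) (s : ℝ) :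
    R4_F h c B (s + 2 * h) = c * R4_F h c B s := by
  have h1 : R4_n h (s + 2 * h) = R4_n h s + 1 := by
    have a1 := R4_n_le hh s
    have a2 := R4_lt_n hh s
    refine R4_n_eq hh ?_ ?_
    · push_cast
      nlinarith
    · push_cast
      nlinarith
  unfold R4_F
  rw [h1, zpow_add_one₀ hc]
  have e1 : s + 2 * h - 2 * h * ((R4_n h s + 1 : ℤ) : ℝ) = s - 2 * h * (R4_n h s : ℝ) := by
    push_cast
    ring
  rw [e1]
  ring

theorem glue {h : ℝ} (hh : 0 < h) {c : ℂ} (hc : c ≠ 0) {B0 B1 : ℝ → ℂ}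
    (hd : ∀ s, |s| ≤ h → HasDerivAt B0 (B1 s) s) (hc1 : ContinuousOn B1 (Set.Icc (-h) h))
    (e0 : B0 h = c * B0 (-h)) (e1 : B1 h = c * B1 (-h)) :
    ∃ F F1 : ℝ → ℂ, (∀ s, HasDerivAt F (F1 s) s) ∧ Continuous F1 ∧
      (∀ s, F (s + 2 * h) = c * F s) ∧ (∀ s, F1 (s + 2 * h) = c * F1 s) ∧
      (∀ s, |s| ≤ h → F s = B0 s ∧ F1 s = B1 s) := by
  have hcover : ∀ s : ℝ, ∃ m : ℤ,
      (s ∈ Set.Icc ((2 * (m : ℝ) - 1) * h) ((2 * (m : ℝ) + 1) * h) ∧
        Set.Icc ((2 * (m : ℝ) - 1) * h) ((2 * (m : ℝ) + 1) * h) ∈ nhds s) ∨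
      (s ∈ Set.Icc ((2 * (m : ℝ) - 1) * h) ((2 * (m : ℝ) + 1) * h) ∧
        s ∈ Set.Icc ((2 * ((m - 1 : ℤ) : ℝ) - 1) * h) ((2 * ((m - 1 : ℤ) : ℝ) + 1) * h) ∧
        Set.Icc ((2 * ((m - 1 : ℤ) : ℝ) - 1) * h) ((2 * ((m - 1 : ℤ) : ℝ) + 1) * h) ∪
          Set.Icc ((2 * (m : ℝ) - 1) * h) ((2 * (m : ℝ) + 1) * h) ∈ nhds s) := by
    intro s
    refine ⟨R4_n h s, ?_⟩
    have a1 := R4_n_le hh s
    have a2 := R4_lt_n hh s
    rcases lt_or_eq_of_le a1 with a3 | a3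
    · exact Or.inl ⟨⟨a1, a2.le⟩, Icc_mem_nhds a3 a2⟩
    · right
      have b1 : (2 * ((R4_n h s - 1 : ℤ) : ℝ) + 1) * h = (2 * (R4_n h s : ℝ) - 1) * h := by
        push_cast
        ring
      refine ⟨⟨a1, a2.le⟩, ⟨?_, ?_⟩, ?_⟩
      · push_cast
        nlinarith
      · rw [b1, a3]
      · rw [b1, Set.Icc_union_Icc_eq_Icc]
        · refine Icc_mem_nhds ?_ a2
          push_cast
          nlinarith
        · push_cast
          nlinarith
        · nlinarith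
  have hmem : ∀ {s : ℝ} {m : ℤ},
      s ∈ Set.Icc ((2 * (m : ℝ) - 1) * h) ((2 * (m : ℝ) + 1) * h) →
      s - 2 * h * (m : ℝ) ∈ Set.Icc (-h) h := by
    intro s m hs
    constructor
    · nlinarith [hs.1]
    · nlinarith [hs.2]
  have hder : ∀ {s : ℝ} {m : ℤ},
      s ∈ Set.Icc ((2 * (m : ℝ) - 1) * h) ((2 * (m : ℝ) + 1) * h) →
      HasDerivWithinAt (R4_F h c B0) (R4_F h c B1 s)
        (Set.Icc ((2 * (m : ℝ) - 1) * h) ((2 * (m : ℝ) + 1) * h)) s := by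
    intro s m hs
    have hx := hmem hs
    have h1 : HasDerivAt B0 (B1 (s - 2 * h * (m : ℝ))) (s - 2 * h * (m : ℝ)) :=
      hd _ (abs_le.2 ⟨hx.1, hx.2⟩)
    have h2 : HasDerivAt (fun x : ℝ => B0 (x - 2 * h * (m : ℝ))) (B1 (s - 2 * h * (m : ℝ))) s :=
      h1.comp_sub_const s (2 * h * (m : ℝ))
    have h3 : HasDerivAt (fun x : ℝ => c ^ m * B0 (x - 2 * h * (m : ℝ)))
        (c ^ m * B1 (s - 2 * h * (m : ℝ))) s := h2.const_mul (c ^ m)
    rw [R4_F_eq hh hc e1 hs]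
    exact h3.hasDerivWithinAt.congr (fun x hx => R4_F_eq hh hc e0 hx) (R4_F_eq hh hc e0 hs)
  have hcon : ∀ {s : ℝ} {m : ℤ},
      s ∈ Set.Icc ((2 * (m : ℝ) - 1) * h) ((2 * (m : ℝ) + 1) * h) →
      ContinuousWithinAt (R4_F h c B1)
        (Set.Icc ((2 * (m : ℝ) - 1) * h) ((2 * (m : ℝ) + 1) * h)) s := by
    intro s m hs
    have h1 : ContinuousOn (fun x : ℝ => c ^ m * B1 (x - 2 * h * (m : ℝ)))
        (Set.Icc ((2 * (m : ℝ) - 1) * h) ((2 * (m : ℝ) + 1) * h)) := by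
      refine continuousOn_const.mul (hc1.comp (by fun_prop) fun x hx => hmem hx)
    exact (h1 s hs).congr (fun x hx => R4_F_eq hh hc e1 hx) (R4_F_eq hh hc e1 hs)
  refine ⟨R4_F h c B0, R4_F h c B1, ?_, ?_, R4_F_per hh hc B0, R4_F_per hh hc B1, ?_⟩
  · intro s
    obtain ⟨m, ⟨h1, h2⟩ | ⟨h1, h2, h3⟩⟩ := hcover s
    · exact (hder h1).hasDerivAt h2
    · exact ((hder h2).union (hder h1)).hasDerivAt h3
  · rw [continuous_iff_continuousAt]
    intro s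
    obtain ⟨m, ⟨h1, h2⟩ | ⟨h1, h2, h3⟩⟩ := hcover s
    · exact (hcon h1).continuousAt h2
    · exact ((hcon h2).union (hcon h1)).continuousAt h3
  · intro s hs
    have h1 : s ∈ Set.Icc ((2 * ((0 : ℤ) : ℝ) - 1) * h) ((2 * ((0 : ℤ) : ℝ) + 1) * h) := by
      rw [abs_le] at hs
      constructor
      · push_cast
        linarith [hs.1]
      · push_cast
        linarith [hs.2]
    rw [R4_F_eq hh hc e0 h1, R4_F_eq hh hc e1 h1]
    simp

end Pool.H61.Rh
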