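import Pool.Agent.H61.Rc.R5a

/-! # R6a: the number `R*`

`oRs = -(12/π) ∫_{-m1}^{m1} Re (es (oa m)^8 ov m) osd m dm`; the imaginary part of the integral
vanishes (`ov (-m) = conj (ov m)`, `es (oa (-m)) = conj (es (oa m))`, `osd` even).
Upper bound: `-Re (es^8 ov) ≤ |ov| = |ob| ≤ (|ob|² + c²)/(2c)`, `c = 29/1000`, and
`normSq (ob m) = oC² ((cosh m - kp sA cB)² + sB² ((kp sA)² - 1))` with `kp sA cB = cosh m1`
(`2√2 sA cB = (2+√2)/2`, as `sA cB = (sin (α+β) + sin (α-β))/2 = (√2/2 + 1/2)/2`), so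
`normSq (ob m) ≤ 734/10^6 + 8932/10^4 (cosh m1 - cosh m)²`,
`0 ≤ cosh m1 - cosh m ≤ cosh m1 (m1² - m²)/2`, `∫ osd = π/12`, `osd ≤ 768/1000`
(for `|m| ≤ m1`; or use the bound `8/10` of R2: then
`(12/π) ∫ normSq ob ≤ 734e-6 + .8932 · .8 · 3.82 · 1.0304 · (4/15) m1^5 ≤ 734e-6 + 118e-6`,
and `oRs ≤ (852e-6 + 841e-6)/.058 ≤ .0292`).
Lower bound: for `0 ≤ m ≤ m1`: `-es^8 ov = |b| e^{i(7s - θ)}`, `7s ∈ [0, 7π/24]`,
`-b = oC (sinh m sB + i (kp sA - cosh m cB))`, `θ = arctan (sinh m sB/(kp sA - cosh m cB))` in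
`[0, 7π/24]`, so the real part is at least `|b| cos (7π/24) ≥ .027 · .608 ≥ .016`. -/

set_option autoImplicit false

namespace Pool.H61.Rh

open Complex MeasureTheory

/-- `R*` -/
noncomputable def oRs : ℝ :=
  -(12 / Real.pi * ∫ m in (-m1)..m1, (es (oa m) ^ 8 * ov m).re * osd m)

private theorem R6a_s2 : 1414213 / 1000000 < Real.sqrt 2 ∧ Real.sqrt 2 < 1414214 / 1000000 := by
  constructor
  · exact Real.lt_sqrt_of_sq_lt (by norm_num)
  · exact (Real.sqrt_lt' (by norm_num)).mpr (by norm_num)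

private theorem R6a_s3 : 173205 / 100000 < s3 ∧ s3 < 1732051 / 1000000 := by
  unfold s3
  constructor
  · exact Real.lt_sqrt_of_sq_lt (by norm_num)
  · exact (Real.sqrt_lt' (by norm_num)).mpr (by norm_num)

private theorem R6a_s2sq : Real.sqrt 2 * Real.sqrt 2 = 2 := Real.mul_self_sqrt (by norm_num)

private theorem R6a_s3sq : s3 * s3 = 3 := Real.mul_self_sqrt (by norm_num)

private theorem R6a_ne (m : ℝ) : oa m ≠ 0 := by
  intro h
  have h1 := oa_normSq m
  rw [h, map_zero] at h1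
  linarith [normSq_nonneg (ob m)]

private theorem R6a_norm_ne (m : ℝ) : ((‖oa m‖ : ℝ) : ℂ) ≠ 0 := by
  rw [Ne, ofReal_eq_zero, norm_eq_zero]
  exact R6a_ne m

private theorem R6a_mul (m : ℝ) : es (oa m) * ov m = -I * ob m := by
  unfold es ov vf
  have h1 := R6a_norm_ne m
  have h2 := R6a_ne m
  field_simp

private theorem R6a_es_norm (m : ℝ) : ‖es (oa m)‖ = 1 := by
  unfold es
  rw [norm_div, norm_mul, norm_I, one_mul, norm_real, norm_norm, div_self]
  rw [Ne, norm_eq_zero]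
  exact R6a_ne m

private theorem R6a_ov_norm (m : ℝ) : ‖ov m‖ = ‖ob m‖ := by
  have h := congrArg (fun z : ℂ => ‖z‖) (R6a_mul m)
  simp only [norm_mul, norm_neg, norm_I, one_mul, R6a_es_norm] at h
  exact h

private theorem R6a_re {m : ℝ} (hm : |m| ≤ 1 / 4) : (es (oa m) ^ 8 * ov m).re =
    -(oC * ((kp * sA - Real.cosh m * cB) * Real.cos (7 * os m) +
      Real.sinh m * sB * Real.sin (7 * os m))) := by
  have h1 : es (oa m) ^ 8 * ov m = es (oa m) ^ 7 * (-I * ob m) := by
    rw [← R6a_mul m]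
    ring
  have h2 : es (oa m) ^ 7 = exp (((7 * os m : ℝ) : ℂ) * I) := by
    rw [es_oa hm, ← Complex.exp_nat_mul]
    congr 1
    push_cast
    ring
  rw [h1, h2, exp_mul_I, ← ofReal_cos, ← ofReal_sin]
  unfold ob
  simp only [mul_re, mul_im, add_re, add_im, neg_re, neg_im, I_re, I_im, ofReal_re, ofReal_im]
  ring

private theorem R6a_oa_neg (m : ℝ) : oa (-m) = -(starRingEnd ℂ) (oa m) := by
  unfold oa
  apply Complex.ext
  · simp [Real.sinh_neg]
  · simp

private theorem R6a_ob_neg (m : ℝ) : ob (-m) = -(starRingEnd ℂ) (ob m) := by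
  unfold ob
  apply Complex.ext
  · simp [Real.sinh_neg]
  · simp

private theorem R6a_oy_neg (m : ℝ) : oy (-m) = (starRingEnd ℂ) (oy m) := by
  unfold oy
  apply Complex.ext
  · simp
  · simp only [Real.sinh_neg, Real.cosh_neg, conj_im]
    ring

private theorem R6a_es_neg (m : ℝ) : es (oa (-m)) = (starRingEnd ℂ) (es (oa m)) := by
  rw [R6a_oa_neg]
  unfold es
  rw [norm_neg, norm_conj, map_div₀, map_mul, conj_I, conj_ofReal]
  ring

private theorem R6a_osd_neg (m : ℝ) : osd (-m) = osd m := by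
  unfold osd otau'
  rw [Real.cosh_neg, R6a_oa_neg, R6a_ob_neg, R6a_oy_neg]
  congr 1
  unfold fq dt
  rw [normSq_neg, normSq_conj]
  simp only [mul_re, mul_im, neg_re, neg_im, conj_re, conj_im]
  congr 2
  ring

private theorem R6a_int_neg (m : ℝ) :
    es (oa (-m)) ^ 8 * ov (-m) = (starRingEnd ℂ) (es (oa m) ^ 8 * ov m) := by
  rw [R6a_es_neg, ov_neg, map_mul, map_pow]

theorem oRs_im : ∫ m in (-m1)..m1, (es (oa m) ^ 8 * ov m).im * osd m = 0 := by
  have h1 : ∫ m in (-m1)..m1, (es (oa (-m)) ^ 8 * ov (-m)).im * osd (-m) =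
      ∫ m in (-m1)..m1, (es (oa m) ^ 8 * ov m).im * osd m := by
    have := intervalIntegral.integral_comp_neg (a := -m1) (b := m1)
      (fun m => (es (oa m) ^ 8 * ov m).im * osd m)
    rw [neg_neg] at this
    exact this
  have h2 : ∫ m in (-m1)..m1, (es (oa (-m)) ^ 8 * ov (-m)).im * osd (-m) =
      -∫ m in (-m1)..m1, (es (oa m) ^ 8 * ov m).im * osd m := by
    rw [← intervalIntegral.integral_neg]
    refine intervalIntegral.integral_congr (fun m _ => ?_)
    change (es (oa (-m)) ^ 8 * ov (-m)).im * osd (-m) = -((es (oa m) ^ 8 * ov m).im * osd m)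
    rw [R6a_int_neg, R6a_osd_neg, conj_im]
    ring
  linarith

private theorem R6a_m1_pos : 0 < m1 := by
  have := m1_bounds.1
  linarith

private theorem R6a_m1_lt : m1 < 173287 / 1000000 := by
  unfold m1
  have := Real.log_two_lt_d9
  linarith

private theorem R6a_os_int : ∫ m in (-m1)..m1, osd m = Real.pi / 12 := by
  have h0 := R6a_m1_pos
  have h1 := m1_bounds.2
  rw [intervalIntegral.integral_eq_sub_of_hasDerivAt (f := os) (fun x hx => ?_)
    (osd_continuous.intervalIntegrable _ _), os_neg, os_m1]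
  · ring
  · rw [Set.uIcc_of_le (by linarith)] at hx
    exact os_hasDerivAt (abs_le.mpr ⟨by linarith [hx.1], by linarith [hx.2]⟩)

private theorem R6a_oa_cont : Continuous oa := by
  rw [continuous_iff_continuousAt]
  exact fun m => (oa_hasDerivAt m).continuousAt

private theorem R6a_ob_cont : Continuous ob := by
  rw [continuous_iff_continuousAt]
  exact fun m => (ob_hasDerivAt m).continuousAt

private theorem R6a_cont : Continuous (fun m => (es (oa m) ^ 8 * ov m).re * osd m) := by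
  have h1 : Continuous (fun m => es (oa m)) := by
    unfold es
    exact (continuous_const.mul R6a_oa_cont).div (continuous_ofReal.comp R6a_oa_cont.norm)
      (fun m => R6a_norm_ne m)
  have h2 : Continuous ov := by
    unfold ov vf
    exact (((continuous_ofReal.comp R6a_oa_cont.norm).mul R6a_ob_cont).div R6a_oa_cont
      (fun m => R6a_ne m)).neg
  exact (continuous_re.comp ((h1.pow 8).mul h2)).mul osd_continuous

/-! trigonometric constants -/

private theorem R6a_sum : 2 * (sA * cB) = Real.sqrt 2 / 2 + 1 / 2 := by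
  have h1 : Real.sin (5 * Real.pi / 24 + Real.pi / 24) = Real.sqrt 2 / 2 := by
    rw [show 5 * Real.pi / 24 + Real.pi / 24 = Real.pi / 4 from by ring]
    exact Real.sin_pi_div_four
  have h2 : Real.sin (5 * Real.pi / 24 - Real.pi / 24) = 1 / 2 := by
    rw [show 5 * Real.pi / 24 - Real.pi / 24 = Real.pi / 6 from by ring]
    exact Real.sin_pi_div_six
  rw [Real.sin_add] at h1
  rw [Real.sin_sub] at h2
  unfold sA cB
  linarith

private theorem R6a_sB_sq : sB ^ 2 = 1 / 2 - (Real.sqrt 2 * s3 / 4 + Real.sqrt 2 / 4) / 2 := by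
  have h1 : Real.cos (Real.pi / 12) = Real.sqrt 2 * s3 / 4 + Real.sqrt 2 / 4 := by
    rw [show Real.pi / 12 = Real.pi / 4 - Real.pi / 6 from by ring, Real.cos_sub,
      Real.cos_pi_div_four, Real.cos_pi_div_six, Real.sin_pi_div_four, Real.sin_pi_div_six]
    unfold s3
    ring
  unfold sB
  rw [Real.sin_sq_eq_half_sub, show 2 * (Real.pi / 24) = Real.pi / 12 from by ring, h1]

private theorem R6a_sA_sq : sA ^ 2 = 1 / 2 - (Real.sqrt 2 * s3 / 4 - Real.sqrt 2 / 4) / 2 := by
  have h1 : Real.cos (5 * Real.pi / 12) = Real.sqrt 2 * s3 / 4 - Real.sqrt 2 / 4 := by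
    rw [show 5 * Real.pi / 12 = Real.pi / 4 + Real.pi / 6 from by ring, Real.cos_add,
      Real.cos_pi_div_four, Real.cos_pi_div_six, Real.sin_pi_div_four, Real.sin_pi_div_six]
    unfold s3
    ring
  unfold sA
  rw [Real.sin_sq_eq_half_sub, show 2 * (5 * Real.pi / 24) = 5 * Real.pi / 12 from by ring, h1]

private theorem R6a_sB_cB : sB ^ 2 + cB ^ 2 = 1 := Real.sin_sq_add_cos_sq _

private theorem R6a_sA_cA : sA ^ 2 + cA ^ 2 = 1 := Real.sin_sq_add_cos_sq _

private theorem R6a_sA_pos : 0 < sA := by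
  unfold sA
  exact Real.sin_pos_of_pos_of_lt_pi (by positivity) (by linarith [Real.pi_pos])

private theorem R6a_sB_pos : 0 < sB := by
  unfold sB
  exact Real.sin_pos_of_pos_of_lt_pi (by positivity) (by linarith [Real.pi_pos])

private theorem R6a_cA_pos : 0 < cA := by
  unfold cA
  exact Real.cos_pos_of_mem_Ioo ⟨by linarith [Real.pi_pos], by linarith [Real.pi_pos]⟩

private theorem R6a_cB_pos : 0 < cB := by
  unfold cB
  exact Real.cos_pos_of_mem_Ioo ⟨by linarith [Real.pi_pos], by linarith [Real.pi_pos]⟩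

private theorem R6a_oC_pos : 0 < oC := by
  unfold oC
  refine Real.sqrt_pos.mpr ?_
  have := R6a_s2.1
  have h6 : 0 < Real.sqrt 6 := Real.sqrt_pos.mpr (by norm_num)
  have : 0 < 3 * (2 * Real.sqrt 2 - 1) := by linarith
  positivity

private theorem R6a_cosh : kp * sA * cB = Real.cosh m1 := by
  have h1 := kp_mul_cosh_m1
  have h2 := R6a_sum
  have h3 := kp_sq
  have h4 := R6a_s2sq
  have hk := kp_pos
  have h5 : kp * (kp * sA * cB) = kp * Real.cosh m1 := by
    rw [h1]
    have : kp * (kp * sA * cB) = kp ^ 2 * (2 * (sA * cB)) / 2 := by ring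
    rw [this, h3, h2]
    linear_combination (1 / 2) * h4
  exact mul_left_cancel₀ hk.ne' h5

private theorem R6a_kps : (kp * sA) ^ 2 - 1 = Real.sqrt 2 - s3 / 2 - 1 / 2 := by
  rw [mul_pow, kp_sq, R6a_sA_sq]
  linear_combination (-(s3 - 1) / 4) * R6a_s2sq

private theorem R6a_oC_sq_eq : oC ^ 2 * ((2 * Real.sqrt 2 - 1) * (Real.sqrt 2 * s3 / 4)) = 1 := by
  have := oC_sq
  rw [kp_sq] at this
  exact this

private theorem R6a_oC_le : oC ^ 2 ≤ 8932 / 10000 := by
  have h1 := R6a_oC_sq_eq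
  obtain ⟨a1, a2⟩ := R6a_s2
  obtain ⟨b1, b2⟩ := R6a_s3
  have h2 : (1.11958 : ℝ) ≤ (2 * Real.sqrt 2 - 1) * (Real.sqrt 2 * s3 / 4) := by
    have e1 : (1.828426 : ℝ) ≤ 2 * Real.sqrt 2 - 1 := by linarith
    have e2 : (1.414213 : ℝ) * 1.73205 / 4 ≤ Real.sqrt 2 * s3 / 4 := by
      have : (1.414213 : ℝ) * 1.73205 ≤ Real.sqrt 2 * s3 :=
        mul_le_mul (by linarith) (by linarith) (by norm_num) (by positivity)
      linarith
    refine le_trans ?_ (mul_le_mul e1 e2 (by norm_num) (by linarith))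
    norm_num
  by_contra hlt
  rw [not_le] at hlt
  have h3 : (8932 / 10000 : ℝ) * 1.11958 < oC ^ 2 * ((2 * Real.sqrt 2 - 1) * (Real.sqrt 2 * s3 / 4)) := by
    refine lt_of_lt_of_le (mul_lt_mul_of_pos_right hlt (by norm_num)) ?_
    exact mul_le_mul_of_nonneg_left h2 (sq_nonneg _)
  rw [h1] at h3
  norm_num at h3

private theorem R6a_oC_ge : 9449 / 10000 ≤ oC := by
  have h1 := R6a_oC_sq_eq
  obtain ⟨a1, a2⟩ := R6a_s2
  obtain ⟨b1, b2⟩ := R6a_s3
  have h2 : (2 * Real.sqrt 2 - 1) * (Real.sqrt 2 * s3 / 4) ≤ 1.1198 := by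
    have e1 : 2 * Real.sqrt 2 - 1 ≤ (1.828428 : ℝ) := by linarith
    have e2 : Real.sqrt 2 * s3 / 4 ≤ (1.414214 : ℝ) * 1.732051 / 4 := by
      have : Real.sqrt 2 * s3 ≤ (1.414214 : ℝ) * 1.732051 :=
        mul_le_mul (by linarith) (by linarith) (by linarith) (by norm_num)
      linarith
    refine le_trans (mul_le_mul e1 e2 (by positivity) (by norm_num)) ?_
    norm_num
  by_contra hlt
  rw [not_le] at hlt
  have hp := R6a_oC_pos
  have h4 : oC ^ 2 ≤ (9449 / 10000) ^ 2 := pow_le_pow_left₀ hp.le hlt.le 2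
  have h3 : oC ^ 2 * ((2 * Real.sqrt 2 - 1) * (Real.sqrt 2 * s3 / 4)) ≤
      (9449 / 10000) ^ 2 * 1.1198 := by
    refine mul_le_mul h4 h2 ?_ (by norm_num)
    have : 0 ≤ 2 * Real.sqrt 2 - 1 := by linarith
    positivity
  rw [h1] at h3
  norm_num at h3

private theorem R6a_const : oC ^ 2 * (sB ^ 2 * ((kp * sA) ^ 2 - 1)) ≤ 734 / 1000000 := by
  obtain ⟨a1, a2⟩ := R6a_s2
  obtain ⟨b1, b2⟩ := R6a_s3
  have h1 : sB ^ 2 ≤ 17038 / 1000000 := by
    rw [R6a_sB_sq]
    have : (1.414213 : ℝ) * (1 + 1.73205) ≤ Real.sqrt 2 * (1 + s3) :=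
      mul_le_mul (by linarith) (by linarith) (by norm_num) (by positivity)
    nlinarith
  have h2 : (kp * sA) ^ 2 - 1 ≤ 48190 / 1000000 := by
    rw [R6a_kps]
    linarith
  have h3 : 0 ≤ (kp * sA) ^ 2 - 1 := by
    rw [R6a_kps]
    linarith
  have h4 : sB ^ 2 * ((kp * sA) ^ 2 - 1) ≤ 17038 / 1000000 * (48190 / 1000000) :=
    mul_le_mul h1 h2 h3 (by norm_num)
  refine le_trans (mul_le_mul R6a_oC_le h4 (mul_nonneg (sq_nonneg _) h3) (by norm_num)) ?_
  norm_num

private theorem R6a_ob_sq (m : ℝ) : normSq (ob m) =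
    oC ^ 2 * ((Real.cosh m1 - Real.cosh m) ^ 2) + oC ^ 2 * (sB ^ 2 * ((kp * sA) ^ 2 - 1)) := by
  rw [← R6a_cosh]
  unfold ob
  rw [normSq_mk]
  have h1 := Real.cosh_sq m
  have h2 := R6a_sB_cB
  linear_combination (oC ^ 2 * (-sB ^ 2)) * h1 +
    (oC ^ 2 * (Real.cosh m ^ 2 - kp ^ 2 * sA ^ 2)) * h2

private theorem R6a_cosh_m1 : Real.cosh m1 ^ 2 ≤ 10304 / 10000 := by
  have h1 := kp_mul_cosh_m1
  have h2 := kp_sq
  have h3 := R6a_s2sq
  obtain ⟨a1, a2⟩ := R6a_s2
  have h4 : (2 * Real.sqrt 2) * Real.cosh m1 ^ 2 = (6 + 4 * Real.sqrt 2) / 4 := by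
    have : (kp * Real.cosh m1) ^ 2 = ((2 + Real.sqrt 2) / 2) ^ 2 := by rw [h1]
    rw [mul_pow, h2] at this
    rw [this]
    linear_combination (1 / 4) * h3
  by_contra hlt
  rw [not_le] at hlt
  nlinarith

/-- `cosh m1 - cosh m ≤ cosh m1 (m1² - m²)/2` -/
private theorem R6a_cosh_diff {x : ℝ} (hx0 : 0 ≤ x) (hx : x ≤ m1) :
    Real.cosh m1 - Real.cosh x ≤ Real.cosh m1 * (m1 ^ 2 - x ^ 2) / 2 := by
  have h0 := R6a_m1_pos
  -- `g t = cosh m1 t²/2 - cosh t` is monotone on `[0, m1]`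
  have hmono : MonotoneOn (fun t => Real.cosh m1 * t ^ 2 / 2 - Real.cosh t) (Set.Icc 0 m1) := by
    have hd : ∀ t, HasDerivAt (fun t => Real.cosh m1 * t ^ 2 / 2 - Real.cosh t)
        (Real.cosh m1 * t - Real.sinh t) t := by
      intro t
      have e1 := ((hasDerivAt_pow 2 t).const_mul (Real.cosh m1)).div_const 2
      have e2 := e1.sub (Real.hasDerivAt_cosh t)
      refine e2.congr_deriv ?_
      push_cast
      ring
    refine monotoneOn_of_deriv_nonneg (convex_Icc 0 m1)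
      (fun t _ => (hd t).continuousAt.continuousWithinAt)
      (fun t _ => (hd t).differentiableAt.differentiableWithinAt) (fun t ht => ?_)
    rw [interior_Icc] at ht
    rw [(hd t).deriv]
    have h1 : Real.sinh t ≤ t * Real.cosh t := by
      have hm2 : MonotoneOn (fun t => t * Real.cosh t - Real.sinh t) (Set.Ici 0) := by
        have hd2 : ∀ t, HasDerivAt (fun t => t * Real.cosh t - Real.sinh t)
            (t * Real.sinh t) t := by
          intro t
          have e1 := ((hasDerivAt_id t).mul (Real.hasDerivAt_cosh t)).sub (Real.hasDerivAt_sinh t)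
          refine e1.congr_deriv ?_
          simp
        refine monotoneOn_of_deriv_nonneg (convex_Ici 0)
          (fun t _ => (hd2 t).continuousAt.continuousWithinAt)
          (fun t _ => (hd2 t).differentiableAt.differentiableWithinAt) (fun t ht => ?_)
        rw [interior_Ici] at ht
        rw [(hd2 t).deriv]
        exact mul_nonneg ht.le (Real.sinh_nonneg_iff.mpr ht.le)
      have := hm2 (Set.mem_Ici.mpr le_rfl) (Set.mem_Ici.mpr ht.1.le) ht.1.le
      simp only [Real.sinh_zero, zero_mul, sub_zero] at this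
      linarith
    have h2 : Real.cosh t ≤ Real.cosh m1 := by
      rw [Real.cosh_le_cosh, abs_of_pos ht.1, abs_of_pos h0]
      exact ht.2.le
    nlinarith [ht.1]
  have := hmono ⟨hx0, hx⟩ ⟨h0.le, le_rfl⟩ hx
  simp only at this
  linarith

private theorem R6a_ob_bound {m : ℝ} (hm : |m| ≤ m1) : normSq (ob m) ≤
    8932 / 10000 * (10304 / 10000) / 4 * (m1 ^ 2 - m ^ 2) ^ 2 + 734 / 1000000 := by
  have h0 := R6a_m1_pos
  rw [R6a_ob_sq]
  refine add_le_add ?_ R6a_const
  have h1 : Real.cosh m1 - Real.cosh m ≤ Real.cosh m1 * (m1 ^ 2 - m ^ 2) / 2 := by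
    have := R6a_cosh_diff (abs_nonneg m) hm
    rwa [Real.cosh_abs, sq_abs] at this
  have h2 : 0 ≤ Real.cosh m1 - Real.cosh m := by
    rw [sub_nonneg, Real.cosh_le_cosh, abs_of_pos h0]
    exact hm
  have h3 : (Real.cosh m1 - Real.cosh m) ^ 2 ≤ (Real.cosh m1 * (m1 ^ 2 - m ^ 2) / 2) ^ 2 :=
    pow_le_pow_left₀ h2 h1 2
  have h4 : (Real.cosh m1 * (m1 ^ 2 - m ^ 2) / 2) ^ 2 ≤
      10304 / 10000 / 4 * (m1 ^ 2 - m ^ 2) ^ 2 := by
    have : (Real.cosh m1 * (m1 ^ 2 - m ^ 2) / 2) ^ 2 =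
        Real.cosh m1 ^ 2 * ((m1 ^ 2 - m ^ 2) ^ 2 / 4) := by ring
    rw [this]
    have h5 := mul_le_mul_of_nonneg_right R6a_cosh_m1
      (show 0 ≤ (m1 ^ 2 - m ^ 2) ^ 2 / 4 by positivity)
    linarith
  have h6 := mul_le_mul R6a_oC_le (h3.trans h4) (sq_nonneg _) (by norm_num)
  linarith

private theorem R6a_upper {m : ℝ} (hm : |m| ≤ m1) : -(es (oa m) ^ 8 * ov m).re ≤
    (8932 / 10000 * (10304 / 10000) / 4 * (m1 ^ 2 - m ^ 2) ^ 2 + 1575 / 1000000) / (58 / 1000) := by
  have h1 : -(es (oa m) ^ 8 * ov m).re ≤ ‖ob m‖ := by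
    have e1 : ‖es (oa m) ^ 8 * ov m‖ = ‖ob m‖ := by
      rw [norm_mul, norm_pow, R6a_es_norm, one_pow, one_mul, R6a_ov_norm]
    rw [← e1]
    exact (neg_le_abs _).trans (abs_re_le_norm _)
  have h2 := R6a_ob_bound hm
  rw [normSq_eq_norm_sq] at h2
  rw [le_div_iff₀ (by norm_num)]
  nlinarith [sq_nonneg (‖ob m‖ - 29 / 1000)]

private theorem R6a_J : ∫ m in (-m1)..m1, (m1 ^ 2 - m ^ 2) ^ 2 = 16 / 15 * m1 ^ 5 := by
  have hd : ∀ t : ℝ, HasDerivAt (fun t => m1 ^ 4 * t - 2 / 3 * m1 ^ 2 * t ^ 3 + t ^ 5 / 5)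
      ((m1 ^ 2 - t ^ 2) ^ 2) t := by
    intro t
    have e1 := (((hasDerivAt_id t).const_mul (m1 ^ 4)).sub
      ((hasDerivAt_pow 3 t).const_mul (2 / 3 * m1 ^ 2))).add ((hasDerivAt_pow 5 t).div_const 5)
    refine e1.congr_deriv ?_
    push_cast
    ring
  rw [intervalIntegral.integral_eq_sub_of_hasDerivAt (fun t _ => hd t)
    ((by fun_prop : Continuous fun m : ℝ => (m1 ^ 2 - m ^ 2) ^ 2).intervalIntegrable _ _)]
  ring

theorem oRs_le : oRs ≤ 292 / 10000 := by
  have h0 := R6a_m1_pos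
  have hm1 := R6a_m1_lt
  have hb := m1_bounds.2
  have hcJ : Continuous fun m : ℝ => (m1 ^ 2 - m ^ 2) ^ 2 := by fun_prop
  set K1 : ℝ := 1575 / 1000000 / (58 / 1000) with hK1
  set K2 : ℝ := 8 / 10 * (8932 / 10000 * (10304 / 10000) / 4) / (58 / 1000) with hK2
  have hmain : -∫ m in (-m1)..m1, (es (oa m) ^ 8 * ov m).re * osd m ≤
      K1 * (Real.pi / 12) + K2 * (16 / 15 * m1 ^ 5) := by
    rw [← R6a_os_int, ← R6a_J, ← intervalIntegral.integral_const_mul,
      ← intervalIntegral.integral_const_mul, ← intervalIntegral.integral_neg,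
      ← intervalIntegral.integral_add ((osd_continuous.intervalIntegrable _ _).const_mul K1)
        ((hcJ.intervalIntegrable _ _).const_mul K2)]
    refine intervalIntegral.integral_mono_on (by linarith) (R6a_cont.neg.intervalIntegrable _ _)
      (((osd_continuous.intervalIntegrable _ _).const_mul K1).add
        ((hcJ.intervalIntegrable _ _).const_mul K2)) (fun m hm => ?_)
    have hm' : |m| ≤ m1 := abs_le.mpr ⟨hm.1, hm.2⟩
    have h1 := R6a_upper hm'
    obtain ⟨o1, o2⟩ := osd_bounds (m := m) (by linarith)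
    have h2 : -((es (oa m) ^ 8 * ov m).re * osd m) ≤
        ((8932 / 10000 * (10304 / 10000) / 4 * (m1 ^ 2 - m ^ 2) ^ 2 + 1575 / 1000000) /
          (58 / 1000)) * osd m := by
      rw [← neg_mul]
      exact mul_le_mul_of_nonneg_right h1 (by linarith)
    refine h2.trans ?_
    have h3 : (m1 ^ 2 - m ^ 2) ^ 2 * osd m ≤ (m1 ^ 2 - m ^ 2) ^ 2 * (8 / 10) :=
      mul_le_mul_of_nonneg_left o2 (sq_nonneg _)
    rw [hK1, hK2]
    nlinarith
  have hpi := Real.pi_gt_d4
  have hpi0 := Real.pi_pos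
  have h5 : m1 ^ 5 ≤ 15627 / 100000000 := by
    refine (pow_le_pow_left₀ h0.le hm1.le 5).trans ?_
    norm_num
  unfold oRs
  have h6 : -(12 / Real.pi * ∫ m in (-m1)..m1, (es (oa m) ^ 8 * ov m).re * osd m) =
      12 / Real.pi * (-∫ m in (-m1)..m1, (es (oa m) ^ 8 * ov m).re * osd m) := by ring
  rw [h6]
  have h7 : 12 / Real.pi * (-∫ m in (-m1)..m1, (es (oa m) ^ 8 * ov m).re * osd m) ≤
      12 / Real.pi * (K1 * (Real.pi / 12) + K2 * (16 / 15 * m1 ^ 5)) :=
    mul_le_mul_of_nonneg_left hmain (by positivity)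
  refine h7.trans ?_
  have h8 : 12 / Real.pi * (K1 * (Real.pi / 12) + K2 * (16 / 15 * m1 ^ 5)) =
      K1 + 12 / Real.pi * (K2 * (16 / 15 * m1 ^ 5)) := by
    field_simp
  rw [h8]
  have h9 : 12 / Real.pi ≤ 3.82 := by
    rw [div_le_iff₀ hpi0]
    linarith
  have h10 : K2 * (16 / 15 * m1 ^ 5) ≤ K2 * (16 / 15 * (15627 / 100000000)) := by
    refine mul_le_mul_of_nonneg_left (by linarith) ?_
    rw [hK2]
    norm_num
  have h11 : 12 / Real.pi * (K2 * (16 / 15 * m1 ^ 5)) ≤
      3.82 * (K2 * (16 / 15 * (15627 / 100000000))) :=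
    mul_le_mul h9 h10 (by rw [hK2]; positivity) (by norm_num)
  refine (add_le_add (le_refl K1) h11).trans ?_
  rw [hK1, hK2]
  norm_num


private theorem R6a_os_mem {m : ℝ} (h0 : 0 ≤ m) (hm : m ≤ m1) :
    0 ≤ os m ∧ os m ≤ Real.pi / 24 := by
  have hb := m1_bounds.2
  have hp := R6a_m1_pos
  have hmono : MonotoneOn os (Set.Icc 0 m1) := by
    refine monotoneOn_of_deriv_nonneg (convex_Icc 0 m1)
      (fun t ht => (os_hasDerivAt (abs_le.mpr ⟨by linarith [ht.1], by linarith [ht.2]⟩)).continuousAt.continuousWithinAt)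
      (fun t ht => ?_) (fun t ht => ?_)
    · rw [interior_Icc] at ht
      exact (os_hasDerivAt (abs_le.mpr ⟨by linarith [ht.1], by linarith [ht.2]⟩)).differentiableAt.differentiableWithinAt
    · rw [interior_Icc] at ht
      have hta : |t| ≤ 1 / 4 := abs_le.mpr ⟨by linarith [ht.1], by linarith [ht.2]⟩
      rw [(os_hasDerivAt hta).deriv]
      linarith [(osd_bounds hta).1]
  have hz : os 0 = 0 := by
    have := os_neg 0
    rw [neg_zero] at this
    linarith
  constructor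
  · rw [← hz]
    exact hmono ⟨le_rfl, hp.le⟩ ⟨h0, hm⟩ h0
  · rw [← os_m1]
    exact hmono ⟨h0, hm⟩ ⟨hp.le, le_rfl⟩ hm

private theorem R6a_lower_pos {m : ℝ} (h0 : 0 ≤ m) (hm : m ≤ m1) :
    16 / 1000 ≤ -(es (oa m) ^ 8 * ov m).re := by
  have hb := m1_bounds.2
  have hp := R6a_m1_pos
  have hpi := Real.pi_pos
  rw [R6a_re (abs_le.mpr ⟨by linarith, by linarith⟩), neg_neg]
  obtain ⟨o1, o2⟩ := R6a_os_mem h0 hm
  obtain ⟨a1, a2⟩ := R6a_s2
  obtain ⟨b1, b2⟩ := R6a_s3
  -- numerical values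
  have hsA2 := R6a_sA_sq
  have hsB2 := R6a_sB_sq
  have hP23 : (1.414213 : ℝ) * 1.73205 ≤ Real.sqrt 2 * s3 :=
    mul_le_mul (by linarith) (by linarith) (by norm_num) (by positivity)
  have hP23' : Real.sqrt 2 * s3 ≤ (1.414214 : ℝ) * 1.732051 :=
    mul_le_mul (by linarith) (by linarith) (by linarith) (by norm_num)
  have hsA : 6087 / 10000 ≤ sA ∧ sA ≤ 6088 / 10000 := by
    have hpos := R6a_sA_pos
    constructor
    · by_contra hlt
      rw [not_le] at hlt
      nlinarith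
    · by_contra hlt
      rw [not_le] at hlt
      nlinarith
  have hsB : 1305 / 10000 ≤ sB ∧ sB ≤ 1306 / 10000 := by
    have hpos := R6a_sB_pos
    constructor
    · by_contra hlt
      rw [not_le] at hlt
      nlinarith
    · by_contra hlt
      rw [not_le] at hlt
      nlinarith
  have hcB : 9914 / 10000 ≤ cB ∧ cB ≤ 99145 / 100000 := by
    have hpos := R6a_cB_pos
    have hh := R6a_sB_cB
    constructor
    · by_contra hlt
      rw [not_le] at hlt
      nlinarith
    · by_contra hlt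
      rw [not_le] at hlt
      nlinarith
  have hcA : 7933 / 10000 ≤ cA := by
    have hpos := R6a_cA_pos
    have hh := R6a_sA_cA
    by_contra hlt
    rw [not_le] at hlt
    nlinarith
  -- `kp sA`
  have hk : 10238 / 10000 ≤ kp * sA := by
    have hh := R6a_kps
    have hpos : 0 < kp * sA := mul_pos kp_pos R6a_sA_pos
    by_contra hlt
    rw [not_le] at hlt
    nlinarith
  have hcm1 : Real.cosh m1 ≤ 10151 / 10000 := by
    have hh := R6a_cosh_m1
    have hpos : 0 < Real.cosh m1 := Real.cosh_pos m1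
    by_contra hlt
    rw [not_le] at hlt
    nlinarith
  have hcm : Real.cosh m ≤ Real.cosh m1 := by
    rw [Real.cosh_le_cosh, abs_of_nonneg h0, abs_of_pos hp]
    exact hm
  have hc1 : 1 ≤ Real.cosh m := Real.one_le_cosh m
  have hs0 : 0 ≤ Real.sinh m := Real.sinh_nonneg_iff.mpr h0
  -- `cosh m - 1 ≤ m sinh m`
  have hcs : Real.cosh m - 1 ≤ m * Real.sinh m := by
    have hm2 : MonotoneOn (fun t => t * Real.sinh t - Real.cosh t) (Set.Ici 0) := by
      have hd2 : ∀ t, HasDerivAt (fun t => t * Real.sinh t - Real.cosh t)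
          (t * Real.cosh t) t := by
        intro t
        have e1 := ((hasDerivAt_id t).mul (Real.hasDerivAt_sinh t)).sub (Real.hasDerivAt_cosh t)
        refine e1.congr_deriv ?_
        simp
      refine monotoneOn_of_deriv_nonneg (convex_Ici 0)
        (fun t _ => (hd2 t).continuousAt.continuousWithinAt)
        (fun t _ => (hd2 t).differentiableAt.differentiableWithinAt) (fun t ht => ?_)
      rw [interior_Ici] at ht
      rw [(hd2 t).deriv]
      exact mul_nonneg ht.le (Real.cosh_pos t).le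
    have := hm2 (Set.mem_Ici.mpr le_rfl) (Set.mem_Ici.mpr h0) h0
    simp only [zero_mul, Real.cosh_zero, zero_sub] at this
    linarith
  have hs1 : Real.sinh m ≤ 18 / 100 := by
    have hq := Real.cosh_sq m
    have : Real.cosh m ≤ 10151 / 10000 := hcm.trans hcm1
    by_contra hlt
    rw [not_le] at hlt
    nlinarith
  set P := kp * sA - Real.cosh m * cB with hP
  set Q := Real.sinh m * sB with hQ
  have hQ0 : 0 ≤ Q := mul_nonneg hs0 R6a_sB_pos.le
  have hP1 : 170 / 10000 ≤ P := by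
    rw [hP]
    nlinarith
  have hPQ : 170 / 10000 ≤ P * sA + Q * cA := by
    rw [hP, hQ]
    have e1 : (Real.cosh m - 1) * (cB * sA) ≤ m * Real.sinh m * (cB * sA) :=
      mul_le_mul_of_nonneg_right hcs (mul_nonneg R6a_cB_pos.le R6a_sA_pos.le)
    have e2 : m * (cB * sA) ≤ 1051 / 10000 := by
      have e3 : cB * sA ≤ 6037 / 10000 := by nlinarith [hcB.1, hcB.2, hsA.1, hsA.2]
      have e4 : m ≤ 174 / 1000 := by linarith
      have e5 : 0 ≤ cB * sA := mul_nonneg R6a_cB_pos.le R6a_sA_pos.le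
      nlinarith
    have e6 : 1035 / 10000 ≤ sB * cA := by nlinarith [hsB.1, hcA]
    have e7 : m * Real.sinh m * (cB * sA) ≤ 1051 / 10000 * Real.sinh m := by
      have := mul_le_mul_of_nonneg_right e2 hs0
      linarith
    have e8 : 1035 / 10000 * Real.sinh m ≤ Real.sinh m * sB * cA := by
      have := mul_le_mul_of_nonneg_right e6 hs0
      linarith
    have e9 : 190 / 10000 ≤ (kp * sA - cB) * sA := by
      have : 3235 / 100000 ≤ kp * sA - cB := by linarith [hcB.2]
      nlinarith [hsA.1]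
    nlinarith
  -- concavity of `cos` and `sin`
  have hΦ : 0 < 7 * Real.pi / 24 := by positivity
  set t : ℝ := 7 * os m / (7 * Real.pi / 24) with ht
  have ht0 : 0 ≤ t := by positivity
  have ht1 : t ≤ 1 := by
    rw [ht, div_le_one hΦ]
    linarith
  have htm : t * (7 * Real.pi / 24) = 7 * os m := by
    rw [ht]
    field_simp
  have hcosΦ : Real.cos (7 * Real.pi / 24) = sA := by
    unfold sA
    rw [← Real.cos_pi_div_two_sub]
    congr 1
    ring
  have hsinΦ : Real.sin (7 * Real.pi / 24) = cA := by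
    unfold cA
    rw [← Real.sin_pi_div_two_sub]
    congr 1
    ring
  have hcos : (1 - t) + t * sA ≤ Real.cos (7 * os m) := by
    have := strictConcaveOn_cos_Icc.concaveOn.2
      (show (0 : ℝ) ∈ Set.Icc (-(Real.pi / 2)) (Real.pi / 2) from
        ⟨by linarith, by linarith⟩)
      (show 7 * Real.pi / 24 ∈ Set.Icc (-(Real.pi / 2)) (Real.pi / 2) from
        ⟨by linarith, by linarith⟩)
      (show 0 ≤ 1 - t by linarith) ht0 (by ring)
    simp only [smul_eq_mul, mul_zero, zero_add, Real.cos_zero, mul_one, hcosΦ, htm] at this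
    exact this
  have hsin : t * cA ≤ Real.sin (7 * os m) := by
    have := strictConcaveOn_sin_Icc.concaveOn.2
      (show (0 : ℝ) ∈ Set.Icc 0 Real.pi from ⟨le_rfl, by linarith⟩)
      (show 7 * Real.pi / 24 ∈ Set.Icc 0 Real.pi from ⟨by linarith, by linarith⟩)
      (show 0 ≤ 1 - t by linarith) ht0 (by ring)
    simp only [smul_eq_mul, mul_zero, zero_add, Real.sin_zero, hsinΦ, htm] at this
    exact this
  have hPpos : 0 ≤ P := by linarith
  have hfin : 170 / 10000 ≤ P * Real.cos (7 * os m) + Q * Real.sin (7 * os m) := by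
    have f1 := mul_le_mul_of_nonneg_left hcos hPpos
    have f2 := mul_le_mul_of_nonneg_left hsin hQ0
    have f3 : 170 / 10000 ≤ (1 - t) * P + t * (P * sA + Q * cA) := by
      have g1 := mul_le_mul_of_nonneg_left hP1 (show 0 ≤ 1 - t by linarith)
      have g2 := mul_le_mul_of_nonneg_left hPQ ht0
      linarith
    linarith
  have hoC := R6a_oC_ge
  nlinarith

private theorem R6a_lower {m : ℝ} (hm : |m| ≤ m1) :
    16 / 1000 ≤ -(es (oa m) ^ 8 * ov m).re := by
  rcases le_total 0 m with h | h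
  · rw [abs_of_nonneg h] at hm
    exact R6a_lower_pos h hm
  · rw [abs_of_nonpos h] at hm
    have h1 := R6a_lower_pos (m := -m) (by linarith) hm
    rw [R6a_int_neg, conj_re] at h1
    exact h1

theorem oRs_ge : 16 / 1000 ≤ oRs := by
  have h0 := R6a_m1_pos
  have hb := m1_bounds.2
  have hpi0 := Real.pi_pos
  have hmain : 16 / 1000 * (Real.pi / 12) ≤
      -∫ m in (-m1)..m1, (es (oa m) ^ 8 * ov m).re * osd m := by
    rw [← R6a_os_int, ← intervalIntegral.integral_const_mul, ← intervalIntegral.integral_neg]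
    refine intervalIntegral.integral_mono_on (by linarith)
      ((osd_continuous.intervalIntegrable _ _).const_mul _)
      (R6a_cont.neg.intervalIntegrable _ _) (fun m hm => ?_)
    have hm' : |m| ≤ m1 := abs_le.mpr ⟨hm.1, hm.2⟩
    have h1 := R6a_lower hm'
    obtain ⟨o1, o2⟩ := osd_bounds (m := m) (by linarith)
    rw [← neg_mul]
    exact mul_le_mul_of_nonneg_right h1 (by linarith)
  unfold oRs
  have h6 : -(12 / Real.pi * ∫ m in (-m1)..m1, (es (oa m) ^ 8 * ov m).re * osd m) =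
      12 / Real.pi * (-∫ m in (-m1)..m1, (es (oa m) ^ 8 * ov m).re * osd m) := by ring
  rw [h6]
  have h7 := mul_le_mul_of_nonneg_left hmain (show 0 ≤ 12 / Real.pi by positivity)
  have h8 : 12 / Real.pi * (16 / 1000 * (Real.pi / 12)) = 16 / 1000 := by
    field_simp
  linarith

end Pool.H61.Rh
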