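import Pool.Agent.H61.Rc.R3
import Pool.Agent.H61.Rc.R4
import Pool.Agent.H61.Rc.R5a
import Pool.Agent.H61.Rc.R6a
import Pool.Agent.H61.Rn.N6

/-! # R5: the reference curve `B*` as a function of the angle

`B0 s = Bf (oa (ms s)) (ob (ms s))`, `B1 s = Bd (..) / fq (..)`; `HasDerivAt B0 (B1 s) s` for
`|s| ≤ π/24`: `Bf ∘ (oa, ob)` has the derivative `otau' m · Bd` at `m` (apply `Bf_hasDerivAt` to the
curve in the time `otau`, or repeat its proof: chain rule), and `ms' = 1/osd = 1/(fq otau')`.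
Glue (R4) with `h = π/24`, `c = -i`, `Bf_match`, `Bd_match`.
`zero`: `∫_0^{π/3} F = 0` since `F (s + π/12) = -i F s`, `F (s + π/6) = -F s`.
`one`: `G s = e^{6is} F s` has period `π/12` (`e^{iπ/2} (-i) = 1`), so
`∫_0^{π/3} G = 4 ∫_{-π/24}^{π/24} G`, `G s = es^6 Bf = es^8 ov` there (`Bf_eq`, `es_oa`), and
the change of variables `s = os m` gives `4 ∫_{-m1}^{m1} es^8 ov osd dm = -(π/3) oRs` (R6a).
`area`: `cr F F1` has period `π/12`, `∫_0^{π/3} = 4 ∫_{-π/24}^{π/24} = 4 ∫_{-m1}^{m1} cr Bf Bd/fq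
osd dm = 4 ∫ (1 - fq) otau' = 4 (otau m1 - otau (-m1)) - 4 (os m1 - os (-m1))` (`cr_Bf_Bd`), and
`8 otau m1 = 2 cR/√3`, `cR = (8 - √32 - log 2)/(√8 - 1)` (`kp_mul_sinh_m1`, `kp_sq`). -/

set_option autoImplicit false

namespace Pool.H61.Rh

open Complex MeasureTheory

/-- the optimal value of `T` -/
noncomputable def Ts : ℝ := 8 * otau m1

/-- the reference curve -/
structure Ref (ms : ℝ → ℝ) (Bs Bs1 : ℝ → ℂ) : Prop where
  hms : Ms ms
  dB : ∀ s, HasDerivAt Bs (Bs1 s) s
  cB1 : Continuous Bs1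
  perB : ∀ s, Bs (s + Real.pi / 12) = -I * Bs s
  perB1 : ∀ s, Bs1 (s + Real.pi / 12) = -I * Bs1 s
  eqB : ∀ s, |s| ≤ Real.pi / 24 → Bs s = exp (2 * I * (s : ℂ)) * ov (ms s)
  eqB1 : ∀ s, |s| ≤ Real.pi / 24 →
    Bs1 s = exp (2 * I * (s : ℂ)) * bp (oy (ms s)) (ov (ms s))
  zero : ∫ s in (0 : ℝ)..(Real.pi / 3), Bs s = 0
  one : ∫ s in (0 : ℝ)..(Real.pi / 3), exp (6 * I * (s : ℂ)) * Bs s =
    -(((Real.pi / 3 * oRs : ℝ)) : ℂ)
  area : Ts = Real.pi / 3 + ∫ s in (0 : ℝ)..(Real.pi / 3), cr (Bs s) (Bs1 s)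

private lemma R5_m1_pos : 0 < m1 := by have := m1_bounds.1; linarith

private lemma R5_m1_lt : m1 < 1 / 4 := by have := m1_bounds.2; linarith

private lemma R5_quarter {m : ℝ} (hm : |m| ≤ m1) : |m| ≤ 1 / 4 := hm.trans R5_m1_lt.le

private lemma R5_otau'_pos (m : ℝ) : 0 < otau' m := by
  unfold otau'
  have h1 := oS_pos m
  have h2 := s3_pos
  have h3 : 0 < kp ^ 2 - 1 := by
    rw [kp_sq]
    have : (1 : ℝ) ≤ Real.sqrt 2 := by
      rw [show (1 : ℝ) = Real.sqrt 1 from Real.sqrt_one.symm]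
      exact Real.sqrt_le_sqrt (by norm_num)
    linarith
  exact div_pos (by linarith) (mul_pos h2 h3)

private lemma R5_fq_pos {m : ℝ} (hm : |m| ≤ 1 / 4) : 0 < fq (oa m) (ob m) (oy m) := by
  have h1 := (osd_bounds hm).1
  have h2 := R5_otau'_pos m
  unfold osd at h1
  by_contra h3
  have h4 : fq (oa m) (ob m) (oy m) * otau' m ≤ 0 :=
    mul_nonpos_of_nonpos_of_nonneg (not_lt.mp h3) h2.le
  linarith

private lemma R5_oy_norm (m : ℝ) : ‖oy m‖ < 1 := by
  have h1 := oy_normSq m
  have h2 := oS_pos m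
  have h3 : 0 < kp ^ 2 - 1 := by
    rw [kp_sq]
    have : (1 : ℝ) ≤ Real.sqrt 2 := by
      rw [show (1 : ℝ) = Real.sqrt 1 from Real.sqrt_one.symm]
      exact Real.sqrt_le_sqrt (by norm_num)
    linarith
  have h4 : 0 < 3 * (kp ^ 2 - 1) / (2 * kp * Real.cosh m - 1) ^ 2 := by
    have : 0 < 2 * kp * Real.cosh m - 1 := by linarith
    positivity
  rw [← h1, normSq_eq_norm_sq] at h4
  nlinarith [norm_nonneg (oy m)]

private lemma R5_oa_ne (m : ℝ) : oa m ≠ 0 := by
  intro h0
  have h1 := oa_normSq m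
  rw [h0, map_zero] at h1
  have := normSq_nonneg (ob m)
  linarith

/-- `B` in the parameter `m` -/
private noncomputable def R5_B (m : ℝ) : ℂ := Bf (oa m) (ob m)

/-- `dB/ds` in the parameter `m` -/
private noncomputable def R5_D (m : ℝ) : ℂ :=
  Bd (oa m) (ob m) (oy m) / (fq (oa m) (ob m) (oy m) : ℂ)

private lemma R5_B_eq {m : ℝ} (hm : |m| ≤ 1 / 4) :
    R5_B m = exp (2 * I * (os m : ℂ)) * ov m := by
  unfold R5_B ov
  rw [Bf_eq (oa_normSq m), es_oa hm, ← Complex.exp_nat_mul]
  congr 2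
  push_cast
  ring

private lemma R5_D_eq {m : ℝ} (hm : |m| ≤ 1 / 4) :
    R5_D m = exp (2 * I * (os m : ℂ)) * bp (oy m) (ov m) := by
  have hf := R5_fq_pos hm
  have hfc : ((fq (oa m) (ob m) (oy m) : ℝ) : ℂ) ≠ 0 := by exact_mod_cast hf.ne'
  unfold R5_D ov
  rw [Bd_eq (oy m) (oa_normSq m) (R5_oy_norm m), ← fq_eq_fs (oy m) (oa_normSq m),
    mul_div_cancel_left₀ _ hfc, es_oa hm, ← Complex.exp_nat_mul]
  congr 2
  push_cast
  ring

private lemma R5_cont_oa : Continuous oa :=
  continuous_iff_continuousAt.2 fun m => (oa_hasDerivAt m).continuousAt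

private lemma R5_cont_ob : Continuous ob :=
  continuous_iff_continuousAt.2 fun m => (ob_hasDerivAt m).continuousAt

private lemma R5_cont_oy : Continuous oy :=
  continuous_iff_continuousAt.2 fun m => (oy_hasDerivAt m).continuousAt

private lemma R5_cont_fq : Continuous fun m => fq (oa m) (ob m) (oy m) := by
  have ca := R5_cont_oa
  have cb := R5_cont_ob
  have cy := R5_cont_oy
  have cya : Continuous fun m => oy m * oa m := cy.mul ca
  have c1 : Continuous fun m => dt (oy m * oa m) (ob m) := by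
    unfold dt
    exact ((continuous_re.comp cya).mul (continuous_re.comp cb)).add
      ((continuous_im.comp cya).mul (continuous_im.comp cb))
  unfold fq
  exact continuous_const.sub (c1.div (continuous_normSq.comp ca)
    fun m => (normSq_pos.mpr (R5_oa_ne m)).ne')

private lemma R5_cont_D {m : ℝ} (hm : |m| ≤ 1 / 4) : ContinuousAt R5_D m := by
  have ca := R5_cont_oa
  have cb := R5_cont_ob
  have cy := R5_cont_oy
  have cf := R5_cont_fq
  have cn : Continuous fun m => ((‖oa m‖ : ℝ) : ℂ) := continuous_ofReal.comp ca.norm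
  have cn0 : ∀ m, ((‖oa m‖ : ℝ) : ℂ) ≠ 0 := fun m => by
    exact_mod_cast (norm_pos_iff.mpr (R5_oa_ne m)).ne'
  have cd : Continuous fun m => Bd (oa m) (ob m) (oy m) := by
    unfold Bd
    exact (continuous_const.mul (ca.div cn cn0)).mul ((ca.mul cy).sub
      ((continuous_ofReal.comp (continuous_const.sub cf)).mul cb))
  have cfc : Continuous fun m => ((fq (oa m) (ob m) (oy m) : ℝ) : ℂ) := continuous_ofReal.comp cf
  have hf : ((fq (oa m) (ob m) (oy m) : ℝ) : ℂ) ≠ 0 := by exact_mod_cast (R5_fq_pos hm).ne'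
  exact cd.continuousAt.div cfc.continuousAt hf

private lemma R5_deriv {ms : ℝ → ℝ} (h : Ms ms) (s : ℝ) (hs : |s| ≤ Real.pi / 24) :
    HasDerivAt (fun s => R5_B (ms s)) (R5_D (ms s)) s := by
  have hm : |ms s| ≤ 1 / 4 := R5_quarter (h.mem s hs)
  have hf := R5_fq_pos hm
  have ht := R5_otau'_pos (ms s)
  set f : ℝ := fq (oa (ms s)) (ob (ms s)) (oy (ms s)) with hfdef
  have hms := h.hd s hs
  -- the parameter t with s' = s + f t
  have hpar : HasDerivAt (fun t : ℝ => s + f * t) f 0 := by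
    simpa using ((hasDerivAt_id (0 : ℝ)).const_mul f).const_add s
  have h0 : s + f * 0 = s := by ring
  have hms0 : HasDerivAt (fun t : ℝ => ms (s + f * t)) (1 / osd (ms s) * f) 0 := by
    refine HasDerivAt.comp (h := fun t : ℝ => s + f * t) (h₂ := ms) 0 ?_ hpar
    rw [h0]; exact hms
  have hosd : osd (ms s) = f * otau' (ms s) := rfl
  have hsc : (1 / osd (ms s) * f) * otau' (ms s) = 1 := by
    rw [hosd]
    field_simp
  have hA : HasDerivAt (fun t : ℝ => oa (ms (s + f * t)))
      (I * (oa (ms (s + f * 0)) - (starRingEnd ℂ) (oy (ms s)) * ob (ms (s + f * 0)))) 0 := by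
    have h1 : HasDerivAt oa ((otau' (ms s) : ℂ) * (I * (oa (ms s) -
        (starRingEnd ℂ) (oy (ms s)) * ob (ms s)))) (ms (s + f * 0)) := by
      rw [h0]; exact oa_hasDerivAt (ms s)
    have h2 := h1.scomp (0 : ℝ) hms0
    refine h2.congr_deriv ?_
    rw [h0, real_smul, ← mul_assoc, ← ofReal_mul, hsc, ofReal_one, one_mul]
  have hB : HasDerivAt (fun t : ℝ => ob (ms (s + f * t)))
      (I * (oy (ms s) * oa (ms (s + f * 0)) - ob (ms (s + f * 0)))) 0 := by
    have h1 : HasDerivAt ob ((otau' (ms s) : ℂ) * (I * (oy (ms s) * oa (ms s) - ob (ms s))))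
        (ms (s + f * 0)) := by
      rw [h0]; exact ob_hasDerivAt (ms s)
    have h2 := h1.scomp (0 : ℝ) hms0
    refine h2.congr_deriv ?_
    rw [h0, real_smul, ← mul_assoc, ← ofReal_mul, hsc, ofReal_one, one_mul]
  have hBf := Bf_hasDerivAt (a := fun t : ℝ => oa (ms (s + f * t)))
    (b := fun t : ℝ => ob (ms (s + f * t))) (y := oy (ms s)) (τ := 0) hA hB
    (oa_normSq (ms (s + f * 0)))
  have hBf' : HasDerivAt (fun t : ℝ => R5_B (ms (s + f * t)))
      (Bd (oa (ms s)) (ob (ms s)) (oy (ms s))) 0 := by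
    have h3 : Bd (oa (ms (s + f * 0))) (ob (ms (s + f * 0))) (oy (ms s)) =
      Bd (oa (ms s)) (ob (ms s)) (oy (ms s)) := by rw [h0]
    exact hBf.congr_deriv h3
  -- back to s
  have hback : HasDerivAt (fun x : ℝ => (x - s) / f) (1 / f) s := by
    simpa using ((hasDerivAt_id s).sub_const s).div_const f
  have h4 : (s - s) / f = 0 := by rw [sub_self, zero_div]
  have h5 : HasDerivAt (fun t : ℝ => R5_B (ms (s + f * t)))
      (Bd (oa (ms s)) (ob (ms s)) (oy (ms s))) ((s - s) / f) := by rw [h4]; exact hBf'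
  have h6 := h5.scomp s hback
  have h7 : ((fun t : ℝ => R5_B (ms (s + f * t))) ∘ fun x : ℝ => (x - s) / f) =
      fun x => R5_B (ms x) := by
    funext x
    show R5_B (ms (s + f * ((x - s) / f))) = R5_B (ms x)
    have : s + f * ((x - s) / f) = x := by field_simp; ring
    rw [this]
  rw [h7] at h6
  refine h6.congr_deriv ?_
  unfold R5_D
  rw [real_smul, ← hfdef]
  push_cast
  ring

private lemma R5_os_mono {m : ℝ} (hm : |m| ≤ m1) : |os m| ≤ Real.pi / 24 := by
  have hmono : MonotoneOn os (Set.Icc (-m1) m1) := by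
    refine monotoneOn_of_deriv_nonneg (convex_Icc _ _) ?_ ?_ ?_
    · intro x hx
      exact (os_hasDerivAt (R5_quarter (abs_le.mpr hx))).continuousAt.continuousWithinAt
    · intro x hx
      rw [interior_Icc] at hx
      exact (os_hasDerivAt (R5_quarter (abs_le.mpr ⟨hx.1.le, hx.2.le⟩))).differentiableAt.differentiableWithinAt
    · intro x hx
      rw [interior_Icc] at hx
      have hx' : |x| ≤ 1 / 4 := R5_quarter (abs_le.mpr ⟨hx.1.le, hx.2.le⟩)
      rw [(os_hasDerivAt hx').deriv]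
      have := (osd_bounds hx').1
      linarith
  have hm' := abs_le.mp hm
  have hm0 := R5_m1_pos
  have h1 := hmono ⟨hm'.1, hm'.2⟩ ⟨by linarith, le_refl m1⟩ hm'.2
  have h2 := hmono ⟨le_refl (-m1), by linarith⟩ ⟨hm'.1, hm'.2⟩ hm'.1
  rw [os_neg, os_m1] at h2
  rw [os_m1] at h1
  exact abs_le.mpr ⟨h2, h1⟩

private lemma R5_four {E : Type*} [NormedAddCommGroup E] [NormedSpace ℝ E] [CompleteSpace E]
    {G : ℝ → E} (hG : Continuous G)
    (hp : ∀ s, G (s + Real.pi / 12) = G s) :
    ∫ s in (0 : ℝ)..(Real.pi / 3), G s =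
      (4 : ℝ) • ∫ s in (-(Real.pi / 24))..(Real.pi / 24), G s := by
  have hper : Function.Periodic G (Real.pi / 12) := hp
  have h1 := hper.intervalIntegral_add_zsmul_eq 4 0 (fun _ _ => hG.intervalIntegrable _ _)
  have h2 := hper.intervalIntegral_add_eq 0 (-(Real.pi / 24))
  have e1 : (0 : ℝ) + (4 : ℤ) • (Real.pi / 12) = Real.pi / 3 := by
    rw [zsmul_eq_mul]; push_cast; ring
  have e2 : -(Real.pi / 24) + Real.pi / 12 = Real.pi / 24 := by ring
  rw [e1, h2, e2] at h1
  rw [h1, ← Int.cast_smul_eq_zsmul ℝ]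
  norm_num

private lemma R5_change {E : Type*} [NormedAddCommGroup E] [NormedSpace ℝ E] [CompleteSpace E]
    {G : ℝ → E} (hG : Continuous G) :
    ∫ s in (-(Real.pi / 24))..(Real.pi / 24), G s = ∫ m in (-m1)..m1, osd m • G (os m) := by
  have hm0 := R5_m1_pos
  have h1 := intervalIntegral.integral_deriv_smul_comp (a := -m1) (b := m1) (f := os)
    (f' := osd) (g := G) (fun x hx => by
      rw [Set.uIcc_of_le (by linarith)] at hx
      exact os_hasDerivAt (R5_quarter (abs_le.mpr hx))) osd_continuous.continuousOn hG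
  rw [os_neg, os_m1] at h1
  exact h1.symm

private lemma R5_cr_div (z w : ℂ) (r : ℝ) : cr z (w / (r : ℂ)) = cr z w / r := by
  simp only [cr, div_ofReal_re, div_ofReal_im]
  ring

private lemma R5_cr_cont {f g : ℝ → ℂ} (hf : Continuous f) (hg : Continuous g) :
    Continuous fun s => cr (f s) (g s) := by
  unfold cr
  fun_prop

private lemma R5_cr_rot (z w : ℂ) : cr (-I * z) (-I * w) = cr z w := by
  simp only [cr, neg_mul, neg_re, neg_im, mul_re, mul_im, I_re, I_im]
  ring

private lemma R5_otau'_cont : Continuous otau' := by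
  unfold otau'
  exact ((continuous_const.mul Real.continuous_cosh).sub continuous_const).div_const _

theorem exists_ref : ∃ (ms : ℝ → ℝ) (Bs Bs1 : ℝ → ℂ), Ref ms Bs Bs1 := by
  obtain ⟨ms, hms⟩ := exists_ms
  have hpi := Real.pi_pos
  have hh : 0 < Real.pi / 24 := by positivity
  have habs : |Real.pi / 24| ≤ Real.pi / 24 := by rw [abs_of_pos hh]
  have habs' : |-(Real.pi / 24)| ≤ Real.pi / 24 := by rw [abs_neg, abs_of_pos hh]
  have hcI : (-I : ℂ) ≠ 0 := neg_ne_zero.mpr I_ne_zero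
  obtain ⟨F, F1, hF, hF1, hp, hp1, heq⟩ := glue hh hcI (B0 := fun s => R5_B (ms s))
    (B1 := fun s => R5_D (ms s)) (fun s hs => R5_deriv hms s hs) (by
      intro s hs
      have hs' : |s| ≤ Real.pi / 24 := abs_le.mpr hs
      have c1 : ContinuousAt ms s := (hms.hd s hs').continuousAt
      have c2 : ContinuousAt R5_D (ms s) := R5_cont_D (R5_quarter (hms.mem s hs'))
      exact (ContinuousAt.comp (f := ms) (g := R5_D) c2 c1).continuousWithinAt) (by
      show R5_B (ms (Real.pi / 24)) = -I * R5_B (ms (-(Real.pi / 24)))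
      rw [hms.hi, hms.lo]; exact Bf_match) (by
      show R5_D (ms (Real.pi / 24)) = -I * R5_D (ms (-(Real.pi / 24)))
      rw [hms.hi, hms.lo]; exact Bd_match)
  have e2 : 2 * (Real.pi / 24) = Real.pi / 12 := by ring
  simp only [e2] at hp hp1
  have hFc : Continuous F := continuous_iff_continuousAt.2 fun s => (hF s).continuousAt
  have hq : ∀ s, |s| ≤ Real.pi / 24 → |ms s| ≤ 1 / 4 := fun s hs => R5_quarter (hms.mem s hs)
  refine ⟨ms, F, F1, ⟨hms, hF, hF1, hp, hp1, ?_, ?_, ?_, ?_, ?_⟩⟩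
  · intro s hs
    rw [(heq s hs).1, R5_B_eq (hq s hs), hms.os_ms s hs]
  · intro s hs
    rw [(heq s hs).2, R5_D_eq (hq s hs), hms.os_ms s hs]
  · -- mean zero
    have hp2 : ∀ s, F (s + Real.pi / 6) = -F s := by
      intro s
      have h1 : s + Real.pi / 6 = s + Real.pi / 12 + Real.pi / 12 := by ring
      rw [h1, hp, hp, ← mul_assoc]
      have : -I * -I = (-1 : ℂ) := by rw [neg_mul_neg, I_mul_I]
      rw [this, neg_one_mul]
    have hi : ∀ a b : ℝ, IntervalIntegrable F volume a b := fun a b => hFc.intervalIntegrable a b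
    rw [← intervalIntegral.integral_add_adjacent_intervals (hi 0 (Real.pi / 6))
      (hi (Real.pi / 6) (Real.pi / 3))]
    have h3 : ∫ s in (Real.pi / 6)..(Real.pi / 3), F s =
        ∫ s in (0 : ℝ)..(Real.pi / 6), F (s + Real.pi / 6) := by
      rw [intervalIntegral.integral_comp_add_right F (Real.pi / 6)]
      congr 1
      · ring
      · ring
    rw [h3]
    simp only [hp2]
    rw [intervalIntegral.integral_neg, add_neg_cancel]
  · -- first mode
    set G : ℝ → ℂ := fun s => exp (6 * I * (s : ℂ)) * F s with hGdef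
    have hGc : Continuous G := by
      have : Continuous fun s : ℝ => exp (6 * I * (s : ℂ)) := by fun_prop
      exact this.mul hFc
    have hGp : ∀ s, G (s + Real.pi / 12) = G s := by
      intro s
      simp only [hGdef]
      rw [hp]
      have h1 : exp (6 * I * ((s + Real.pi / 12 : ℝ) : ℂ)) = exp (6 * I * (s : ℂ)) * I := by
        rw [show 6 * I * ((s + Real.pi / 12 : ℝ) : ℂ) =
          6 * I * (s : ℂ) + (Real.pi / 2 : ℂ) * I by push_cast; ring, exp_add,
          exp_pi_div_two_mul_I]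
      rw [h1]
      have : exp (6 * I * (s : ℂ)) * I * (-I * F s) =
          exp (6 * I * (s : ℂ)) * (-(I * I)) * F s := by ring
      rw [this, I_mul_I, neg_neg, mul_one]
    rw [R5_four hGc hGp, R5_change hGc]
    have hcong : ∫ m in (-m1)..m1, osd m • G (os m) =
        ∫ m in (-m1)..m1, ((osd m : ℝ) : ℂ) * (es (oa m) ^ 8 * ov m) := by
      refine intervalIntegral.integral_congr fun m hm => ?_
      have hm0 := R5_m1_pos
      rw [Set.uIcc_of_le (by linarith)] at hm
      have hm' : |m| ≤ m1 := abs_le.mpr hm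
      have hos := R5_os_mono hm'
      show osd m • G (os m) = ((osd m : ℝ) : ℂ) * (es (oa m) ^ 8 * ov m)
      simp only [hGdef]
      rw [real_smul, (heq (os m) hos).1, hms.ms_os m hm', R5_B_eq (R5_quarter hm'),
        es_oa (R5_quarter hm'), ← mul_assoc (exp (6 * I * (os m : ℂ))), ← exp_add,
        ← Complex.exp_nat_mul]
      congr 3
      push_cast
      ring
    rw [hcong]
    have hov : Continuous ov := by
      have cn : Continuous fun m => ((‖oa m‖ : ℝ) : ℂ) :=
        continuous_ofReal.comp R5_cont_oa.norm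
      unfold ov vf
      exact ((cn.mul R5_cont_ob).div R5_cont_oa R5_oa_ne).neg
    have hesc : Continuous fun m => es (oa m) := by
      have cn : Continuous fun m => ((‖oa m‖ : ℝ) : ℂ) :=
        continuous_ofReal.comp R5_cont_oa.norm
      have cn0 : ∀ m, ((‖oa m‖ : ℝ) : ℂ) ≠ 0 := fun m => by
        exact_mod_cast (norm_pos_iff.mpr (R5_oa_ne m)).ne'
      unfold es
      exact (continuous_const.mul R5_cont_oa).div cn cn0
    have hcH : Continuous fun m => ((osd m : ℝ) : ℂ) * (es (oa m) ^ 8 * ov m) :=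
      (continuous_ofReal.comp osd_continuous).mul ((hesc.pow 8).mul hov)
    have hiH := hcH.intervalIntegrable (μ := volume) (-m1) m1
    have hre : (∫ m in (-m1)..m1, ((osd m : ℝ) : ℂ) * (es (oa m) ^ 8 * ov m)).re =
        ∫ m in (-m1)..m1, (es (oa m) ^ 8 * ov m).re * osd m := by
      have h1 := reCLM.intervalIntegral_comp_comm hiH
      simp only [reCLM_apply] at h1
      rw [← h1]
      refine intervalIntegral.integral_congr fun m _ => ?_
      show (((osd m : ℝ) : ℂ) * (es (oa m) ^ 8 * ov m)).re = _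
      rw [re_ofReal_mul, mul_comm]
    have him : (∫ m in (-m1)..m1, ((osd m : ℝ) : ℂ) * (es (oa m) ^ 8 * ov m)).im =
        ∫ m in (-m1)..m1, (es (oa m) ^ 8 * ov m).im * osd m := by
      have h1 := imCLM.intervalIntegral_comp_comm hiH
      simp only [imCLM_apply] at h1
      rw [← h1]
      refine intervalIntegral.integral_congr fun m _ => ?_
      show (((osd m : ℝ) : ℂ) * (es (oa m) ^ 8 * ov m)).im = _
      rw [im_ofReal_mul, mul_comm]
    have hR : ∫ m in (-m1)..m1, (es (oa m) ^ 8 * ov m).re * osd m = -(Real.pi / 12 * oRs) := by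
      unfold oRs
      field_simp
    rw [hR] at hre
    rw [oRs_im] at him
    apply Complex.ext
    · rw [smul_re, hre, neg_re, ofReal_re, smul_eq_mul]
      ring
    · rw [smul_im, him, neg_im, ofReal_im, smul_zero, neg_zero]
  · -- area
    have hcr : Continuous fun s => cr (F s) (F1 s) := R5_cr_cont hFc hF1
    have hcrp : ∀ s, (fun s => cr (F s) (F1 s)) (s + Real.pi / 12) =
        (fun s => cr (F s) (F1 s)) s := by
      intro s
      show cr (F (s + Real.pi / 12)) (F1 (s + Real.pi / 12)) = cr (F s) (F1 s)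
      rw [hp, hp1, R5_cr_rot]
    rw [R5_four hcr hcrp, R5_change hcr]
    have hcong : ∫ m in (-m1)..m1, osd m • (fun s => cr (F s) (F1 s)) (os m) =
        ∫ m in (-m1)..m1, (otau' m - osd m) := by
      refine intervalIntegral.integral_congr fun m hm => ?_
      have hm0 := R5_m1_pos
      rw [Set.uIcc_of_le (by linarith)] at hm
      have hm' : |m| ≤ m1 := abs_le.mpr hm
      have hos := R5_os_mono hm'
      show osd m • cr (F (os m)) (F1 (os m)) = otau' m - osd m
      rw [(heq (os m) hos).1, (heq (os m) hos).2, hms.ms_os m hm']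
      unfold R5_B R5_D
      rw [R5_cr_div, cr_Bf_Bd _ (oa_normSq m), smul_eq_mul]
      have hf := (R5_fq_pos (R5_quarter hm')).ne'
      unfold osd
      field_simp
    rw [hcong]
    have hint : ∫ m in (-m1)..m1, (otau' m - osd m) =
        (otau m1 - os m1) - (otau (-m1) - os (-m1)) := by
      refine intervalIntegral.integral_eq_sub_of_hasDerivAt (f := fun m => otau m - os m) ?_ ?_
      · intro m hm
        have hm0 := R5_m1_pos
        rw [Set.uIcc_of_le (by linarith)] at hm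
        exact (otau_hasDerivAt m).sub (os_hasDerivAt (R5_quarter (abs_le.mpr hm)))
      · exact (R5_otau'_cont.sub osd_continuous).intervalIntegrable _ _
    have hodd : otau (-m1) = -otau m1 := by
      unfold otau
      rw [Real.sinh_neg]
      ring
    rw [hint, hodd, os_neg, os_m1]
    unfold Ts
    rw [smul_eq_mul]
    ring

private lemma R5_Ts : Ts = 8 * ((2 - Real.sqrt 2 - Real.log 2 / 4) /
    (s3 * (2 * Real.sqrt 2 - 1))) := by
  unfold Ts otau
  rw [kp_sq, mul_assoc 2 kp, kp_mul_sinh_m1]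
  unfold m1
  ring

theorem Ts_eq : 3 * Ts = 2 * s3 * ((8 - Real.sqrt 32 - Real.log 2) / (Real.sqrt 8 - 1)) := by
  have h32 : Real.sqrt 32 = 4 * Real.sqrt 2 := by
    rw [show (32 : ℝ) = 4 ^ 2 * 2 by norm_num, Real.sqrt_mul (by norm_num),
      Real.sqrt_sq (by norm_num)]
  have h8 : Real.sqrt 8 = 2 * Real.sqrt 2 := by
    rw [show (8 : ℝ) = 2 ^ 2 * 2 by norm_num, Real.sqrt_mul (by norm_num),
      Real.sqrt_sq (by norm_num)]
  rw [R5_Ts, h32, h8]
  have h3 := s3_mul
  have h3p := s3_pos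
  have h2 : (1 : ℝ) ≤ Real.sqrt 2 := by
    rw [show (1 : ℝ) = Real.sqrt 1 from Real.sqrt_one.symm]
    exact Real.sqrt_le_sqrt (by norm_num)
  have hne : 2 * Real.sqrt 2 - 1 ≠ 0 := by linarith
  have hne' : s3 ≠ 0 := h3p.ne'
  field_simp
  linear_combination (-8 * (8 - 4 * Real.sqrt 2 - Real.log 2)) * h3

theorem Ts_bounds : 104 / 100 ≤ Ts ∧ Ts ≤ 105 / 100 := by
  rw [R5_Ts]
  have h1 := s3_gt
  have h2 := s3_lt
  have h3 := Real.log_two_gt_d9
  have h4 := Real.log_two_lt_d9
  have h5 : (141421 / 100000 : ℝ) < Real.sqrt 2 := by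
    rw [Real.lt_sqrt (by norm_num)]; norm_num
  have h6 : Real.sqrt 2 < (141422 / 100000 : ℝ) := by
    rw [Real.sqrt_lt' (by norm_num)]; norm_num
  set r : ℝ := Real.sqrt 2
  have hD : 0 < s3 * (2 * r - 1) := by
    have := s3_pos
    exact mul_pos this (by linarith)
  have hlo : (17320508 / 10000000 : ℝ) * (2 * (141421 / 100000) - 1) ≤ s3 * (2 * r - 1) :=
    mul_le_mul h1.le (by linarith) (by norm_num) s3_pos.le
  have hhi : s3 * (2 * r - 1) ≤ (17320509 / 10000000 : ℝ) * (2 * (141422 / 100000) - 1) :=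
    mul_le_mul h2.le (by linarith) (by linarith) (by norm_num)
  rw [← mul_div_assoc]
  constructor
  · rw [le_div_iff₀ hD]
    norm_num at hlo hhi h3 h4 ⊢
    linarith
  · rw [div_le_iff₀ hD]
    norm_num at hlo hhi h3 h4 ⊢
    linarith

end Pool.H61.Rh
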