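import Pool.Agent.H61.Rc.R0

/-! # H0: the functions `E_j` for a calibration that is linear in `v`: definitions

`W (m, y, v) = A (m, y) + β (m, y) · (v - v*(m))`; values of the derivatives: `Am = A_m (m, y)`,
`AV = A_y (m, y) · V_j`, `be = β (m, y)`, `bm = β_m (m, y)`, `bV = β_y (m, y) V_j`.
`Ej = Lag - DW [1/osd, V_j/fs, vt/fs]`, `E0 = Ej` at `v = v*`, `gj` = its gradient in `v` at `v*`. -/

set_option autoImplicit false

namespace Pool.H61.Rh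

open Complex

/-- `ρ = √(1+|v|²)` -/
noncomputable def rh (v : ℂ) : ℝ := Real.sqrt (1 + normSq v)

/-- `κ = y·v/ρ` -/
noncomputable def ka (y v : ℂ) : ℝ := dt y v / rh v

/-- `f_v = ∇_v fs` -/
noncomputable def fv (y v : ℂ) : ℂ :=
  ((1 / rh v : ℝ) : ℂ) * (y - ((ka y v / rh v : ℝ) : ℂ) * v)

/-- `Z = v + i bp = (v + ρ y)/fs` -/
noncomputable def Zv (y v : ℂ) : ℂ := v + I * bp y v

/-- adjoint of the derivative of `v ↦ bp y v`, applied to `X` -/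
noncomputable def DbT (y v X : ℂ) : ℂ :=
  ((1 / fs y v : ℝ) : ℂ) * (((dt (I * X) y / rh v : ℝ) : ℂ) * v - ((ka y v : ℝ) : ℂ) * (I * X)
    - ((dt (I * X) (Zv y v) : ℝ) : ℂ) * fv y v)

/-- `Ej` with `a = v*`, `bs = bp*`, `c8 = μ e^{8is}`, `od = osd` as variables -/
noncomputable def EE (a bs c8 : ℂ) (od Am AV : ℝ) (be bm bV y v : ℂ) : ℝ :=
  2 * cr (v - a) bs + 6 * normSq (v - a) + 1 / 2 * cr (v - a) (bp y v - bs)
    - 1 / 12 * normSq (bp y v - bs) + (c8 * (v - a)).re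
    - (Am + dt bm (v - a) - od * dt be (bs - 2 * I * a)) / od
    - (AV + dt bV (v - a)) / fs y v - dt be (bp y v - 2 * I * v)

/-- `E0` in the variables -/
noncomputable def EE0 (a bs : ℂ) (od Am AV : ℝ) (be y : ℂ) : ℝ :=
  -(1 / 12 * normSq (bp y a - bs)) - Am / od - AV / fs y a - dt be (bp y a - bs)

/-- `gj` in the variables -/
noncomputable def gg (a bs c8 : ℂ) (od AV : ℝ) (be bm bV y : ℂ) : ℂ :=
  -(2 * I * bs) - I / 2 * (bp y a - bs) + (starRingEnd ℂ) c8 - ((1 / od : ℝ) : ℂ) * bm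
    - ((1 / fs y a : ℝ) : ℂ) * bV + ((AV / fs y a ^ 2 : ℝ) : ℂ) * fv y a
    - DbT y a (be + (bp y a - bs) / 6) - 2 * I * be

/-- `p₀ = v*/2 - i β - i (bp (y, v*) - bp*)/6` -/
noncomputable def pp (a bs be y : ℂ) : ℂ := a / 2 - I * (be + (bp y a - bs) / 6)

/-- `c₀` -/
noncomputable def cc (a bs : ℂ) (AV : ℝ) (be y : ℂ) : ℝ :=
  1 / fs y a * (1 / fs y a * (1 / 2 - AV) + dt (pp a bs be y) (Zv y a))

/-- `μ e^{8is}` -/
noncomputable def c8 (μ m : ℝ) : ℂ := (μ : ℂ) * es (oa m) ^ 8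

/-- `Lag - DW [1/osd, V_j/fs, vt/fs]` -/
noncomputable def Ej (μ m : ℝ) (y v : ℂ) (Am AV : ℝ) (be bm bV : ℂ) : ℝ :=
  Lag μ m y v - (Am + dt bm (v - ov m) - osd m * dt be (bp (oy m) (ov m) - 2 * I * ov m)) / osd m
    - (AV + dt bV (v - ov m)) / fs y v - dt be (bp y v - 2 * I * v)

/-- its value at `v = v*` -/
noncomputable def E0 (m : ℝ) (y : ℂ) (Am AV : ℝ) (be : ℂ) : ℝ :=
  EE0 (ov m) (bp (oy m) (ov m)) (osd m) Am AV be y

/-- its gradient in `v` at `v = v*` -/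
noncomputable def gj (μ m : ℝ) (y : ℂ) (AV : ℝ) (be bm bV : ℂ) : ℂ :=
  gg (ov m) (bp (oy m) (ov m)) (c8 μ m) (osd m) AV be bm bV y

/-- loss: `M` bounds the main part, `Q = ‖q‖`, `c = c₀`, `h = ‖y‖`, `pr = p₀·y/fs*`, `z = ‖Z‖`,
`ps = 1/fs*` -/
noncomputable def Tht (M Q c h pr z ps : ℝ) : ℝ :=
  1 / (1 - 2874 / 10000 * h) * (M + 51 / 10000 * h * (ps * Q + 2 * c * h))
    + 181 / 1000 * c * h - 493 / 1000 * pr
    + |pr| * (7 / 1000 + 1662 / 10000 * (1 / (1 - 2874 / 10000 * h)) * h)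
    + (1 / (1 - 2874 / 10000 * h)) ^ 2 / 12 * h ^ 2 * (4527 / 10000 + 10051 / 10000 * z) ^ 2

lemma Ej_eq (μ m : ℝ) (y v : ℂ) (Am AV : ℝ) (be bm bV : ℂ) :
    Ej μ m y v Am AV be bm bV =
      EE (ov m) (bp (oy m) (ov m)) (c8 μ m) (osd m) Am AV be bm bV y v := by
  have : (c8 μ m * (v - ov m)).re = μ * (es (oa m) ^ 8 * (v - ov m)).re := by
    unfold c8; rw [mul_assoc, Complex.re_ofReal_mul]
  unfold Ej EE Lag
  rw [this]

end Pool.H61.Rh
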