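import Pool.Agent.H61.Rc.H0

/-! # H1: the exact second order expansion of `E_j` in `v`

At fixed `(m, y)`; `v = a + u`, `a = v*`; `ρ, κ = y·v/ρ, φ = 1/(1+κ)`, `X = φ(ρ y - κ v) = i bp`;
subscript `s` for the values at `a`; `Z = a + X_s`. -/

set_option autoImplicit false

namespace Pool.H61.Rh

open Complex

/-- second order remainder of `κ` -/
noncomputable def Tk (y a u : ℂ) : ℝ := ka y (a + u) - ka y a - dt (fv y a) u

/-- second order remainder of `ρ` -/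
noncomputable def Tr (a u : ℂ) : ℝ := rh (a + u) - rh a - dt a u / rh a

lemma rh_sq (v : ℂ) : rh v ^ 2 = 1 + normSq v := by
  unfold rh; exact Real.sq_sqrt (by have := normSq_nonneg v; linarith)

lemma rh_pos (v : ℂ) : 0 < rh v := by
  unfold rh; exact Real.sqrt_pos.2 (by have := normSq_nonneg v; linarith)

lemma fs_eq (y v : ℂ) : fs y v = 1 + ka y v := rfl

lemma ka_mul (y v : ℂ) : ka y v * rh v = dt y v := by
  unfold ka; exact div_mul_cancel₀ _ (rh_pos v).ne'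

/-- `bp` in terms of `ρ, κ` -/
lemma bp_eq (y v : ℂ) (h : fs y v ≠ 0) :
    bp y v = -I * (((1 / fs y v : ℝ) : ℂ) * (((rh v : ℝ) : ℂ) * y - ((ka y v : ℝ) : ℂ) * v)) := by
  have hr := rh_pos v
  have h1 : Real.sqrt (1 + normSq v) + dt y v = rh v * fs y v := by
    rw [fs_eq, mul_add, mul_one, mul_comm (rh v) (ka y v), ka_mul]; rfl
  have h2 : (1 + normSq v : ℝ) = rh v ^ 2 := (rh_sq v).symm
  have h3 : dt y v = ka y v * rh v := (ka_mul y v).symm
  unfold bp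
  rw [h1, h2, h3]
  have hr' : ((rh v : ℝ) : ℂ) ≠ 0 := by exact_mod_cast hr.ne'
  have hf' : ((fs y v : ℝ) : ℂ) ≠ 0 := by exact_mod_cast h
  push_cast
  field_simp

lemma bp_re (y v : ℂ) (h : fs y v ≠ 0) :
    (bp y v).re = 1 / fs y v * (rh v * y.im - ka y v * v.im) := by
  rw [bp_eq y v h]
  simp [Complex.mul_re, Complex.mul_im]

lemma bp_im (y v : ℂ) (h : fs y v ≠ 0) :
    (bp y v).im = -(1 / fs y v * (rh v * y.re - ka y v * v.re)) := by
  rw [bp_eq y v h]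
  simp [Complex.mul_re, Complex.mul_im]

/-- `i`-rotated `bp`: `X = φ (ρ y - κ v)` -/
private lemma core1 {y1 v1 a1 u1 r rs k ks p ps X X0 Z dk dr : ℝ} (hv : v1 = a1 + u1)
    (hp : p * (1 + k) = 1) (hps : ps * (1 + ks) = 1) (hX : X = p * (r * y1 - k * v1))
    (hX0 : X0 = ps * (rs * y1 - ks * a1)) (hZ : Z = a1 + X0) (hdk : dk = k - ks)
    (hdr : dr = r - rs) : X - X0 = p * (dr * y1 - k * u1 - dk * Z) := by
  subst hv hdk hdr hZ
  have e : p - ps = -(p * ps * (k - ks)) := by linear_combination ps * hp - p * hps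
  rw [hX, hX0]
  linear_combination (rs * y1 - ks * a1) * e

private lemma core2 {y1 u1 p ps k ks X X0 D Z dk dr Tk Tr kd nu : ℝ}
    (hp : p * (1 + k) = 1) (hps : ps * (1 + ks) = 1)
    (h1 : X - X0 = p * (dr * y1 - k * u1 - dk * Z)) (hdk : dk = k - ks)
    (hTk : Tk = dk - kd) (hTr : Tr = dr - nu) (hD : D = ps * (nu * y1 - ks * u1 - kd * Z)) :
    X - X0 - D = ps * ((Tr - p * dk * dr) * y1 - p * dk * u1 + (p * dk ^ 2 - Tk) * Z) := by
  have e : p - ps = -(p * ps * dk) := by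
    rw [hdk]; linear_combination ps * hp - p * hps
  have e2 : p * k - ps * ks = p * ps * dk := by linear_combination hp - hps - e
  rw [h1, hD, hTk, hTr]
  linear_combination (dr * y1 - dk * Z) * e - u1 * e2

private lemma core3 {y1 y2 a1 a2 u1 u2 r rs k ks p ps X1 X2 W1 W2 D1 D2 Z1 Z2 kd nu ri : ℝ}
    (hp : p * (1 + k) = 1) (hps : ps * (1 + ks) = 1)
    (hr : r ^ 2 = 1 + ((a1 + u1) * (a1 + u1) + (a2 + u2) * (a2 + u2)))
    (hrs : rs ^ 2 = 1 + (a1 * a1 + a2 * a2))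
    (hk : k * r = y1 * (a1 + u1) + y2 * (a2 + u2)) (hks : ks * rs = y1 * a1 + y2 * a2)
    (hri : ri * rs = 1)
    (hX1 : X1 = p * (r * y1 - k * (a1 + u1))) (hX2 : X2 = p * (r * y2 - k * (a2 + u2)))
    (hW1 : W1 = ps * (rs * y1 - ks * a1)) (hW2 : W2 = ps * (rs * y2 - ks * a2))
    (hZ1 : Z1 = a1 + W1) (hZ2 : Z2 = a2 + W2)
    (hkd : kd = ri * (y1 * u1 + y2 * u2) - ks * ri ^ 2 * (a1 * u1 + a2 * u2))
    (hnu : nu = ri * (a1 * u1 + a2 * u2))
    (hD1 : D1 = ps * (nu * y1 - ks * u1 - kd * Z1))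
    (hD2 : D2 = ps * (nu * y2 - ks * u2 - kd * Z2)) :
    u1 * (X1 - W1) + u2 * (X2 - W2) + (a1 * (X1 - W1 - D1) + a2 * (X2 - W2 - D2)) =
      -(p - ps + ps ^ 2 * kd) := by
  have hvX : (a1 + u1) * X1 + (a2 + u2) * X2 = 1 - p := by
    rw [hX1, hX2]
    linear_combination (-p * r) * hk + p * k * hr + hp
  have haW : a1 * W1 + a2 * W2 = 1 - ps := by
    rw [hW1, hW2]
    linear_combination (-ps * rs) * hks + ps * ks * hrs + hps
  have haZ : a1 * Z1 + a2 * Z2 = rs ^ 2 - ps := by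
    rw [hZ1, hZ2]; linear_combination haW - hrs
  have huW : u1 * W1 + u2 * W2 = ps * (rs * (y1 * u1 + y2 * u2) - ks * (a1 * u1 + a2 * u2)) := by
    rw [hW1, hW2]; ring
  have haD : a1 * D1 + a2 * D2 = ps * (nu * (ks * rs) - ks * (a1 * u1 + a2 * u2)
      - kd * (rs ^ 2 - ps)) := by
    rw [hD1, hD2, hks, ← haZ]; ring
  have hnr : nu * rs = a1 * u1 + a2 * u2 := by
    rw [hnu]; linear_combination (a1 * u1 + a2 * u2) * hri
  have hkr : kd * rs ^ 2 = rs * (y1 * u1 + y2 * u2) - ks * (a1 * u1 + a2 * u2) := by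
    rw [hkd]
    linear_combination (rs * (y1 * u1 + y2 * u2) - ks * (a1 * u1 + a2 * u2) * (ri * rs + 1)) * hri
  linear_combination hvX - haW - huW - haD - ps * ks * hnr + ps * hkr

lemma vcore4 {y1 y2 a1 a2 u1 u2 r rs k ks p ps X1 X2 W1 W2 D1 D2 Z1 Z2 kd nu ri
    s1 s2 c1 c2 od Am AV e1 e2 m1 m2 b1 b2 Y1 Y2 p1 p2 dk dr Tk Tr c0 : ℝ} (hod : od ≠ 0)
    (hp : p * (1 + k) = 1) (hps : ps * (1 + ks) = 1)
    (hr : r ^ 2 = 1 + ((a1 + u1) * (a1 + u1) + (a2 + u2) * (a2 + u2)))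
    (hrs : rs ^ 2 = 1 + (a1 * a1 + a2 * a2))
    (hk : k * r = y1 * (a1 + u1) + y2 * (a2 + u2)) (hks : ks * rs = y1 * a1 + y2 * a2)
    (hri : ri * rs = 1)
    (hX1 : X1 = p * (r * y1 - k * (a1 + u1))) (hX2 : X2 = p * (r * y2 - k * (a2 + u2)))
    (hW1 : W1 = ps * (rs * y1 - ks * a1)) (hW2 : W2 = ps * (rs * y2 - ks * a2))
    (hZ1 : Z1 = a1 + W1) (hZ2 : Z2 = a2 + W2)
    (hkd : kd = ri * (y1 * u1 + y2 * u2) - ks * ri ^ 2 * (a1 * u1 + a2 * u2))
    (hnu : nu = ri * (a1 * u1 + a2 * u2))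
    (hD1 : D1 = ps * (nu * y1 - ks * u1 - kd * Z1))
    (hD2 : D2 = ps * (nu * y2 - ks * u2 - kd * Z2))
    (hY1 : Y1 = e1 + (W2 - s1) / 6) (hY2 : Y2 = e2 + (-W1 - s2) / 6)
    (hp1 : p1 = a1 / 2 + Y2) (hp2 : p2 = a2 / 2 - Y1)
    (hdk : dk = k - ks) (hdr : dr = r - rs) (hTk : Tk = dk - kd) (hTr : Tr = dr - nu)
    (hc0 : c0 = ps * (ps * (1 / 2 - AV) + (p1 * Z1 + p2 * Z2))) :
    (2 * (u1 * s2 - u2 * s1) + 6 * (u1 * u1 + u2 * u2)
      + 1 / 2 * (u1 * (-X1 - s2) - u2 * (X2 - s1))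
      - 1 / 12 * ((X2 - s1) * (X2 - s1) + (-X1 - s2) * (-X1 - s2)) + (c1 * u1 - c2 * u2)
      - (Am + (m1 * u1 + m2 * u2) - od * (e1 * (s1 + 2 * a2) + e2 * (s2 - 2 * a1))) / od
      - (AV + (b1 * u1 + b2 * u2)) * p
      - (e1 * (X2 + 2 * (a2 + u2)) + e2 * (-X1 - 2 * (a1 + u1))))
    = (-(1 / 12 * ((W2 - s1) * (W2 - s1) + (-W1 - s2) * (-W1 - s2))) - Am / od - AV * ps
        - (e1 * (W2 - s1) + e2 * (-W1 - s2)))
      + (2 * (u1 * s2 - u2 * s1) + 1 / 2 * (u1 * (-W1 - s2) - u2 * (W2 - s1))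
        + (c1 * u1 - c2 * u2) - (m1 * u1 + m2 * u2) / od - ps * (b1 * u1 + b2 * u2)
        + AV * ps ^ 2 * kd - (-Y2 * D1 + Y1 * D2) + (2 * e2 * u1 - 2 * e1 * u2))
      + (6 * (u1 * u1 + u2 * u2) + p * ps * dk * ((b1 - p1) * u1 + (b2 - p2) * u2)
        + c0 * (p * dk ^ 2 - Tk) + ps * (p1 * y1 + p2 * y2) * (Tr - p * dk * dr)
        - p ^ 2 / 12 * ((dr * y1 - k * u1 - dk * Z1) * (dr * y1 - k * u1 - dk * Z1)
          + (dr * y2 - k * u2 - dk * Z2) * (dr * y2 - k * u2 - dk * Z2))) := by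
  have g1 := core1 rfl hp hps hX1 hW1 hZ1 hdk hdr
  have g2 := core1 rfl hp hps hX2 hW2 hZ2 hdk hdr
  have t1 := core2 hp hps g1 hdk hTk hTr hD1
  have t2 := core2 hp hps g2 hdk hTk hTr hD2
  have t3 := core3 hp hps hr hrs hk hks hri hX1 hX2 hW1 hW2 hZ1 hZ2 hkd hnu hD1 hD2
  have e : p - ps = -(p * ps * dk) := by
    rw [hdk]; linear_combination ps * hp - p * hps
  have t4 : p - ps + ps ^ 2 * kd = ps ^ 2 * (p * dk ^ 2 - Tk) := by
    rw [hTk]; linear_combination (1 - ps * dk) * e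
  have n1 : (X1 - W1) * (X1 - W1) + (X2 - W2) * (X2 - W2) =
      p ^ 2 * ((dr * y1 - k * u1 - dk * Z1) * (dr * y1 - k * u1 - dk * Z1)
          + (dr * y2 - k * u2 - dk * Z2) * (dr * y2 - k * u2 - dk * Z2)) := by
    rw [g1, g2]; ring
  have n2 : p1 * (X1 - W1 - D1) + p2 * (X2 - W2 - D2) =
      ps * ((p1 * y1 + p2 * y2) * (Tr - p * dk * dr) - p * dk * (p1 * u1 + p2 * u2)
        + (p * dk ^ 2 - Tk) * (p1 * Z1 + p2 * Z2)) := by
    rw [t1, t2]; ring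
  have n3 : (m1 * u1 + m2 * u2) / od = (1 / od) * (m1 * u1 + m2 * u2) := by ring
  have n4 : (Am + (m1 * u1 + m2 * u2) - od * (e1 * (s1 + 2 * a2) + e2 * (s2 - 2 * a1))) / od
      = Am / od + (1 / od) * (m1 * u1 + m2 * u2) - (e1 * (s1 + 2 * a2) + e2 * (s2 - 2 * a1)) := by
    field_simp
  rw [n4, n3, hc0]
  rw [hp1, hp2, hY1, hY2] at n2 ⊢
  linear_combination (-1 / 2 : ℝ) * t3 + (1 / 2 - AV) * t4 + n2 - (1 / 12) * n1
    - (b1 * u1 + b2 * u2) * e

/-- the second order part -/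
noncomputable def QQ (a bs : ℂ) (AV : ℝ) (be bV y u : ℂ) : ℝ :=
  6 * normSq u
    + 1 / fs y (a + u) * (1 / fs y a) * (ka y (a + u) - ka y a) * dt (bV - pp a bs be y) u
    + cc a bs AV be y * (1 / fs y (a + u) * (ka y (a + u) - ka y a) ^ 2 - Tk y a u)
    + 1 / fs y a * dt (pp a bs be y) y
      * (Tr a u - 1 / fs y (a + u) * (ka y (a + u) - ka y a) * (rh (a + u) - rh a))
    - (1 / fs y (a + u)) ^ 2 / 12 *
      normSq (((rh (a + u) - rh a : ℝ) : ℂ) * y - ((ka y (a + u) : ℝ) : ℂ) * u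
        - ((ka y (a + u) - ka y a : ℝ) : ℂ) * Zv y a)

theorem EE_expand {a bs c8 : ℂ} {od Am AV : ℝ} {be bm bV y u : ℂ} (hod : od ≠ 0)
    (h : fs y (a + u) ≠ 0) (hs : fs y a ≠ 0) :
    EE a bs c8 od Am AV be bm bV y (a + u) =
      EE0 a bs od Am AV be y + dt (gg a bs c8 od AV be bm bV y) u + QQ a bs AV be bV y u := by
  have hra := rh_pos a
  have hri : 1 / rh a * rh a = 1 := by field_simp
  have hp : 1 / fs y (a + u) * (1 + ka y (a + u)) = 1 := by rw [← fs_eq]; field_simp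
  have hps : 1 / fs y a * (1 + ka y a) = 1 := by rw [← fs_eq]; field_simp
  have hr : rh (a + u) ^ 2 = 1 + ((a.re + u.re) * (a.re + u.re) + (a.im + u.im) * (a.im + u.im)) := by
    rw [rh_sq, normSq_apply]; simp
  have hrs : rh a ^ 2 = 1 + (a.re * a.re + a.im * a.im) := by
    rw [rh_sq, normSq_apply]
  have hk : ka y (a + u) * rh (a + u) = y.re * (a.re + u.re) + y.im * (a.im + u.im) := by
    rw [ka_mul]; simp [dt]
  have hks : ka y a * rh a = y.re * a.re + y.im * a.im := by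
    rw [ka_mul]; simp [dt]
  have hb1 := bp_re y (a + u) h
  have hb2 := bp_im y (a + u) h
  have hc1 := bp_re y a hs
  have hc2 := bp_im y a hs
  have hZ1 : (Zv y a).re = a.re + 1 / fs y a * (rh a * y.re - ka y a * a.re) := by
    unfold Zv; simp only [Complex.add_re, Complex.mul_re, Complex.I_re, Complex.I_im, hc1, hc2]; ring
  have hZ2 : (Zv y a).im = a.im + 1 / fs y a * (rh a * y.im - ka y a * a.im) := by
    unfold Zv; simp only [Complex.add_im, Complex.mul_im, Complex.I_re, Complex.I_im, hc1, hc2]; ring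
  have key := vcore4 (y1 := y.re) (y2 := y.im) (a1 := a.re) (a2 := a.im) (u1 := u.re) (u2 := u.im)
    (r := rh (a + u)) (rs := rh a) (k := ka y (a + u)) (ks := ka y a) (p := 1 / fs y (a + u))
    (ps := 1 / fs y a) (s1 := bs.re) (s2 := bs.im) (c1 := c8.re) (c2 := c8.im) (Am := Am)
    (AV := AV) (e1 := be.re) (e2 := be.im) (m1 := bm.re) (m2 := bm.im) (b1 := bV.re)
    (b2 := bV.im) hod hp hps hr hrs hk hks hri rfl rfl rfl rfl rfl rfl rfl rfl rfl rfl rfl rfl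
    rfl rfl rfl rfl rfl rfl rfl
  have hd : a + u - a = u := by ring
  simp only [EE, EE0, gg, QQ, cc, pp, DbT, fv, Tk, Tr, hd, hZ1, hZ2, dt, cr, normSq_apply,
    Complex.add_re, Complex.add_im, Complex.sub_re, Complex.sub_im, Complex.mul_re,
    Complex.mul_im, Complex.neg_re, Complex.neg_im, Complex.conj_re, Complex.conj_im,
    Complex.I_re, Complex.I_im, Complex.ofReal_re, Complex.ofReal_im, hb1, hb2, hc1, hc2,
    Complex.div_ofNat_re, Complex.div_ofNat_im, Complex.re_ofNat, Complex.im_ofNat] at key ⊢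
  linear_combination key

end Pool.H61.Rh
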