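import Pool.Agent.H61.Rc.H1

/-! # H2: bounds for the second order part -/

set_option autoImplicit false

namespace Pool.H61.Rh

open Complex

lemma vabs_dt_le (z w : ℂ) : |dt z w| ≤ ‖z‖ * ‖w‖ := by
  have : dt z w = ((starRingEnd ℂ) z * w).re := by simp [dt, Complex.mul_re]
  rw [this]
  calc |((starRingEnd ℂ) z * w).re| ≤ ‖(starRingEnd ℂ) z * w‖ := Complex.abs_re_le_norm _
    _ = ‖z‖ * ‖w‖ := by rw [norm_mul, Complex.norm_conj]

lemma rh_ge_one (v : ℂ) : 1 ≤ rh v := by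
  have h := rh_sq v
  have h2 := normSq_nonneg v
  have h3 := rh_pos v
  nlinarith

lemma rh_le {v : ℂ} {c d : ℝ} (hv : ‖v‖ ≤ c) (hd : 0 ≤ d) (h : 1 + c ^ 2 ≤ d ^ 2) : rh v ≤ d := by
  have h1 := rh_sq v
  have h2 : normSq v ≤ c ^ 2 := by
    rw [normSq_eq_norm_sq]; exact pow_le_pow_left₀ (norm_nonneg v) hv 2
  exact le_of_sq_le_sq (by nlinarith) hd

lemma dr_mul (a u : ℂ) : (rh (a + u) - rh a) * (rh (a + u) + rh a) = 2 * dt a u + ‖u‖ ^ 2 := by
  have h1 := rh_sq (a + u)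
  have h2 := rh_sq a
  have h3 : normSq (a + u) = normSq a + 2 * dt a u + ‖u‖ ^ 2 := by
    rw [← normSq_eq_norm_sq, normSq_apply, normSq_apply, normSq_apply]
    simp only [dt, Complex.add_re, Complex.add_im]; ring
  nlinarith

lemma dr_abs {a u : ℂ} (ha : ‖a‖ ≤ 306 / 10000) (hv : ‖a + u‖ ≤ 3 / 10) :
    |rh (a + u) - rh a| ≤ 1653 / 10000 * ‖u‖ := by
  have h1 := rh_ge_one (a + u)
  have h2 := rh_ge_one a
  have h3 : (rh (a + u) - rh a) * (rh (a + u) + rh a) = (‖a + u‖ - ‖a‖) * (‖a + u‖ + ‖a‖) := by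
    have h1 := rh_sq (a + u)
    have h2 := rh_sq a
    rw [normSq_eq_norm_sq] at h1 h2
    nlinarith
  have h4 : |‖a + u‖ - ‖a‖| ≤ ‖u‖ := by
    have := abs_norm_sub_norm_le (a + u) a
    simpa using this
  have h5 : |rh (a + u) - rh a| * (rh (a + u) + rh a) = |‖a + u‖ - ‖a‖| * (‖a + u‖ + ‖a‖) := by
    rw [← abs_of_pos (by linarith : 0 < rh (a + u) + rh a), ← abs_mul,
      ← abs_of_nonneg (by positivity : 0 ≤ ‖a + u‖ + ‖a‖), ← abs_mul, h3]
  have h6 : |‖a + u‖ - ‖a‖| * (‖a + u‖ + ‖a‖) ≤ ‖u‖ * (3306 / 10000) :=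
    mul_le_mul h4 (by linarith) (by positivity) (norm_nonneg _)
  have h7 : |rh (a + u) - rh a| * 2 ≤ |rh (a + u) - rh a| * (rh (a + u) + rh a) :=
    mul_le_mul_of_nonneg_left (by linarith) (abs_nonneg _)
  linarith

lemma dk_eq (y a u : ℂ) : ka y (a + u) - ka y a =
    1 / rh (a + u) * dt y u - dt y a * (rh (a + u) - rh a) / (rh (a + u) * rh a) := by
  have h1 := (rh_pos (a + u)).ne'
  have h2 := (rh_pos a).ne'
  have h3 : dt y (a + u) = dt y a + dt y u := by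
    simp only [dt, Complex.add_re, Complex.add_im]; ring
  unfold ka
  rw [h3]
  field_simp
  ring

lemma Tr_eq (a u : ℂ) : Tr a u = (‖u‖ ^ 2 - (rh (a + u) - rh a) ^ 2) / (2 * rh a) := by
  have h2 := (rh_pos a).ne'
  have h3 := dr_mul a u
  unfold Tr
  field_simp
  linear_combination h3

lemma Tr_bounds {a u : ℂ} (ha : ‖a‖ ≤ 306 / 10000) (hv : ‖a + u‖ ≤ 3 / 10) :
    486 / 1000 * ‖u‖ ^ 2 ≤ Tr a u ∧ Tr a u ≤ 1 / 2 * ‖u‖ ^ 2 := by
  have h1 := dr_abs ha hv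
  have h2 := rh_ge_one a
  have h3 : rh a ≤ 10005 / 10000 := rh_le ha (by norm_num) (by norm_num)
  have h4 : (rh (a + u) - rh a) ^ 2 ≤ (1653 / 10000 * ‖u‖) ^ 2 := by
    rw [← sq_abs]; exact pow_le_pow_left₀ (abs_nonneg _) h1 2
  have hU := sq_nonneg ‖u‖
  rw [Tr_eq]
  constructor
  · rw [le_div_iff₀ (by linarith)]
    nlinarith
  · rw [div_le_iff₀ (by linarith)]
    nlinarith [sq_nonneg (rh (a + u) - rh a)]

lemma ka_abs {y v : ℂ} (hv : ‖v‖ ≤ 3 / 10) : |ka y v| ≤ 2874 / 10000 * ‖y‖ := by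
  have h1 := rh_pos v
  have h2 := vabs_dt_le y v
  have h3 : ‖v‖ ≤ 2874 / 10000 * rh v := by
    have h4 := rh_sq v
    rw [normSq_eq_norm_sq] at h4
    have h5 : ‖v‖ ^ 2 ≤ (3 / 10) ^ 2 := pow_le_pow_left₀ (norm_nonneg v) hv 2
    apply le_of_sq_le_sq _ (by positivity)
    rw [mul_pow, h4]; nlinarith
  unfold ka
  rw [abs_div, abs_of_pos h1, div_le_iff₀ h1]
  calc |dt y v| ≤ ‖y‖ * ‖v‖ := h2
    _ ≤ ‖y‖ * (2874 / 10000 * rh v) := mul_le_mul_of_nonneg_left h3 (norm_nonneg y)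
    _ = _ := by ring

private lemma tk_real {r s yu ya au U h : ℝ} (hr : 1 ≤ r) (hs : 1 ≤ s) (hh : 0 ≤ h)
    (hU : 0 ≤ U) (hD : (r - s) * (r + s) = 2 * au + U ^ 2) (hDa : |r - s| ≤ 1653 / 10000 * U)
    (hyv : |ya + yu| ≤ 3 / 10 * h) (hyu : |yu| ≤ h * U) (hya : |ya| ≤ 306 / 10000 * h)
    (hau : |au| ≤ 306 / 10000 * U) :
    -((ya + yu) * (r - s) / (r * s)) + ya * au / s ^ 3 ≤ 181 / 1000 * h * U ^ 2 := by
  have hQ : 0 < r * s * (r + s) := by positivity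
  have hQ2 : 2 ≤ r * s * (r + s) := by nlinarith [mul_nonneg (sub_nonneg.2 hr) (sub_nonneg.2 hs)]
  obtain ⟨q, hq⟩ : ∃ q, q = 1 / (r * s * (r + s)) := ⟨_, rfl⟩
  have hq0 : 0 < q := by rw [hq]; positivity
  have hq1 : q ≤ 1 / 2 := by
    rw [hq]; exact one_div_le_one_div_of_le (by norm_num) hQ2
  obtain ⟨t, ht⟩ : ∃ t, t = (r + 2 * s) * q / s ^ 2 := ⟨_, rfl⟩
  have ht0 : 0 ≤ t := by rw [ht]; positivity
  have ht2 : t ≤ 2 := by
    rw [ht, hq, div_le_iff₀ (by positivity), mul_one_div, div_le_iff₀ hQ]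
    have e1 : 1 ≤ s ^ 2 := by nlinarith
    have e2 : 1 ≤ r * s := by nlinarith
    have e3 : 1 ≤ s ^ 2 * (r * s) := by nlinarith
    nlinarith [mul_nonneg (by linarith : 0 ≤ s ^ 2 * (r * s) - 1) (by linarith : 0 ≤ r + s)]
  have hid : -((ya + yu) * (r - s) / (r * s)) + ya * au / s ^ 3 =
      -((ya + yu) * U ^ 2 * q) - 2 * au * yu * q + ya * au * (r - s) * t := by
    have hD' : U ^ 2 = (r - s) * (r + s) - 2 * au := by linarith
    rw [ht, hq, hD']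
    have h1 : r ≠ 0 := by positivity
    have h2 : s ≠ 0 := by positivity
    have h3 : r + s ≠ 0 := by positivity
    field_simp
    ring
  rw [hid]
  have b1 : -((ya + yu) * U ^ 2 * q) ≤ 3 / 10 * h * U ^ 2 * (1 / 2) := by
    calc -((ya + yu) * U ^ 2 * q) = (-(ya + yu)) * (U ^ 2 * q) := by ring
      _ ≤ (3 / 10 * h) * (U ^ 2 * q) :=
          mul_le_mul_of_nonneg_right (by linarith [neg_abs_le (ya + yu)]) (by positivity)
      _ ≤ (3 / 10 * h) * (U ^ 2 * (1 / 2)) := by gcongr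
      _ = _ := by ring
  have b2 : -(2 * au * yu * q) ≤ 2 * (306 / 10000 * U) * (h * U) * (1 / 2) := by
    have : |2 * au * yu * q| ≤ 2 * (306 / 10000 * U) * (h * U) * (1 / 2) := by
      rw [abs_mul, abs_mul, abs_mul, abs_of_pos hq0, abs_of_pos (by norm_num : (0 : ℝ) < 2)]
      gcongr
    linarith [neg_abs_le (2 * au * yu * q)]
  have b3 : ya * au * (r - s) * t ≤
      (306 / 10000 * h) * (306 / 10000 * U) * (1653 / 10000 * U) * 2 := by
    have : |ya * au * (r - s) * t| ≤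
        (306 / 10000 * h) * (306 / 10000 * U) * (1653 / 10000 * U) * 2 := by
      rw [abs_mul, abs_mul, abs_mul, abs_of_nonneg ht0]
      gcongr
    linarith [le_abs_self (ya * au * (r - s) * t)]
  have hhU : 0 ≤ h * U ^ 2 := by positivity
  nlinarith

lemma Tk_le {y a u : ℂ} (ha : ‖a‖ ≤ 306 / 10000) (hv : ‖a + u‖ ≤ 3 / 10) :
    Tk y a u ≤ 181 / 1000 * ‖y‖ * ‖u‖ ^ 2 := by
  have h1 := rh_ge_one (a + u)
  have h2 := rh_ge_one a
  have hadd : dt y (a + u) = dt y a + dt y u := by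
    simp only [dt, Complex.add_re, Complex.add_im]; ring
  have e : Tk y a u = -((dt y a + dt y u) * (rh (a + u) - rh a) / (rh (a + u) * rh a))
      + dt y a * dt a u / rh a ^ 3 := by
    have hf : dt (fv y a) u = 1 / rh a * (dt y u - ka y a / rh a * dt a u) := by
      unfold fv
      simp only [dt, Complex.mul_re, Complex.mul_im, Complex.sub_re, Complex.sub_im,
        Complex.ofReal_re, Complex.ofReal_im]
      ring
    have p1 : rh (a + u) ≠ 0 := (rh_pos _).ne'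
    have p2 : rh a ≠ 0 := (rh_pos _).ne'
    unfold Tk
    rw [hf]
    unfold ka
    rw [hadd]
    field_simp
    ring
  rw [e]
  apply tk_real h1 h2 (norm_nonneg y) (norm_nonneg u) (dr_mul a u) (dr_abs ha hv)
  · rw [← hadd]
    calc |dt y (a + u)| ≤ ‖y‖ * ‖a + u‖ := vabs_dt_le _ _
      _ ≤ ‖y‖ * (3 / 10) := mul_le_mul_of_nonneg_left hv (norm_nonneg _)
      _ = _ := by ring
  · exact vabs_dt_le _ _
  · calc |dt y a| ≤ ‖y‖ * ‖a‖ := vabs_dt_le _ _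
      _ ≤ ‖y‖ * (306 / 10000) := mul_le_mul_of_nonneg_left ha (norm_nonneg _)
      _ = _ := by ring
  · calc |dt a u| ≤ ‖a‖ * ‖u‖ := vabs_dt_le _ _
      _ ≤ 306 / 10000 * ‖u‖ := mul_le_mul_of_nonneg_right ha (norm_nonneg _)

end Pool.H61.Rh
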