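import Pool.Agent.H61.Rc.H3
import Pool.Agent.H61.Rc.N8a

/-! # H4: `v*` on the arc: size, derivative, smoothness -/

set_option autoImplicit false

namespace Pool.H61.Rh

open Complex

private theorem H4_ne (m : ℝ) : oa m ≠ 0 := by
  intro h
  have h1 := oa_normSq m
  rw [h, map_zero] at h1
  linarith [normSq_nonneg (ob m)]

lemma ov_norm (m : ℝ) : ‖ov m‖ = ‖ob m‖ := vf_norm (oa_normSq m)

private theorem H4_s2 : 14142135 / 10000000 < Real.sqrt 2 ∧ Real.sqrt 2 < 14142136 / 10000000 := by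
  constructor
  · exact Real.lt_sqrt_of_sq_lt (by norm_num)
  · exact (Real.sqrt_lt' (by norm_num)).mpr (by norm_num)

private theorem H4_s3 : 17320508 / 10000000 < s3 ∧ s3 < 17320509 / 10000000 := by
  unfold s3
  constructor
  · exact Real.lt_sqrt_of_sq_lt (by norm_num)
  · exact (Real.sqrt_lt' (by norm_num)).mpr (by norm_num)

private theorem H4_s2sq : Real.sqrt 2 * Real.sqrt 2 = 2 := Real.mul_self_sqrt (by norm_num)

private theorem H4_sum : 2 * (sA * cB) = Real.sqrt 2 / 2 + 1 / 2 := by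
  have h1 : Real.sin (5 * Real.pi / 24 + Real.pi / 24) = Real.sqrt 2 / 2 := by
    rw [show 5 * Real.pi / 24 + Real.pi / 24 = Real.pi / 4 from by ring]
    exact Real.sin_pi_div_four
  have h2 : Real.sin (5 * Real.pi / 24 - Real.pi / 24) = 1 / 2 := by
    rw [show 5 * Real.pi / 24 - Real.pi / 24 = Real.pi / 6 from by ring]
    exact Real.sin_pi_div_six
  rw [Real.sin_add] at h1
  rw [Real.sin_sub] at h2
  unfold sA cB
  linarith

private theorem H4_sB_sq : sB ^ 2 = 1 / 2 - (Real.sqrt 2 * s3 / 4 + Real.sqrt 2 / 4) / 2 := by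
  have h1 : Real.cos (Real.pi / 12) = Real.sqrt 2 * s3 / 4 + Real.sqrt 2 / 4 := by
    rw [show Real.pi / 12 = Real.pi / 4 - Real.pi / 6 from by ring, Real.cos_sub,
      Real.cos_pi_div_four, Real.cos_pi_div_six, Real.sin_pi_div_four, Real.sin_pi_div_six]
    unfold s3
    ring
  unfold sB
  rw [Real.sin_sq_eq_half_sub, show 2 * (Real.pi / 24) = Real.pi / 12 from by ring, h1]

private theorem H4_sA_sq : sA ^ 2 = 1 / 2 - (Real.sqrt 2 * s3 / 4 - Real.sqrt 2 / 4) / 2 := by
  have h1 : Real.cos (5 * Real.pi / 12) = Real.sqrt 2 * s3 / 4 - Real.sqrt 2 / 4 := by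
    rw [show 5 * Real.pi / 12 = Real.pi / 4 + Real.pi / 6 from by ring, Real.cos_add,
      Real.cos_pi_div_four, Real.cos_pi_div_six, Real.sin_pi_div_four, Real.sin_pi_div_six]
    unfold s3
    ring
  unfold sA
  rw [Real.sin_sq_eq_half_sub, show 2 * (5 * Real.pi / 24) = 5 * Real.pi / 12 from by ring, h1]

private theorem H4_sB_cB : sB ^ 2 + cB ^ 2 = 1 := Real.sin_sq_add_cos_sq _

private theorem H4_cosh : kp * sA * cB = Real.cosh m1 := by
  have h1 := kp_mul_cosh_m1
  have h2 := H4_sum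
  have h3 := kp_sq
  have h4 := H4_s2sq
  have hk := kp_pos
  have h5 : kp * (kp * sA * cB) = kp * Real.cosh m1 := by
    rw [h1]
    have : kp * (kp * sA * cB) = kp ^ 2 * (2 * (sA * cB)) / 2 := by ring
    rw [this, h3, h2]
    linear_combination (1 / 2) * h4
  exact mul_left_cancel₀ hk.ne' h5

private theorem H4_kps : (kp * sA) ^ 2 - 1 = Real.sqrt 2 - s3 / 2 - 1 / 2 := by
  rw [mul_pow, kp_sq, H4_sA_sq]
  linear_combination (-(s3 - 1) / 4) * H4_s2sq

private theorem H4_oC_le : oC ^ 2 ≤ 89313 / 100000 := by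
  have h1 : oC ^ 2 * ((2 * Real.sqrt 2 - 1) * (Real.sqrt 2 * s3 / 4)) = 1 := by
    have := oC_sq
    rw [kp_sq] at this
    exact this
  obtain ⟨a1, a2⟩ := H4_s2
  obtain ⟨b1, b2⟩ := H4_s3
  have h2 : (1.11966 : ℝ) ≤ (2 * Real.sqrt 2 - 1) * (Real.sqrt 2 * s3 / 4) := by
    have e1 : (1.828427 : ℝ) ≤ 2 * Real.sqrt 2 - 1 := by linarith
    have e2 : (1.4142135 : ℝ) * 1.7320508 / 4 ≤ Real.sqrt 2 * s3 / 4 := by
      have : (1.4142135 : ℝ) * 1.7320508 ≤ Real.sqrt 2 * s3 :=
        mul_le_mul (by linarith) (by linarith) (by norm_num) (by positivity)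
      linarith
    refine le_trans ?_ (mul_le_mul e1 e2 (by norm_num) (by linarith))
    norm_num
  by_contra hlt
  rw [not_le] at hlt
  have h3 : (89313 / 100000 : ℝ) * 1.11966 <
      oC ^ 2 * ((2 * Real.sqrt 2 - 1) * (Real.sqrt 2 * s3 / 4)) := by
    refine lt_of_lt_of_le (mul_lt_mul_of_pos_right hlt (by norm_num)) ?_
    exact mul_le_mul_of_nonneg_left h2 (sq_nonneg _)
  rw [h1] at h3
  norm_num at h3

theorem ob_normSq (m : ℝ) : normSq (ob m) =
    oC ^ 2 * ((Real.cosh m1 - Real.cosh m) ^ 2) + oC ^ 2 * (sB ^ 2 * ((kp * sA) ^ 2 - 1)) := by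
  rw [← H4_cosh]
  unfold ob
  rw [normSq_mk]
  have h1 := Real.cosh_sq m
  have h2 := H4_sB_cB
  linear_combination (oC ^ 2 * (-sB ^ 2)) * h1 +
    (oC ^ 2 * (Real.cosh m ^ 2 - kp ^ 2 * sA ^ 2)) * h2

private theorem H4_cosh_m1 : Real.cosh m1 ≤ 1015055 / 1000000 := by
  have h1 := kp_mul_cosh_m1
  have h2 := kp_sq
  have h3 := H4_s2sq
  obtain ⟨a1, a2⟩ := H4_s2
  have h4 : (2 * Real.sqrt 2) * Real.cosh m1 ^ 2 = (6 + 4 * Real.sqrt 2) / 4 := by
    have : (kp * Real.cosh m1) ^ 2 = ((2 + Real.sqrt 2) / 2) ^ 2 := by rw [h1]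
    rw [mul_pow, h2] at this
    rw [this]
    linear_combination (1 / 4) * h3
  by_contra hlt
  rw [not_le] at hlt
  have h5 : (1015055 / 1000000 : ℝ) ^ 2 < Real.cosh m1 ^ 2 :=
    pow_lt_pow_left₀ hlt (by norm_num) (by norm_num)
  nlinarith

theorem ov_norm_le {m : ℝ} (hm : |m| ≤ m1) : ‖ov m‖ ≤ 306 / 10000 := by
  have h0 : 0 < m1 := by have := m1_bounds.1; linarith
  rw [ov_norm]
  have h1 : normSq (ob m) ≤ (306 / 10000) ^ 2 := by
    rw [ob_normSq]
    obtain ⟨a1, a2⟩ := H4_s2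
    obtain ⟨b1, b2⟩ := H4_s3
    have c1 : sB ^ 2 ≤ 170372 / 10000000 := by
      rw [H4_sB_sq]
      have : (1.4142135 : ℝ) * (1 + 1.7320508) ≤ Real.sqrt 2 * (1 + s3) :=
        mul_le_mul (by linarith) (by linarith) (by norm_num) (by positivity)
      nlinarith
    have c2 : (kp * sA) ^ 2 - 1 ≤ 48190 / 1000000 := by
      rw [H4_kps]
      linarith
    have c3 : 0 ≤ (kp * sA) ^ 2 - 1 := by
      rw [H4_kps]
      linarith
    have c4 : sB ^ 2 * ((kp * sA) ^ 2 - 1) ≤ 170372 / 10000000 * (48190 / 1000000) :=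
      mul_le_mul c1 c2 c3 (by norm_num)
    have c5 : Real.cosh m ≤ Real.cosh m1 := by
      rw [Real.cosh_le_cosh, abs_of_pos h0]; exact hm
    have c6 := Real.one_le_cosh m
    have c7 : (Real.cosh m1 - Real.cosh m) ^ 2 ≤ (15055 / 1000000) ^ 2 :=
      pow_le_pow_left₀ (by linarith) (by linarith [H4_cosh_m1]) 2
    have c8 := mul_le_mul H4_oC_le c7 (sq_nonneg _) (by norm_num)
    have c9 := mul_le_mul H4_oC_le c4 (mul_nonneg (sq_nonneg _) c3) (by norm_num)
    refine (add_le_add c8 c9).trans ?_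
    norm_num
  rw [normSq_eq_norm_sq] at h1
  exact le_of_sq_le_sq h1 (by norm_num)

theorem otau'_pos (m : ℝ) : 0 < otau' m := by
  have h1 := oS_pos m
  have h2 : 0 < s3 := by linarith [H4_s3.1]
  have h3 := kp_sq
  have h4 := H4_s2.1
  unfold otau'
  have : 0 < kp ^ 2 - 1 := by rw [h3]; linarith
  have : 0 < 2 * kp * Real.cosh m - 1 := by linarith
  positivity

theorem oy_norm_lt (m : ℝ) : ‖oy m‖ < 1 := by
  have h1 := oy_normSq m
  have h2 : 0 < 3 * (kp ^ 2 - 1) / (2 * kp * Real.cosh m - 1) ^ 2 := by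
    have h3 := kp_sq
    have h4 := H4_s2.1
    have h5 := oS_pos m
    have : 0 < kp ^ 2 - 1 := by rw [h3]; linarith
    have : 0 < 2 * kp * Real.cosh m - 1 := by linarith
    positivity
  rw [normSq_eq_norm_sq] at h1
  have h3 := norm_nonneg (oy m)
  nlinarith

theorem osd_eq (m : ℝ) : osd m = fs (oy m) (ov m) * otau' m := by
  unfold osd ov
  rw [fq_eq_fs (oy m) (oa_normSq m)]

/-- `dv*/dm` -/
theorem ov_hasDerivAt (m : ℝ) :
    HasDerivAt ov ((osd m : ℂ) * (bp (oy m) (ov m) - 2 * I * ov m)) m := by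
  have hτ := otau'_pos m
  have hτ' : ((otau' m : ℝ) : ℂ) ≠ 0 := by exact_mod_cast hτ.ne'
  -- reparametrise: `a t = oa (m + t / otau' m)`
  have hl : HasDerivAt (fun t : ℝ => m + t / otau' m) (1 / otau' m) 0 := by
    have := ((hasDerivAt_id (0 : ℝ)).div_const (otau' m)).const_add m
    simpa using this
  have hm0 : (fun t : ℝ => m + t / otau' m) 0 = m := by simp
  have ha : HasDerivAt (fun t : ℝ => oa (m + t / otau' m))
      (I * (oa m - (starRingEnd ℂ) (oy m) * ob m)) 0 := by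
    have h1 := oa_hasDerivAt m
    rw [← hm0] at h1
    have h2 := HasDerivAt.scomp (0 : ℝ) h1 hl
    refine h2.congr_deriv ?_
    simp only [zero_div, add_zero]
    rw [Complex.real_smul]
    push_cast
    field_simp
  have hb : HasDerivAt (fun t : ℝ => ob (m + t / otau' m))
      (I * (oy m * oa m - ob m)) 0 := by
    have h1 := ob_hasDerivAt m
    rw [← hm0] at h1
    have h2 := HasDerivAt.scomp (0 : ℝ) h1 hl
    refine h2.congr_deriv ?_
    simp only [zero_div, add_zero]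
    rw [Complex.real_smul]
    push_cast
    field_simp
  have hv := vf_hasDerivAt (a := fun t : ℝ => oa (m + t / otau' m))
    (b := fun t : ℝ => ob (m + t / otau' m)) (y := oy m) (τ := 0) (by simpa using ha)
    (by simpa using hb) (by simpa using oa_normSq m) (oy_norm_lt m)
  simp only [zero_div, add_zero] at hv
  -- back
  have hg : HasDerivAt (fun x : ℝ => (x - m) * otau' m) (otau' m) m := by
    have := ((hasDerivAt_id m).sub_const m).mul_const (otau' m)
    simpa using this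
  have h0 : (fun x : ℝ => (x - m) * otau' m) m = 0 := by simp
  rw [← h0] at hv
  have h3 := HasDerivAt.scomp m hv hg
  have h4 : (fun t => vf (oa (m + t / otau' m)) (ob (m + t / otau' m))) ∘
      (fun x : ℝ => (x - m) * otau' m) = ov := by
    funext x
    simp only [Function.comp_apply, ov]
    rw [mul_div_assoc, div_self hτ.ne', mul_one]
    congr 2 <;> ring_nf
  rw [h4] at h3
  refine h3.congr_deriv ?_
  rw [Complex.real_smul, osd_eq]
  unfold vt
  change ((otau' m : ℝ) : ℂ) * (((fs (oy m) (ov m) : ℝ) : ℂ) * (bp (oy m) (ov m) - 2 * I * ov m)) = _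
  push_cast
  ring

end Pool.H61.Rh
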