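import Pool.Agent.H61.Rc.H4

/-! # H5: calibrations that are linear in `v`: from `Cal` to `Ej` -/

set_option autoImplicit false

namespace Pool.H61.Rh

open Complex

/-- the domain of `A` and `β` -/
def St2 : Set (ℝ × ℂ) := {p | |p.1| < 1 / 4 ∧ ∀ j : Fin 3, 0 < 1 - 2 * dt (uu j) p.2}

/-- `W (m, y, v) = A (m, y) + β (m, y) · (v - v*(m))` -/
noncomputable def Wl (A : ℝ × ℂ → ℝ) (β : ℝ × ℂ → ℂ) (p : ℝ × ℂ × ℂ) : ℝ :=
  A (p.1, p.2.1) + dt (β (p.1, p.2.1)) (p.2.2 - ov p.1)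

theorem ov_contDiff : ContDiff ℝ 1 ov := by
  have h1 : ContDiff ℝ 1 oa := by
    have : oa = fun m => ((oC * (Real.sinh m * cA) : ℝ) : ℂ)
        + ((oC * (Real.cosh m * sA - kp * cB) : ℝ) : ℂ) * I := by
      funext m; unfold oa; apply Complex.ext <;> simp only [Complex.add_re, Complex.add_im,
        Complex.mul_re, Complex.mul_im, Complex.ofReal_re, Complex.ofReal_im, Complex.I_re,
        Complex.I_im] <;> ring
    rw [this]
    have e1 : ContDiff ℝ 1 (fun m : ℝ => oC * (Real.sinh m * cA)) :=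
      contDiff_const.mul (Real.contDiff_sinh.mul contDiff_const)
    have e2 : ContDiff ℝ 1 (fun m : ℝ => oC * (Real.cosh m * sA - kp * cB)) :=
      contDiff_const.mul ((Real.contDiff_cosh.mul contDiff_const).sub contDiff_const)
    exact (ofRealCLM.contDiff.comp e1).add ((ofRealCLM.contDiff.comp e2).mul contDiff_const)
  have h2 : ContDiff ℝ 1 ob := by
    have : ob = fun m => ((-(oC * (Real.sinh m * sB)) : ℝ) : ℂ)
        + ((oC * (Real.cosh m * cB - kp * sA) : ℝ) : ℂ) * I := by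
      funext m; unfold ob; apply Complex.ext <;> simp only [Complex.add_re, Complex.add_im,
        Complex.mul_re, Complex.mul_im, Complex.ofReal_re, Complex.ofReal_im, Complex.I_re,
        Complex.I_im] <;> ring
    rw [this]
    have e1 : ContDiff ℝ 1 (fun m : ℝ => -(oC * (Real.sinh m * sB))) :=
      (contDiff_const.mul (Real.contDiff_sinh.mul contDiff_const)).neg
    have e2 : ContDiff ℝ 1 (fun m : ℝ => oC * (Real.cosh m * cB - kp * sA)) :=
      contDiff_const.mul ((Real.contDiff_cosh.mul contDiff_const).sub contDiff_const)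
    exact (ofRealCLM.contDiff.comp e1).add ((ofRealCLM.contDiff.comp e2).mul contDiff_const)
  have hne : ∀ m, oa m ≠ 0 := by
    intro m h
    have h1 := oa_normSq m
    rw [h, map_zero] at h1
    linarith [normSq_nonneg (ob m)]
  have h3 : ContDiff ℝ 1 (fun m => ‖oa m‖) := h1.norm ℝ hne
  have : ov = fun m => -(((‖oa m‖ : ℝ) : ℂ) * ob m * (oa m)⁻¹) := by
    funext m; unfold ov vf; rw [div_eq_mul_inv]
  rw [this]
  exact (((ofRealCLM.contDiff.comp h3).mul h2).mul (h1.inv hne)).neg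

private lemma dt_contDiff : ContDiff ℝ 1 (fun p : ℂ × ℂ => dt p.1 p.2) := by
  unfold dt
  have a1 : ContDiff ℝ 1 (fun p : ℂ × ℂ => p.1.re) := reCLM.contDiff.comp contDiff_fst
  have a2 : ContDiff ℝ 1 (fun p : ℂ × ℂ => p.1.im) := imCLM.contDiff.comp contDiff_fst
  have a3 : ContDiff ℝ 1 (fun p : ℂ × ℂ => p.2.re) := reCLM.contDiff.comp contDiff_snd
  have a4 : ContDiff ℝ 1 (fun p : ℂ × ℂ => p.2.im) := imCLM.contDiff.comp contDiff_snd
  exact (a1.mul a3).add (a2.mul a4)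

theorem Wl_smooth {A : ℝ × ℂ → ℝ} {β : ℝ × ℂ → ℂ} (hA : ContDiffOn ℝ 1 A St2)
    (hβ : ContDiffOn ℝ 1 β St2) : ContDiffOn ℝ 1 (Wl A β) St := by
  have hp : ContDiff ℝ 1 (fun p : ℝ × ℂ × ℂ => (p.1, p.2.1)) :=
    contDiff_fst.prodMk (contDiff_fst.comp contDiff_snd)
  have hmaps : Set.MapsTo (fun p : ℝ × ℂ × ℂ => (p.1, p.2.1)) St St2 := fun p hp => hp
  have h1 : ContDiffOn ℝ 1 (fun p : ℝ × ℂ × ℂ => A (p.1, p.2.1)) St :=
    hA.comp hp.contDiffOn hmaps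
  have h2 : ContDiffOn ℝ 1 (fun p : ℝ × ℂ × ℂ => β (p.1, p.2.1)) St :=
    hβ.comp hp.contDiffOn hmaps
  have h3 : ContDiffOn ℝ 1 (fun p : ℝ × ℂ × ℂ => p.2.2 - ov p.1) St :=
    ((contDiff_snd.comp contDiff_snd).sub (ov_contDiff.comp contDiff_fst)).contDiffOn
  have h4 : ContDiffOn ℝ 1 (fun p : ℝ × ℂ × ℂ => dt (β (p.1, p.2.1)) (p.2.2 - ov p.1)) St :=
    dt_contDiff.comp_contDiffOn (h2.prodMk h3)
  exact h1.add h4

theorem St2_isOpen : IsOpen St2 := by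
  have h1 : IsOpen {p : ℝ × ℂ | |p.1| < 1 / 4} :=
    isOpen_lt (continuous_abs.comp continuous_fst) continuous_const
  have h2 : ∀ j : Fin 3, IsOpen {p : ℝ × ℂ | 0 < 1 - 2 * dt (uu j) p.2} := by
    intro j
    refine isOpen_lt continuous_const ?_
    unfold dt
    fun_prop
  have : St2 = {p : ℝ × ℂ | |p.1| < 1 / 4} ∩ ⋂ j : Fin 3, {p : ℝ × ℂ | 0 < 1 - 2 * dt (uu j) p.2} := by
    ext p; simp [St2]
  rw [this]
  exact h1.inter (isOpen_iInter_of_finite h2)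

/-- the derivative of `Wl` along `(s, ẏ, v̇)` -/
theorem Wl_fderiv {A : ℝ × ℂ → ℝ} {β : ℝ × ℂ → ℂ} {m : ℝ} {y : ℂ}
    (hA : DifferentiableAt ℝ A (m, y)) (hβ : DifferentiableAt ℝ β (m, y)) {o' : ℂ}
    (ho : HasDerivAt ov o' m) (v : ℂ) (s : ℝ) (y1 v1 : ℂ) :
    fderiv ℝ (Wl A β) (m, y, v) (s, y1, v1) =
      fderiv ℝ A (m, y) (s, y1) + dt (fderiv ℝ β (m, y) (s, y1)) (v - ov m)
        + dt (β (m, y)) (v1 - (s : ℂ) * o') := by
  -- along the line `t ↦ (m + t s, y + t y1, v + t v1)`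
  have hp : DifferentiableAt ℝ (fun p : ℝ × ℂ × ℂ => (p.1, p.2.1)) (m, y, v) := by fun_prop
  have hAc : DifferentiableAt ℝ (fun p : ℝ × ℂ × ℂ => A (p.1, p.2.1)) (m, y, v) :=
    DifferentiableAt.comp (m, y, v) (g := A) hA hp
  have hβc : DifferentiableAt ℝ (fun p : ℝ × ℂ × ℂ => β (p.1, p.2.1)) (m, y, v) :=
    DifferentiableAt.comp (m, y, v) (g := β) hβ hp
  have hoc : DifferentiableAt ℝ (fun p : ℝ × ℂ × ℂ => p.2.2 - ov p.1) (m, y, v) := by
    have h1 : DifferentiableAt ℝ (fun p : ℝ × ℂ × ℂ => p.2.2) (m, y, v) := by fun_prop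
    have h2 : DifferentiableAt ℝ (fun p : ℝ × ℂ × ℂ => p.1) (m, y, v) := by fun_prop
    exact h1.sub (DifferentiableAt.comp (m, y, v) (g := ov) ho.differentiableAt h2)
  have hW : DifferentiableAt ℝ (Wl A β) (m, y, v) := by
    unfold Wl
    exact hAc.add (DifferentiableAt.comp (m, y, v)
      (g := fun p : ℂ × ℂ => dt p.1 p.2) ((dt_contDiff.differentiable (by norm_num)) _)
      (hβc.prodMk hoc))
  have hline : HasDerivAt (fun t : ℝ => ((m + t * s, y + (t : ℂ) * y1, v + (t : ℂ) * v1) : ℝ × ℂ × ℂ))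
      (s, y1, v1) 0 := by
    have e1 : HasDerivAt (fun t : ℝ => m + t * s) s 0 := by
      simpa using ((hasDerivAt_id (0 : ℝ)).mul_const s).const_add m
    have e2 : ∀ z w : ℂ, HasDerivAt (fun t : ℝ => z + (t : ℂ) * w) w 0 := by
      intro z w
      have : HasDerivAt (fun t : ℝ => (t : ℂ)) 1 0 := Complex.ofRealCLM.hasDerivAt
      simpa using (this.mul_const w).const_add z
    exact e1.prodMk ((e2 y y1).prodMk (e2 v v1))
  have hline2 : HasDerivAt (fun t : ℝ => ((m + t * s, y + (t : ℂ) * y1) : ℝ × ℂ)) (s, y1) 0 := by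
    have e1 : HasDerivAt (fun t : ℝ => m + t * s) s 0 := by
      simpa using ((hasDerivAt_id (0 : ℝ)).mul_const s).const_add m
    have e2 : ∀ z w : ℂ, HasDerivAt (fun t : ℝ => z + (t : ℂ) * w) w 0 := by
      intro z w
      have : HasDerivAt (fun t : ℝ => (t : ℂ)) 1 0 := Complex.ofRealCLM.hasDerivAt
      simpa using (this.mul_const w).const_add z
    exact e1.prodMk (e2 y y1)
  have hW' : HasFDerivAt (Wl A β) (fderiv ℝ (Wl A β) (m, y, v))
      ((fun t : ℝ => ((m + t * s, y + (t : ℂ) * y1, v + (t : ℂ) * v1) : ℝ × ℂ × ℂ)) 0) := by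
    simpa using hW.hasFDerivAt
  have d1 := hW'.comp_hasDerivAt (0 : ℝ) hline
  have hA' : HasFDerivAt A (fderiv ℝ A (m, y))
      ((fun t : ℝ => ((m + t * s, y + (t : ℂ) * y1) : ℝ × ℂ)) 0) := by
    simpa using hA.hasFDerivAt
  have dA := hA'.comp_hasDerivAt (0 : ℝ) hline2
  have hβ' : HasFDerivAt β (fderiv ℝ β (m, y))
      ((fun t : ℝ => ((m + t * s, y + (t : ℂ) * y1) : ℝ × ℂ)) 0) := by
    simpa using hβ.hasFDerivAt
  have dβ := hβ'.comp_hasDerivAt (0 : ℝ) hline2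
  have dv : HasDerivAt (fun t : ℝ => v + (t : ℂ) * v1 - ov (m + t * s)) (v1 - (s : ℂ) * o') 0 := by
    have e2 : HasDerivAt (fun t : ℝ => v + (t : ℂ) * v1) v1 0 := by
      have : HasDerivAt (fun t : ℝ => (t : ℂ)) 1 0 := Complex.ofRealCLM.hasDerivAt
      simpa using (this.mul_const v1).const_add v
    have e1 : HasDerivAt (fun t : ℝ => m + t * s) s 0 := by
      simpa using ((hasDerivAt_id (0 : ℝ)).mul_const s).const_add m
    have ho' : HasDerivAt ov o' ((fun t : ℝ => m + t * s) 0) := by simpa using ho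
    have e3 := HasDerivAt.scomp (0 : ℝ) ho' e1
    refine (e2.sub e3).congr_deriv ?_
    rw [Complex.real_smul]
  have dre : ∀ {f : ℝ → ℂ} {f' : ℂ}, HasDerivAt f f' 0 → HasDerivAt (fun t => (f t).re) f'.re 0 :=
    fun h => (reCLM.hasFDerivAt.comp_hasDerivAt (0 : ℝ) h)
  have dim : ∀ {f : ℝ → ℂ} {f' : ℂ}, HasDerivAt f f' 0 → HasDerivAt (fun t => (f t).im) f'.im 0 :=
    fun h => (imCLM.hasFDerivAt.comp_hasDerivAt (0 : ℝ) h)
  have ddt : HasDerivAt (fun t : ℝ => dt (β (m + t * s, y + (t : ℂ) * y1))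
      (v + (t : ℂ) * v1 - ov (m + t * s)))
      (dt (fderiv ℝ β (m, y) (s, y1)) (v - ov m) + dt (β (m, y)) (v1 - (s : ℂ) * o')) 0 := by
    have r1 := ((dre dβ).mul (dre dv)).add ((dim dβ).mul (dim dv))
    refine r1.congr_deriv ?_
    simp only [Function.comp_apply, zero_mul, add_zero, Complex.ofReal_zero, dt]
    ring
  have d2 := dA.add ddt
  have heq : (Wl A β) ∘ (fun t : ℝ => ((m + t * s, y + (t : ℂ) * y1, v + (t : ℂ) * v1) : ℝ × ℂ × ℂ))
      = (A ∘ fun t : ℝ => ((m + t * s, y + (t : ℂ) * y1) : ℝ × ℂ)) +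
        (fun t : ℝ => dt (β (m + t * s, y + (t : ℂ) * y1))
      (v + (t : ℂ) * v1 - ov (m + t * s))) := by
    funext t; rfl
  rw [heq] at d1
  have := d1.unique d2
  rw [this]; ring

theorem osd_ne {m : ℝ} (hm : |m| ≤ m1) : osd m ≠ 0 := by
  have h1 := m1_bounds.2
  have := (osd_bounds (m := m) (hm.trans (by linarith))).1
  intro h; linarith

/-- `DW [fs/osd, V_j, vt] = fs (Lag - Ej)` -/
theorem Wl_Ej {A : ℝ × ℂ → ℝ} {β : ℝ × ℂ → ℂ} {m : ℝ} {y v : ℂ} (μ : ℝ) (j : Fin 3)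
    (hm : |m| ≤ m1) (hA : DifferentiableAt ℝ A (m, y)) (hβ : DifferentiableAt ℝ β (m, y))
    (hf : fs y v ≠ 0) :
    fderiv ℝ (Wl A β) (m, y, v) (fs y v / osd m, Vx y j, vt y v) =
      fs y v * (Lag μ m y v - Ej μ m y v (fderiv ℝ A (m, y) (1, 0))
        (fderiv ℝ A (m, y) (0, Vx y j)) (β (m, y)) (fderiv ℝ β (m, y) (1, 0))
        (fderiv ℝ β (m, y) (0, Vx y j))) := by
  have ho := osd_ne hm
  rw [Wl_fderiv hA hβ (ov_hasDerivAt m)]
  have e0 : ((fs y v / osd m, Vx y j) : ℝ × ℂ) = (fs y v / osd m) • ((1, 0) : ℝ × ℂ)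
      + ((0, Vx y j) : ℝ × ℂ) := by simp
  have e1 : fderiv ℝ A (m, y) (fs y v / osd m, Vx y j) =
      fs y v / osd m * fderiv ℝ A (m, y) (1, 0) + fderiv ℝ A (m, y) (0, Vx y j) := by
    rw [e0, map_add, map_smul, smul_eq_mul]
  have e2 : fderiv ℝ β (m, y) (fs y v / osd m, Vx y j) =
      ((fs y v / osd m : ℝ) : ℂ) * fderiv ℝ β (m, y) (1, 0) + fderiv ℝ β (m, y) (0, Vx y j) := by
    rw [e0, map_add, map_smul, Complex.real_smul]
  rw [e1, e2]
  have e3 : vt y v - ((fs y v / osd m : ℝ) : ℂ) * ((osd m : ℂ) * (bp (oy m) (ov m) - 2 * I * ov m))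
      = ((fs y v : ℝ) : ℂ) * (bp y v - 2 * I * v - (bp (oy m) (ov m) - 2 * I * ov m)) := by
    have : (osd m : ℂ) ≠ 0 := by exact_mod_cast ho
    unfold vt
    push_cast
    field_simp
  rw [e3]
  unfold Ej
  generalize fderiv ℝ A (m, y) (1, 0) = Am
  generalize fderiv ℝ A (m, y) (0, Vx y j) = AV
  generalize fderiv ℝ β (m, y) (1, 0) = bm
  generalize fderiv ℝ β (m, y) (0, Vx y j) = bV
  generalize β (m, y) = be
  generalize Lag μ m y v = L
  generalize bp (oy m) (ov m) - 2 * I * ov m = w1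
  generalize bp y v - 2 * I * v = w2
  simp only [dt, Complex.add_re, Complex.add_im, Complex.sub_re, Complex.sub_im, Complex.mul_re,
    Complex.mul_im, Complex.ofReal_re, Complex.ofReal_im]
  field_simp
  ring

/-- `R` is an admissible constant at `(m, y)`: `be = β`, `bV = β_y V_j`, `AV = A_y V_j` -/
def RB (m : ℝ) (y be bV : ℂ) (AV R : ℝ) : Prop :=
  ∃ lam hb Φ cb Qb pb : ℝ, 0 < lam ∧ ‖y‖ ≤ hb ∧ hb ≤ 8887 / 10000 ∧
    1 ≤ Φ * (1 - 2874 / 10000 * hb) ∧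
    0 ≤ cc (ov m) (bp (oy m) (ov m)) AV be y ∧ cc (ov m) (bp (oy m) (ov m)) AV be y ≤ cb ∧
    ‖bV - pp (ov m) (bp (oy m) (ov m)) be y‖ ≤ Qb ∧
    |1 / fs y (ov m) * dt (pp (ov m) (bp (oy m) (ov m)) be y) y| ≤ pb ∧
    Φ * normSq ((lam : ℂ) * y - (((1 / fs y (ov m) : ℝ) : ℂ)
        * (bV - pp (ov m) (bp (oy m) (ov m)) be y)
      + ((957 / 1000 * cc (ov m) (bp (oy m) (ov m)) AV be y : ℝ) : ℂ) * y)) ≤
      4 * lam * (6 - R - Kz hb Φ cb Qb pb
        + 493 / 1000 * (1 / fs y (ov m) * dt (pp (ov m) (bp (oy m) (ov m)) be y) y))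

theorem Ej_ge {μ m : ℝ} {y v : ℂ} {Am AV R : ℝ} {be bm bV : ℂ} (hm : |m| ≤ m1)
    (hv : ‖v‖ ≤ 3 / 10) (h : RB m y be bV AV R) :
    E0 m y Am AV be + dt (gj μ m y AV be bm bV) (v - ov m) + R * normSq (v - ov m) ≤
      Ej μ m y v Am AV be bm bV := by
  obtain ⟨lam, hb, Φ, cb, Qb, pb, h1, h2, h3, h4, h5, h6, h7, h8, h9⟩ := h
  rw [Ej_eq]
  exact EE_ge_zone (osd_ne hm) h2 h3 (ov_norm_le hm) hv h4 h1 h5 h6 h7 h8 h9

/-- `Cal` for a calibration that is linear in `v` -/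
theorem Cal_of_lin {μ ε : ℝ} {N : ℝ → ℂ → ℂ → ℝ} {A : ℝ × ℂ → ℝ} {β : ℝ × ℂ → ℂ}
    (hA : ContDiffOn ℝ 1 A St2) (hβ : ContDiffOn ℝ 1 β St2)
    (jA : ∀ y : ℂ, Dom y → A (m1, y) = A (-m1, uu 1 * y))
    (jβ : ∀ y : ℂ, Dom y → β (-m1, uu 1 * y) = uu 1 * β (m1, y))
    (ineq : ∀ m : ℝ, |m| ≤ m1 → ∀ y : ℂ, Dom y → ∀ v : ℂ, ‖v‖ ≤ 3 / 10 → ∀ j : Fin 3,
      N m y v ^ 2 - ε * N m y v ≤ Ej μ m y v (fderiv ℝ A (m, y) (1, 0))
        (fderiv ℝ A (m, y) (0, Vx y j)) (β (m, y)) (fderiv ℝ β (m, y) (1, 0))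
        (fderiv ℝ β (m, y) (0, Vx y j))) :
    Cal μ ε N (Wl A β) := by
  refine ⟨Wl_smooth hA hβ, ?_, ?_⟩
  · intro y v hy hv
    unfold Wl
    have e1 := jA y hy
    have e2 := jβ y hy
    have e3 : uu 1 * v - ov (-m1) = uu 1 * (v - ov m1) := by rw [ov_match]; ring
    simp only
    rw [e1, e2, e3]
    congr 1
    have hu : (uu 1).re * (uu 1).re + (uu 1).im * (uu 1).im = 1 := by
      have h3 : s3 * s3 = 3 := Real.mul_self_sqrt (by norm_num)
      show (-1 / 2 : ℝ) * (-1 / 2) + s3 / 2 * (s3 / 2) = 1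
      linear_combination (1 / 4) * h3
    generalize v - ov m1 = z
    generalize β (m1, y) = b
    simp only [dt, Complex.mul_re, Complex.mul_im]
    linear_combination (-(b.re * z.re + b.im * z.im)) * hu
  · intro m hm y hy v hv j
    have hm1 := m1_bounds.2
    have hmem : ((m, y) : ℝ × ℂ) ∈ St2 :=
      ⟨by show |m| < 1 / 4; linarith, fun i => by
        have := (hy i).1
        show 0 < 1 - 2 * dt (uu i) y
        linarith⟩
    have hn : St2 ∈ nhds ((m, y) : ℝ × ℂ) := St2_isOpen.mem_nhds hmem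
    have dA : DifferentiableAt ℝ A (m, y) := (hA.contDiffAt hn).differentiableAt (by norm_num)
    have dβ : DifferentiableAt ℝ β (m, y) := (hβ.contDiffAt hn).differentiableAt (by norm_num)
    have hk := ka_abs (y := y) hv
    have hyn := dom_norm hy
    have hf : 0 < fs y v := by
      rw [fs_eq]; linarith [neg_abs_le (ka y v)]
    rw [Wl_Ej μ j hm dA dβ hf.ne']
    have h := ineq m hm y hy v hv j
    have h2 := mul_le_mul_of_nonneg_left h hf.le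
    nlinarith

/-- the three dimensional condition: `V` linear in `v`, `N² = N0² + d |u|²` is not needed: `N` a
function of `(m, y)` and `μ = 0` -/
theorem Cal_of_lin0 {N : ℝ → ℂ → ℝ} {A : ℝ × ℂ → ℝ} {β : ℝ × ℂ → ℂ}
    (hA : ContDiffOn ℝ 1 A St2) (hβ : ContDiffOn ℝ 1 β St2)
    (jA : ∀ y : ℂ, Dom y → A (m1, y) = A (-m1, uu 1 * y))
    (jβ : ∀ y : ℂ, Dom y → β (-m1, uu 1 * y) = uu 1 * β (m1, y))
    (ineq : ∀ m : ℝ, |m| ≤ m1 → ∀ y : ℂ, Dom y → ∀ j : Fin 3, ∃ R : ℝ, 0 < R ∧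
      RB m y (β (m, y)) (fderiv ℝ β (m, y) (0, Vx y j)) (fderiv ℝ A (m, y) (0, Vx y j)) R ∧
      normSq (gj 0 m y (fderiv ℝ A (m, y) (0, Vx y j)) (β (m, y)) (fderiv ℝ β (m, y) (1, 0))
        (fderiv ℝ β (m, y) (0, Vx y j))) ≤
        4 * R * (E0 m y (fderiv ℝ A (m, y) (1, 0)) (fderiv ℝ A (m, y) (0, Vx y j)) (β (m, y))
          - N m y ^ 2)) :
    Cal 0 0 (fun m y _ => N m y) (Wl A β) := by
  refine Cal_of_lin hA hβ jA jβ ?_
  intro m hm y hy v hv j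
  obtain ⟨R, h1, h2, h3⟩ := ineq m hm y hy j
  have h4 := quad_min (u := v - ov m) h1 h3
  have h5 := Ej_ge (μ := 0) (Am := fderiv ℝ A (m, y) (1, 0)) (bm := fderiv ℝ β (m, y) (1, 0))
    hm hv h2
  simp only [zero_mul, sub_zero]
  exact h4.trans h5

end Pool.H61.Rh
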