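import Pool.Agent.H61.Rc.N2b
import Pool.Agent.H61.Rc.N8a
import Pool.Agent.H61.Rn.N6
import Pool.Agent.H61.Rn.N4

/-! # N10a: autonomous calibrations, lower bound for the first mode

`RS.auto`: as `RS.arc` (file N8a, whose private lemmas may be copied), but in the time `τ`:
`F τ = W (y τ, v τ)`, `v = vf (a τ) (b τ)` (`vf_hasDerivAt`), is Lipschitz on `[0, T]`
(`W` is `C¹` on the open set `Sy`, `y` is Lipschitz, compactness), so `F T - F 0 = ∫ deriv F`
(`AbsolutelyContinuousOnInterval.integral_deriv_eq_sub`); `F T = F 0` because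
`y T = conj ω y 0`, `v T = conj ω v 0` (`conj ze² = conj ω = ω²`, apply the invariance `W (ω ·) = W`
to the point at time `T`: `ω y T = y 0`, `ω v T = v 0`).  For almost all `τ`, `Kap` holds and
`deriv y = ∑ l_j V_j` (`kap_vertices`), and `deriv F ≤ G fs`.
`RS1.mode_lower`: `G = Lag0 + κ`; in the angle `s = φ` (`Clk.integral`; `B = Bf (a (σ s)) ..`,
`B1 = Bd/fq`): `|B| = |v|`, `cr B B1 = cr v (bp y v)`, `|B1| = |bp y v|` (`Bf_eq`, `Bd_eq`,
`fq_eq_fs`, `‖es a‖ = 1`), so `0 ≤ ∫_0^{π/3} (6|B|² + (1/2) cr B B1 - |B1|²/12 + κ) ds`.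
`fourier_ineq` for `B` (`Clk.B_deriv`, `Clk.B_cont`, `Clk.B_per`), with
`∫ B = 0`, `∫ e^{6is} B = (π/3) R` (`RS1.zero`, `RS1.one` through `Clk.integral`, real and imaginary
parts, `Clk.polar`: `a/‖a‖ = e^{iφ}`), divided by 12:
`0 ≤ ∫ (|B1|²/12 + (1/2) cr B B1 - 6|B|²) + 2π R²`.  Add: `0 ≤ ∫ cr B B1 + κ π/3 + 2π R²
= T - π/3 + κ π/3 + 2π R²` (`Clk.area`). -/

set_option autoImplicit false

namespace Pool.H61.Rh

open Complex MeasureTheory

/-- the open set of states `(y, v)` -/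
def Sy : Set (ℂ × ℂ) := {p | ∀ j : Fin 3, 0 < 1 - 2 * dt (uu j) p.1}

/-- the integrand of the autonomous lower bound -/
noncomputable def Lag0 (y v : ℂ) : ℝ :=
  6 * normSq v + 1 / 2 * cr v (bp y v) - 1 / 12 * normSq (bp y v)

/-- autonomous calibration -/
structure Cal0 (κ : ℝ) (W : ℂ × ℂ → ℝ) : Prop where
  smooth : ContDiffOn ℝ 1 W Sy
  rot : ∀ y v : ℂ, Dom y → ‖v‖ ≤ 3 / 10 → W (uu 1 * y, uu 1 * v) = W (y, v)
  ineq : ∀ y : ℂ, Dom y → ∀ v : ℂ, ‖v‖ ≤ 3 / 10 → ∀ j : Fin 3,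
    fderiv ℝ W (y, v) (Vx y j, vt y v) ≤ (Lag0 y v + κ) * fs y v

private lemma N10a_norm_pos {a b : ℂ} (h : normSq a - normSq b = 1) : 0 < ‖a‖ := by
  rw [norm_pos_iff]
  intro h0
  rw [h0, map_zero] at h
  have := normSq_nonneg b
  linarith

private lemma N10a_abs_dt (x y : ℂ) : |dt x y| ≤ ‖x‖ * ‖y‖ := by
  rw [dt_eq_re]
  calc |((starRingEnd ℂ) x * y).re| ≤ ‖(starRingEnd ℂ) x * y‖ := abs_re_le_norm _
    _ = ‖x‖ * ‖y‖ := by rw [norm_mul, norm_conj]

private lemma N10a_vt_eq {y v : ℂ} (hy : ‖y‖ < 1) :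
    vt y v = -I * (Real.sqrt (1 + normSq v) : ℂ) * y - 2 * I * v -
      I * v * ((dt y v / Real.sqrt (1 + normSq v) : ℝ) : ℂ) := by
  have hv := normSq_nonneg v
  have hr : 0 < Real.sqrt (1 + normSq v) := Real.sqrt_pos.2 (by linarith)
  have hsq : Real.sqrt (1 + normSq v) ^ 2 = 1 + normSq v := Real.sq_sqrt (by linarith)
  have hvr : ‖v‖ < Real.sqrt (1 + normSq v) := by
    refine Real.lt_sqrt_of_sq_lt ?_
    rw [normSq_eq_norm_sq]
    linarith
  have hd : 0 < Real.sqrt (1 + normSq v) + dt y v := by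
    have h1 := N10a_abs_dt y v
    have h2 := (abs_le.1 h1).1
    have h3 : ‖y‖ * ‖v‖ ≤ 1 * ‖v‖ := mul_le_mul_of_nonneg_right hy.le (norm_nonneg v)
    linarith
  unfold vt bp fs
  generalize Real.sqrt (1 + normSq v) = r at hr hsq hd
  generalize hD : dt y v = D at hd
  rw [← hsq]
  have hrc : (r : ℂ) ≠ 0 := by exact_mod_cast hr.ne'
  have hdc : ((r : ℂ) + (D : ℂ)) ≠ 0 := by exact_mod_cast hd.ne'
  push_cast
  field_simp
  ring

private lemma N10a_cont_dt (u : ℂ) : Continuous (dt u) := by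
  have : dt u = fun y => u.re * y.re + u.im * y.im := rfl
  rw [this]
  exact (continuous_const.mul continuous_re).add (continuous_const.mul continuous_im)

private lemma N10a_linear_dt (u : ℂ) : IsLinearMap ℝ (dt u) where
  map_add x y := by
    unfold dt
    simp only [add_re, add_im]
    ring
  map_smul c x := by
    unfold dt
    simp only [real_smul, mul_re, mul_im, ofReal_re, ofReal_im, smul_eq_mul]
    ring

/-- a compact convex subset of `Sy` -/
private def N10a_K : Set (ℂ × ℂ) :=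
  (Metric.closedBall (0 : ℂ) 1 ∩ {y | ∀ j : Fin 3, dt (uu j) y ≤ 29 / 60}) ×ˢ
    Metric.closedBall (0 : ℂ) (3 / 10)

private lemma N10a_K_convex : Convex ℝ N10a_K := by
  unfold N10a_K
  refine ((convex_closedBall _ _).inter ?_).prod (convex_closedBall _ _)
  have : {y : ℂ | ∀ j : Fin 3, dt (uu j) y ≤ 29 / 60} =
      ⋂ j : Fin 3, {y : ℂ | dt (uu j) y ≤ 29 / 60} := by
    ext y
    simp
  rw [this]
  exact convex_iInter fun j => convex_halfSpace_le (N10a_linear_dt (uu j)) _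

private lemma N10a_K_compact : IsCompact N10a_K := by
  unfold N10a_K
  refine ((isCompact_closedBall _ _).inter_right ?_).prod (isCompact_closedBall _ _)
  have : {y : ℂ | ∀ j : Fin 3, dt (uu j) y ≤ 29 / 60} =
      ⋂ j : Fin 3, {y : ℂ | dt (uu j) y ≤ 29 / 60} := by
    ext y
    simp
  rw [this]
  exact isClosed_iInter fun j => isClosed_le (N10a_cont_dt (uu j)) continuous_const

private lemma N10a_mem_K {y v : ℂ} (hy : Dom y) (hv : ‖v‖ ≤ 3 / 10) :
    (y, v) ∈ N10a_K := by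
  refine ⟨⟨?_, fun j => ?_⟩, ?_⟩
  · rw [Metric.mem_closedBall, dist_zero_right]
    have := dom_norm hy
    linarith
  · have := (hy j).1
    linarith
  · rw [Metric.mem_closedBall, dist_zero_right]
    exact hv

private lemma N10a_K_sub : N10a_K ⊆ Sy := by
  rintro ⟨y, v⟩ ⟨⟨-, hy⟩, -⟩
  intro j
  have h1 := hy j
  show 0 < 1 - 2 * dt (uu j) y
  linarith

private lemma N10a_Sy_open : IsOpen Sy := by
  have : Sy = ⋂ j : Fin 3, {p : ℂ × ℂ | 0 < 1 - 2 * dt (uu j) p.1} := by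
    ext p
    simp [Sy]
  rw [this]
  refine isOpen_iInter_of_finite fun j => ?_
  refine isOpen_lt continuous_const (continuous_const.sub (continuous_const.mul ?_))
  exact (N10a_cont_dt (uu j)).comp continuous_fst

private lemma N10a_cont_y {T : ℝ} {a b y : ℝ → ℂ} (h : RS T a b y) : Continuous y := by
  obtain ⟨C, hC⟩ := h.ylip
  exact hC.continuous

private lemma N10a_cont_vf {T : ℝ} {a b y : ℝ → ℂ} (h : RS T a b y) :
    Continuous (fun τ => vf (a τ) (b τ)) := by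
  have ca : Continuous a := continuous_iff_continuousAt.2 fun τ => (h.ha τ).continuousAt
  have cb : Continuous b := continuous_iff_continuousAt.2 fun τ => (h.hb τ).continuousAt
  unfold vf
  refine (Continuous.div ((continuous_ofReal.comp ca.norm).mul cb) ca fun τ => ?_).neg
  exact norm_pos_iff.1 (N10a_norm_pos (h.hn τ))

private lemma N10a_cont_vt {T : ℝ} {a b y : ℝ → ℂ} (h : RS T a b y) :
    Continuous (fun τ => vt (y τ) (vf (a τ) (b τ))) := by
  have cy := N10a_cont_y h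
  have cv := N10a_cont_vf h
  have e : (fun τ => vt (y τ) (vf (a τ) (b τ))) = fun τ =>
      -I * (Real.sqrt (1 + normSq (vf (a τ) (b τ))) : ℂ) * y τ - 2 * I * vf (a τ) (b τ) -
      I * vf (a τ) (b τ) * ((dt (y τ) (vf (a τ) (b τ)) /
        Real.sqrt (1 + normSq (vf (a τ) (b τ))) : ℝ) : ℂ) := by
    funext τ
    refine N10a_vt_eq ?_
    have := dom_norm (h.dom τ)
    linarith
  rw [e]
  have c1 : Continuous fun τ => Real.sqrt (1 + normSq (vf (a τ) (b τ))) :=
    (continuous_const.add (continuous_normSq.comp cv)).sqrt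
  have c2 : Continuous fun τ => dt (y τ) (vf (a τ) (b τ)) := by
    unfold dt
    exact ((continuous_re.comp cy).mul (continuous_re.comp cv)).add
      ((continuous_im.comp cy).mul (continuous_im.comp cv))
  have c3 : Continuous fun τ => dt (y τ) (vf (a τ) (b τ)) /
      Real.sqrt (1 + normSq (vf (a τ) (b τ))) := by
    refine c2.div c1 fun τ => ?_
    have := normSq_nonneg (vf (a τ) (b τ))
    exact (Real.sqrt_pos.2 (by linarith)).ne'
  exact (((continuous_const.mul (continuous_ofReal.comp c1)).mul cy).sub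
    (continuous_const.mul cv)).sub ((continuous_const.mul cv).mul (continuous_ofReal.comp c3))

private lemma N10a_fs_pos {T : ℝ} {a b y : ℝ → ℂ} (h : RS T a b y) (τ : ℝ) :
    0 < fs (y τ) (vf (a τ) (b τ)) := by
  rw [← fq_eq_fs _ (h.hn τ)]
  have := (h.fq_bounds τ).1
  linarith

private lemma N10a_cont_fs {T : ℝ} {a b y : ℝ → ℂ} (h : RS T a b y) :
    Continuous (fun τ => fs (y τ) (vf (a τ) (b τ))) := by
  have cy := N10a_cont_y h
  have cv := N10a_cont_vf h
  have c1 : Continuous fun τ => Real.sqrt (1 + normSq (vf (a τ) (b τ))) :=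
    (continuous_const.add (continuous_normSq.comp cv)).sqrt
  have c2 : Continuous fun τ => dt (y τ) (vf (a τ) (b τ)) := by
    unfold dt
    exact ((continuous_re.comp cy).mul (continuous_re.comp cv)).add
      ((continuous_im.comp cy).mul (continuous_im.comp cv))
  unfold fs
  refine continuous_const.add (c2.div c1 fun τ => ?_)
  have := normSq_nonneg (vf (a τ) (b τ))
  exact (Real.sqrt_pos.2 (by linarith)).ne'

private lemma N10a_cont_bp {T : ℝ} {a b y : ℝ → ℂ} (h : RS T a b y) :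
    Continuous (fun τ => bp (y τ) (vf (a τ) (b τ))) := by
  have e : (fun τ => bp (y τ) (vf (a τ) (b τ))) = fun τ =>
      vt (y τ) (vf (a τ) (b τ)) / ((fs (y τ) (vf (a τ) (b τ)) : ℝ) : ℂ) +
        2 * I * vf (a τ) (b τ) := by
    funext τ
    have h1 : ((fs (y τ) (vf (a τ) (b τ)) : ℝ) : ℂ) ≠ 0 := by
      exact_mod_cast (N10a_fs_pos h τ).ne'
    unfold vt
    rw [mul_div_cancel_left₀ _ h1]
    ring
  rw [e]
  refine ((N10a_cont_vt h).div (continuous_ofReal.comp (N10a_cont_fs h)) fun τ => ?_).add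
    (continuous_const.mul (N10a_cont_vf h))
  show ((fs (y τ) (vf (a τ) (b τ)) : ℝ) : ℂ) ≠ 0
  exact_mod_cast (N10a_fs_pos h τ).ne'

private lemma N10a_cr_cont {f g : ℝ → ℂ} (hf : Continuous f) (hg : Continuous g) :
    Continuous fun s => cr (f s) (g s) := by
  unfold cr
  fun_prop

private lemma N10a_cont_Lag {T : ℝ} {a b y : ℝ → ℂ} (h : RS T a b y) :
    Continuous (fun τ => Lag0 (y τ) (vf (a τ) (b τ))) := by
  have cv := N10a_cont_vf h
  have cb := N10a_cont_bp h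
  unfold Lag0
  exact ((continuous_const.mul (continuous_normSq.comp cv)).add
    (continuous_const.mul (N10a_cr_cont cv cb))).sub
    (continuous_const.mul (continuous_normSq.comp cb))

private lemma N10a_rot_end {T : ℝ} {a b y : ℝ → ℂ} (h : RS T a b y) :
    uu 1 * y T = y 0 ∧ uu 1 * vf (a T) (b T) = vf (a 0) (b 0) := by
  have hz := ze_mul_conj
  have hz0 : ze ≠ 0 := left_ne_zero_of_mul_eq_one hz
  have h1 := h.py 0
  have h2 := h.pa 0
  have h3 := h.pb 0
  rw [zero_add] at h1 h2 h3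
  have ha0 : a 0 ≠ 0 := norm_pos_iff.1 (N10a_norm_pos (h.hn 0))
  refine ⟨?_, ?_⟩
  · rw [h1, uu_one]
    have e : ze ^ 2 * ((starRingEnd ℂ) ze ^ 2 * y 0) = (ze * (starRingEnd ℂ) ze) ^ 2 * y 0 := by
      ring
    rw [e, hz, one_pow, one_mul]
  · unfold vf
    rw [h2, h3, norm_mul, norm_ze, one_mul, uu_one]
    have e : ze ^ 2 * -((‖a 0‖ : ℂ) * ((starRingEnd ℂ) ze * b 0) / (ze * a 0)) =
        (ze * (starRingEnd ℂ) ze) * -((‖a 0‖ : ℂ) * b 0 / a 0) := by
      field_simp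
    rw [e, hz, one_mul]

theorem RS.auto {T : ℝ} {a b y : ℝ → ℂ} (h : RS T a b y) (hb : ∀ τ, ‖b τ‖ ≤ 3 / 10)
    {W : ℂ × ℂ → ℝ} (hW : ContDiffOn ℝ 1 W Sy)
    (hr : ∀ y v : ℂ, Dom y → ‖v‖ ≤ 3 / 10 → W (uu 1 * y, uu 1 * v) = W (y, v))
    {G : ℂ → ℂ → ℝ}
    (hG : ∀ y : ℂ, Dom y → ∀ v : ℂ, ‖v‖ ≤ 3 / 10 → ∀ j : Fin 3,
      fderiv ℝ W (y, v) (Vx y j, vt y v) ≤ G y v * fs y v)
    (hGc : Continuous fun τ : ℝ => G (y τ) (vf (a τ) (b τ)) * fs (y τ) (vf (a τ) (b τ))) :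
    0 ≤ ∫ τ in (0 : ℝ)..T, G (y τ) (vf (a τ) (b τ)) * fs (y τ) (vf (a τ) (b τ)) := by
  set V : ℝ → ℂ := fun τ => vf (a τ) (b τ) with hV
  have hle : (0 : ℝ) ≤ T := h.Tpos.le
  have hy1 : ∀ τ, ‖y τ‖ < 1 := fun τ => by
    have := dom_norm (h.dom τ)
    linarith
  have hVn : ∀ τ, ‖V τ‖ ≤ 3 / 10 := fun τ => by
    rw [hV]
    simp only
    rw [vf_norm (h.hn τ)]
    exact hb τ
  have hVd : ∀ τ, HasDerivAt V (vt (y τ) (V τ)) τ := fun τ =>
    vf_hasDerivAt (h.ha τ) (h.hb τ) (h.hn τ) (hy1 τ)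
  set P : ℝ → ℂ × ℂ := fun τ => (y τ, V τ) with hP
  have hPK : ∀ τ, P τ ∈ N10a_K := fun τ => N10a_mem_K (h.dom _) (hVn _)
  obtain ⟨Cy, hCy⟩ := h.ylip
  have hyL : LipschitzOnWith Cy y (Set.Icc 0 T) := hCy.lipschitzOnWith
  obtain ⟨Cv, hCv⟩ : ∃ C : NNReal, LipschitzOnWith C V (Set.Icc 0 T) := by
    obtain ⟨C, hC⟩ := (isCompact_Icc (a := (0 : ℝ)) (b := T)).exists_bound_of_continuousOn
      ((N10a_cont_vt h).continuousOn)
    refine ⟨Real.toNNReal C, ?_⟩
    refine Convex.lipschitzOnWith_of_nnnorm_hasDerivWithin_le (convex_Icc _ _)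
      (fun s _ => (hVd s).hasDerivWithinAt) fun s hs => ?_
    have h5 := hC s hs
    have h6 : (0 : ℝ) ≤ C := (norm_nonneg _).trans h5
    rw [← NNReal.coe_le_coe, coe_nnnorm, Real.coe_toNNReal C h6]
    exact h5
  obtain ⟨CW, hCW⟩ := (hW.mono N10a_K_sub).exists_lipschitzOnWith one_ne_zero N10a_K_convex
    N10a_K_compact
  have hPL : LipschitzOnWith (max Cy Cv) P (Set.Icc 0 T) := hyL.prodMk hCv
  have hFL : LipschitzOnWith (CW * max Cy Cv) (fun s => W (P s)) (Set.Icc 0 T) :=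
    hCW.comp hPL (fun s _ => hPK s)
  have hAC : AbsolutelyContinuousOnInterval (fun s => W (P s)) 0 T := by
    refine LipschitzOnWith.absolutelyContinuousOnInterval (K := CW * max Cy Cv) ?_
    rw [Set.uIcc_of_le hle]
    exact hFL
  have hint := hAC.integral_deriv_eq_sub
  have hend : W (P T) = W (P 0) := by
    obtain ⟨e1, e2⟩ := N10a_rot_end h
    have h1 := hr (y T) (V T) (h.dom T) (hVn T)
    have e2' : uu 1 * V T = V 0 := e2
    rw [e1, e2'] at h1
    exact h1.symm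
  rw [hend, sub_self] at hint
  refine (le_of_eq hint.symm).trans ?_
  refine intervalIntegral.integral_mono_ae_restrict hle hAC.intervalIntegrable_deriv
    (hGc.intervalIntegrable _ _) ?_
  have hN : ∀ᵐ τ : ℝ, DifferentiableAt ℝ y τ ∧ Kap (y τ) (deriv y τ) := by
    filter_upwards [hCy.ae_differentiableAt (μ := volume), h.kap] with τ h2 h3
    exact ⟨h2, h3⟩
  refine (ae_restrict_iff' measurableSet_Icc).2 ?_
  filter_upwards [hN] with τ hτ _
  obtain ⟨hyd, hK⟩ := hτ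
  have hPs : P τ ∈ Sy := N10a_K_sub (hPK τ)
  have hWd : HasFDerivAt W (fderiv ℝ W (P τ)) (P τ) :=
    ((hW.differentiableOn one_ne_zero).differentiableAt (N10a_Sy_open.mem_nhds hPs)).hasFDerivAt
  have hPd : HasDerivAt P (deriv y τ, vt (y τ) (V τ)) τ := hyd.hasDerivAt.prodMk (hVd τ)
  have hFd := hWd.comp_hasDerivAt τ hPd
  have hFd' : deriv (fun s => W (P s)) τ = fderiv ℝ W (P τ) (deriv y τ, vt (y τ) (V τ)) :=
    hFd.deriv
  show deriv (fun s => W (P s)) τ ≤ G (y τ) (V τ) * fs (y τ) (V τ)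
  rw [hFd']
  obtain ⟨l, hl0, hl1, hl2⟩ := kap_vertices _ _ (h.dom τ) hK
  have hvec : ((deriv y τ, vt (y τ) (V τ)) : ℂ × ℂ) =
      ∑ j, l j • ((Vx (y τ) j, vt (y τ) (V τ)) : ℂ × ℂ) := by
    refine Prod.ext ?_ ?_
    · simp only [Prod.fst_sum, Prod.smul_fst]
      rw [hl2]
      refine Finset.sum_congr rfl fun j _ => ?_
      rw [real_smul]
    · simp only [Prod.snd_sum, Prod.smul_snd]
      rw [← Finset.sum_smul, hl1, one_smul]
  rw [hvec, map_sum]
  have hsum : ∑ j, fderiv ℝ W (P τ) (l j • ((Vx (y τ) j, vt (y τ) (V τ)) : ℂ × ℂ)) ≤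
      ∑ j, l j * (G (y τ) (V τ) * fs (y τ) (V τ)) := by
    refine Finset.sum_le_sum fun j _ => ?_
    rw [map_smul, smul_eq_mul]
    exact mul_le_mul_of_nonneg_left (hG (y τ) (h.dom _) (V τ) (hVn _) j) (hl0 j)
  rw [← Finset.sum_mul, hl1, one_mul] at hsum
  exact hsum

private lemma N10a_es {a b : ℂ} (h : normSq a - normSq b = 1) : normSq (es a ^ 2) = 1 := by
  have h0 := N10a_norm_pos h
  have h1 : ‖es a‖ = 1 := by
    unfold es
    rw [norm_div, norm_mul, norm_I, one_mul, norm_real, norm_norm, div_self h0.ne']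
  rw [normSq_eq_norm_sq, norm_pow, h1]
  norm_num

private lemma N10a_cr_mul (c z w : ℂ) : cr (c * z) (c * w) = normSq c * cr z w := by
  simp only [cr, mul_re, mul_im, normSq_apply]
  ring

/-- the integrand in terms of `B` -/
private lemma N10a_Lag_eq {T : ℝ} {a b y : ℝ → ℂ} (h : RS T a b y) (τ : ℝ) :
    Lag0 (y τ) (vf (a τ) (b τ)) = 6 * normSq (Bf (a τ) (b τ)) +
      1 / 2 * cr (Bf (a τ) (b τ)) (Bd (a τ) (b τ) (y τ) / (fq (a τ) (b τ) (y τ) : ℂ)) -
      1 / 12 * normSq (Bd (a τ) (b τ) (y τ) / (fq (a τ) (b τ) (y τ) : ℂ)) := by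
  have hy1 : ‖y τ‖ < 1 := by
    have := dom_norm (h.dom τ)
    linarith
  have hfs : ((fs (y τ) (vf (a τ) (b τ)) : ℝ) : ℂ) ≠ 0 := by
    exact_mod_cast (N10a_fs_pos h τ).ne'
  rw [Bd_eq (y τ) (h.hn τ) hy1, Bf_eq (h.hn τ), fq_eq_fs (y τ) (h.hn τ),
    mul_div_cancel_left₀ _ hfs, N10a_cr_mul, normSq_mul, normSq_mul, N10a_es (h.hn τ)]
  unfold Lag0
  ring

private lemma N10a_cont_fq {T : ℝ} {a b y : ℝ → ℂ} (h : RS T a b y) :
    Continuous (fun τ => fq (a τ) (b τ) (y τ)) := by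
  have e : (fun τ => fq (a τ) (b τ) (y τ)) = fun τ => fs (y τ) (vf (a τ) (b τ)) := by
    funext τ
    exact fq_eq_fs _ (h.hn τ)
  rw [e]
  exact N10a_cont_fs h

/-- complex version of `Clk.integral` -/
private lemma N10a_cint {T : ℝ} {a b y : ℝ → ℂ} {φ σ : ℝ → ℝ} (h : RS T a b y)
    (c : Clk T a b y φ σ) (f : ℝ → ℂ) (hf : Continuous f)
    (hp : ∀ s, f (s + Real.pi / 3) = f s) :
    ∫ τ in (0 : ℝ)..T, (fq (a τ) (b τ) (y τ) : ℂ) * f (φ τ) =
      ∫ s in (0 : ℝ)..(Real.pi / 3), f s := by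
  have hφ : Continuous φ := continuous_iff_continuousAt.2 fun τ => (c.dphi τ).continuousAt
  have hc : Continuous fun τ => (fq (a τ) (b τ) (y τ) : ℂ) * f (φ τ) :=
    (continuous_ofReal.comp (N10a_cont_fq h)).mul (hf.comp hφ)
  have hre := c.integral h (fun s => (f s).re) (continuous_re.comp hf)
    (fun s => by rw [hp s])
  have him := c.integral h (fun s => (f s).im) (continuous_im.comp hf)
    (fun s => by rw [hp s])
  have r1 := reCLM.intervalIntegral_comp_comm (hc.intervalIntegrable (μ := volume) 0 T)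
  have r2 := reCLM.intervalIntegral_comp_comm (hf.intervalIntegrable (μ := volume) 0 (Real.pi / 3))
  have i1 := imCLM.intervalIntegral_comp_comm (hc.intervalIntegrable (μ := volume) 0 T)
  have i2 := imCLM.intervalIntegral_comp_comm (hf.intervalIntegrable (μ := volume) 0 (Real.pi / 3))
  apply Complex.ext
  · refine (r1.symm.trans ?_).trans r2
    refine Eq.trans ?_ hre
    refine intervalIntegral.integral_congr fun τ _ => ?_
    show ((fq (a τ) (b τ) (y τ) : ℂ) * f (φ τ)).re = (f (φ τ)).re * fq (a τ) (b τ) (y τ)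
    rw [re_ofReal_mul]
    ring
  · refine (i1.symm.trans ?_).trans i2
    refine Eq.trans ?_ him
    refine intervalIntegral.integral_congr fun τ _ => ?_
    show ((fq (a τ) (b τ) (y τ) : ℂ) * f (φ τ)).im = (f (φ τ)).im * fq (a τ) (b τ) (y τ)
    rw [im_ofReal_mul]
    ring

theorem RS1.mode_lower {T R κ : ℝ} {a b y : ℝ → ℂ} {φ σ : ℝ → ℝ} {W : ℂ × ℂ → ℝ}
    (h : RS1 T R a b y) (c : Clk T a b y φ σ) (w : Cal0 κ W) :
    1 - κ - 3 * T / Real.pi ≤ 6 * R ^ 2 := by
  have hpi := Real.pi_pos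
  have hr := h.rs
  have hBc : Continuous fun s => Bf (a (σ s)) (b (σ s)) :=
    continuous_iff_continuousAt.2 fun s => (c.B_deriv hr s).continuousAt
  have hB1c := c.B_cont hr
  have hper : ∀ s, Bd (a (σ (s + Real.pi / 3))) (b (σ (s + Real.pi / 3)))
      (y (σ (s + Real.pi / 3))) / (fq (a (σ (s + Real.pi / 3))) (b (σ (s + Real.pi / 3)))
      (y (σ (s + Real.pi / 3))) : ℂ) =
      Bd (a (σ s)) (b (σ s)) (y (σ s)) / (fq (a (σ s)) (b (σ s)) (y (σ s)) : ℂ) := by
    intro s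
    have h1 : HasDerivAt (fun s => Bf (a (σ (s + Real.pi / 3))) (b (σ (s + Real.pi / 3)))) _ s :=
      (c.B_deriv hr (s + Real.pi / 3)).comp_add_const s (Real.pi / 3)
    have h2 : (fun s => Bf (a (σ (s + Real.pi / 3))) (b (σ (s + Real.pi / 3)))) =
        fun s => Bf (a (σ s)) (b (σ s)) := funext fun s => c.B_per hr s
    rw [h2] at h1
    exact h1.unique (c.B_deriv hr s)
  set β : ℝ → ℂ := fun s => Bf (a (σ s)) (b (σ s)) with hβ
  set β1 : ℝ → ℂ := fun s => Bd (a (σ s)) (b (σ s)) (y (σ s)) /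
    (fq (a (σ s)) (b (σ s)) (y (σ s)) : ℂ) with hβ1
  have hβp : ∀ s, β (s + Real.pi / 3) = β s := fun s => c.B_per hr s
  have hβ1p : ∀ s, β1 (s + Real.pi / 3) = β1 s := hper
  have hcrc : Continuous fun s => cr (β s) (β1 s) := N10a_cr_cont hBc hB1c
  have hn0c : Continuous fun s => normSq (β s) := continuous_normSq.comp hBc
  have hn1c : Continuous fun s => normSq (β1 s) := continuous_normSq.comp hB1c
  have hβφ : ∀ τ, β (φ τ) = Bf (a τ) (b τ) := fun τ => by
    rw [hβ]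
    simp only
    rw [c.sp τ]
  have hβ1φ : ∀ τ, β1 (φ τ) = Bd (a τ) (b τ) (y τ) / (fq (a τ) (b τ) (y τ) : ℂ) := fun τ => by
    rw [hβ1]
    simp only
    rw [c.sp τ]
  -- the calibration
  have hauto := hr.auto h.ble w.smooth w.rot w.ineq
    (((N10a_cont_Lag hr).add continuous_const).mul (N10a_cont_fs hr))
  have hint := c.integral hr (fun s => 6 * normSq (β s) + 1 / 2 * cr (β s) (β1 s) -
    1 / 12 * normSq (β1 s) + κ)
    ((((continuous_const.mul hn0c).add (continuous_const.mul hcrc)).sub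
      (continuous_const.mul hn1c)).add continuous_const)
    (fun s => by rw [hβp s, hβ1p s])
  have hcongr : ∫ τ in (0 : ℝ)..T, (Lag0 (y τ) (vf (a τ) (b τ)) + κ) *
      fs (y τ) (vf (a τ) (b τ)) = ∫ s in (0 : ℝ)..(Real.pi / 3), (6 * normSq (β s) +
        1 / 2 * cr (β s) (β1 s) - 1 / 12 * normSq (β1 s) + κ) := by
    rw [← hint]
    refine intervalIntegral.integral_congr fun τ _ => ?_
    show (Lag0 (y τ) (vf (a τ) (b τ)) + κ) * fs (y τ) (vf (a τ) (b τ)) =
      (6 * normSq (β (φ τ)) + 1 / 2 * cr (β (φ τ)) (β1 (φ τ)) -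
        1 / 12 * normSq (β1 (φ τ)) + κ) * fq (a τ) (b τ) (y τ)
    rw [N10a_Lag_eq hr τ, hβφ, hβ1φ, fq_eq_fs (y τ) (hr.hn τ)]
  rw [hcongr] at hauto
  -- the Fourier inequality
  have hfour := fourier_ineq β β1 (c.B_deriv hr) hB1c hβp
  have hz : ∫ s in (0 : ℝ)..(Real.pi / 3), β s = 0 := by
    rw [← N10a_cint hr c β hBc hβp, ← h.zero]
    refine intervalIntegral.integral_congr fun τ _ => ?_
    show (fq (a τ) (b τ) (y τ) : ℂ) * β (φ τ) = _
    rw [hβφ]
  have ho : ∫ s in (0 : ℝ)..(Real.pi / 3), exp (I * ((6 * s : ℝ) : ℂ)) * β s =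
      (((Real.pi / 3 * R : ℝ)) : ℂ) := by
    rw [← N10a_cint hr c (fun s => exp (I * ((6 * s : ℝ) : ℂ)) * β s) ?_ ?_, ← h.one]
    · refine intervalIntegral.integral_congr fun τ _ => ?_
      show (fq (a τ) (b τ) (y τ) : ℂ) * (exp (I * ((6 * φ τ : ℝ) : ℂ)) * β (φ τ)) = _
      rw [hβφ]
      have h0 : ((‖a τ‖ : ℝ) : ℂ) ≠ 0 := by
        exact_mod_cast (N10a_norm_pos (hr.hn τ)).ne'
      have h1 : a τ / ((‖a τ‖ : ℝ) : ℂ) = exp (I * (φ τ : ℂ)) := by
        rw [div_eq_iff h0, mul_comm]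
        exact c.polar τ
      rw [h1, ← exp_nat_mul]
      have h2 : ((6 : ℕ) : ℂ) * (I * (φ τ : ℂ)) = I * ((6 * φ τ : ℝ) : ℂ) := by
        push_cast
        ring
      rw [h2]
      ring
    · exact (by fun_prop : Continuous fun s : ℝ => exp (I * ((6 * s : ℝ) : ℂ))).mul hBc
    · intro s
      have h1 : I * ((6 * (s + Real.pi / 3) : ℝ) : ℂ) = I * ((6 * s : ℝ) : ℂ) +
          2 * Real.pi * I := by
        push_cast
        ring
      show exp (I * ((6 * (s + Real.pi / 3) : ℝ) : ℂ)) * β (s + Real.pi / 3) = _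
      rw [h1, exp_add, exp_two_pi_mul_I, mul_one, hβp]
  rw [hz, ho, map_zero, normSq_ofReal] at hfour
  -- integrals
  have harea := c.area hr
  obtain ⟨A0, hA0⟩ : ∃ A, A = ∫ s in (0 : ℝ)..(Real.pi / 3), normSq (β s) := ⟨_, rfl⟩
  obtain ⟨A1, hA1⟩ : ∃ A, A = ∫ s in (0 : ℝ)..(Real.pi / 3), normSq (β1 s) := ⟨_, rfl⟩
  obtain ⟨Ac, hAc⟩ : ∃ A, A = ∫ s in (0 : ℝ)..(Real.pi / 3), cr (β s) (β1 s) := ⟨_, rfl⟩
  have i0 := hn0c.intervalIntegrable (μ := volume) 0 (Real.pi / 3)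
  have i1 := hn1c.intervalIntegrable (μ := volume) 0 (Real.pi / 3)
  have ic := hcrc.intervalIntegrable (μ := volume) 0 (Real.pi / 3)
  have e1 : ∫ s in (0 : ℝ)..(Real.pi / 3), (6 * normSq (β s) +
      1 / 2 * cr (β s) (β1 s) - 1 / 12 * normSq (β1 s) + κ) =
      6 * A0 + 1 / 2 * Ac - 1 / 12 * A1 + κ * (Real.pi / 3) := by
    rw [intervalIntegral.integral_add (((i0.const_mul 6).add (ic.const_mul (1 / 2))).sub
        (i1.const_mul (1 / 12))) (intervalIntegrable_const),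
      intervalIntegral.integral_sub ((i0.const_mul 6).add (ic.const_mul (1 / 2)))
        (i1.const_mul (1 / 12)),
      intervalIntegral.integral_add (i0.const_mul 6) (ic.const_mul (1 / 2)),
      intervalIntegral.integral_const_mul, intervalIntegral.integral_const_mul,
      intervalIntegral.integral_const_mul, intervalIntegral.integral_const, hA0, hA1, hAc,
      smul_eq_mul]
    ring
  have e2 : ∫ s in (0 : ℝ)..(Real.pi / 3), (normSq (β1 s) + 6 * cr (β s) (β1 s)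
        - 72 * normSq (β s)) = A1 + 6 * Ac - 72 * A0 := by
    rw [intervalIntegral.integral_sub (i1.add (ic.const_mul 6)) (i0.const_mul 72),
      intervalIntegral.integral_add i1 (ic.const_mul 6),
      intervalIntegral.integral_const_mul, intervalIntegral.integral_const_mul, hA0, hA1, hAc]
  have e3 : T = Real.pi / 3 + Ac := by
    rw [hAc]
    exact harea
  rw [e1] at hauto
  rw [e2] at hfour
  have e4 : 72 * (3 / Real.pi) * (Real.pi / 3 * R * (Real.pi / 3 * R)) = 24 * Real.pi * R ^ 2 := by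
    field_simp
    ring
  rw [e4] at hfour
  have key : 0 ≤ T - Real.pi / 3 + κ * (Real.pi / 3) + 2 * Real.pi * R ^ 2 := by
    rw [e3]
    linarith
  have h5 : 3 * T / Real.pi = T * (3 / Real.pi) := by ring
  have h6 : (0 : ℝ) < 3 / Real.pi := by positivity
  have h7 := mul_nonneg key h6.le
  have h8 : (T - Real.pi / 3 + κ * (Real.pi / 3) + 2 * Real.pi * R ^ 2) * (3 / Real.pi) =
      3 * T / Real.pi - 1 + κ + 6 * R ^ 2 := by
    field_simp
    ring
  rw [h8] at h7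
  linarith

end Pool.H61.Rh
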