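import Pool.Agent.H61.Rn.N0
import Pool.Agent.H61.Rh.F4

/-! # R0: the arc of the smoothed octagon, coordinates, calibrations: definitions

Parameter `m ∈ [-m1, m1]`, `m1 = (log 2)/4`, `kp = 2^{3/4}`, `α = 5π/24`, `β = π/24`
(`α + β = π/4`, `α - β = π/6`).
`oa m = C (sinh (m + iα) - i kp cos β)`, `ob m = i C (cosh (m + iβ) - kp sin α)`,
`C² = 2√6/(3(2√2-1))`,
`oy m = (kp cosh m - 2 + i √3 kp sinh m)/(2 kp cosh m - 1)`,
`otau m = (2 kp sinh m - m)/(√3 (kp² - 1))`.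

Coordinates of a frame `(a, b)`: `e^{is} = i a/|a|`, `v = -|a| b/a = e^{-2is} B`, `B = a b/|a|`.
Along a solution of `RS`: `s' = fs y v`, `v' = vt y v = fs y v (bp y v - 2 i v)`,
`B' = fs y v e^{2is} (bp y v)`. -/

set_option autoImplicit false

namespace Pool.H61.Rh

open Complex

/-- `2^{3/4}` -/
noncomputable def kp : ℝ := Real.sqrt (2 * Real.sqrt 2)

/-- half of the parameter length of an arc -/
noncomputable def m1 : ℝ := Real.log 2 / 4

/-- `C` -/
noncomputable def oC : ℝ := Real.sqrt (2 * Real.sqrt 6 / (3 * (2 * Real.sqrt 2 - 1)))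

/-- sine of `5π/24` -/
noncomputable def sA : ℝ := Real.sin (5 * Real.pi / 24)

/-- cosine of `5π/24` -/
noncomputable def cA : ℝ := Real.cos (5 * Real.pi / 24)

/-- sine of `π/24` -/
noncomputable def sB : ℝ := Real.sin (Real.pi / 24)

/-- cosine of `π/24` -/
noncomputable def cB : ℝ := Real.cos (Real.pi / 24)

/-- `a` on the arc: `C (sinh m cos α + i (cosh m sin α - kp cos β))` -/
noncomputable def oa (m : ℝ) : ℂ :=
  ⟨oC * (Real.sinh m * cA), oC * (Real.cosh m * sA - kp * cB)⟩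

/-- `b` on the arc: `i C (cosh m cos β - kp sin α + i sinh m sin β)` -/
noncomputable def ob (m : ℝ) : ℂ :=
  ⟨-(oC * (Real.sinh m * sB)), oC * (Real.cosh m * cB - kp * sA)⟩

/-- `y` on the arc -/
noncomputable def oy (m : ℝ) : ℂ :=
  ⟨(kp * Real.cosh m - 2) / (2 * kp * Real.cosh m - 1),
    s3 * kp * Real.sinh m / (2 * kp * Real.cosh m - 1)⟩

/-- area time on the arc -/
noncomputable def otau (m : ℝ) : ℝ := (2 * kp * Real.sinh m - m) / (s3 * (kp ^ 2 - 1))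

/-- its derivative -/
noncomputable def otau' (m : ℝ) : ℝ := (2 * kp * Real.cosh m - 1) / (s3 * (kp ^ 2 - 1))

/-- the angle `s` (zero in the middle of the arc) as a function of `m` -/
noncomputable def os (m : ℝ) : ℝ :=
  Real.arctan (cA * Real.sinh m / (kp * cB - sA * Real.cosh m))

/-- the derivative of `os` (lemma `os_hasDerivAt`) -/
noncomputable def osd (m : ℝ) : ℝ := fq (oa m) (ob m) (oy m) * otau' m

/-- the coordinate `v = -‖a‖ b / a = e^{-2is} B` -/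
noncomputable def vf (a b : ℂ) : ℂ := -((‖a‖ : ℂ) * b / a)

/-- `v` on the arc -/
noncomputable def ov (m : ℝ) : ℂ := vf (oa m) (ob m)

/-- `e^{-2is} dB/ds` in terms of `y, v` -/
noncomputable def bp (y v : ℂ) : ℂ :=
  -I * (((1 + normSq v : ℝ) : ℂ) * y - ((dt y v : ℝ) : ℂ) * v) /
    ((Real.sqrt (1 + normSq v) + dt y v : ℝ) : ℂ)

/-- `ds/dτ` in terms of `y, v` -/
noncomputable def fs (y v : ℂ) : ℝ := 1 + dt y v / Real.sqrt (1 + normSq v)

/-- `dv/dτ` in terms of `y, v` -/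
noncomputable def vt (y v : ℂ) : ℂ := ((fs y v : ℝ) : ℂ) * (bp y v - 2 * I * v)

/-- `e^{is}` of a frame -/
noncomputable def es (a : ℂ) : ℂ := I * a / (‖a‖ : ℂ)

/-- the integrand of the lower bound, in the moving coordinates -/
noncomputable def Lag (μ m : ℝ) (y v : ℂ) : ℝ :=
  2 * cr (v - ov m) (bp (oy m) (ov m)) + 6 * normSq (v - ov m)
    + 1 / 2 * cr (v - ov m) (bp y v - bp (oy m) (ov m))
    - 1 / 12 * normSq (bp y v - bp (oy m) (ov m))
    + μ * (es (oa m) ^ 8 * (v - ov m)).re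

/-- the (open) set of states `(m, y, v)` -/
def St : Set (ℝ × ℂ × ℂ) := {p | |p.1| < 1 / 4 ∧ ∀ j : Fin 3, 0 < 1 - 2 * dt (uu j) p.2.1}

/-- calibration: `W` is `C¹`, continuous across the corners (`(m1, y, v) ~ (-m1, ω y, ω v)`), and
along every admissible direction `dW/dτ ≤ (Lag + ε N - N²) ds/dτ` -/
structure Cal (μ ε : ℝ) (N : ℝ → ℂ → ℂ → ℝ) (W : ℝ × ℂ × ℂ → ℝ) : Prop where
  smooth : ContDiffOn ℝ 1 W St
  junction : ∀ y v : ℂ, Dom y → ‖v‖ ≤ 3 / 10 → W (m1, y, v) = W (-m1, uu 1 * y, uu 1 * v)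
  ineq : ∀ m : ℝ, |m| ≤ m1 → ∀ y : ℂ, Dom y → ∀ v : ℂ, ‖v‖ ≤ 3 / 10 → ∀ j : Fin 3,
    fderiv ℝ W (m, y, v) (fs y v / osd m, Vx y j, vt y v) ≤
      (Lag μ m y v + ε * N m y v - N m y v ^ 2) * fs y v

lemma kp_sq : kp ^ 2 = 2 * Real.sqrt 2 := by
  unfold kp; exact Real.sq_sqrt (by positivity)

lemma kp_pos : 0 < kp := by
  unfold kp; positivity

end Pool.H61.Rh
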