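import Pool.Agent.H61.Rn.N5b
import Pool.Agent.H61.Rc.R0

/-! # N2b: the frame with positive mode

From `RS0 T R a b y` rotate by `c = e^{iπ/8}`: `(c a, c b)` (`RS.rotate`); `fq` unchanged,
`Bf (c a) (c b) = c² Bf a b`, `(c a/‖c a‖)^6 = c^6 (a/‖a‖)^6`, `c^8 = -1`; `‖c b‖ = ‖b‖`
(the private lemmas `N2_fq, N2_norm, N2_Bf` of Rn/N2.lean may be copied; the bounds are
`RS0.b_le`, `RS0.R_le` of Rn/N5b.lean). -/

set_option autoImplicit false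

namespace Pool.H61.Rh

open Complex MeasureTheory

private theorem N2b_fq (a b y c : ℂ) (hc : normSq c = 1) : fq (c * a) (c * b) y = fq a b y := by
  unfold fq
  have h1 : dt (y * (c * a)) (c * b) = normSq c * dt (y * a) b := by
    simp only [dt, normSq_apply, mul_re, mul_im]
    ring
  rw [h1, normSq_mul, hc, one_mul, one_mul]

private theorem N2b_norm {c : ℂ} (hc : normSq c = 1) : ‖c‖ = 1 := by
  rw [normSq_eq_norm_sq] at hc
  exact (pow_eq_one_iff_of_nonneg (norm_nonneg c) (by norm_num)).1 hc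

private theorem N2b_Bf (a b c : ℂ) (hc : normSq c = 1) :
    Bf (c * a) (c * b) = c ^ 2 * Bf a b := by
  unfold Bf
  rw [norm_mul, N2b_norm hc, one_mul]
  ring

private theorem N2b_root : ∃ c : ℂ, normSq c = 1 ∧ c ^ 8 = -1 := by
  obtain ⟨c, hc⟩ := IsAlgClosed.exists_pow_nat_eq (-1 : ℂ) (n := 8) (by norm_num)
  refine ⟨c, ?_, hc⟩
  have h1 : ‖c‖ ^ 8 = 1 := by
    rw [← norm_pow, hc, norm_neg, norm_one]
  have h2 : ‖c‖ = 1 := (pow_eq_one_iff_of_nonneg (norm_nonneg c) (by norm_num)).1 h1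
  rw [normSq_eq_norm_sq, h2]
  norm_num

/-- normalised frame -/
structure RS1 (T R : ℝ) (a b y : ℝ → ℂ) : Prop where
  rs : RS T a b y
  Rnn : 0 ≤ R
  Rle : R ≤ 191 / 1000
  ble : ∀ τ, ‖b τ‖ ≤ 3 / 10
  zero : ∫ τ in (0 : ℝ)..T, (fq (a τ) (b τ) (y τ) : ℂ) * Bf (a τ) (b τ) = 0
  one : ∫ τ in (0 : ℝ)..T, (fq (a τ) (b τ) (y τ) : ℂ) * (Bf (a τ) (b τ) *
    (a τ / (‖a τ‖ : ℂ)) ^ 6) = (((Real.pi / 3 * R : ℝ)) : ℂ)

theorem RS.rs1 {T : ℝ} {a b y : ℝ → ℂ} (h : RS T a b y) (hT : T ≤ 105 / 100) :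
    ∃ (R : ℝ) (a' b' : ℝ → ℂ), RS1 T R a' b' y := by
  obtain ⟨R, a', b', h'⟩ := h.rs0
  obtain ⟨c, hc, hc8⟩ := N2b_root
  refine ⟨R, fun τ => c * a' τ, fun τ => c * b' τ, h'.rs.rotate c hc, h'.Rnn, h'.R_le hT, ?_,
    ?_, ?_⟩
  · intro τ
    rw [norm_mul, N2b_norm hc, one_mul]
    exact h'.b_le hT τ
  · have h1 : ∀ τ : ℝ, (fq (c * a' τ) (c * b' τ) (y τ) : ℂ) * Bf (c * a' τ) (c * b' τ) =
        c ^ 2 * ((fq (a' τ) (b' τ) (y τ) : ℂ) * Bf (a' τ) (b' τ)) := by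
      intro τ
      rw [N2b_fq _ _ _ _ hc, N2b_Bf _ _ _ hc]
      ring
    simp only [h1]
    rw [intervalIntegral.integral_const_mul, h'.zero, mul_zero]
  · have h1 : ∀ τ : ℝ, (fq (c * a' τ) (c * b' τ) (y τ) : ℂ) * (Bf (c * a' τ) (c * b' τ) *
        (c * a' τ / (‖c * a' τ‖ : ℂ)) ^ 6) =
        c ^ 8 * ((fq (a' τ) (b' τ) (y τ) : ℂ) * (Bf (a' τ) (b' τ) *
          (a' τ / (‖a' τ‖ : ℂ)) ^ 6)) := by
      intro τ
      rw [N2b_fq _ _ _ _ hc, N2b_Bf _ _ _ hc, norm_mul, N2b_norm hc, one_mul, mul_div_assoc,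
        mul_pow]
      ring
    simp only [h1]
    rw [intervalIntegral.integral_const_mul, h'.one, hc8]
    ring

end Pool.H61.Rh
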