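import Pool.Agent.H61.Rc.N2b
import Pool.Agent.H61.Rc.R5
import Pool.Agent.H61.Rn.N4
import Pool.Agent.H61.Rn.N6

/-! # N7: the area inequality

`s = φ + π/2`: `Bc s`, `Bc1 s` are `B` and `dB/ds` as functions of `s` (`Clk.B_deriv`, `Clk.B_cont`,
`Clk.B_per`, shifted by `π/2`).  `β = Bc - Bs`, `β1 = Bc1 - Bs1`, period `π/3`
(`Bs (s + π/3) = (-i)^4 Bs s`).
`T - Ts = ∫ (cr Bc Bc1 - cr Bs Bs1) = ∫ (cr β Bs1 + cr Bs β1 + cr β β1)` over a period (`Clk.area`,
`Ref.area`, shift by `π/2` of a periodic function), and `∫ cr Bs β1 = ∫ cr β Bs1` because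
`(cr Bs β)' = cr Bs1 β + cr Bs β1` has integral `0`.
`∫ β = 0` (`RS1.zero` through `Clk.integral` (real and imaginary parts), `Ref.zero`), and
`∫ e^{6is} β = -(π/3) R + (π/3) oRs` (`RS1.one`; `a/‖a‖ = e^{iφ}` (`Clk.polar`), `e^{6is} = -e^{6iφ}`;
`Ref.one`).
`fourier_ineq` divided by 12: `0 ≤ ∫ (|β1|²/12 + (1/2) cr β β1 - 6|β|²) + 6 (3/π) (π/3)² e²`,
`e = oRs - R`, so `∫ cr β β1 ≥ ∫ (6|β|² + (1/2) cr β β1 - |β1|²/12) - 2π e²`. -/

set_option autoImplicit false

namespace Pool.H61.Rh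

open Complex MeasureTheory

/-- `B` as a function of the angle `s = φ + π/2` -/
noncomputable def Bc (a b : ℝ → ℂ) (σ : ℝ → ℝ) (s : ℝ) : ℂ :=
  Bf (a (σ (s - Real.pi / 2))) (b (σ (s - Real.pi / 2)))

/-- its derivative -/
noncomputable def Bc1 (a b y : ℝ → ℂ) (σ : ℝ → ℝ) (s : ℝ) : ℂ :=
  Bd (a (σ (s - Real.pi / 2))) (b (σ (s - Real.pi / 2))) (y (σ (s - Real.pi / 2))) /
    (fq (a (σ (s - Real.pi / 2))) (b (σ (s - Real.pi / 2))) (y (σ (s - Real.pi / 2))) : ℂ)

/-- the integrand of the lower bound -/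
noncomputable def Lam (μ s : ℝ) (B B1 C C1 : ℂ) : ℝ :=
  2 * cr (B - C) C1 + 6 * normSq (B - C) + 1 / 2 * cr (B - C) (B1 - C1)
    - 1 / 12 * normSq (B1 - C1) + μ * (exp (6 * I * (s : ℂ)) * (B - C)).re

private theorem N7_fqc {T : ℝ} {a b y : ℝ → ℂ} (h : RS T a b y) :
    Continuous fun τ => fq (a τ) (b τ) (y τ) := by
  have hca : Continuous a := continuous_iff_continuousAt.2 fun τ => (h.ha τ).continuousAt
  have hcb : Continuous b := continuous_iff_continuousAt.2 fun τ => (h.hb τ).continuousAt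
  obtain ⟨C, hC⟩ := h.ylip
  have hcy : Continuous y := hC.continuous
  unfold fq dt
  refine continuous_const.sub (Continuous.div (by fun_prop) (continuous_normSq.comp hca) ?_)
  intro τ
  have h1 := h.hn τ
  have h2 := normSq_nonneg (b τ)
  intro h0
  have h0' : normSq (a τ) = 0 := h0
  linarith

private theorem N7_cint {T : ℝ} {a b y : ℝ → ℂ} {φ σ : ℝ → ℝ} (h : RS T a b y)
    (c : Clk T a b y φ σ) (F : ℝ → ℂ) (hF : Continuous F)
    (hp : ∀ s, F (s + Real.pi / 3) = F s) :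
    ∫ τ in (0 : ℝ)..T, (fq (a τ) (b τ) (y τ) : ℂ) * F (φ τ) =
      ∫ s in (0 : ℝ)..(Real.pi / 3), F s := by
  have h1 := intervalIntegral.integral_comp_smul_deriv (a := 0) (b := T) (f := φ)
    (f' := fun τ => fq (a τ) (b τ) (y τ)) (g := F) (fun τ _ => c.dphi τ)
    (N7_fqc h).continuousOn hF
  have h2 : φ T = φ 0 + Real.pi / 3 := by
    have := c.phiT 0
    rwa [zero_add] at this
  have h3 : Function.Periodic F (Real.pi / 3) := hp
  have h4 := h3.intervalIntegral_add_eq (φ 0) 0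
  rw [zero_add] at h4
  rw [← h4, ← h2, ← h1]
  refine intervalIntegral.integral_congr fun τ _ => ?_
  show (fq (a τ) (b τ) (y τ) : ℂ) * F (φ τ) = fq (a τ) (b τ) (y τ) • F (φ τ)
  rw [Complex.real_smul]

private theorem N7_shift {E : Type} [NormedAddCommGroup E] [NormedSpace ℝ E] (F : ℝ → E)
    (hp : ∀ s, F (s + Real.pi / 3) = F s) :
    ∫ s in (0 : ℝ)..(Real.pi / 3), F (s - Real.pi / 2) =
      ∫ s in (0 : ℝ)..(Real.pi / 3), F s := by
  rw [intervalIntegral.integral_comp_sub_right]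
  have h3 : Function.Periodic F (Real.pi / 3) := hp
  have h4 := h3.intervalIntegral_add_eq (0 - Real.pi / 2) 0
  rw [zero_add] at h4
  rw [← h4]
  congr 1
  ring

private theorem N7_cr_sub (z w z' w' : ℂ) : cr z w - cr z' w' =
    2 * cr (z - z') w' + cr (z - z') (w - w') + (cr z' (w - w') + cr w' (z - z')) := by
  simp only [cr, sub_re, sub_im]
  ring

theorem area_ineq {T R μ : ℝ} {a b y : ℝ → ℂ} {φ σ ms : ℝ → ℝ} {Bs Bs1 : ℝ → ℂ}
    (h : RS1 T R a b y) (c : Clk T a b y φ σ) (r : Ref ms Bs Bs1) :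
    (∫ s in (0 : ℝ)..(Real.pi / 3), Lam μ s (Bc a b σ s) (Bc1 a b y σ s) (Bs s) (Bs1 s))
      - μ * (Real.pi / 3) * (oRs - R) - 2 * Real.pi * (oRs - R) ^ 2 ≤ T - Ts := by
  have hpi := Real.pi_pos
  -- periodicity of the reference curve
  have hI4 : ∀ z : ℂ, -I * (-I * (-I * (-I * z))) = z := by
    intro z
    have h1 : -I * (-I * (-I * (-I * z))) = (I ^ 2) ^ 2 * z := by ring
    rw [h1, I_sq]
    norm_num
  have h4 : ∀ s : ℝ, s + Real.pi / 3 =
      s + Real.pi / 12 + Real.pi / 12 + Real.pi / 12 + Real.pi / 12 := fun s => by ring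
  have perBs : ∀ s, Bs (s + Real.pi / 3) = Bs s := by
    intro s
    rw [h4, r.perB, r.perB, r.perB, r.perB, hI4]
  have perBs1 : ∀ s, Bs1 (s + Real.pi / 3) = Bs1 s := by
    intro s
    rw [h4, r.perB1, r.perB1, r.perB1, r.perB1, hI4]
  -- the curve
  have dBc : ∀ s, HasDerivAt (Bc a b σ) (Bc1 a b y σ s) s := by
    intro s
    exact (c.B_deriv h.rs (s - Real.pi / 2)).comp_sub_const s (Real.pi / 2)
  have cBc1 : Continuous (Bc1 a b y σ) :=
    (c.B_cont h.rs).comp (continuous_id.sub continuous_const)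
  have hsh : ∀ s : ℝ, s + Real.pi / 3 - Real.pi / 2 = s - Real.pi / 2 + Real.pi / 3 :=
    fun s => by ring
  have perBc : ∀ s, Bc a b σ (s + Real.pi / 3) = Bc a b σ s := by
    intro s
    unfold Bc
    rw [hsh]
    exact c.B_per h.rs _
  have cBc : Continuous (Bc a b σ) :=
    continuous_iff_continuousAt.2 fun s => (dBc s).continuousAt
  have cBs : Continuous Bs := continuous_iff_continuousAt.2 fun s => (r.dB s).continuousAt
  have cBs1 := r.cB1
  -- the unshifted curve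
  set F0 : ℝ → ℂ := fun s => Bf (a (σ s)) (b (σ s)) with hF0
  have cF0 : Continuous F0 :=
    continuous_iff_continuousAt.2 fun s => (c.B_deriv h.rs s).continuousAt
  have perF0 : ∀ s, F0 (s + Real.pi / 3) = F0 s := fun s => c.B_per h.rs s
  have hBcF : ∀ s, Bc a b σ s = F0 (s - Real.pi / 2) := fun s => rfl
  have i0 : ∫ s in (0 : ℝ)..(Real.pi / 3), Bc a b σ s = 0 := by
    have e1 := N7_cint h.rs c F0 cF0 perF0
    have e2 : ∫ τ in (0 : ℝ)..T, (fq (a τ) (b τ) (y τ) : ℂ) * F0 (φ τ) = 0 := by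
      rw [← h.zero]
      refine intervalIntegral.integral_congr fun τ _ => ?_
      show _ * Bf (a (σ (φ τ))) (b (σ (φ τ))) = _
      rw [c.sp τ]
    have e3 := N7_shift F0 perF0
    rw [show (fun s => Bc a b σ s) = fun s => F0 (s - Real.pi / 2) from rfl, e3, ← e1, e2]
  -- the Fourier coefficient
  set G0 : ℝ → ℂ := fun s => exp (6 * I * (s : ℂ)) * F0 s with hG0
  have cG0 : Continuous G0 := by
    refine Continuous.mul ?_ cF0
    fun_prop
  have perG0 : ∀ s, G0 (s + Real.pi / 3) = G0 s := by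
    intro s
    have e1 : exp (6 * I * ((s + Real.pi / 3 : ℝ) : ℂ)) = exp (6 * I * (s : ℂ)) := by
      have e2 : 6 * I * ((s + Real.pi / 3 : ℝ) : ℂ) = 6 * I * (s : ℂ) + 2 * Real.pi * I := by
        push_cast
        ring
      rw [e2, exp_add, exp_two_pi_mul_I, mul_one]
    simp only [hG0, perF0 s, e1]
  have i1 : ∫ s in (0 : ℝ)..(Real.pi / 3), exp (6 * I * (s : ℂ)) * Bc a b σ s =
      -(((Real.pi / 3 * R : ℝ)) : ℂ) := by
    have e1 := N7_cint h.rs c G0 cG0 perG0
    have e2 : ∫ τ in (0 : ℝ)..T, (fq (a τ) (b τ) (y τ) : ℂ) * G0 (φ τ) =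
        (((Real.pi / 3 * R : ℝ)) : ℂ) := by
      rw [← h.one]
      refine intervalIntegral.integral_congr fun τ _ => ?_
      show _ * (exp (6 * I * (φ τ : ℂ)) * Bf (a (σ (φ τ))) (b (σ (φ τ)))) = _
      rw [c.sp τ]
      have e4 : a τ / (‖a τ‖ : ℂ) = exp (I * (φ τ : ℂ)) := by
        have hne : (‖a τ‖ : ℂ) ≠ 0 := by
          intro h0
          have h1 := h.rs.hn τ
          have h2 := normSq_nonneg (b τ)
          have h3 : ‖a τ‖ = 0 := by exact_mod_cast h0
          rw [norm_eq_zero] at h3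
          rw [h3, map_zero] at h1
          linarith
        rw [div_eq_iff hne, mul_comm]
        exact c.polar τ
      rw [e4, ← exp_nat_mul]
      have e5 : ((6 : ℕ) : ℂ) * (I * (φ τ : ℂ)) = 6 * I * (φ τ : ℂ) := by
        push_cast
        ring
      rw [e5]
      ring
    have e3 := N7_shift G0 perG0
    have e4 : ∀ s : ℝ, exp (6 * I * (s : ℂ)) * Bc a b σ s = -G0 (s - Real.pi / 2) := by
      intro s
      have e5 : exp (6 * I * (s : ℂ)) = -exp (6 * I * ((s - Real.pi / 2 : ℝ) : ℂ)) := by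
        have e6 : 6 * I * (s : ℂ) =
            6 * I * ((s - Real.pi / 2 : ℝ) : ℂ) + (2 * Real.pi * I + Real.pi * I) := by
          push_cast
          ring
        rw [e6, exp_add, exp_add (2 * (Real.pi : ℂ) * I), exp_two_pi_mul_I, exp_pi_mul_I]
        ring
      rw [hBcF, e5]
      simp only [hG0]
      ring
    simp only [e4]
    rw [intervalIntegral.integral_neg, e3, ← e1, e2]
  -- the areas
  have aT : T = Real.pi / 3 + ∫ s in (0 : ℝ)..(Real.pi / 3),
      cr (Bc a b σ s) (Bc1 a b y σ s) := by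
    have e1 := c.area h.rs
    set K : ℝ → ℝ := fun s => cr (Bf (a (σ s)) (b (σ s)))
      (Bd (a (σ s)) (b (σ s)) (y (σ s)) / (fq (a (σ s)) (b (σ s)) (y (σ s)) : ℂ)) with hK
    have perK : ∀ s, K (s + Real.pi / 3) = K s := by
      intro s
      have hper : Bd (a (σ (s + Real.pi / 3))) (b (σ (s + Real.pi / 3)))
          (y (σ (s + Real.pi / 3))) / (fq (a (σ (s + Real.pi / 3))) (b (σ (s + Real.pi / 3)))
          (y (σ (s + Real.pi / 3))) : ℂ) =
          Bd (a (σ s)) (b (σ s)) (y (σ s)) / (fq (a (σ s)) (b (σ s)) (y (σ s)) : ℂ) := by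
        have h1 : HasDerivAt (fun s => Bf (a (σ (s + Real.pi / 3))) (b (σ (s + Real.pi / 3)))) _
            s := (c.B_deriv h.rs (s + Real.pi / 3)).comp_add_const s (Real.pi / 3)
        have h2 : (fun s => Bf (a (σ (s + Real.pi / 3))) (b (σ (s + Real.pi / 3)))) =
            fun s => Bf (a (σ s)) (b (σ s)) := funext fun s => c.B_per h.rs s
        rw [h2] at h1
        exact h1.unique (c.B_deriv h.rs s)
      simp only [hK, hper]
      rw [c.B_per h.rs s]
    have e2 := N7_shift K perK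
    have e3 : (fun s => cr (Bc a b σ s) (Bc1 a b y σ s)) = fun s => K (s - Real.pi / 2) := rfl
    rw [e3, e2]
    exact e1
  have aTs := r.area
  -- abbreviations
  set β : ℝ → ℂ := fun s => Bc a b σ s - Bs s with hβ
  set β1 : ℝ → ℂ := fun s => Bc1 a b y σ s - Bs1 s with hβ1
  have dβ : ∀ s, HasDerivAt β (β1 s) s := fun s => (dBc s).sub (r.dB s)
  have cβ1 : Continuous β1 := cBc1.sub cBs1
  have cβ : Continuous β := cBc.sub cBs
  have perβ : ∀ s, β (s + Real.pi / 3) = β s := by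
    intro s
    simp only [hβ, perBc s, perBs s]
  have ii : ∀ {E : Type} [NormedAddCommGroup E] {f : ℝ → E}, Continuous f →
      IntervalIntegrable f volume 0 (Real.pi / 3) := fun hf => hf.intervalIntegrable _ _
  have ccr : ∀ {f g : ℝ → ℂ}, Continuous f → Continuous g → Continuous fun s => cr (f s) (g s) := by
    intro f g hf hg
    unfold cr
    fun_prop
  have cnsq : ∀ {f : ℝ → ℂ}, Continuous f → Continuous fun s => normSq (f s) :=
    fun hf => continuous_normSq.comp hf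
  have cxp : Continuous fun s : ℝ => exp (6 * I * (s : ℂ)) := by fun_prop
  have mc : ∀ {f g : ℝ → ℂ}, Continuous f → Continuous g → Continuous fun s => f s * g s :=
    fun hf hg => hf.mul hg
  have kc : ∀ (k : ℝ) {f : ℝ → ℝ}, Continuous f → Continuous fun s => k * f s :=
    fun k _ hf => continuous_const.mul hf
  have ac : ∀ {f g : ℝ → ℝ}, Continuous f → Continuous g → Continuous fun s => f s + g s :=
    fun hf hg => hf.add hg
  have sc : ∀ {f g : ℝ → ℝ}, Continuous f → Continuous g → Continuous fun s => f s - g s :=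
    fun hf hg => hf.sub hg
  -- moments of β
  have m0 : ∫ s in (0 : ℝ)..(Real.pi / 3), β s = 0 := by
    simp only [hβ]
    rw [intervalIntegral.integral_sub (ii cBc) (ii cBs), i0, r.zero, sub_zero]
  have m1 : ∫ s in (0 : ℝ)..(Real.pi / 3), exp (6 * I * (s : ℂ)) * β s =
      ((Real.pi / 3 * (oRs - R) : ℝ) : ℂ) := by
    have e1 : ∀ s : ℝ, exp (6 * I * (s : ℂ)) * β s =
        exp (6 * I * (s : ℂ)) * Bc a b σ s - exp (6 * I * (s : ℂ)) * Bs s := fun s => by
      simp only [hβ]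
      ring
    simp only [e1]
    rw [intervalIntegral.integral_sub (ii (mc cxp cBc)) (ii (mc cxp cBs)), i1, r.one]
    push_cast
    ring
  -- the Fourier inequality
  have hF := fourier_ineq β β1 dβ cβ1 perβ
  rw [m0, map_zero, mul_zero, add_zero] at hF
  have m1' : ∫ s in (0 : ℝ)..(Real.pi / 3), exp (I * ((6 * s : ℝ) : ℂ)) * β s =
      ((Real.pi / 3 * (oRs - R) : ℝ) : ℂ) := by
    rw [← m1]
    refine intervalIntegral.integral_congr fun s _ => ?_
    show exp (I * ((6 * s : ℝ) : ℂ)) * β s = exp (6 * I * (s : ℂ)) * β s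
    have e1 : I * ((6 * s : ℝ) : ℂ) = 6 * I * (s : ℂ) := by
      push_cast
      ring
    rw [e1]
  rw [m1', normSq_ofReal] at hF
  -- split the integrals
  set A1 := ∫ s in (0 : ℝ)..(Real.pi / 3), normSq (β1 s) with hA1
  set A2 := ∫ s in (0 : ℝ)..(Real.pi / 3), cr (β s) (β1 s) with hA2
  set A3 := ∫ s in (0 : ℝ)..(Real.pi / 3), normSq (β s) with hA3
  set A4 := ∫ s in (0 : ℝ)..(Real.pi / 3), cr (β s) (Bs1 s) with hA4
  have j1 : ∫ s in (0 : ℝ)..(Real.pi / 3), (normSq (β1 s) + 6 * cr (β s) (β1 s)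
      - 72 * normSq (β s)) = A1 + 6 * A2 - 72 * A3 := by
    rw [intervalIntegral.integral_sub (ii (ac (cnsq cβ1) (kc 6 (ccr cβ cβ1))))
      (ii (kc 72 (cnsq cβ))),
      intervalIntegral.integral_add (ii (cnsq cβ1)) (ii (kc 6 (ccr cβ cβ1))),
      intervalIntegral.integral_const_mul, intervalIntegral.integral_const_mul]
  have cre : Continuous fun s : ℝ => (exp (6 * I * (s : ℂ)) * β s).re :=
    continuous_re.comp (mc cxp cβ)
  have j2 : ∫ s in (0 : ℝ)..(Real.pi / 3), (exp (6 * I * (s : ℂ)) * β s).re =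
      Real.pi / 3 * (oRs - R) := by
    have e1 := Complex.reCLM.intervalIntegral_comp_comm (ii (mc cxp cβ))
    have e2 : ∫ s in (0 : ℝ)..(Real.pi / 3), (exp (6 * I * (s : ℂ)) * β s).re =
        (∫ s in (0 : ℝ)..(Real.pi / 3), exp (6 * I * (s : ℂ)) * β s).re := e1
    rw [e2, m1, ofReal_re]
  have j3 : ∫ s in (0 : ℝ)..(Real.pi / 3),
      Lam μ s (Bc a b σ s) (Bc1 a b y σ s) (Bs s) (Bs1 s) =
      2 * A4 + 6 * A3 + 1 / 2 * A2 - 1 / 12 * A1 + μ * (Real.pi / 3 * (oRs - R)) := by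
    have e1 : ∀ s : ℝ, Lam μ s (Bc a b σ s) (Bc1 a b y σ s) (Bs s) (Bs1 s) =
        2 * cr (β s) (Bs1 s) + 6 * normSq (β s) + 1 / 2 * cr (β s) (β1 s)
          - 1 / 12 * normSq (β1 s) + μ * (exp (6 * I * (s : ℂ)) * β s).re := fun s => rfl
    simp only [e1]
    have c1 := kc 2 (ccr cβ cBs1)
    have c2 := kc 6 (cnsq cβ)
    have c3 := kc (1 / 2) (ccr cβ cβ1)
    have c4 := kc (1 / 12) (cnsq cβ1)
    have c5 := kc μ cre
    rw [intervalIntegral.integral_add (ii (sc (ac (ac c1 c2) c3) c4)) (ii c5),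
      intervalIntegral.integral_sub (ii (ac (ac c1 c2) c3)) (ii c4),
      intervalIntegral.integral_add (ii (ac c1 c2)) (ii c3),
      intervalIntegral.integral_add (ii c1) (ii c2),
      intervalIntegral.integral_const_mul, intervalIntegral.integral_const_mul,
      intervalIntegral.integral_const_mul, intervalIntegral.integral_const_mul,
      intervalIntegral.integral_const_mul, j2]
  -- the difference of the areas
  have j4 : ∫ s in (0 : ℝ)..(Real.pi / 3), (cr (Bs s) (β1 s) + cr (Bs1 s) (β s)) = 0 := by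
    have e1 : ∀ s ∈ Set.uIcc (0 : ℝ) (Real.pi / 3), HasDerivAt (fun s => cr (Bs s) (β s))
        (cr (Bs s) (β1 s) + cr (Bs1 s) (β s)) s := by
      intro s _
      have k1 := (r.dB s)
      have k2 := dβ s
      have r1 : HasDerivAt (fun s => (Bs s).re) (Bs1 s).re s :=
        Complex.reCLM.hasFDerivAt.comp_hasDerivAt s k1
      have r2 : HasDerivAt (fun s => (Bs s).im) (Bs1 s).im s :=
        Complex.imCLM.hasFDerivAt.comp_hasDerivAt s k1
      have r3 : HasDerivAt (fun s => (β s).re) (β1 s).re s :=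
        Complex.reCLM.hasFDerivAt.comp_hasDerivAt s k2
      have r4 : HasDerivAt (fun s => (β s).im) (β1 s).im s :=
        Complex.imCLM.hasFDerivAt.comp_hasDerivAt s k2
      have r5 := (r1.mul r4).sub (r2.mul r3)
      refine r5.congr_deriv ?_
      simp only [cr]
      ring
    rw [intervalIntegral.integral_eq_sub_of_hasDerivAt e1
      (ii (ac (ccr cBs cβ1) (ccr cBs1 cβ)))]
    have e2 : cr (Bs (Real.pi / 3)) (β (Real.pi / 3)) = cr (Bs 0) (β 0) := by
      have e3 := perBs 0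
      have e4 := perβ 0
      rw [zero_add] at e3 e4
      rw [e3, e4]
    rw [e2, sub_self]
  have j5 : T - Ts = 2 * A4 + A2 := by
    have e0 : T - Ts = (∫ s in (0 : ℝ)..(Real.pi / 3), cr (Bc a b σ s) (Bc1 a b y σ s)) -
        ∫ s in (0 : ℝ)..(Real.pi / 3), cr (Bs s) (Bs1 s) := by
      linarith
    rw [e0, ← intervalIntegral.integral_sub (ii (ccr cBc cBc1)) (ii (ccr cBs cBs1))]
    have e1 : ∀ s : ℝ, cr (Bc a b σ s) (Bc1 a b y σ s) - cr (Bs s) (Bs1 s) =
        2 * cr (β s) (Bs1 s) + cr (β s) (β1 s) + (cr (Bs s) (β1 s) + cr (Bs1 s) (β s)) :=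
      fun s => N7_cr_sub _ _ _ _
    simp only [e1]
    have c1 := kc 2 (ccr cβ cBs1)
    rw [intervalIntegral.integral_add (ii (ac c1 (ccr cβ cβ1)))
      (ii (ac (ccr cBs cβ1) (ccr cBs1 cβ))),
      intervalIntegral.integral_add (ii c1) (ii (ccr cβ cβ1)),
      intervalIntegral.integral_const_mul, j4, add_zero]
  rw [j1] at hF
  rw [j3, j5]
  have hpi3 : 72 * (3 / Real.pi) * (Real.pi / 3 * (oRs - R) * (Real.pi / 3 * (oRs - R))) =
      24 * Real.pi * (oRs - R) ^ 2 := by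
    field_simp
    ring
  rw [hpi3] at hF
  nlinarith [hF]

end Pool.H61.Rh
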