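import Pool.Agent.H61.Rc.N7
import Pool.Agent.H61.Rc.N8a
import Pool.Agent.H61.Rc.N8b

/-! # N8c: a calibration bounds the integral from below

Write `h = π/24`, `X s = (y, v)` at the angle `s` (`s = φ + π/2`).
One arc: `G = Lag μ + ε²/4` satisfies the hypothesis of `RS.arc` (`ε N - N² ≤ ε²/4`,
`fs > 0`), and for `|s| ≤ h`, `Lag μ (ms s) y v = Lam μ s (Bc s) (Bc1 s) (Bs s) (Bs1 s)`:
`Bc s = e^{2is} v`, `Bc1 s = e^{2is} bp y v` (`Bf_eq`, `Bd_eq`, `fq_eq_fs`,
`es (a (σ (s - π/2))) = i e^{i (s - π/2)} = e^{is}` by `Clk.polar`, `Clk.ps`), `Bs s, Bs1 s` by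
`Ref.eqB, Ref.eqB1`, `es (oa (ms s)) = e^{is}` (`es_oa`, `Ms.os_ms`); `cr` and `normSq` are
invariant under multiplication by `e^{2is}`.
So `W (m1, X h) - W (-m1, X (-h)) ≤ ∫_{-h}^{h} (Lam + ε²/4)`.
Apply this to the turned solutions (`RS.turn`, `Clk.turn`) `k = 0, 1, 2, 3` times: the turned `Bc`
at `s` is `i Bc (s + 2h)` (`ω tp² = i`), also `Bs s = i Bs (s + 2h)` (`Ref.perB`), and
`Lam μ s (i B) (i B1) (i C) (i C1) = Lam μ (s + 2h) B B1 C C1` (`e^{6i·2h} = i`).  Thus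
`W (m1, ω^k X ((2k+1)h)) - W (-m1, ω^k X ((2k-1)h)) ≤ ∫_{(2k-1)h}^{(2k+1)h} (Lam + ε²/4)`,
by `junction` the sum over `k < 4` telescopes to
`W (-m1, ω⁴ X (7h)) - W (-m1, X (-h)) = 0` since `X (s + π/3) = conj ω X s`, `8h = π/3`.
The integral over `[-h, 7h]` equals the one over `[0, π/3]` (period). -/

set_option autoImplicit false

namespace Pool.H61.Rh

open Complex MeasureTheory

/-! ### unit factors -/

private lemma N8c_cr_unit {u : ℂ} (hu : normSq u = 1) (x z : ℂ) : cr (u * x) (u * z) = cr x z := by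
  have h1 : cr (u * x) (u * z) = normSq u * cr x z := by
    simp only [cr, mul_re, mul_im, normSq_apply]; ring
  rw [h1, hu, one_mul]

private lemma N8c_nsq_unit {u : ℂ} (hu : normSq u = 1) (x : ℂ) : normSq (u * x) = normSq x := by
  rw [map_mul, hu, one_mul]

private lemma N8c_nsq_exp (t : ℝ) : normSq (exp (I * (t : ℂ))) = 1 := by
  rw [normSq_eq_norm_sq, mul_comm, norm_exp_ofReal_mul_I]; norm_num

private lemma N8c_exp_half : exp (I * ((Real.pi / 2 : ℝ) : ℂ)) = I := by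
  rw [mul_comm, exp_mul_I, ← ofReal_cos, ← ofReal_sin, Real.cos_pi_div_two, Real.sin_pi_div_two]
  simp

private lemma N8c_tp_ne : tp ≠ 0 := by unfold tp; exact exp_ne_zero _

private lemma N8c_tp_nsq : normSq tp = 1 := by
  have h : tp = exp (I * ((-(Real.pi / 12) : ℝ) : ℂ)) := by
    unfold tp; congr 1; push_cast; ring
  rw [h]; exact N8c_nsq_exp _

private lemma N8c_tp_norm : ‖tp‖ = 1 := by
  have h := N8c_tp_nsq
  rw [normSq_eq_norm_sq] at h
  nlinarith [norm_nonneg tp]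

private lemma N8c_uu_exp : uu 1 = exp (I * ((2 * Real.pi / 3 : ℝ) : ℂ)) := by
  rw [uu_one, ze_eq_exp, ← exp_nat_mul]
  congr 1; push_cast; ring

private lemma N8c_uu_nsq : normSq (uu 1) = 1 := by
  rw [N8c_uu_exp]; exact N8c_nsq_exp _

private lemma N8c_uu_norm : ‖uu 1‖ = 1 := by
  have h := N8c_uu_nsq
  rw [normSq_eq_norm_sq] at h
  nlinarith [norm_nonneg (uu 1)]

private lemma N8c_tp_uu : uu 1 * tp * tp = I := by
  have h : uu 1 * tp * tp = exp (I * ((Real.pi / 2 : ℝ) : ℂ)) := by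
    rw [N8c_uu_exp]
    unfold tp
    rw [← exp_add, ← exp_add]
    congr 1; push_cast; ring
  rw [h, N8c_exp_half]

private lemma N8c_uu_cube : uu 1 ^ 3 = 1 := by
  rw [uu_one]
  have : (ze ^ 2) ^ 3 = (ze ^ 3) ^ 2 := by ring
  rw [this, ze_cube]; norm_num

private lemma N8c_uu_conj : uu 1 * (starRingEnd ℂ) ze ^ 2 = 1 := by
  rw [uu_one, ← mul_pow, ze_mul_conj, one_pow]

/-! ### the coordinates -/

private lemma N8c_vf_turn (a b : ℂ) : vf (tp * a) (uu 1 * tp * b) = uu 1 * vf a b := by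
  unfold vf
  rw [norm_mul, N8c_tp_norm, one_mul]
  by_cases ha : a = 0
  · subst ha; simp
  · field_simp [N8c_tp_ne]

private lemma N8c_vf_per (a b : ℂ) :
    vf (ze * a) ((starRingEnd ℂ) ze * b) = (starRingEnd ℂ) ze ^ 2 * vf a b := by
  unfold vf
  rw [norm_mul, norm_ze, one_mul]
  have hz : ze ≠ 0 := by
    intro h0; have := norm_ze; rw [h0] at this; simp at this
  have hi : (starRingEnd ℂ) ze = ze⁻¹ :=
    eq_inv_of_mul_eq_one_left (by rw [mul_comm]; exact ze_mul_conj)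
  rw [hi]
  by_cases ha : a = 0
  · subst ha; simp
  · field_simp

private lemma N8c_fs_pos {y v : ℂ} (hy : Dom y) (hv : ‖v‖ ≤ 3 / 10) : 0 < fs y v := by
  have h1 := dom_norm hy
  have h2 : |dt y v| ≤ ‖y‖ * ‖v‖ := by
    rw [dt_eq_re]
    calc |((starRingEnd ℂ) y * v).re| ≤ ‖(starRingEnd ℂ) y * v‖ := abs_re_le_norm _
      _ = ‖y‖ * ‖v‖ := by rw [norm_mul, RCLike.norm_conj]
  have h3 : ‖y‖ * ‖v‖ ≤ 8887 / 10000 * (3 / 10) :=
    mul_le_mul h1 hv (norm_nonneg _) (by norm_num)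
  have h4 : 1 ≤ Real.sqrt (1 + normSq v) := by
    rw [Real.one_le_sqrt]; linarith [normSq_nonneg v]
  unfold fs
  have h5 : |dt y v / Real.sqrt (1 + normSq v)| ≤ 1 / 2 := by
    rw [abs_div, abs_of_nonneg (Real.sqrt_nonneg _)]
    rw [div_le_iff₀ (by linarith)]
    nlinarith [abs_nonneg (dt y v)]
  linarith [(abs_le.1 h5).1]

private lemma N8c_es {T : ℝ} {a b y : ℝ → ℂ} {φ σ : ℝ → ℝ} (h : RS T a b y)
    (c : Clk T a b y φ σ) (s : ℝ) : es (a (σ (s - Real.pi / 2))) = exp (I * (s : ℂ)) := by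
  have h1 := c.polar (σ (s - Real.pi / 2))
  rw [c.ps] at h1
  have hpos : 0 < ‖a (σ (s - Real.pi / 2))‖ := by
    have := h.hn (σ (s - Real.pi / 2))
    have h2 := normSq_nonneg (b (σ (s - Real.pi / 2)))
    have h3 : 0 < normSq (a (σ (s - Real.pi / 2))) := by linarith
    exact norm_pos_iff.2 (normSq_pos.1 h3)
  have hne : ((‖a (σ (s - Real.pi / 2))‖ : ℝ) : ℂ) ≠ 0 := by exact_mod_cast hpos.ne'
  unfold es
  rw [div_eq_iff hne]
  have h4 : exp (I * (s : ℂ)) = I * exp (I * ((s - Real.pi / 2 : ℝ) : ℂ)) := by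
    have : exp (I * (s : ℂ)) =
        exp (I * ((Real.pi / 2 : ℝ) : ℂ)) * exp (I * ((s - Real.pi / 2 : ℝ) : ℂ)) := by
      rw [← exp_add]; congr 1; push_cast; ring
    rw [this, N8c_exp_half]
  rw [h4]
  calc I * a (σ (s - Real.pi / 2))
      = I * ((‖a (σ (s - Real.pi / 2))‖ : ℂ) * exp (I * ((s - Real.pi / 2 : ℝ) : ℂ))) := by
        rw [← h1]
    _ = _ := by ring

private lemma N8c_Bc {T : ℝ} {a b y : ℝ → ℂ} {φ σ : ℝ → ℝ} (h : RS T a b y)
    (c : Clk T a b y φ σ) (s : ℝ) :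
    Bc a b σ s = exp (2 * I * (s : ℂ)) *
      vf (a (σ (s - Real.pi / 2))) (b (σ (s - Real.pi / 2))) := by
  unfold Bc
  rw [Bf_eq (h.hn _), N8c_es h c, ← exp_nat_mul]
  congr 2; push_cast; ring

private lemma N8c_Bc1 {T : ℝ} {a b y : ℝ → ℂ} {φ σ : ℝ → ℝ} (h : RS T a b y)
    (c : Clk T a b y φ σ) (hb : ∀ τ, ‖b τ‖ ≤ 3 / 10) (s : ℝ) :
    Bc1 a b y σ s = exp (2 * I * (s : ℂ)) *
      bp (y (σ (s - Real.pi / 2))) (vf (a (σ (s - Real.pi / 2))) (b (σ (s - Real.pi / 2)))) := by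
  unfold Bc1
  have hn := h.hn (σ (s - Real.pi / 2))
  have hy : ‖y (σ (s - Real.pi / 2))‖ < 1 :=
    lt_of_le_of_lt (dom_norm (h.dom _)) (by norm_num)
  have hv : ‖vf (a (σ (s - Real.pi / 2))) (b (σ (s - Real.pi / 2)))‖ ≤ 3 / 10 := by
    rw [vf_norm hn]; exact hb _
  have hpos := N8c_fs_pos (h.dom (σ (s - Real.pi / 2))) hv
  rw [Bd_eq _ hn hy, fq_eq_fs _ hn, N8c_es h c, ← exp_nat_mul]
  have hne : ((fs (y (σ (s - Real.pi / 2)))
      (vf (a (σ (s - Real.pi / 2))) (b (σ (s - Real.pi / 2)))) : ℝ) : ℂ) ≠ 0 := by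
    exact_mod_cast hpos.ne'
  rw [mul_div_cancel_left₀ _ hne]
  congr 2; push_cast; ring

/-- the integrand -/
private noncomputable def N8c_F (μ : ℝ) (a b y : ℝ → ℂ) (σ : ℝ → ℝ) (Bs Bs1 : ℝ → ℂ)
    (s : ℝ) : ℝ := Lam μ s (Bc a b σ s) (Bc1 a b y σ s) (Bs s) (Bs1 s)

private lemma N8c_eq {T μ : ℝ} {a b y : ℝ → ℂ} {φ σ ms : ℝ → ℝ} {Bs Bs1 : ℝ → ℂ}
    (h : RS T a b y) (c : Clk T a b y φ σ) (hb : ∀ τ, ‖b τ‖ ≤ 3 / 10) (r : Ref ms Bs Bs1)
    {s : ℝ} (hs : |s| ≤ Real.pi / 24) :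
    Lag μ (ms s) (y (σ (s - Real.pi / 2)))
      (vf (a (σ (s - Real.pi / 2))) (b (σ (s - Real.pi / 2)))) =
      N8c_F μ a b y σ Bs Bs1 s := by
  have hm : |ms s| ≤ 1 / 4 := by
    have := r.hms.mem s hs
    linarith [m1_bounds.2]
  unfold N8c_F Lam Lag
  rw [N8c_Bc h c, N8c_Bc1 h c hb, r.eqB s hs, r.eqB1 s hs, es_oa hm, r.hms.os_ms s hs]
  have hu : normSq (exp (2 * I * (s : ℂ))) = 1 := by
    have : exp (2 * I * (s : ℂ)) = exp (I * ((2 * s : ℝ) : ℂ)) := by
      congr 1; push_cast; ring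
    rw [this]; exact N8c_nsq_exp _
  rw [← mul_sub, ← mul_sub, N8c_cr_unit hu, N8c_cr_unit hu, N8c_nsq_unit hu, N8c_nsq_unit hu]
  have h8 : exp (6 * I * (s : ℂ)) * (exp (2 * I * (s : ℂ)) *
      (vf (a (σ (s - Real.pi / 2))) (b (σ (s - Real.pi / 2))) - ov (ms s))) =
      exp (I * (s : ℂ)) ^ 8 *
      (vf (a (σ (s - Real.pi / 2))) (b (σ (s - Real.pi / 2))) - ov (ms s)) := by
    rw [← mul_assoc, ← exp_add, ← exp_nat_mul]
    congr 2; push_cast; ring
  rw [h8]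

private lemma N8c_cont {T μ : ℝ} {a b y : ℝ → ℂ} {φ σ ms : ℝ → ℝ} {Bs Bs1 : ℝ → ℂ}
    (h : RS T a b y) (c : Clk T a b y φ σ) (r : Ref ms Bs Bs1) :
    Continuous (N8c_F μ a b y σ Bs Bs1) := by
  have hsh : Continuous fun s : ℝ => s - Real.pi / 2 := by fun_prop
  have c1 : Continuous (Bc a b σ) := by
    have : Continuous fun s => Bf (a (σ s)) (b (σ s)) :=
      continuous_iff_continuousAt.2 fun s => (c.B_deriv h s).continuousAt
    exact this.comp hsh
  have c2 : Continuous (Bc1 a b y σ) := (c.B_cont h).comp hsh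
  have c3 : Continuous Bs := continuous_iff_continuousAt.2 fun s => (r.dB s).continuousAt
  have c4 : Continuous Bs1 := r.cB1
  have c5 : Continuous fun s : ℝ => exp (6 * I * (s : ℂ)) := by fun_prop
  unfold N8c_F Lam
  have k1 : Continuous fun s => cr (Bc a b σ s - Bs s) (Bs1 s) :=
    continuous_cr.comp ((c1.sub c3).prodMk c4)
  have k2 : Continuous fun s => cr (Bc a b σ s - Bs s) (Bc1 a b y σ s - Bs1 s) :=
    continuous_cr.comp ((c1.sub c3).prodMk (c2.sub c4))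
  have k3 : Continuous fun s => normSq (Bc a b σ s - Bs s) :=
    continuous_normSq.comp (c1.sub c3)
  have k4 : Continuous fun s => normSq (Bc1 a b y σ s - Bs1 s) :=
    continuous_normSq.comp (c2.sub c4)
  have k5 : Continuous fun s : ℝ => (exp (6 * I * (s : ℂ)) * (Bc a b σ s - Bs s)).re :=
    continuous_re.comp (c5.mul (c1.sub c3))
  exact ((((k1.const_mul 2).add (k3.const_mul 6)).add (k2.const_mul (1 / 2))).sub
    (k4.const_mul (1 / 12))).add (k5.const_mul μ)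

/-- the value of `W` at the beginning of the arc -/
private noncomputable def N8c_w (W : ℝ × ℂ × ℂ → ℝ) (a b y : ℝ → ℂ) (σ : ℝ → ℝ) : ℝ :=
  W (-m1, y (σ (-(Real.pi / 24) - Real.pi / 2)),
    vf (a (σ (-(Real.pi / 24) - Real.pi / 2))) (b (σ (-(Real.pi / 24) - Real.pi / 2))))

private lemma N8c_arc {T μ ε : ℝ} {a b y : ℝ → ℂ} {φ σ ms : ℝ → ℝ} {Bs Bs1 : ℝ → ℂ}
    {N : ℝ → ℂ → ℂ → ℝ} {W : ℝ × ℂ × ℂ → ℝ}
    (h : RS T a b y) (c : Clk T a b y φ σ) (hb : ∀ τ, ‖b τ‖ ≤ 3 / 10) (r : Ref ms Bs Bs1)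
    (w : Cal μ ε N W) :
    N8c_w W (fun τ => tp * a τ) (fun τ => uu 1 * tp * b τ) (fun τ => uu 1 * y τ)
        (fun s => σ (s + Real.pi / 12)) - N8c_w W a b y σ ≤
      (∫ s in (-(Real.pi / 24))..(Real.pi / 24), N8c_F μ a b y σ Bs Bs1 s)
        + Real.pi / 12 * (ε ^ 2 / 4) := by
  have hpi := Real.pi_pos
  have hle : -(Real.pi / 24) ≤ Real.pi / 24 := by linarith
  have hFc := N8c_cont (μ := μ) h c r
  have hval : ∀ s ∈ Set.Icc (-(Real.pi / 24)) (Real.pi / 24),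
      Lag μ (ms s) (y (σ (s - Real.pi / 2)))
        (vf (a (σ (s - Real.pi / 2))) (b (σ (s - Real.pi / 2)))) + ε ^ 2 / 4 =
        N8c_F μ a b y σ Bs Bs1 s + ε ^ 2 / 4 := by
    intro s hs
    rw [N8c_eq h c hb r (abs_le.2 ⟨hs.1, hs.2⟩)]
  have hG : ∀ m : ℝ, |m| ≤ m1 → ∀ y : ℂ, Dom y → ∀ v : ℂ, ‖v‖ ≤ 3 / 10 → ∀ j : Fin 3,
      fderiv ℝ W (m, y, v) (fs y v / osd m, Vx y j, vt y v) ≤
        (Lag μ m y v + ε ^ 2 / 4) * fs y v := by
    intro m hm y hy v hv j
    refine le_trans (w.ineq m hm y hy v hv j) ?_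
    refine mul_le_mul_of_nonneg_right ?_ (N8c_fs_pos hy hv).le
    nlinarith [sq_nonneg (N m y v - ε / 2)]
  have hGc : ContinuousOn (fun s : ℝ => Lag μ (ms s) (y (σ (s - Real.pi / 2)))
      (vf (a (σ (s - Real.pi / 2))) (b (σ (s - Real.pi / 2)))) + ε ^ 2 / 4)
      (Set.Icc (-(Real.pi / 24)) (Real.pi / 24)) :=
    (hFc.add continuous_const).continuousOn.congr hval
  have key := h.arc c hb r.hms w.smooth (G := fun m y v => Lag μ m y v + ε ^ 2 / 4) hG hGc
  have hint : (∫ s in (-(Real.pi / 24))..(Real.pi / 24),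
      (fun m y v => Lag μ m y v + ε ^ 2 / 4) (ms s) (y (σ (s - Real.pi / 2)))
        (vf (a (σ (s - Real.pi / 2))) (b (σ (s - Real.pi / 2))))) =
      (∫ s in (-(Real.pi / 24))..(Real.pi / 24), N8c_F μ a b y σ Bs Bs1 s)
        + Real.pi / 12 * (ε ^ 2 / 4) := by
    have e1 : (∫ s in (-(Real.pi / 24))..(Real.pi / 24),
        (fun m y v => Lag μ m y v + ε ^ 2 / 4) (ms s) (y (σ (s - Real.pi / 2)))
          (vf (a (σ (s - Real.pi / 2))) (b (σ (s - Real.pi / 2))))) =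
        ∫ s in (-(Real.pi / 24))..(Real.pi / 24), (N8c_F μ a b y σ Bs Bs1 s + ε ^ 2 / 4) := by
      refine intervalIntegral.integral_congr fun s hs => ?_
      rw [Set.uIcc_of_le hle] at hs
      exact hval s hs
    rw [e1, intervalIntegral.integral_add (hFc.intervalIntegrable _ _)
      (continuous_const.intervalIntegrable _ _), intervalIntegral.integral_const, smul_eq_mul]
    ring
  rw [hint] at key
  refine le_trans (le_of_eq ?_) key
  unfold N8c_w
  have harg : -(Real.pi / 24) - Real.pi / 2 + Real.pi / 12 = Real.pi / 24 - Real.pi / 2 := by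
    ring
  have hv : ‖vf (a (σ (Real.pi / 24 - Real.pi / 2))) (b (σ (Real.pi / 24 - Real.pi / 2)))‖
      ≤ 3 / 10 := by
    rw [vf_norm (h.hn _)]; exact hb _
  rw [w.junction _ _ (h.dom _) hv]
  simp only [harg, N8c_vf_turn]

private lemma N8c_shift {μ : ℝ} {a b y : ℝ → ℂ} {σ ms : ℝ → ℝ} {Bs Bs1 : ℝ → ℂ}
    (r : Ref ms Bs Bs1) (s : ℝ) :
    N8c_F μ (fun τ => tp * a τ) (fun τ => uu 1 * tp * b τ) (fun τ => uu 1 * y τ)
        (fun s => σ (s + Real.pi / 12)) Bs Bs1 s =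
      N8c_F μ a b y σ Bs Bs1 (s + Real.pi / 12) := by
  have harg : s - Real.pi / 2 + Real.pi / 12 = s + Real.pi / 12 - Real.pi / 2 := by ring
  have e1 : Bc (fun τ => tp * a τ) (fun τ => uu 1 * tp * b τ) (fun s => σ (s + Real.pi / 12)) s
      = I * Bc a b σ (s + Real.pi / 12) := by
    unfold Bc Bf
    simp only [harg]
    rw [norm_mul, N8c_tp_norm, one_mul, ← N8c_tp_uu]
    ring
  have e2 : Bc1 (fun τ => tp * a τ) (fun τ => uu 1 * tp * b τ) (fun τ => uu 1 * y τ)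
      (fun s => σ (s + Real.pi / 12)) s = I * Bc1 a b y σ (s + Real.pi / 12) := by
    unfold Bc1
    simp only [harg]
    generalize a (σ (s + Real.pi / 12 - Real.pi / 2)) = A
    generalize b (σ (s + Real.pi / 12 - Real.pi / 2)) = B
    generalize y (σ (s + Real.pi / 12 - Real.pi / 2)) = Y
    have hq : fq (tp * A) (uu 1 * tp * B) (uu 1 * Y) = fq A B Y := by
      unfold fq
      have h1 : uu 1 * Y * (tp * A) = (uu 1 * tp) * (Y * A) := by ring
      have h2 : normSq (uu 1 * tp) = 1 := by rw [map_mul, N8c_uu_nsq, N8c_tp_nsq, one_mul]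
      have h3 : dt ((uu 1 * tp) * (Y * A)) ((uu 1 * tp) * B) =
          normSq (uu 1 * tp) * dt (Y * A) B := by
        generalize uu 1 * tp = u
        generalize Y * A = Z
        simp only [dt, mul_re, mul_im, normSq_apply]; ring
      rw [h1, h3, h2, one_mul, N8c_nsq_unit N8c_tp_nsq]
    have hd : Bd (tp * A) (uu 1 * tp * B) (uu 1 * Y) = I * Bd A B Y := by
      unfold Bd
      rw [hq, norm_mul, N8c_tp_norm, one_mul]
      nth_rw 3 [← N8c_tp_uu]
      ring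
    rw [hq, hd, mul_div_assoc]
  have e3 : Bs s = I * Bs (s + Real.pi / 12) := by
    rw [r.perB, ← mul_assoc]
    have : I * -I = 1 := by rw [mul_neg, I_mul_I, neg_neg]
    rw [this, one_mul]
  have e4 : Bs1 s = I * Bs1 (s + Real.pi / 12) := by
    rw [r.perB1, ← mul_assoc]
    have : I * -I = 1 := by rw [mul_neg, I_mul_I, neg_neg]
    rw [this, one_mul]
  have hI : normSq I = 1 := normSq_I
  have e6 : exp (6 * I * ((s + Real.pi / 12 : ℝ) : ℂ)) = exp (6 * I * (s : ℂ)) * I := by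
    nth_rw 3 [← N8c_exp_half]
    rw [← exp_add]; congr 1; push_cast; ring
  unfold N8c_F Lam
  rw [e1, e2, e3, e4, ← mul_sub, ← mul_sub, N8c_cr_unit hI, N8c_cr_unit hI, N8c_nsq_unit hI,
    N8c_nsq_unit hI, e6, mul_assoc (exp (6 * I * (s : ℂ)))]

theorem cal_integral {T R μ ε : ℝ} {a b y : ℝ → ℂ} {φ σ ms : ℝ → ℝ} {Bs Bs1 : ℝ → ℂ}
    {N : ℝ → ℂ → ℂ → ℝ} {W : ℝ × ℂ × ℂ → ℝ}
    (h : RS1 T R a b y) (c : Clk T a b y φ σ) (r : Ref ms Bs Bs1) (w : Cal μ ε N W) :
    -(Real.pi / 3 * (ε ^ 2 / 4)) ≤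
      ∫ s in (0 : ℝ)..(Real.pi / 3), Lam μ s (Bc a b σ s) (Bc1 a b y σ s) (Bs s) (Bs1 s) := by
  have hrs := h.rs
  have hb0 := h.ble
  have hn : ∀ z : ℂ, ‖uu 1 * tp * z‖ = ‖z‖ := fun z => by
    rw [norm_mul, norm_mul, N8c_uu_norm, N8c_tp_norm, one_mul, one_mul]
  have a0 := N8c_arc hrs c hb0 r w
  have hb1 : ∀ τ, ‖uu 1 * tp * b τ‖ ≤ 3 / 10 := fun τ => by rw [hn]; exact hb0 τ
  have a1 := N8c_arc hrs.turn c.turn hb1 r w
  have hb2 : ∀ τ, ‖uu 1 * tp * (uu 1 * tp * b τ)‖ ≤ 3 / 10 := fun τ => by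
    rw [hn]; exact hb1 τ
  have a2 := N8c_arc hrs.turn.turn c.turn.turn hb2 r w
  have hb3 : ∀ τ, ‖uu 1 * tp * (uu 1 * tp * (uu 1 * tp * b τ))‖ ≤ 3 / 10 := fun τ => by
    rw [hn]; exact hb2 τ
  have a3 := N8c_arc hrs.turn.turn.turn c.turn.turn.turn hb3 r w
  have t1 := fun s : ℝ => N8c_shift (μ := μ) (a := a) (b := b) (y := y) (σ := σ) r s
  have t2 := fun s : ℝ => (N8c_shift (μ := μ) (a := fun τ => tp * a τ)
    (b := fun τ => uu 1 * tp * b τ) (y := fun τ => uu 1 * y τ)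
    (σ := fun s => σ (s + Real.pi / 12)) r s).trans (t1 (s + Real.pi / 12))
  have t3 := fun s : ℝ => (N8c_shift (μ := μ) (a := fun τ => tp * (tp * a τ))
    (b := fun τ => uu 1 * tp * (uu 1 * tp * b τ)) (y := fun τ => uu 1 * (uu 1 * y τ))
    (σ := fun s => σ (s + Real.pi / 12 + Real.pi / 12)) r s).trans (t2 (s + Real.pi / 12))
  simp only [t1] at a1
  simp only [t2] at a2
  simp only [t3] at a3
  have hFc := N8c_cont (μ := μ) hrs c r
  set F := N8c_F μ a b y σ Bs Bs1 with hF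
  -- the end of the last arc
  have hend : N8c_w W (fun τ => tp * (tp * (tp * (tp * a τ))))
      (fun τ => uu 1 * tp * (uu 1 * tp * (uu 1 * tp * (uu 1 * tp * b τ))))
      (fun τ => uu 1 * (uu 1 * (uu 1 * (uu 1 * y τ))))
      (fun s => σ (s + Real.pi / 12 + Real.pi / 12 + Real.pi / 12 + Real.pi / 12)) =
      N8c_w W a b y σ := by
    unfold N8c_w
    simp only [N8c_vf_turn]
    have harg : -(Real.pi / 24) - Real.pi / 2 + Real.pi / 12 + Real.pi / 12 + Real.pi / 12 +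
        Real.pi / 12 = -(Real.pi / 24) - Real.pi / 2 + Real.pi / 3 := by ring
    rw [harg, c.sigT, hrs.py, hrs.pa, hrs.pb, N8c_vf_per]
    have h4 : ∀ z : ℂ, uu 1 * (uu 1 * (uu 1 * (uu 1 * ((starRingEnd ℂ) ze ^ 2 * z)))) = z := by
      intro z
      calc uu 1 * (uu 1 * (uu 1 * (uu 1 * ((starRingEnd ℂ) ze ^ 2 * z))))
          = uu 1 ^ 3 * (uu 1 * (starRingEnd ℂ) ze ^ 2) * z := by ring
        _ = z := by rw [N8c_uu_cube, N8c_uu_conj, one_mul, one_mul]
    rw [h4, h4]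
  rw [hend] at a3
  -- the integrals
  have hii : ∀ x z : ℝ, IntervalIntegrable F volume x z := fun x z => hFc.intervalIntegrable x z
  have s1 : (∫ s in (-(Real.pi / 24))..(Real.pi / 24), F (s + Real.pi / 12)) =
      ∫ s in (Real.pi / 24)..(3 * (Real.pi / 24)), F s := by
    rw [intervalIntegral.integral_comp_add_right F (Real.pi / 12)]
    congr 1 <;> ring
  have s2 : (∫ s in (-(Real.pi / 24))..(Real.pi / 24), F (s + Real.pi / 12 + Real.pi / 12)) =
      ∫ s in (3 * (Real.pi / 24))..(5 * (Real.pi / 24)), F s := by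
    rw [intervalIntegral.integral_comp_add_right (fun s => F (s + Real.pi / 12)) (Real.pi / 12),
      intervalIntegral.integral_comp_add_right F (Real.pi / 12)]
    congr 1 <;> ring
  have s3' : (∫ s in (-(Real.pi / 24))..(Real.pi / 24),
      F (s + Real.pi / 12 + Real.pi / 12 + Real.pi / 12)) =
      ∫ s in (5 * (Real.pi / 24))..(7 * (Real.pi / 24)), F s := by
    rw [intervalIntegral.integral_comp_add_right
        (fun s => F (s + Real.pi / 12 + Real.pi / 12)) (Real.pi / 12),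
      intervalIntegral.integral_comp_add_right (fun s => F (s + Real.pi / 12)) (Real.pi / 12),
      intervalIntegral.integral_comp_add_right F (Real.pi / 12)]
    congr 1 <;> ring
  rw [s1] at a1
  rw [s2] at a2
  rw [s3'] at a3
  have j1 := intervalIntegral.integral_add_adjacent_intervals
    (hii (-(Real.pi / 24)) (Real.pi / 24)) (hii (Real.pi / 24) (3 * (Real.pi / 24)))
  have j2 := intervalIntegral.integral_add_adjacent_intervals
    (hii (-(Real.pi / 24)) (3 * (Real.pi / 24))) (hii (3 * (Real.pi / 24)) (5 * (Real.pi / 24)))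
  have j3 := intervalIntegral.integral_add_adjacent_intervals
    (hii (-(Real.pi / 24)) (5 * (Real.pi / 24))) (hii (5 * (Real.pi / 24)) (7 * (Real.pi / 24)))
  -- periodicity
  have hper : Function.Periodic F (Real.pi / 3) := by
    intro s
    have hB : Bs (s + Real.pi / 3) = Bs s := by
      have e : s + Real.pi / 3 = s + Real.pi / 12 + Real.pi / 12 + Real.pi / 12 + Real.pi / 12 := by
        ring
      rw [e, r.perB, r.perB, r.perB, r.perB]
      have : ∀ z : ℂ, -I * (-I * (-I * (-I * z))) = z := by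
        intro z
        calc -I * (-I * (-I * (-I * z))) = (I * I) * (I * I) * z := by ring
          _ = z := by rw [I_mul_I]; ring
      exact this _
    have hB1 : Bs1 (s + Real.pi / 3) = Bs1 s := by
      have e : s + Real.pi / 3 = s + Real.pi / 12 + Real.pi / 12 + Real.pi / 12 + Real.pi / 12 := by
        ring
      rw [e, r.perB1, r.perB1, r.perB1, r.perB1]
      have : ∀ z : ℂ, -I * (-I * (-I * (-I * z))) = z := by
        intro z
        calc -I * (-I * (-I * (-I * z))) = (I * I) * (I * I) * z := by ring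
          _ = z := by rw [I_mul_I]; ring
      exact this _
    have harg : s + Real.pi / 3 - Real.pi / 2 = s - Real.pi / 2 + Real.pi / 3 := by ring
    have hC : Bc a b σ (s + Real.pi / 3) = Bc a b σ s := by
      unfold Bc
      rw [harg]
      exact c.B_per hrs _
    have hC1 : Bc1 a b y σ (s + Real.pi / 3) = Bc1 a b y σ s := by
      unfold Bc1
      rw [harg, c.sigT, hrs.pa, hrs.pb, hrs.py]
      generalize a (σ (s - Real.pi / 2)) = A
      generalize b (σ (s - Real.pi / 2)) = B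
      generalize y (σ (s - Real.pi / 2)) = Y
      have hzc := ze_mul_conj
      have hzn : normSq ze = 1 := normSq_ze
      have hzn' : normSq ((starRingEnd ℂ) ze) = 1 := by rw [normSq_conj]; exact normSq_ze
      have hya : (starRingEnd ℂ) ze ^ 2 * Y * (ze * A) = (starRingEnd ℂ) ze * (Y * A) := by
        calc (starRingEnd ℂ) ze ^ 2 * Y * (ze * A)
            = (ze * (starRingEnd ℂ) ze) * ((starRingEnd ℂ) ze * (Y * A)) := by ring
          _ = _ := by rw [hzc, one_mul]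
      have hq : fq (ze * A) ((starRingEnd ℂ) ze * B) ((starRingEnd ℂ) ze ^ 2 * Y) = fq A B Y := by
        unfold fq
        have h3 : dt ((starRingEnd ℂ) ze * (Y * A)) ((starRingEnd ℂ) ze * B) =
            normSq ((starRingEnd ℂ) ze) * dt (Y * A) B := by
          generalize (starRingEnd ℂ) ze = u
          generalize Y * A = Z
          simp only [dt, mul_re, mul_im, normSq_apply]; ring
        rw [hya, h3, hzn', one_mul, N8c_nsq_unit hzn]
      have hd : Bd (ze * A) ((starRingEnd ℂ) ze * B) ((starRingEnd ℂ) ze ^ 2 * Y) = Bd A B Y := by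
        unfold Bd
        rw [hq, norm_mul, norm_ze, one_mul]
        have : ze * A * ((starRingEnd ℂ) ze ^ 2 * Y) = (starRingEnd ℂ) ze * (A * Y) := by
          calc ze * A * ((starRingEnd ℂ) ze ^ 2 * Y)
              = (ze * (starRingEnd ℂ) ze) * ((starRingEnd ℂ) ze * (A * Y)) := by ring
            _ = _ := by rw [hzc, one_mul]
        rw [this]
        calc I * (ze * A / (‖A‖ : ℂ)) * ((starRingEnd ℂ) ze * (A * Y) -
              ((1 - fq A B Y : ℝ) : ℂ) * ((starRingEnd ℂ) ze * B))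
            = (ze * (starRingEnd ℂ) ze) * (I * (A / (‖A‖ : ℂ)) * (A * Y -
              ((1 - fq A B Y : ℝ) : ℂ) * B)) := by ring
          _ = _ := by rw [hzc, one_mul]
      rw [hq, hd]
    have e6 : exp (6 * I * ((s + Real.pi / 3 : ℝ) : ℂ)) = exp (6 * I * (s : ℂ)) := by
      have : 6 * I * ((s + Real.pi / 3 : ℝ) : ℂ) = 6 * I * (s : ℂ) + 2 * Real.pi * I := by
        push_cast; ring
      rw [this, exp_periodic]
    simp only [hF]
    unfold N8c_F Lam
    rw [hB, hB1, hC, hC1, e6]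
  have hper2 := hper.intervalIntegral_add_eq (-(Real.pi / 24)) 0
  have e7 : -(Real.pi / 24) + Real.pi / 3 = 7 * (Real.pi / 24) := by ring
  rw [e7, zero_add] at hper2
  have goal : (∫ s in (0 : ℝ)..(Real.pi / 3), Lam μ s (Bc a b σ s) (Bc1 a b y σ s) (Bs s)
      (Bs1 s)) = ∫ s in (0 : ℝ)..(Real.pi / 3), F s := rfl
  rw [goal, ← hper2]
  linarith

end Pool.H61.Rh
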