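import Pool.Agent.H61.Rc.N9b
import Pool.Agent.H61.Rc.N11

/-! # N9c: the sharp bound, with the better lower bound for the first mode

As N9b (whose private lemmas may be copied) with `Cal1 k2 κ W0` instead of `Cal0`.  If `T ≤ Ts`:
`x = 3T/π - 1 ≤ -4944/1000000` (`3 Ts ≤ 3.12606`, `Real.pi_gt_d6`), and `-x - (x + κ)/(9 k2)` is
decreasing in `x`, so `6 R² ≥ .004944 - (κ - .004944)/(9 k2) ≥ .004944 - .000896/(9 · .145)
≥ .004257 > 6 · .0266²`, `R ≥ 266/10000`, and `e = oRs - R ≤ 26/10000 =: em`.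
If `e ≥ 0` use `l = e/em`: `T - Ts ≥ (π/3) (e²/em²) (-μm em - 6 em² - ε²/4)`, and
`-μm em ≥ .0158 · .0026 = 4.108e-5`, `6 em² = 4.056e-5`, `ε²/4 ≤ 2.5e-7`: the bracket is `≥ 0`.
If `e < 0`: `l = -e/(191/1000)` as in N9. -/

set_option autoImplicit false

namespace Pool.H61.Rh

open Complex MeasureTheory

private lemma N9c_Ts : 3 * Ts ≤ 312606 / 100000 := by
  rw [Ts_eq]
  have h32 : Real.sqrt 32 = 4 * Real.sqrt 2 := by
    rw [show (32 : ℝ) = 4 ^ 2 * 2 by norm_num, Real.sqrt_mul (by norm_num),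
      Real.sqrt_sq (by norm_num)]
  have h8 : Real.sqrt 8 = 2 * Real.sqrt 2 := by
    rw [show (8 : ℝ) = 2 ^ 2 * 2 by norm_num, Real.sqrt_mul (by norm_num),
      Real.sqrt_sq (by norm_num)]
  rw [h32, h8]
  have h2 := s3_lt
  have h2p := s3_pos
  have h3 := Real.log_two_gt_d9
  have h5 : (14142135 / 10000000 : ℝ) < Real.sqrt 2 := by
    rw [Real.lt_sqrt (by norm_num)]; norm_num
  have h6 : Real.sqrt 2 < (14142136 / 10000000 : ℝ) := by
    rw [Real.sqrt_lt' (by norm_num)]; norm_num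
  generalize Real.sqrt 2 = r at *
  generalize Real.log 2 = L at *
  have hD : 0 < 2 * r - 1 := by linarith
  rw [← mul_div_assoc, div_le_iff₀ hD]
  have hN : 8 - 4 * r - L ≤ 8 - 4 * (14142135 / 10000000) - 6931471803 / 10000000000 := by
    norm_num at h3 h5 ⊢
    linarith
  have h7 : 2 * s3 * (8 - 4 * r - L) ≤
      2 * s3 * (8 - 4 * (14142135 / 10000000) - 6931471803 / 10000000000) :=
    mul_le_mul_of_nonneg_left hN (by linarith)
  norm_num at h2 h5 h7 ⊢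
  linarith

/-- the estimate of the difference, for a calibration `l μ, l ε` and `oRs - R = l δ` -/
private lemma N9c_step {T R μ ε l δ : ℝ} {a b y : ℝ → ℂ} {φ σ ms : ℝ → ℝ} {Bs Bs1 : ℝ → ℂ}
    {N : ℝ → ℂ → ℂ → ℝ} {W1 W : ℝ × ℂ × ℂ → ℝ}
    (h : RS1 T R a b y) (c : Clk T a b y φ σ) (r : Ref ms Bs Bs1)
    (h1 : Cal 0 0 N W1) (h2 : Cal μ ε N W) (hl : 0 ≤ l) (hl' : l ≤ 1) (he : oRs - R = l * δ)
    (hpos : 0 ≤ -(μ * δ) - 6 * δ ^ 2 - ε ^ 2 / 4) : Ts ≤ T := by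
  have w := Cal.comb h1 h2 hl hl'
  have i1 := area_ineq (μ := (1 - l) * 0 + l * μ) h c r
  have i2 := cal_integral h c r w
  rw [he] at i1
  have hpi := Real.pi_pos
  have h3 : 0 ≤ Real.pi / 3 * (l ^ 2 * (-(μ * δ) - 6 * δ ^ 2 - ε ^ 2 / 4)) := by positivity
  nlinarith

theorem rsBound_sharp3 {N : ℝ → ℂ → ℂ → ℝ} {W1 Wm Wp : ℝ × ℂ × ℂ → ℝ} {W0 : ℂ × ℂ → ℝ}
    {k2 κ μm μp ε : ℝ} (h0 : Cal1 k2 κ W0) (hκ : κ ≤ 584 / 100000) (hk : 145 / 1000 ≤ k2)
    (h1 : Cal 0 0 N W1) (hm : Cal μm ε N Wm) (hp : Cal μp ε N Wp)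
    (hμm : μm ≤ -(158 / 10000)) (hμp : 1147 / 1000 ≤ μp) (hε : |ε| ≤ 1 / 1000) :
    RSBound ((8 - Real.sqrt 32 - Real.log 2) / (Real.sqrt 8 - 1)) := by
  intro T a b y h hb0
  rw [← Ts_eq]
  suffices Ts ≤ T by linarith
  by_contra hcon
  push Not at hcon
  obtain ⟨hT1, hT2⟩ := Ts_bounds
  obtain ⟨R, a', b', hR⟩ := h.rs1 (by linarith)
  obtain ⟨φ, σ, c⟩ := hR.rs.clock (by linarith)
  obtain ⟨ms, Bs, Bs1, r⟩ := exists_ref
  have hk0 : 0 < k2 := by linarith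
  have hml := hR.mode_lower2 c hk0 h0
  have hpi := Real.pi_pos
  have hpi6 := Real.pi_gt_d20
  have hε2 : ε ^ 2 ≤ (1 / 1000) ^ 2 := sq_le_sq' (by linarith [(abs_le.1 hε).1]) (abs_le.1 hε).2
  have hTs := N9c_Ts
  have hq : 3 * T / Real.pi - 1 ≤ -(4944 / 1000000) := by
    have : 3 * T / Real.pi ≤ 995056 / 1000000 := by
      rw [div_le_iff₀ hpi]
      norm_num at hpi6 ⊢
      linarith
    norm_num at this ⊢
    linarith
  generalize 3 * T / Real.pi - 1 = x at hml hq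
  have hxk : x + κ ≤ 896 / 1000000 := by
    norm_num at hκ hq ⊢
    linarith
  have hdiv : (x + κ) / (9 * k2) ≤ 6867 / 10000000 := by
    rw [div_le_iff₀ (by linarith)]
    norm_num at hk hxk ⊢
    linarith
  have hRl : 266 / 10000 ≤ R := by
    by_contra hc
    push Not at hc
    have := hR.Rnn
    have h6 : R ^ 2 ≤ (266 / 10000) ^ 2 := pow_le_pow_left₀ this hc.le 2
    norm_num at h6 hdiv hq
    linarith
  have ho1 := oRs_le
  have ho2 := oRs_ge
  have hR2 := hR.Rle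
  refine absurd ?_ (not_le.2 hcon)
  rcases le_or_gt 0 (oRs - R) with he | he
  · refine N9c_step (l := (oRs - R) / (26 / 10000)) (δ := 26 / 10000) hR c r h1 hm
      (by positivity) ?_ (by ring) ?_
    · rw [div_le_one (by norm_num)]
      linarith
    · norm_num at hε2 ⊢
      linarith
  · refine N9c_step (l := -(oRs - R) / (191 / 1000)) (δ := -(191 / 1000)) hR c r h1 hp
      ?_ ?_ (by ring) ?_
    · have : 0 ≤ -(oRs - R) := by linarith
      positivity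
    · rw [div_le_one (by norm_num)]
      linarith
    · norm_num at hε2 ⊢
      linarith

end Pool.H61.Rh
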