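import Pool.Agent.H61.Rc.R0

/-! # R1: the arc solves the system

Trigonometric constants (`α = 5π/24`, `β = π/24`): `α = π/6 + β` gives `cA = (√3 cB - sB)/2`,
`sA = (cB + √3 sB)/2`; `α = π/4 - β` gives `sA = (cB - sB)/√2`, so
`cB (√2 - 1) = (√3 + √2) sB` (multiply by 2, use `√2·√2 = 2`);
`cB² - sA² = (cos 2β + cos 2α)/2 = cos (α+β) cos (α-β) = √6/4 = √2 √3/4`.
`oa_normSq`: `normSq (oa m) - normSq (ob m) = oC² [sinh² (cA² - sB²) + cosh² (sA² - cB²)
+ kp² (cB² - sA²)] = oC² (cB² - sA²) (kp² - 1) = 1` (`cA² - sB² = cB² - sA²`).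
Derivatives: `S = 2 kp cosh m - 1 > 0` (`kp > 1`), `otau' m = S/(√3 (kp² - 1))`,
`oy m = (kp cosh m - 2 + i √3 kp sinh m)/S`; multiply the identities by `√3 (kp² - 1)`, and by
`S²` for `oy`; `1 - normSq (oy m) = 3 (kp² - 1)/S²`, `1 - 2 Re (oy m) = 3/S`.  What remains are
polynomial identities in `cosh m, sinh m, kp, √3, √2`, linear in `cB, sB`, modulo
`cosh² - sinh² = 1`, `kp² = 2 √2`, and the linear relations above. -/

set_option autoImplicit false

namespace Pool.H61.Rh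

open Complex

theorem cA_eq : cA = (s3 * cB - sB) / 2 := by
  have h : 5 * Real.pi / 24 = Real.pi / 6 + Real.pi / 24 := by ring
  unfold cA cB sB s3
  rw [h, Real.cos_add, Real.cos_pi_div_six, Real.sin_pi_div_six]
  ring

theorem sA_eq : sA = (cB + s3 * sB) / 2 := by
  have h : 5 * Real.pi / 24 = Real.pi / 6 + Real.pi / 24 := by ring
  unfold sA cB sB s3
  rw [h, Real.sin_add, Real.cos_pi_div_six, Real.sin_pi_div_six]
  ring

theorem cB_sB : cB * (Real.sqrt 2 - 1) = (s3 + Real.sqrt 2) * sB := by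
  have h1 := sA_eq
  have h2 : sA = Real.sqrt 2 / 2 * (cB - sB) := by
    have h : 5 * Real.pi / 24 = Real.pi / 4 - Real.pi / 24 := by ring
    unfold sA cB sB
    rw [h, Real.sin_sub, Real.cos_pi_div_four, Real.sin_pi_div_four]
    ring
  linear_combination 2 * h1 - 2 * h2

theorem cB_sq_sub : cB ^ 2 - sA ^ 2 = Real.sqrt 2 * s3 / 4 := by
  have h1 : cA * cB - sA * sB = Real.sqrt 2 / 2 := by
    have h : 5 * Real.pi / 24 + Real.pi / 24 = Real.pi / 4 := by ring
    unfold cA cB sA sB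
    rw [← Real.cos_add, h, Real.cos_pi_div_four]
  have h2 : cA * cB + sA * sB = s3 / 2 := by
    have h : 5 * Real.pi / 24 - Real.pi / 24 = Real.pi / 6 := by ring
    unfold cA cB sA sB s3
    rw [← Real.cos_sub, h, Real.cos_pi_div_six]
  have h3 : sA ^ 2 + cA ^ 2 = 1 := Real.sin_sq_add_cos_sq _
  have h4 : sB ^ 2 + cB ^ 2 = 1 := Real.sin_sq_add_cos_sq _
  have h5 : (cA * cB - sA * sB) * (cA * cB + sA * sB) = Real.sqrt 2 / 2 * (s3 / 2) := by
    rw [h1, h2]
  linear_combination h5 - cB ^ 2 * h3 + sA ^ 2 * h4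

private lemma R1_sqrt2 : Real.sqrt 2 * Real.sqrt 2 = 2 := Real.mul_self_sqrt (by norm_num)

private lemma R1_sqrt2_gt : 14 / 10 < Real.sqrt 2 := by
  rw [Real.lt_sqrt (by norm_num)]
  norm_num

private lemma R1_s3 : s3 * s3 = 3 := Real.mul_self_sqrt (by norm_num)

private lemma R1_s3_pos : 0 < s3 := Real.sqrt_pos.mpr (by norm_num)

private lemma R1_kp1 : 0 < kp ^ 2 - 1 := by
  rw [kp_sq]
  linarith [R1_sqrt2_gt]

theorem oC_sq : oC ^ 2 * ((kp ^ 2 - 1) * (Real.sqrt 2 * s3 / 4)) = 1 := by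
  have h6 : Real.sqrt 6 = Real.sqrt 2 * s3 := by
    unfold s3
    rw [← Real.sqrt_mul (by norm_num)]
    norm_num
  have hp : 0 < 3 * (2 * Real.sqrt 2 - 1) := by linarith [R1_sqrt2_gt]
  have h1 : oC ^ 2 = 2 * Real.sqrt 6 / (3 * (2 * Real.sqrt 2 - 1)) := by
    unfold oC
    exact Real.sq_sqrt (by positivity)
  rw [h1, kp_sq, h6]
  have h2 := R1_sqrt2
  have h3 := R1_s3
  have h4 : 2 * Real.sqrt 2 - 1 ≠ 0 := by linarith [R1_sqrt2_gt]
  field_simp
  linear_combination 2 * s3 ^ 2 * h2 + 4 * h3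

theorem oS_pos (m : ℝ) : 2 < 2 * kp * Real.cosh m - 1 := by
  have h1 : 16 / 10 < kp := by
    unfold kp
    rw [Real.lt_sqrt (by norm_num)]
    linarith [R1_sqrt2_gt]
  have h2 := Real.one_le_cosh m
  nlinarith

theorem oa_normSq (m : ℝ) : normSq (oa m) - normSq (ob m) = 1 := by
  have h1 := oC_sq
  have h2 := cB_sq_sub
  have h3 : sA ^ 2 + cA ^ 2 = 1 := Real.sin_sq_add_cos_sq _
  have h4 : sB ^ 2 + cB ^ 2 = 1 := Real.sin_sq_add_cos_sq _
  have h5 := Real.cosh_sq_sub_sinh_sq m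
  rw [normSq_apply, normSq_apply]
  show oC * (Real.sinh m * cA) * (oC * (Real.sinh m * cA)) +
      oC * (Real.cosh m * sA - kp * cB) * (oC * (Real.cosh m * sA - kp * cB)) -
      (-(oC * (Real.sinh m * sB)) * -(oC * (Real.sinh m * sB)) +
        oC * (Real.cosh m * cB - kp * sA) * (oC * (Real.cosh m * cB - kp * sA))) = 1
  linear_combination h1 + oC ^ 2 * (kp ^ 2 - 1) * h2 + oC ^ 2 * Real.sinh m ^ 2 * (h3 - h4) -
    oC ^ 2 * (cB ^ 2 - sA ^ 2) * h5

theorem oy_normSq (m : ℝ) :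
    1 - normSq (oy m) = 3 * (kp ^ 2 - 1) / (2 * kp * Real.cosh m - 1) ^ 2 := by
  have hS : 2 * kp * Real.cosh m - 1 ≠ 0 := by linarith [oS_pos m]
  have h5 := Real.cosh_sq_sub_sinh_sq m
  have h3 := R1_s3
  rw [normSq_apply]
  show 1 - ((kp * Real.cosh m - 2) / (2 * kp * Real.cosh m - 1) *
      ((kp * Real.cosh m - 2) / (2 * kp * Real.cosh m - 1)) +
      s3 * kp * Real.sinh m / (2 * kp * Real.cosh m - 1) *
      (s3 * kp * Real.sinh m / (2 * kp * Real.cosh m - 1))) = _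
  obtain ⟨S, hSd⟩ : ∃ S, S = 2 * kp * Real.cosh m - 1 := ⟨_, rfl⟩
  rw [← hSd] at hS ⊢
  field_simp
  rw [hSd]
  linear_combination 3 * kp ^ 2 * h5 - kp ^ 2 * Real.sinh m ^ 2 * h3

private lemma R1_mk {f g : ℝ → ℝ} {f' g' m : ℝ} (hf : HasDerivAt f f' m)
    (hg : HasDerivAt g g' m) : HasDerivAt (fun x => (⟨f x, g x⟩ : ℂ)) ⟨f', g'⟩ m := by
  have h := hf.ofReal_comp.add (hg.ofReal_comp.mul_const I)
  have e1 : (fun x => (⟨f x, g x⟩ : ℂ)) = fun x => ((f x : ℝ) : ℂ) + ((g x : ℝ) : ℂ) * I := by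
    funext x
    exact (Complex.mk_eq_add_mul_I (f x) (g x))
  have e2 : (⟨f', g'⟩ : ℂ) = (f' : ℂ) + (g' : ℂ) * I := Complex.mk_eq_add_mul_I f' g'
  rw [e1, e2]
  exact h

private lemma R1_im (t : ℝ) (z : ℂ) : ((t : ℂ) * (I * z)) = ⟨-(t * z.im), t * z.re⟩ := by
  apply Complex.ext
  · simp
  · simp

theorem oa_hasDerivAt (m : ℝ) :
    HasDerivAt oa ((otau' m : ℂ) * (I * (oa m - (starRingEnd ℂ) (oy m) * ob m))) m := by
  have hS : 2 * kp * Real.cosh m - 1 ≠ 0 := by linarith [oS_pos m]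
  have hk : kp ^ 2 - 1 ≠ 0 := R1_kp1.ne'
  have h5 := Real.cosh_sq_sub_sinh_sq m
  have h3 := R1_s3
  have hs3 : s3 ≠ 0 := R1_s3_pos.ne'
  have hre : HasDerivAt (fun m => oC * (Real.sinh m * cA)) (oC * (Real.cosh m * cA)) m :=
    ((Real.hasDerivAt_sinh m).mul_const cA).const_mul oC
  have him : HasDerivAt (fun m => oC * (Real.cosh m * sA - kp * cB)) (oC * (Real.sinh m * sA)) m :=
    (((Real.hasDerivAt_cosh m).mul_const sA).sub_const (kp * cB)).const_mul oC
  have h := R1_mk hre him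
  have e : (otau' m : ℂ) * (I * (oa m - (starRingEnd ℂ) (oy m) * ob m)) =
      ⟨oC * (Real.cosh m * cA), oC * (Real.sinh m * sA)⟩ := by
    rw [R1_im]
    have hzre : (oa m - (starRingEnd ℂ) (oy m) * ob m).re =
        oC * (Real.sinh m * cA) - ((kp * Real.cosh m - 2) / (2 * kp * Real.cosh m - 1) *
          (-(oC * (Real.sinh m * sB))) + s3 * kp * Real.sinh m / (2 * kp * Real.cosh m - 1) *
          (oC * (Real.cosh m * cB - kp * sA))) := by
      rw [sub_re, mul_re, conj_re, conj_im]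
      show oC * (Real.sinh m * cA) - ((kp * Real.cosh m - 2) / (2 * kp * Real.cosh m - 1) *
          (-(oC * (Real.sinh m * sB))) - -(s3 * kp * Real.sinh m / (2 * kp * Real.cosh m - 1)) *
          (oC * (Real.cosh m * cB - kp * sA))) = _
      ring
    have hzim : (oa m - (starRingEnd ℂ) (oy m) * ob m).im =
        oC * (Real.cosh m * sA - kp * cB) - ((kp * Real.cosh m - 2) / (2 * kp * Real.cosh m - 1) *
          (oC * (Real.cosh m * cB - kp * sA)) - s3 * kp * Real.sinh m /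
          (2 * kp * Real.cosh m - 1) * (-(oC * (Real.sinh m * sB)))) := by
      rw [sub_im, mul_im, conj_re, conj_im]
      show oC * (Real.cosh m * sA - kp * cB) - ((kp * Real.cosh m - 2) /
          (2 * kp * Real.cosh m - 1) * (oC * (Real.cosh m * cB - kp * sA)) +
          -(s3 * kp * Real.sinh m / (2 * kp * Real.cosh m - 1)) *
          (-(oC * (Real.sinh m * sB)))) = _
      ring
    rw [hzre, hzim, cA_eq, sA_eq]
    unfold otau'
    apply Complex.ext
    · show -((2 * kp * Real.cosh m - 1) / (s3 * (kp ^ 2 - 1)) * _) = _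
      field_simp
      linear_combination -2 * oC * kp * s3 * sB * h5 +
        (-(oC * kp ^ 2 * Real.cosh m * cB) + oC * Real.cosh m * cB) * h3
    · show (2 * kp * Real.cosh m - 1) / (s3 * (kp ^ 2 - 1)) * _ = _
      field_simp
      linear_combination oC * Real.sinh m * sB * h3
  rw [e]
  exact h

theorem ob_hasDerivAt (m : ℝ) :
    HasDerivAt ob ((otau' m : ℂ) * (I * (oy m * oa m - ob m))) m := by
  have hS : 2 * kp * Real.cosh m - 1 ≠ 0 := by linarith [oS_pos m]
  have hk : kp ^ 2 - 1 ≠ 0 := R1_kp1.ne'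
  have h5 := Real.cosh_sq_sub_sinh_sq m
  have h3 := R1_s3
  have hs3 : s3 ≠ 0 := R1_s3_pos.ne'
  have hre : HasDerivAt (fun m => -(oC * (Real.sinh m * sB))) (-(oC * (Real.cosh m * sB))) m :=
    (((Real.hasDerivAt_sinh m).mul_const sB).const_mul oC).neg
  have him : HasDerivAt (fun m => oC * (Real.cosh m * cB - kp * sA)) (oC * (Real.sinh m * cB)) m :=
    (((Real.hasDerivAt_cosh m).mul_const cB).sub_const (kp * sA)).const_mul oC
  have h := R1_mk hre him
  have e : (otau' m : ℂ) * (I * (oy m * oa m - ob m)) =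
      ⟨-(oC * (Real.cosh m * sB)), oC * (Real.sinh m * cB)⟩ := by
    rw [R1_im]
    have hzre : (oy m * oa m - ob m).re =
        (kp * Real.cosh m - 2) / (2 * kp * Real.cosh m - 1) * (oC * (Real.sinh m * cA)) -
          s3 * kp * Real.sinh m / (2 * kp * Real.cosh m - 1) *
          (oC * (Real.cosh m * sA - kp * cB)) + oC * (Real.sinh m * sB) := by
      rw [sub_re, mul_re]
      show (kp * Real.cosh m - 2) / (2 * kp * Real.cosh m - 1) * (oC * (Real.sinh m * cA)) -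
          s3 * kp * Real.sinh m / (2 * kp * Real.cosh m - 1) *
          (oC * (Real.cosh m * sA - kp * cB)) - -(oC * (Real.sinh m * sB)) = _
      ring
    have hzim : (oy m * oa m - ob m).im =
        (kp * Real.cosh m - 2) / (2 * kp * Real.cosh m - 1) *
          (oC * (Real.cosh m * sA - kp * cB)) + s3 * kp * Real.sinh m /
          (2 * kp * Real.cosh m - 1) * (oC * (Real.sinh m * cA)) -
          oC * (Real.cosh m * cB - kp * sA) := by
      rw [sub_im, mul_im]
      rfl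
    rw [hzre, hzim, cA_eq, sA_eq]
    unfold otau'
    apply Complex.ext
    · show -((2 * kp * Real.cosh m - 1) / (s3 * (kp ^ 2 - 1)) * _) = _
      field_simp
      linear_combination (3 * oC * kp * cB - oC * kp * s3 * sB) * h5 -
        oC * kp * cB * Real.sinh m ^ 2 * h3
    · show (2 * kp * Real.cosh m - 1) / (s3 * (kp ^ 2 - 1)) * _ = _
      field_simp
      linear_combination -(oC * Real.sinh m * kp * Real.cosh m * sB) * h3
  rw [e]
  exact h

theorem oy_hasDerivAt (m : ℝ) : HasDerivAt oy ((otau' m : ℂ) * Vx (oy m) 0) m := by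
  have hS : 2 * kp * Real.cosh m - 1 ≠ 0 := by linarith [oS_pos m]
  have hk : kp ^ 2 - 1 ≠ 0 := R1_kp1.ne'
  have h5 := Real.cosh_sq_sub_sinh_sq m
  have h3 := R1_s3
  have hs3 : s3 ≠ 0 := R1_s3_pos.ne'
  have hden : HasDerivAt (fun m => 2 * kp * Real.cosh m - 1) (2 * kp * Real.sinh m) m :=
    ((Real.hasDerivAt_cosh m).const_mul (2 * kp)).sub_const 1
  have hre : HasDerivAt (fun m => (kp * Real.cosh m - 2) / (2 * kp * Real.cosh m - 1))
      ((kp * Real.sinh m * (2 * kp * Real.cosh m - 1) - (kp * Real.cosh m - 2) *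
        (2 * kp * Real.sinh m)) / (2 * kp * Real.cosh m - 1) ^ 2) m :=
    (((Real.hasDerivAt_cosh m).const_mul kp).sub_const 2).div hden hS
  have him : HasDerivAt (fun m => s3 * kp * Real.sinh m / (2 * kp * Real.cosh m - 1))
      ((s3 * kp * Real.cosh m * (2 * kp * Real.cosh m - 1) - s3 * kp * Real.sinh m *
        (2 * kp * Real.sinh m)) / (2 * kp * Real.cosh m - 1) ^ 2) m :=
    ((Real.hasDerivAt_sinh m).const_mul (s3 * kp)).div hden hS
  have h := R1_mk hre him
  have hre0 : (oy m).re = (kp * Real.cosh m - 2) / (2 * kp * Real.cosh m - 1) := rfl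
  have him0 : (oy m).im = s3 * kp * Real.sinh m / (2 * kp * Real.cosh m - 1) := rfl
  have hd : 1 - 2 * dt (uu 0) (oy m) = 3 / (2 * kp * Real.cosh m - 1) := by
    have h1 : dt (uu 0) (oy m) = (oy m).re := by
      unfold dt
      show (1 : ℂ).re * (oy m).re + (1 : ℂ).im * (oy m).im = (oy m).re
      rw [one_re, one_im]
      ring
    rw [h1, hre0]
    obtain ⟨S, hSd⟩ : ∃ S, S = 2 * kp * Real.cosh m - 1 := ⟨_, rfl⟩
    rw [← hSd] at hS ⊢
    field_simp
    rw [hSd]
    ring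
  have e : (otau' m : ℂ) * Vx (oy m) 0 =
      ⟨(kp * Real.sinh m * (2 * kp * Real.cosh m - 1) - (kp * Real.cosh m - 2) *
        (2 * kp * Real.sinh m)) / (2 * kp * Real.cosh m - 1) ^ 2,
        (s3 * kp * Real.cosh m * (2 * kp * Real.cosh m - 1) - s3 * kp * Real.sinh m *
        (2 * kp * Real.sinh m)) / (2 * kp * Real.cosh m - 1) ^ 2⟩ := by
    unfold Vx
    rw [hd, oy_normSq]
    have hu : uu 0 = 1 := rfl
    rw [hu, mul_one]
    have hcomb : ∀ t A B : ℝ, ∀ w : ℂ, (t : ℂ) * (I * (A : ℂ) * ((B : ℂ) - w)) =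
        ⟨t * A * w.im, t * A * (B - w.re)⟩ := by
      intro t A B w
      have h1 : (t : ℂ) * (I * (A : ℂ) * ((B : ℂ) - w)) =
          ((t * A : ℝ) : ℂ) * (I * ((B : ℂ) - w)) := by
        push_cast
        ring
      rw [h1, R1_im, sub_im, sub_re, ofReal_re, ofReal_im]
      apply Complex.ext
      · show -(t * A * (0 - w.im)) = t * A * w.im
        ring
      · rfl
    rw [hcomb, hre0, him0]
    unfold otau'
    apply Complex.ext
    · show _ = (kp * Real.sinh m * (2 * kp * Real.cosh m - 1) - (kp * Real.cosh m - 2) *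
        (2 * kp * Real.sinh m)) / (2 * kp * Real.cosh m - 1) ^ 2
      obtain ⟨S, hSd⟩ : ∃ S, S = 2 * kp * Real.cosh m - 1 := ⟨_, rfl⟩
      rw [← hSd] at hS ⊢
      field_simp
      rw [hSd]
      linear_combination (0 : ℝ) * h5
    · show _ = (s3 * kp * Real.cosh m * (2 * kp * Real.cosh m - 1) - s3 * kp * Real.sinh m *
        (2 * kp * Real.sinh m)) / (2 * kp * Real.cosh m - 1) ^ 2
      obtain ⟨S, hSd⟩ : ∃ S, S = 2 * kp * Real.cosh m - 1 := ⟨_, rfl⟩
      rw [← hSd] at hS ⊢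
      field_simp
      rw [hSd]
      linear_combination (kp * Real.cosh m - 2 * kp ^ 2) * h3 - 2 * kp ^ 2 * s3 ^ 2 * h5
  rw [e]
  exact h

theorem otau_hasDerivAt (m : ℝ) : HasDerivAt otau (otau' m) m := by
  have h := (((Real.hasDerivAt_sinh m).const_mul (2 * kp)).sub (hasDerivAt_id m)).div_const
    (s3 * (kp ^ 2 - 1))
  exact h

end Pool.H61.Rh
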