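import Pool.Agent.H61.Rc.R1
import Pool.Agent.H61.Rn.N3b

/-! # R2: the clock of the arc

For `|m| ≤ 1/4`: `kp cB - sA cosh m > 0` (`kp cB ≥ 1.6`, `sA cosh m ≤ .7`), and
`oa m = oC (cA sinh m - i (kp cB - sA cosh m))`, so `i oa m = oC ((kp cB - sA cosh m)
+ i cA sinh m)` has the argument `os m`: `es (oa m) = exp (i os m)` (for `x > 0`:
`(x + i y)/|x + i y| = cos θ + i sin θ`, `θ = arctan (y/x)`; `Real.cos_arctan`, `Real.sin_arctan`).
`os_hasDerivAt`: with `x = kp cB - sA cosh m`, `z = cA sinh m`, the derivative of `arctan (z/x)` is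
`(z' x - z x')/(x² + z²)`, and `x² + z² = normSq (oa m)/oC²`; on the other side
`osd m = otau' m (normSq (oa m) - dt (oy m * oa m) (ob m))/normSq (oa m)`, and
`cr (oa m) (oa' m) = otau' m (normSq (oa m) - dt (oy m * oa m) (ob m))` by `oa_hasDerivAt`
(`oa' = otau' i (a - ȳ b)`), while from the explicit formula `cr (oa m) (oa' m) = oC² (z' x - z x')`
(uniqueness of the derivative).
`os_m1`: `e^{m1} = 2^{1/4}`, `kp e^{m1} = 2`, `kp e^{-m1} = √2` so `kp sinh m1 = (2 - √2)/2`,
`kp cosh m1 = (2 + √2)/2`; multiply numerator and denominator of `z/x` by `kp`: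
`cA (2-√2)/2 / (2√2 cB - sA (2+√2)/2) = tan (π/24) = sB/cB`; cross multiplied this is a quadratic
identity in `cB, sB`: use `cA_eq, sA_eq, cB_sB`.
`ov_hasDerivAt`: `vf` along a solution has derivative `vt` (file N8a has the general lemma
`vf_hasDerivAt`; here only the reference). -/

set_option autoImplicit false

namespace Pool.H61.Rh

open Complex

private lemma R2_sqrt2 : Real.sqrt 2 * Real.sqrt 2 = 2 := Real.mul_self_sqrt (by norm_num)

private lemma R2_sqrt2_pos : 0 < Real.sqrt 2 := Real.sqrt_pos.mpr (by norm_num)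

private lemma R2_s3 : s3 * s3 = 3 := Real.mul_self_sqrt (by norm_num)

private lemma R2_exp : kp * Real.exp m1 = 2 ∧ kp * Real.exp (-m1) = Real.sqrt 2 := by
  have h2 := R2_sqrt2
  have h0 := R2_sqrt2_pos
  have hk := kp_sq
  have hkp := kp_pos
  have hx : 0 < Real.exp m1 := Real.exp_pos _
  have hx4 : (Real.exp m1 ^ 2) ^ 2 = Real.sqrt 2 ^ 2 := by
    have h1 : (Real.exp m1 ^ 2) ^ 2 = Real.exp (4 * m1) := by
      rw [← pow_mul, ← Real.exp_nat_mul]
      norm_num
    rw [h1]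
    have h3 : 4 * m1 = Real.log 2 := by unfold m1; ring
    rw [h3, Real.exp_log (by norm_num), pow_two, h2]
  have hx2 : Real.exp m1 ^ 2 = Real.sqrt 2 := by
    exact (pow_left_inj₀ (by positivity) (by positivity) (by norm_num)).mp hx4
  have hinv : Real.exp (-m1) * Real.exp m1 = 1 := by
    rw [← Real.exp_add, neg_add_cancel, Real.exp_zero]
  have ha : kp * Real.exp m1 = 2 := by
    have h4 : (kp * Real.exp m1) ^ 2 = 2 ^ 2 := by
      rw [mul_pow, hk, hx2]
      linear_combination 2 * h2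
    have h5 : 0 < kp * Real.exp m1 := by positivity
    nlinarith
  refine ⟨ha, ?_⟩
  have h6 : kp * Real.exp (-m1) * Real.exp m1 ^ 2 = 2 := by
    calc kp * Real.exp (-m1) * Real.exp m1 ^ 2
        = kp * Real.exp m1 * (Real.exp (-m1) * Real.exp m1) := by ring
      _ = 2 := by rw [hinv, mul_one, ha]
  rw [hx2] at h6
  have h7 : (kp * Real.exp (-m1) - Real.sqrt 2) * Real.sqrt 2 = 0 := by
    linear_combination h6 - h2
  rcases mul_eq_zero.mp h7 with h8 | h8
  · linarith
  · exact absurd h8 h0.ne'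

theorem kp_mul_cosh_m1 : kp * Real.cosh m1 = (2 + Real.sqrt 2) / 2 := by
  obtain ⟨h1, h2⟩ := R2_exp
  rw [Real.cosh_eq]
  linear_combination (1 / 2 : ℝ) * h1 + (1 / 2 : ℝ) * h2

theorem kp_mul_sinh_m1 : kp * Real.sinh m1 = (2 - Real.sqrt 2) / 2 := by
  obtain ⟨h1, h2⟩ := R2_exp
  rw [Real.sinh_eq]
  linear_combination (1 / 2 : ℝ) * h1 - (1 / 2 : ℝ) * h2

theorem m1_bounds : 173 / 1000 < m1 ∧ m1 < 174 / 1000 := by
  have h1 := Real.log_two_gt_d9
  have h2 := Real.log_two_lt_d9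
  unfold m1
  constructor
  · linarith
  · linarith

private lemma R2_sB : 1305 / 10000 < sB ∧ sB < 1309 / 10000 := by
  have h1 := Real.pi_gt_d4
  have h2 := Real.pi_lt_d4
  unfold sB
  have hx0 : 0 < Real.pi / 24 := by positivity
  constructor
  · have h3 := Real.sin_gt_sub_cube hx0
    have h4 : Real.pi / 24 < 1309 / 10000 := by linarith
    have h5 : (Real.pi / 24) ^ 3 ≤ (1309 / 10000) ^ 3 :=
      pow_le_pow_left₀ hx0.le h4.le 3
    norm_num at h5
    linarith
  · have h3 := Real.sin_lt hx0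
    linarith

private lemma R2_cB : 99143 / 100000 < cB ∧ cB < 99145 / 100000 := by
  have h1 := Real.pi_gt_d4
  have h2 := Real.pi_lt_d4
  have hx0 : 0 < Real.pi / 24 := by positivity
  have hsc : sB ^ 2 + cB ^ 2 = 1 := Real.sin_sq_add_cos_sq _
  obtain ⟨hs1, hs2⟩ := R2_sB
  have hc0 : 99143 / 100000 < cB := by
    unfold cB
    have h3 := Real.one_sub_sq_div_two_le_cos (x := Real.pi / 24)
    have h4 : Real.pi / 24 < 13090 / 100000 := by linarith
    have h5 : (Real.pi / 24) ^ 2 ≤ (13090 / 100000) ^ 2 :=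
      pow_le_pow_left₀ hx0.le h4.le 2
    norm_num at h5
    linarith
  refine ⟨hc0, ?_⟩
  nlinarith

private lemma R2_s3b : 173205 / 100000 < s3 ∧ s3 < 173206 / 100000 := by
  unfold s3
  constructor
  · rw [Real.lt_sqrt (by norm_num)]
    norm_num
  · rw [Real.sqrt_lt' (by norm_num)]
    norm_num

private lemma R2_cA : 7931 / 10000 < cA ∧ cA < 7935 / 10000 := by
  rw [cA_eq]
  obtain ⟨h1, h2⟩ := R2_sB
  obtain ⟨h3, h4⟩ := R2_cB
  obtain ⟨h5, h6⟩ := R2_s3b
  constructor
  · nlinarith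
  · nlinarith

private lemma R2_sA : 6087 / 10000 < sA ∧ sA < 6091 / 10000 := by
  rw [sA_eq]
  obtain ⟨h1, h2⟩ := R2_sB
  obtain ⟨h3, h4⟩ := R2_cB
  obtain ⟨h5, h6⟩ := R2_s3b
  constructor
  · nlinarith
  · nlinarith

private lemma R2_kp : 16817 / 10000 < kp ∧ kp < 16818 / 10000 := by
  have h1 : 14142 / 10000 < Real.sqrt 2 := by
    rw [Real.lt_sqrt (by norm_num)]
    norm_num
  have h2 : Real.sqrt 2 < 141422 / 100000 := by
    rw [Real.sqrt_lt' (by norm_num)]
    norm_num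
  unfold kp
  constructor
  · rw [Real.lt_sqrt (by norm_num)]
    linarith
  · rw [Real.sqrt_lt' (by norm_num)]
    linarith

private lemma R2_K : 16672 / 10000 < kp * cB ∧ kp * cB < 16675 / 10000 := by
  obtain ⟨h1, h2⟩ := R2_kp
  obtain ⟨h3, h4⟩ := R2_cB
  constructor
  · nlinarith
  · nlinarith

private lemma R2_cosh {m : ℝ} (hm : |m| ≤ 1 / 4) : Real.cosh m ≤ 32 / 31 := by
  have h1 := Real.cosh_le_exp_half_sq m
  have h2 : m ^ 2 ≤ 1 / 16 := by
    have := abs_le.mp hm
    nlinarith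
  have h3 : Real.exp (m ^ 2 / 2) ≤ Real.exp (1 / 32) := Real.exp_le_exp.mpr (by linarith)
  have h4 : Real.exp (1 / 32) ≤ 32 / 31 := by
    have h5 : Real.exp (1 / 32) * Real.exp (-(1 / 32)) = 1 := by
      rw [← Real.exp_add, add_neg_cancel, Real.exp_zero]
    have h6 := Real.add_one_le_exp (-(1 / 32) : ℝ)
    have h7 := Real.exp_pos (1 / 32)
    nlinarith
  linarith

theorem ox_pos {m : ℝ} (hm : |m| ≤ 1 / 4) : 0 < kp * cB - sA * Real.cosh m := by
  have h1 := R2_cosh hm
  have h2 := Real.one_le_cosh m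
  obtain ⟨h3, h4⟩ := R2_K
  obtain ⟨h5, h6⟩ := R2_sA
  nlinarith

private lemma R2_oC : 0 < oC := by
  have h1 : 1 < Real.sqrt 2 := by
    rw [Real.lt_sqrt (by norm_num)]
    norm_num
  unfold oC
  apply Real.sqrt_pos.mpr
  have : 0 < 2 * Real.sqrt 2 - 1 := by linarith
  positivity

theorem es_oa {m : ℝ} (hm : |m| ≤ 1 / 4) : es (oa m) = exp (I * (os m : ℂ)) := by
  have hx := ox_pos hm
  have hC := R2_oC
  obtain ⟨x, hxd⟩ : ∃ x, x = kp * cB - sA * Real.cosh m := ⟨_, rfl⟩
  obtain ⟨z, hzd⟩ : ∃ z, z = cA * Real.sinh m := ⟨_, rfl⟩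
  rw [← hxd] at hx
  have hos : os m = Real.arctan (z / x) := by
    unfold os
    rw [hzd, hxd]
  have hxz : 0 < x ^ 2 + z ^ 2 := by positivity
  have hn : ‖oa m‖ = oC * Real.sqrt (x ^ 2 + z ^ 2) := by
    rw [norm_def, normSq_apply]
    have h1 : (oa m).re * (oa m).re + (oa m).im * (oa m).im = oC ^ 2 * (x ^ 2 + z ^ 2) := by
      show oC * (Real.sinh m * cA) * (oC * (Real.sinh m * cA)) +
        oC * (Real.cosh m * sA - kp * cB) * (oC * (Real.cosh m * sA - kp * cB)) = _
      rw [hxd, hzd]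
      ring
    rw [h1, Real.sqrt_mul (by positivity), Real.sqrt_sq hC.le]
  have hsq : Real.sqrt (1 + (z / x) ^ 2) = Real.sqrt (x ^ 2 + z ^ 2) / x := by
    have h1 : 1 + (z / x) ^ 2 = (x ^ 2 + z ^ 2) / x ^ 2 := by
      field_simp
    rw [h1, Real.sqrt_div hxz.le, Real.sqrt_sq hx.le]
  have hr : 0 < Real.sqrt (x ^ 2 + z ^ 2) := Real.sqrt_pos.mpr hxz
  have hexp : exp (I * (os m : ℂ)) = ⟨Real.cos (os m), Real.sin (os m)⟩ := by
    rw [mul_comm, exp_mul_I, ← ofReal_cos, ← ofReal_sin, Complex.mk_eq_add_mul_I]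
  rw [hexp, hos, Real.cos_arctan, Real.sin_arctan, hsq]
  unfold es
  have hl : I * oa m = ⟨oC * x, oC * z⟩ := by
    apply Complex.ext
    · rw [mul_re, I_re, I_im]
      show 0 * (oa m).re - 1 * (oC * (Real.cosh m * sA - kp * cB)) = oC * x
      rw [hxd]
      ring
    · rw [mul_im, I_re, I_im]
      show 0 * (oa m).im + 1 * (oC * (Real.sinh m * cA)) = oC * z
      rw [hzd]
      ring
  have hne : ((oC * Real.sqrt (x ^ 2 + z ^ 2) : ℝ) : ℂ) ≠ 0 := by
    have h1 : 0 < oC * Real.sqrt (x ^ 2 + z ^ 2) := by positivity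
    exact_mod_cast h1.ne'
  rw [hn, hl, div_eq_iff hne]
  apply Complex.ext
  · rw [re_mul_ofReal]
    show oC * x = 1 / (Real.sqrt (x ^ 2 + z ^ 2) / x) * (oC * Real.sqrt (x ^ 2 + z ^ 2))
    field_simp
  · rw [im_mul_ofReal]
    show oC * z = z / x / (Real.sqrt (x ^ 2 + z ^ 2) / x) * (oC * Real.sqrt (x ^ 2 + z ^ 2))
    field_simp

private lemma R2_mk {f g : ℝ → ℝ} {f' g' m : ℝ} (hf : HasDerivAt f f' m)
    (hg : HasDerivAt g g' m) : HasDerivAt (fun x => (⟨f x, g x⟩ : ℂ)) ⟨f', g'⟩ m := by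
  have h := hf.ofReal_comp.add (hg.ofReal_comp.mul_const I)
  have e1 : (fun x => (⟨f x, g x⟩ : ℂ)) = fun x => ((f x : ℝ) : ℂ) + ((g x : ℝ) : ℂ) * I := by
    funext x
    exact (Complex.mk_eq_add_mul_I (f x) (g x))
  have e2 : (⟨f', g'⟩ : ℂ) = (f' : ℂ) + (g' : ℂ) * I := Complex.mk_eq_add_mul_I f' g'
  rw [e1, e2]
  exact h

private lemma R2_normSq_pos (m : ℝ) : 0 < normSq (oa m) := by
  have h1 := oa_normSq m
  have h2 := normSq_nonneg (ob m)
  linarith

private lemma R2_normSq (m : ℝ) : normSq (oa m) =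
    oC ^ 2 * ((kp * cB - sA * Real.cosh m) ^ 2 + (cA * Real.sinh m) ^ 2) := by
  rw [normSq_apply]
  show oC * (Real.sinh m * cA) * (oC * (Real.sinh m * cA)) +
    oC * (Real.cosh m * sA - kp * cB) * (oC * (Real.cosh m * sA - kp * cB)) = _
  ring

private lemma R2_osd (m : ℝ) : osd m =
    cA * (kp * cB * Real.cosh m - sA) /
      ((kp * cB - sA * Real.cosh m) ^ 2 + (cA * Real.sinh m) ^ 2) := by
  have hC := R2_oC
  have hn := R2_normSq m
  have hnp := R2_normSq_pos m
  have hD : 0 < (kp * cB - sA * Real.cosh m) ^ 2 + (cA * Real.sinh m) ^ 2 := by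
    rw [hn] at hnp
    have hC2 : 0 < oC ^ 2 := by positivity
    exact (mul_pos_iff_of_pos_left hC2).mp hnp
  have h5 := Real.cosh_sq_sub_sinh_sq m
  have hre : HasDerivAt (fun m => oC * (Real.sinh m * cA)) (oC * (Real.cosh m * cA)) m :=
    ((Real.hasDerivAt_sinh m).mul_const cA).const_mul oC
  have him : HasDerivAt (fun m => oC * (Real.cosh m * sA - kp * cB)) (oC * (Real.sinh m * sA)) m :=
    (((Real.hasDerivAt_cosh m).mul_const sA).sub_const (kp * cB)).const_mul oC
  have h := R2_mk hre him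
  have hu := (oa_hasDerivAt m).unique h
  have h1 : cr (oa m) ((otau' m : ℂ) * (I * (oa m - (starRingEnd ℂ) (oy m) * ob m))) =
      otau' m * (normSq (oa m) - dt (oy m * oa m) (ob m)) := by
    unfold cr dt
    simp only [normSq_apply, re_ofReal_mul, im_ofReal_mul, mul_re, mul_im, I_re, I_im, sub_re,
      sub_im, conj_re, conj_im, ofReal_re, ofReal_im]
    ring
  have h2 : cr (oa m) ⟨oC * (Real.cosh m * cA), oC * (Real.sinh m * sA)⟩ =
      oC ^ 2 * (cA * (kp * cB * Real.cosh m - sA)) := by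
    show oC * (Real.sinh m * cA) * (oC * (Real.sinh m * sA)) -
      oC * (Real.cosh m * sA - kp * cB) * (oC * (Real.cosh m * cA)) = _
    linear_combination -(oC ^ 2 * cA * sA) * h5
  have h3 : otau' m * (normSq (oa m) - dt (oy m * oa m) (ob m)) =
      oC ^ 2 * (cA * (kp * cB * Real.cosh m - sA)) := by
    rw [← h1, ← h2, hu]
  have h4 : osd m * normSq (oa m) = otau' m * (normSq (oa m) - dt (oy m * oa m) (ob m)) := by
    unfold osd fq
    field_simp
  rw [h3, hn] at h4
  rw [eq_div_iff hD.ne']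
  have h6 : oC ^ 2 * (osd m * ((kp * cB - sA * Real.cosh m) ^ 2 + (cA * Real.sinh m) ^ 2)) =
      oC ^ 2 * (cA * (kp * cB * Real.cosh m - sA)) := by
    linear_combination h4
  exact mul_left_cancel₀ (by positivity) h6

theorem os_hasDerivAt {m : ℝ} (hm : |m| ≤ 1 / 4) : HasDerivAt os (osd m) m := by
  have hx := ox_pos hm
  have h5 := Real.cosh_sq_sub_sinh_sq m
  have hz : HasDerivAt (fun m => cA * Real.sinh m) (cA * Real.cosh m) m :=
    (Real.hasDerivAt_sinh m).const_mul cA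
  have hxd : HasDerivAt (fun m => kp * cB - sA * Real.cosh m) (-(sA * Real.sinh m)) m :=
    ((Real.hasDerivAt_cosh m).const_mul sA).const_sub (kp * cB)
  have h : HasDerivAt (fun m => Real.arctan (cA * Real.sinh m / (kp * cB - sA * Real.cosh m)))
      (1 / (1 + (cA * Real.sinh m / (kp * cB - sA * Real.cosh m)) ^ 2) *
        ((cA * Real.cosh m * (kp * cB - sA * Real.cosh m) -
          cA * Real.sinh m * -(sA * Real.sinh m)) / (kp * cB - sA * Real.cosh m) ^ 2)) m :=
    (hz.div hxd hx.ne').arctan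
  unfold os
  refine h.congr_deriv ?_
  rw [R2_osd]
  obtain ⟨x, hxe⟩ : ∃ x, x = kp * cB - sA * Real.cosh m := ⟨_, rfl⟩
  have hD : x ^ 2 + (cA * Real.sinh m) ^ 2 ≠ 0 := by
    rw [← hxe] at hx
    positivity
  rw [← hxe] at hx ⊢
  have hx0 := hx.ne'
  have hD2 : 1 + (cA * Real.sinh m / x) ^ 2 ≠ 0 := by positivity
  show 1 / (1 + (cA * Real.sinh m / x) ^ 2) *
    ((cA * Real.cosh m * x - cA * Real.sinh m * -(sA * Real.sinh m)) / x ^ 2) = _
  have hnum : cA * Real.cosh m * x - cA * Real.sinh m * -(sA * Real.sinh m) =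
      cA * (kp * cB * Real.cosh m - sA) := by
    rw [hxe]
    linear_combination -(cA * sA) * h5
  rw [hnum]
  field_simp

theorem osd_bounds {m : ℝ} (hm : |m| ≤ 1 / 4) : 7 / 10 ≤ osd m ∧ osd m ≤ 8 / 10 := by
  have hx := ox_pos hm
  rw [R2_osd]
  have hDp : 0 < (kp * cB - sA * Real.cosh m) ^ 2 + (cA * Real.sinh m) ^ 2 := by positivity
  have h5 := Real.cosh_sq_sub_sinh_sq m
  have hAA : sA ^ 2 + cA ^ 2 = 1 := Real.sin_sq_add_cos_sq _
  have hD : (kp * cB - sA * Real.cosh m) ^ 2 + (cA * Real.sinh m) ^ 2 =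
      (kp * cB) ^ 2 - 2 * (kp * cB) * sA * Real.cosh m + Real.cosh m ^ 2 - cA ^ 2 := by
    linear_combination -(cA ^ 2) * h5 + Real.cosh m ^ 2 * hAA
  rw [hD] at hDp ⊢
  have hc1 := Real.one_le_cosh m
  have hc2 := R2_cosh hm
  obtain ⟨hK1, hK2⟩ := R2_K
  obtain ⟨hs1, hs2⟩ := R2_sA
  obtain ⟨ha1, ha2⟩ := R2_cA
  generalize kp * cB = K at *
  generalize Real.cosh m = c at *
  constructor
  · rw [le_div_iff₀ hDp]
    have h1 : 10148 / 10000 ≤ K * sA := by
      have := mul_le_mul hK1.le hs1.le (by norm_num) (by linarith)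
      linarith
    have h2 : K ^ 2 ≤ 27807 / 10000 := by
      have := pow_le_pow_left₀ (by linarith) hK2.le 2
      linarith
    have h3 : 6289 / 10000 ≤ cA ^ 2 := by
      have := pow_le_pow_left₀ (by norm_num) ha1.le 2
      linarith
    have h4 : 0 ≤ (c - 1) * (32 / 31 - c) := mul_nonneg (by linarith) (by linarith)
    have h5 : 10148 / 10000 * c ≤ K * sA * c := mul_le_mul_of_nonneg_right h1 (by linarith)
    have h6 : K ^ 2 - 2 * K * sA * c + c ^ 2 - cA ^ 2 ≤ 113 / 100 := by linarith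
    have h7 : 105 / 100 ≤ K * c - sA := by
      have := mul_le_mul_of_nonneg_left hc1 (by linarith : (0 : ℝ) ≤ K)
      linarith
    have h8 : 79 / 100 * (105 / 100) ≤ cA * (K * c - sA) :=
      mul_le_mul (by linarith) h7 (by norm_num) (by linarith)
    linarith
  · rw [div_le_iff₀ hDp]
    have h1 : K * sA ≤ 10157 / 10000 := by
      have := mul_le_mul hK2.le hs2.le (by linarith) (by norm_num)
      linarith
    have h2 : 27795 / 10000 ≤ K ^ 2 := by
      have := pow_le_pow_left₀ (by norm_num) hK1.le 2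
      linarith
    have h3 : cA ^ 2 ≤ 6297 / 10000 := by
      have := pow_le_pow_left₀ (by linarith) ha2.le 2
      linarith
    have h5 : K * sA * c ≤ 10157 / 10000 * c := mul_le_mul_of_nonneg_right h1 (by linarith)
    have h6 : 1118 / 1000 ≤ K ^ 2 - 2 * K * sA * c + c ^ 2 - cA ^ 2 := by
      linarith [sq_nonneg (c - 10157 / 10000)]
    have h7 : K * c - sA ≤ 1113 / 1000 := by
      have := mul_le_mul hK2.le hc2 (by linarith) (by norm_num)
      linarith
    have h9 : 0 ≤ K * c - sA := by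
      have := mul_le_mul_of_nonneg_left hc1 (by linarith : (0 : ℝ) ≤ K)
      linarith
    have h8 : cA * (K * c - sA) ≤ 7935 / 10000 * (1113 / 1000) :=
      mul_le_mul (by linarith) h7 h9 (by norm_num)
    linarith

theorem osd_continuous : Continuous osd := by
  have hoa : Continuous oa := continuous_iff_continuousAt.mpr
    fun m => (oa_hasDerivAt m).continuousAt
  have hob : Continuous ob := continuous_iff_continuousAt.mpr
    fun m => (ob_hasDerivAt m).continuousAt
  have hoy : Continuous oy := continuous_iff_continuousAt.mpr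
    fun m => (oy_hasDerivAt m).continuousAt
  have hre : ∀ {f : ℝ → ℂ}, Continuous f → Continuous (fun m => (f m).re) :=
    fun hf => continuous_re.comp hf
  have him : ∀ {f : ℝ → ℂ}, Continuous f → Continuous (fun m => (f m).im) :=
    fun hf => continuous_im.comp hf
  have hd : Continuous (fun m => dt (oy m * oa m) (ob m)) := by
    unfold dt
    exact ((hre (hoy.mul hoa)).mul (hre hob)).add ((him (hoy.mul hoa)).mul (him hob))
  have hn : Continuous (fun m => normSq (oa m)) := continuous_normSq.comp hoa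
  have ht : Continuous otau' := by
    unfold otau'
    exact ((continuous_const.mul Real.continuous_cosh).sub continuous_const).div_const _
  unfold osd fq
  exact (continuous_const.sub (hd.div hn (fun m => (R2_normSq_pos m).ne'))).mul ht

theorem os_neg (m : ℝ) : os (-m) = -os m := by
  unfold os
  rw [Real.sinh_neg, Real.cosh_neg, mul_neg, neg_div, Real.arctan_neg]

theorem os_m1 : os m1 = Real.pi / 24 := by
  have hm := m1_bounds
  have hx := ox_pos (m := m1) (abs_le.mpr ⟨by linarith, by linarith⟩)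
  obtain ⟨hc1, _⟩ := R2_cB
  have hcB : cB ≠ 0 := by linarith
  have hk := kp_pos
  have h1 := kp_mul_cosh_m1
  have h2 := kp_mul_sinh_m1
  have h3 := kp_sq
  have hr := cB_sB
  have hr2 := R2_sqrt2
  have hs3 := R2_s3
  have key : cA * Real.sinh m1 / (kp * cB - sA * Real.cosh m1) = sB / cB := by
    rw [div_eq_div_iff hx.ne' hcB]
    have h4 : kp * (cA * Real.sinh m1 * cB) = kp * (sB * (kp * cB - sA * Real.cosh m1)) := by
      have e1 : kp * (cA * Real.sinh m1 * cB) = cA * cB * ((2 - Real.sqrt 2) / 2) := by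
        rw [← h2]
        ring
      have e2 : kp * (sB * (kp * cB - sA * Real.cosh m1)) =
          sB * (2 * Real.sqrt 2 * cB - sA * ((2 + Real.sqrt 2) / 2)) := by
        rw [← h1, ← h3]
        ring
      rw [e1, e2, cA_eq, sA_eq]
      linear_combination (1 / 4 : ℝ) * (s3 * Real.sqrt 2 * cB -
        (2 + Real.sqrt 2) * (3 - s3 * Real.sqrt 2) * sB) * hr +
        ((-3 / 4) * sB ^ 2 + (3 / 4) * cB * sB + (1 / 2) * s3 * sB ^ 2 + (-1 / 4) * s3 * cB ^ 2 +
          (1 / 4) * s3 ^ 2 * sB ^ 2 + (1 / 4) * Real.sqrt 2 * s3 * sB ^ 2 +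
          (-1 / 4) * Real.sqrt 2 * s3 * cB * sB) * hr2 +
        ((1 / 2) * sB ^ 2 + (1 / 2) * Real.sqrt 2 * sB ^ 2 +
          (1 / 4) * Real.sqrt 2 * cB * sB) * hs3
    exact mul_left_cancel₀ hk.ne' h4
  unfold os
  rw [key]
  have h5 : sB / cB = Real.tan (Real.pi / 24) := by
    rw [Real.tan_eq_sin_div_cos]
    rfl
  have hpi := Real.pi_pos
  rw [h5, Real.arctan_tan (by linarith) (by linarith)]

end Pool.H61.Rh
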